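import Mathlib

/-!
The Liouville function on the integers and a divisor bound.
-/

namespace Pool.Agent.Lib.MP_648c71_nt

open ArithmeticFunction

/-- The Liouville function on the integers, `λ(m) = λ(|m|)`, `λ(0) = 0`. -/
def lam (m : ℤ) : ℤ := liouville m.natAbs

theorem lam_mul (m n : ℤ) : lam (m * n) = lam m * lam n := by
  unfold lam; rw [Int.natAbs_mul, liouville_apply_mul]

theorem lam_one : lam 1 = 1 := by
  unfold lam; simp [liouville_apply_one]

theorem lam_zero : lam 0 = 0 := by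
  unfold lam; simp

theorem lam_eq_one_or {m : ℤ} (h : m ≠ 0) : lam m = 1 ∨ lam m = -1 := by
  unfold lam
  rw [liouville_apply (by simpa using h)]
  exact neg_one_pow_eq_or ℤ _

theorem lam_ne_zero {m : ℤ} (h : m ≠ 0) : lam m ≠ 0 := by
  rcases lam_eq_one_or h with h | h <;> rw [h] <;> norm_num

theorem lam_mul_self {m : ℤ} (h : m ≠ 0) : lam m * lam m = 1 := by
  rcases lam_eq_one_or h with h | h <;> rw [h] <;> norm_num

theorem lam_sq {m : ℤ} (h : m ≠ 0) : lam (m ^ 2) = 1 := by
  rw [sq, lam_mul, lam_mul_self h]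

theorem lam_sq_mul {k : ℤ} (hk : k ≠ 0) (m : ℤ) : lam (k ^ 2 * m) = lam m := by
  rw [lam_mul, lam_sq hk, one_mul]

theorem lam_neg (m : ℤ) : lam (-m) = lam m := by
  unfold lam; rw [Int.natAbs_neg]

theorem lam_prime {p : ℕ} (hp : p.Prime) : lam p = -1 := by
  unfold lam
  rw [Int.natAbs_natCast, liouville_apply hp.ne_zero, cardFactors_apply_prime hp, pow_one]

theorem eq_of_lam_mul_eq_one {m n : ℤ} (h : lam (m * n) = 1) : lam m = lam n := by
  have hmn : m * n ≠ 0 := by
    intro h0; rw [h0, lam_zero] at h; norm_num at h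
  have hm : m ≠ 0 := left_ne_zero_of_mul hmn
  have hn : n ≠ 0 := right_ne_zero_of_mul hmn
  rw [lam_mul] at h
  rcases lam_eq_one_or hm with h1 | h1 <;> rcases lam_eq_one_or hn with h2 | h2 <;>
    rw [h1, h2] at h ⊢ <;> norm_num at h

/-- `(a+1)^k ≤ C * 2^a` for all `a`. -/
theorem exists_pow_le_two_pow (k : ℕ) : ∃ C : ℕ, 1 ≤ C ∧ ∀ a : ℕ, (a + 1) ^ k ≤ C * 2 ^ a := by
  have h := tendsto_pow_const_div_const_pow_of_one_lt k (r := (2 : ℝ)) (by norm_num)
  obtain ⟨B, hB⟩ := h.bddAbove_range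
  refine ⟨2 * (Nat.ceil B + 1), by omega, fun a => ?_⟩
  have h1 : ((a + 1 : ℕ) : ℝ) ^ k / 2 ^ (a + 1) ≤ B := hB ⟨a + 1, rfl⟩
  rw [div_le_iff₀ (by positivity)] at h1
  have h2 : B ≤ (Nat.ceil B + 1 : ℕ) := by
    push_cast
    have := Nat.le_ceil B
    linarith
  have h3 : ((a + 1 : ℕ) : ℝ) ^ k ≤ ((2 * (Nat.ceil B + 1) * 2 ^ a : ℕ) : ℝ) := by
    calc ((a + 1 : ℕ) : ℝ) ^ k ≤ B * 2 ^ (a + 1) := h1
      _ ≤ (Nat.ceil B + 1 : ℕ) * 2 ^ (a + 1) := by gcongr
      _ = _ := by push_cast; ring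
  exact_mod_cast h3

/-- The divisor bound: `τ(n)^k ≤ C_k n`. -/
theorem card_divisors_pow_le (k : ℕ) : ∃ C : ℕ, 1 ≤ C ∧ ∀ n : ℕ, n ≠ 0 →
    n.divisors.card ^ k ≤ C * n := by
  obtain ⟨C, hC1, hC⟩ := exists_pow_le_two_pow k
  refine ⟨C ^ (2 ^ k), Nat.one_le_pow _ _ hC1, fun n hn => ?_⟩
  rw [Nat.card_divisors hn, ← Finset.prod_pow]
  have h1 : ∀ p ∈ n.primeFactors, (n.factorization p + 1) ^ k ≤
      (if p < 2 ^ k then C else 1) * p ^ n.factorization p := by
    intro p hp
    have hp2 : 2 ≤ p := (Nat.prime_of_mem_primeFactors hp).two_le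
    split_ifs with h
    · calc (n.factorization p + 1) ^ k ≤ C * 2 ^ n.factorization p := hC _
        _ ≤ C * p ^ n.factorization p := by gcongr
    · push Not at h
      rw [one_mul]
      calc (n.factorization p + 1) ^ k ≤ (2 ^ n.factorization p) ^ k := by
            gcongr
            exact Nat.lt_two_pow_self
        _ = (2 ^ k) ^ n.factorization p := by rw [← pow_mul, ← pow_mul, mul_comm]
        _ ≤ p ^ n.factorization p := by gcongr
  calc ∏ p ∈ n.primeFactors, (n.factorization p + 1) ^ k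
      ≤ ∏ p ∈ n.primeFactors, ((if p < 2 ^ k then C else 1) * p ^ n.factorization p) :=
        Finset.prod_le_prod' h1
    _ = (∏ p ∈ n.primeFactors, (if p < 2 ^ k then C else 1)) *
          ∏ p ∈ n.primeFactors, p ^ n.factorization p := Finset.prod_mul_distrib
    _ = (∏ p ∈ n.primeFactors, (if p < 2 ^ k then C else 1)) * n := by
        congr 1
        exact Nat.prod_factorization_pow_eq_self hn
    _ ≤ C ^ (2 ^ k) * n := by
        gcongr
        rw [← Finset.prod_filter]
        rw [Finset.prod_const]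
        apply Nat.pow_le_pow_right hC1
        calc (n.primeFactors.filter (fun p => p < 2 ^ k)).card ≤ (Finset.range (2 ^ k)).card := by
              apply Finset.card_le_card
              intro p hp
              simp only [Finset.mem_filter] at hp
              simpa using hp.2
          _ = 2 ^ k := Finset.card_range _

end Pool.Agent.Lib.MP_648c71_nt
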