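import Pool.Agent.Lib.MP_648c71_nt.Lam

/-!
The order `O = ℤ[ω]`, `ω² = bω - c`, of the quadratic polynomial `f(n) = n² + bn + c`, its norm form,
and the path lemma.
-/

namespace Pool.Agent.Lib.MP_648c71_nt

open QuadraticAlgebra

/-- The order `ℤ[ω]`, `ω² = bω - c`. -/
abbrev O (b c : ℤ) := QuadraticAlgebra ℤ (-c) b

variable {b c : ℤ}

/-- The norm form `x² + bxy + cy²`. -/
def nm (v : O b c) : ℤ := v.re ^ 2 + b * v.re * v.im + c * v.im ^ 2

theorem nm_eq_norm (v : O b c) : nm v = QuadraticAlgebra.norm v := by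
  rw [QuadraticAlgebra.norm_def, nm]; ring

theorem nm_mul (v w : O b c) : nm (v * w) = nm v * nm w := by
  rw [nm_eq_norm, nm_eq_norm, nm_eq_norm, map_mul]

theorem nm_one : nm (1 : O b c) = 1 := by
  rw [nm_eq_norm, map_one]

/-- determinant -/
def dt (v w : O b c) : ℤ := v.re * w.im - v.im * w.re

/-- `s(v,w)`, the rational part of `v̄ w` -/
def sc (v w : O b c) : ℤ := v.re * w.re + b * v.im * w.re + c * v.im * w.im

/-- the polynomial -/
def ff (b c n : ℤ) : ℤ := n ^ 2 + b * n + c

theorem star_mul_eq (v w : O b c) : star v * w = ⟨sc v w, dt v w⟩ := by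
  ext
  · simp [sc]; ring
  · simp [dt]; ring

theorem nm_star (v : O b c) : nm (star v) = nm v := by
  rw [nm_eq_norm, nm_eq_norm, QuadraticAlgebra.norm_star]

theorem nm_mul_nm_of_dt {v w : O b c} (h : dt v w = 1) : nm v * nm w = ff b c (sc v w) := by
  have h1 : nm (star v * w) = nm v * nm w := by rw [nm_mul, nm_star]
  rw [← h1, star_mul_eq, h, nm, ff]
  ring

/-- `h(v) = λ(N v)` -/
def hh (v : O b c) : ℤ := lam (nm v)

theorem hh_mul (v w : O b c) : hh (v * w) = hh v * hh w := by
  rw [hh, nm_mul, lam_mul, hh, hh]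

theorem nm_zsmul (k : ℤ) (v : O b c) : nm (k • v) = k ^ 2 * nm v := by
  simp only [nm, re_smul, im_smul, smul_eq_mul]; ring

theorem hh_zsmul {k : ℤ} (hk : k ≠ 0) (v : O b c) : hh (k • v) = hh v := by
  rw [hh, nm_zsmul, lam_sq_mul hk, hh]

theorem hh_neg (v : O b c) : hh (-v) = hh v := by
  rw [hh, nm_eq_norm, QuadraticAlgebra.norm_neg, ← nm_eq_norm, hh]

/-- Cramer's rule. -/
theorem cramer (u v w : O b c) : dt v w • u = dt u w • v + dt v u • w := by
  ext
  · simp only [re_smul, re_add, smul_eq_mul, dt]; ring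
  · simp only [im_smul, im_add, smul_eq_mul, dt]; ring

/-- The path lemma: if a set of lattice vectors is closed under convex combinations of the relevant
kind, and `h` is constant along the unimodular edges in it, then `h` is constant on it. -/
theorem path_prim (S : O b c → Prop) (h : O b c → ℤ)
    (hS : ∀ (u v w : O b c) (D r : ℤ), 0 < D → 0 ≤ r → r < D → D • u = r • v + w →
      S v → S w → S u)
    (hdir : ∀ (k : ℤ) (u : O b c), k ≠ 0 → h (k • u) = h u)
    (hedge : ∀ v u : O b c, dt v u = 1 → S v → S u → h v = h u) (n : ℕ) :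
    ∀ v w : O b c, IsCoprime v.re v.im → dt v w = n → 0 < dt v w → S v → S w → h v = h w := by
  induction n using Nat.strong_induction_on with
  | _ n ih =>
    intro v w hv hdet hpos hSv hSw
    obtain ⟨x, y, hxy⟩ := hv
    set u0 : O b c := ⟨-y, x⟩ with hu0
    have hvu0 : dt v u0 = 1 := by simp only [dt, hu0]; linarith
    set D := dt v w with hD
    set t : ℤ := -(dt u0 w / D) with ht
    set u : O b c := u0 + t • v with hu
    have hvu : dt v u = 1 := by
      rw [hu, ← hvu0]; simp only [dt, re_add, im_add, re_smul, im_smul, smul_eq_mul]; ring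
    have huw : dt u w = dt u0 w % D := by
      have : dt u w = dt u0 w + t * D := by
        rw [hu, hD]; simp only [dt, re_add, im_add, re_smul, im_smul, smul_eq_mul]; ring
      rw [this, ht, Int.emod_def]; ring
    set r := dt u0 w % D with hr
    have hr0 : 0 ≤ r := Int.emod_nonneg _ (ne_of_gt hpos)
    have hrD : r < D := Int.emod_lt_of_pos _ hpos
    have hcr : D • u = r • v + w := by
      have := cramer u v w
      rw [huw, hvu, one_smul] at this
      exact this
    have hSu : S u := hS u v w D r hpos hr0 hrD hcr hSv hSw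
    have h1 : h v = h u := hedge v u hvu hSv hSu
    rcases hr0.eq_or_lt with h0 | h0
    · rw [← h0, zero_smul, zero_add] at hcr
      rw [h1, ← hcr, hdir D u (ne_of_gt hpos)]
    · have hucop : IsCoprime u.re u.im := ⟨-v.im, v.re, by simp only [dt] at hvu; linarith⟩
      have h2 : h u = h w := by
        apply ih r.toNat (by omega) u w hucop
        · rw [huw]; omega
        · rw [huw]; exact h0
        · exact hSu
        · exact hSw
      rw [h1, h2]

theorem exists_prim (v : O b c) (hv : v ≠ 0) : ∃ (g : ℤ) (v0 : O b c), 0 < g ∧ v = g • v0 ∧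
    IsCoprime v0.re v0.im := by
  have hg : 0 < Int.gcd v.re v.im := by
    rw [Nat.pos_iff_ne_zero]
    intro h0
    rw [Int.gcd_eq_zero_iff] at h0
    exact hv (by ext <;> simp [h0.1, h0.2])
  obtain ⟨a', b', hab, h1, h2⟩ := Int.exists_gcd_one hg
  refine ⟨(Int.gcd v.re v.im : ℤ), ⟨a', b'⟩, by exact_mod_cast hg, ?_, ?_⟩
  · ext
    · simp only [re_smul, smul_eq_mul]; rw [mul_comm]; exact h1
    · simp only [im_smul, smul_eq_mul]; rw [mul_comm]; exact h2
  · exact Int.isCoprime_iff_gcd_eq_one.mpr hab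

theorem path (S : O b c → Prop) (h : O b c → ℤ)
    (hS : ∀ (u v w : O b c) (D r : ℤ), 0 < D → 0 ≤ r → r < D → D • u = r • v + w →
      S v → S w → S u)
    (hSdiv : ∀ (v : O b c) (g : ℤ), 0 < g → S (g • v) → S v)
    (hdir : ∀ (k : ℤ) (u : O b c), k ≠ 0 → h (k • u) = h u)
    (hedge : ∀ v u : O b c, dt v u = 1 → S v → S u → h v = h u) :
    ∀ v w : O b c, v ≠ 0 → w ≠ 0 → S v → S w → h v = h w := by
  -- first the case of positive determinant
  have key : ∀ v w : O b c, v ≠ 0 → S v → S w → 0 < dt v w → h v = h w := by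
    intro v w hv hSv hSw hpos
    obtain ⟨g, v0, hg, rfl, hcop⟩ := exists_prim v hv
    rw [hdir g v0 hg.ne']
    have hdt : dt (g • v0) w = g * dt v0 w := by
      simp only [dt, re_smul, im_smul, smul_eq_mul]; ring
    rw [hdt] at hpos
    have hpos' : 0 < dt v0 w := (mul_pos_iff_of_pos_left hg).mp hpos
    exact path_prim S h hS hdir hedge (dt v0 w).toNat v0 w hcop (by omega) hpos'
      (hSdiv v0 g hg hSv) hSw
  intro v w hv hw hSv hSw
  rcases lt_trichotomy (dt v w) 0 with h0 | h0 | h0
  · have : 0 < dt w v := by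
      have : dt w v = - dt v w := by simp only [dt]; ring
      omega
    exact (key w v hw hSw hSv this).symm
  · obtain ⟨g, v0, hg, rfl, hcop⟩ := exists_prim v hv
    rw [hdir g v0 hg.ne']
    have hdt : dt (g • v0) w = g * dt v0 w := by
      simp only [dt, re_smul, im_smul, smul_eq_mul]; ring
    rw [hdt] at h0
    have h0' : dt v0 w = 0 := (mul_eq_zero.mp h0).resolve_left hg.ne'
    obtain ⟨x, y, hxy⟩ := hcop
    set u0 : O b c := ⟨-y, x⟩ with hu0
    have hvu0 : dt v0 u0 = 1 := by simp only [dt, hu0]; linarith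
    have hcr := cramer w v0 u0
    rw [hvu0, one_smul, h0', zero_smul, add_zero] at hcr
    have hk : dt w u0 ≠ 0 := by
      intro hk; rw [hk, zero_smul] at hcr; exact hw hcr
    rw [hcr, hdir _ v0 hk]
  · exact key v w hv hSv hSw h0

end Pool.Agent.Lib.MP_648c71_nt
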