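import Mathlib
import Pool.Agent.Lib.MP_648c71_nt.Lattice

/-!
# The multipliers `B_m(n)`

`B_0(n) = n + ω` and `B_{m+1}(n) = conj (B_m(n+1)) B_m(n)`. The slope of `B_m(n)` is `≍ n^{-(m+1)}`.
-/

namespace Pool.Agent.Lib.MP_648c71_nt

open Polynomial Filter Topology

noncomputable section

/-- `p` has degree at most `a`, with coefficient `l` at `a` -/
def Lead (p : ℝ[X]) (a : ℕ) (l : ℝ) : Prop := p.natDegree ≤ a ∧ p.coeff a = l

theorem Lead.mul {p q : ℝ[X]} {a e : ℕ} {l l' : ℝ} (hp : Lead p a l) (hq : Lead q e l') :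
    Lead (p * q) (a + e) (l * l') :=
  ⟨natDegree_mul_le.trans (add_le_add hp.1 hq.1), by
    rw [coeff_mul_add_eq_of_natDegree_le hp.1 hq.1, hp.2, hq.2]⟩

theorem Lead.add {p q : ℝ[X]} {a : ℕ} {l l' : ℝ} (hp : Lead p a l) (hq : Lead q a l') :
    Lead (p + q) a (l + l') :=
  ⟨natDegree_add_le_of_degree_le hp.1 hq.1, by rw [coeff_add, hp.2, hq.2]⟩

theorem Lead.sub {p q : ℝ[X]} {a : ℕ} {l l' : ℝ} (hp : Lead p a l) (hq : Lead q a l') :
    Lead (p - q) a (l - l') :=
  ⟨(natDegree_sub_le_of_le hp.1 hq.1).trans (max_self a).le, by rw [coeff_sub, hp.2, hq.2]⟩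

theorem Lead.C_mul {p : ℝ[X]} {a : ℕ} {l : ℝ} (hp : Lead p a l) (r : ℝ) :
    Lead (C r * p) a (r * l) :=
  ⟨(natDegree_C_mul_le r p).trans hp.1, by rw [coeff_C_mul, hp.2]⟩

theorem Lead.of_lt {p : ℝ[X]} {e a : ℕ} {l : ℝ} (hp : Lead p e l) (h : e < a) : Lead p a 0 :=
  ⟨hp.1.trans h.le, coeff_eq_zero_of_natDegree_lt (lt_of_le_of_lt hp.1 h)⟩

/-- the shift `p(X + 1)` -/
def sh (p : ℝ[X]) : ℝ[X] := p.comp (X + 1)

theorem eval_sh (p : ℝ[X]) (x : ℝ) : (sh p).eval x = p.eval (x + 1) := by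
  unfold sh
  rw [eval_comp, eval_add, eval_X, eval_one]

theorem coeff_sh (p : ℝ[X]) (a k : ℕ) (h : p.natDegree ≤ a) :
    (sh p).coeff k = ∑ i ∈ Finset.range (a + 1), p.coeff i * (i.choose k : ℝ) := by
  unfold sh
  rw [comp, eval₂_eq_sum_range' C (Nat.lt_succ_of_le h), finsetSum_coeff]
  apply Finset.sum_congr rfl
  intro i _
  rw [coeff_C_mul, coeff_X_add_one_pow]

theorem Lead.sh {p : ℝ[X]} {a : ℕ} {l : ℝ} (hp : Lead p a l) : Lead (sh p) a l := by
  constructor
  · unfold Pool.Agent.Lib.MP_648c71_nt.sh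
    rw [natDegree_comp]
    have : (X + 1 : ℝ[X]).natDegree = 1 := by
      have := natDegree_X_add_C (1 : ℝ)
      rwa [C_1] at this
    rw [this, mul_one]
    exact hp.1
  · rw [coeff_sh p a a hp.1, Finset.sum_eq_single a, Nat.choose_self, Nat.cast_one, mul_one, hp.2]
    · intro i hi hne
      rw [Nat.choose_eq_zero_of_lt (by have := Finset.mem_range.mp hi; omega), Nat.cast_zero, mul_zero]
    · intro h
      exact absurd (Finset.mem_range.mpr (Nat.lt_succ_self a)) h

theorem Lead.diff {p : ℝ[X]} {a : ℕ} {l : ℝ} (hp : Lead p (a + 1) l) :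
    Lead (Pool.Agent.Lib.MP_648c71_nt.sh p - p) a ((a + 1) * l) := by
  constructor
  · rw [natDegree_le_iff_coeff_eq_zero]
    intro k hk
    rw [coeff_sub]
    rcases Nat.lt_or_ge (a + 1) k with h | h
    · rw [(hp.sh.of_lt h).2, (hp.of_lt h).2, sub_zero]
    · have : k = a + 1 := by omega
      subst this
      rw [hp.sh.2, hp.2, sub_self]
  · rw [coeff_sub, coeff_sh p (a + 1) a hp.1, Finset.sum_range_succ, Finset.sum_range_succ,
      Finset.sum_eq_zero, hp.2]
    · rw [Nat.choose_self, Nat.choose_succ_self_right]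
      push_cast
      ring
    · intro i hi
      rw [Nat.choose_eq_zero_of_lt (Finset.mem_range.mp hi), Nat.cast_zero, mul_zero]

theorem diff_const {p : ℝ[X]} {l : ℝ} (hp : Lead p 0 l) :
    Pool.Agent.Lib.MP_648c71_nt.sh p - p = 0 := by
  have h : p = C (p.coeff 0) := eq_C_of_natDegree_le_zero hp.1
  unfold Pool.Agent.Lib.MP_648c71_nt.sh
  rw [h, C_comp, sub_self]

/-- the coordinates of `B_m` as polynomials -/
def PQ (b c : ℤ) : ℕ → ℝ[X] × ℝ[X]
  | 0 => (X, 1)
  | m + 1 => (sh (PQ b c m).1 * (PQ b c m).1 + C (b : ℝ) * (sh (PQ b c m).2 * (PQ b c m).1) +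
      C (c : ℝ) * (sh (PQ b c m).2 * (PQ b c m).2),
      sh (PQ b c m).1 * (PQ b c m).2 - sh (PQ b c m).2 * (PQ b c m).1)

theorem lead_PQ (b c : ℤ) (m : ℕ) : ∃ e, e + (m + 1) = 2 ^ m ∧ Lead (PQ b c m).1 (2 ^ m) 1 ∧
    Lead (PQ b c m).2 e (m.factorial : ℝ) := by
  induction m with
  | zero =>
    refine ⟨0, rfl, ?_, ?_⟩
    · simp only [PQ, pow_zero]
      exact ⟨natDegree_X_le, coeff_X_one⟩
    · simp only [PQ, Nat.factorial_zero, Nat.cast_one]
      exact ⟨natDegree_one.le, coeff_one_zero⟩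
  | succ m ih =>
    obtain ⟨e, he, hX, hY⟩ := ih
    have h2 : 1 ≤ 2 ^ m := Nat.one_le_two_pow
    have hlt : e < 2 ^ m := by omega
    refine ⟨2 ^ m - 1 + e, by rw [pow_succ]; omega, ?_, ?_⟩
    · have h1 : Lead (sh (PQ b c m).1 * (PQ b c m).1) (2 ^ (m + 1)) (1 * 1) := by
        have := hX.sh.mul hX
        rwa [← two_mul, ← pow_succ'] at this
      have h3 : Lead (C (b : ℝ) * (sh (PQ b c m).2 * (PQ b c m).1)) (2 ^ (m + 1)) (b * 0) := by
        apply Lead.C_mul
        apply (hY.sh.mul hX).of_lt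
        rw [pow_succ]; omega
      have h4 : Lead (C (c : ℝ) * (sh (PQ b c m).2 * (PQ b c m).2)) (2 ^ (m + 1)) (c * 0) := by
        apply Lead.C_mul
        apply (hY.sh.mul hY).of_lt
        rw [pow_succ]; omega
      have h5 := (h1.add h3).add h4
      have h6 : (1 * 1 + b * 0 + c * 0 : ℝ) = 1 := by ring
      rw [h6] at h5
      exact h5
    · obtain ⟨a, ha⟩ : ∃ a, 2 ^ m = a + 1 := ⟨2 ^ m - 1, by omega⟩
      rw [ha] at hX
      have hd := hX.diff.mul hY
      have hid : sh (PQ b c m).1 * (PQ b c m).2 - sh (PQ b c m).2 * (PQ b c m).1 =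
          (sh (PQ b c m).1 - (PQ b c m).1) * (PQ b c m).2 -
          (sh (PQ b c m).2 - (PQ b c m).2) * (PQ b c m).1 := by ring
      have ha' : 2 ^ m - 1 + e = a + e := by omega
      change Lead (sh (PQ b c m).1 * (PQ b c m).2 - sh (PQ b c m).2 * (PQ b c m).1) _ _
      rw [hid, ha']
      rcases Nat.eq_zero_or_pos e with h0 | h0
      · subst h0
        rw [diff_const hY, zero_mul, sub_zero]
        have h1 : ((m + 1).factorial : ℝ) = (a + 1) * m.factorial := by
          rw [Nat.factorial_succ]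
          have : m = a := by omega
          subst this
          push_cast; ring
        rw [h1]
        convert hd using 2
        ring
      · obtain ⟨e', he'⟩ : ∃ e', e = e' + 1 := ⟨e - 1, by omega⟩
        rw [he'] at hY
        have h1 := hY.diff.mul hX
        have h2 : e' + (a + 1) = a + e := by omega
        rw [h2] at h1
        have h3 := hd.sub h1
        have h4 : ((a : ℝ) + 1) * m.factorial - ((e' : ℝ) + 1) * m.factorial * 1 =
            ((m + 1).factorial : ℝ) := by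
          rw [Nat.factorial_succ]
          have h5 : (a : ℝ) + 1 = (e' + 1) + (m + 1) := by
            have : a + 1 = (e' + 1) + (m + 1) := by omega
            exact_mod_cast this
          rw [h5]
          push_cast; ring
        rw [← h4, he']
        rw [he'] at h3
        convert h3 using 2
        ring

/-- the multipliers `B_m(n)` -/
def Bm (b c : ℤ) : ℕ → ℤ → O b c
  | 0, n => ⟨n, 1⟩
  | m + 1, n => star (Bm b c m (n + 1)) * Bm b c m n

theorem Bm_eval (b c : ℤ) (m : ℕ) (n : ℤ) : ((Bm b c m n).re : ℝ) = (PQ b c m).1.eval (n : ℝ) ∧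
    ((Bm b c m n).im : ℝ) = (PQ b c m).2.eval (n : ℝ) := by
  induction m generalizing n with
  | zero => simp [Bm, PQ]
  | succ m ih =>
    obtain ⟨h1, h2⟩ := ih n
    obtain ⟨h3, h4⟩ := ih (n + 1)
    have h5 : Bm b c (m + 1) n = ⟨sc (Bm b c m (n + 1)) (Bm b c m n),
        dt (Bm b c m (n + 1)) (Bm b c m n)⟩ := by
      rw [← star_mul_eq]; rfl
    rw [h5]
    simp only [sc, dt, PQ, eval_add, eval_sub, eval_mul, eval_C, eval_sh]
    push_cast at h3 h4 ⊢
    rw [h1, h2, h3, h4]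
    constructor <;> ring

theorem Lead.natDegree_eq {p : ℝ[X]} {a : ℕ} {l : ℝ} (h : Lead p a l) (hl : l ≠ 0) :
    p.natDegree = a := natDegree_eq_of_le_of_coeff_ne_zero h.1 (by rw [h.2]; exact hl)

theorem Lead.leadingCoeff {p : ℝ[X]} {a : ℕ} {l : ℝ} (h : Lead p a l) (hl : l ≠ 0) :
    p.leadingCoeff = l := by rw [Polynomial.leadingCoeff, h.natDegree_eq hl, h.2]

theorem Lead.degree_eq {p : ℝ[X]} {a : ℕ} {l : ℝ} (h : Lead p a l) (hl : l ≠ 0) :
    p.degree = a := by
  rw [degree_eq_natDegree, h.natDegree_eq hl]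
  intro h0
  apply hl
  rw [← h.2, h0, coeff_zero]

theorem slope_tendsto (b c : ℤ) (m : ℕ) :
    Tendsto (fun x : ℝ => (PQ b c m).2.eval x * x ^ (m + 1) / (PQ b c m).1.eval x) atTop
      (𝓝 (m.factorial : ℝ)) := by
  obtain ⟨e, he, hX, hY⟩ := lead_PQ b c m
  have hf : (m.factorial : ℝ) ≠ 0 := by exact_mod_cast m.factorial_ne_zero
  have h1 : Lead ((PQ b c m).2 * X ^ (m + 1)) (2 ^ m) (m.factorial * 1) := by
    rw [← he]
    apply hY.mul
    exact ⟨natDegree_X_pow_le _, coeff_X_pow_self _⟩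
  rw [mul_one] at h1
  have h2 := div_tendsto_atTop_leadingCoeff_div_of_degree_eq ((PQ b c m).2 * X ^ (m + 1)) (PQ b c m).1
    (by rw [h1.degree_eq hf, hX.degree_eq one_ne_zero])
  rw [h1.leadingCoeff hf, hX.leadingCoeff one_ne_zero, div_one] at h2
  simpa using h2

theorem pos_tendsto (b c : ℤ) (m : ℕ) : ∀ᶠ x : ℝ in atTop, 0 < (PQ b c m).1.eval x := by
  obtain ⟨e, he, hX, hY⟩ := lead_PQ b c m
  have h := tendsto_atTop_of_leadingCoeff_nonneg (PQ b c m).1
    (by rw [hX.degree_eq one_ne_zero]; exact_mod_cast Nat.two_pow_pos m)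
    (by rw [hX.leadingCoeff one_ne_zero]; exact zero_le_one)
  exact h.eventually_gt_atTop 0

/-- size of the coordinates of `B_m(P)` for large `P` -/
theorem eventually_Bm (b c : ℤ) (m : ℕ) : ∀ᶠ P : ℕ in atTop,
    0 < (Bm b c m P).re ∧ 0 < (Bm b c m P).im ∧
    ((Bm b c m P).re : ℝ) ≤ 2 * ((Bm b c m P).im * (P : ℝ) ^ (m + 1)) ∧
    ((Bm b c m P).im : ℝ) * (P : ℝ) ^ (m + 1) ≤ 2 * m.factorial * (Bm b c m P).re := by
  have hf1 : (1 : ℝ) ≤ m.factorial := by exact_mod_cast m.factorial_pos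
  have h1 := (slope_tendsto b c m).comp tendsto_natCast_atTop_atTop
  have h2 := h1.eventually (Ioo_mem_nhds (show (m.factorial : ℝ) / 2 < m.factorial by linarith)
    (show (m.factorial : ℝ) < 2 * m.factorial by linarith))
  have h3 := tendsto_natCast_atTop_atTop.eventually (pos_tendsto b c m)
  filter_upwards [h2, h3, eventually_ge_atTop 1] with P hP hP' hP1
  simp only [Function.comp_apply] at hP
  obtain ⟨e1, e2⟩ := Bm_eval b c m P
  push_cast at e1 e2
  rw [← e1] at hP hP'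
  rw [← e2] at hP
  obtain ⟨hl, hu⟩ := hP
  rw [lt_div_iff₀ hP'] at hl
  rw [div_lt_iff₀ hP'] at hu
  have hPr : (0 : ℝ) < P := by exact_mod_cast hP1
  have hpow : (0 : ℝ) < (P : ℝ) ^ (m + 1) := by positivity
  refine ⟨by exact_mod_cast hP', ?_, ?_, hu.le⟩
  · have h4 : 0 < ((Bm b c m P).im : ℝ) * (P : ℝ) ^ (m + 1) := lt_of_lt_of_le (by positivity) hl.le
    have h5 := (mul_pos_iff_of_pos_right hpow).mp h4
    exact_mod_cast h5
  · nlinarith

/-- the factors of `B_m(n)` -/
def fl (b c : ℤ) : ℕ → ℤ → List (O b c)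
  | 0, n => [⟨n, 1⟩]
  | m + 1, n => (fl b c m (n + 1)).map star ++ fl b c m n

theorem prod_map_star {b c : ℤ} (l : List (O b c)) : (l.map star).prod = star l.prod := by
  induction l with
  | nil => simp
  | cons a l ih => rw [List.map_cons, List.prod_cons, List.prod_cons, ih, star_mul, mul_comm]

theorem fl_prod (b c : ℤ) (m : ℕ) (n : ℤ) : (fl b c m n).prod = Bm b c m n := by
  induction m generalizing n with
  | zero => simp [fl, Bm]
  | succ m ih => simp only [fl, Bm, List.prod_append, prod_map_star, ih]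

theorem fl_length (b c : ℤ) (m : ℕ) (n : ℤ) : (fl b c m n).length = 2 ^ m := by
  induction m generalizing n with
  | zero => simp [fl]
  | succ m ih => simp only [fl, List.length_append, List.length_map, ih, pow_succ]; ring

theorem fl_mem (b c : ℤ) (m : ℕ) (n : ℤ) {μ : O b c} (h : μ ∈ fl b c m n) :
    ∃ j : ℕ, j ≤ m ∧ nm μ = ff b c (n + j) := by
  induction m generalizing n μ with
  | zero =>
    simp only [fl, List.mem_singleton] at h
    refine ⟨0, le_rfl, ?_⟩
    rw [h]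
    simp [nm, ff]
  | succ m ih =>
    simp only [fl, List.mem_append, List.mem_map] at h
    rcases h with ⟨ν, hν, rfl⟩ | h
    · obtain ⟨j, hj, hj'⟩ := ih (n + 1) hν
      refine ⟨j + 1, by omega, ?_⟩
      rw [nm_star, hj']
      push_cast
      ring_nf
    · obtain ⟨j, hj, hj'⟩ := ih n h
      exact ⟨j, by omega, hj'⟩

end

end Pool.Agent.Lib.MP_648c71_nt
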