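import Mathlib
import Pool.Agent.Lib.MP_648c71_nt.Poly

/-!
# Greedy expansion and the list of multipliers
-/

namespace Pool.Agent.Lib.MP_648c71_nt

open Finset

noncomputable section

/-- greedy expansion of `x ≥ 0` with respect to positive reals `a 0, ..., a K` -/
theorem greedy (a : ℕ → ℝ) (x : ℝ) (hx : 0 ≤ x) (K : ℕ) (ha : ∀ m ≤ K, 0 < a m) :
    ∃ k : ℕ → ℕ, (k 0 : ℝ) * a 0 ≤ x ∧ (∀ m < K, (k (m + 1) : ℝ) * a (m + 1) ≤ a m) ∧
      0 ≤ x - ∑ m ∈ range (K + 1), k m * a m ∧ x - ∑ m ∈ range (K + 1), k m * a m < a K := by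
  induction K with
  | zero =>
    have h0 := ha 0 le_rfl
    refine ⟨fun _ => ⌊x / a 0⌋₊, ?_, fun m hm => absurd hm (Nat.not_lt_zero m), ?_, ?_⟩
    · have := Nat.floor_le (div_nonneg hx h0.le)
      rwa [le_div_iff₀ h0] at this
    · have := Nat.floor_le (div_nonneg hx h0.le)
      rw [le_div_iff₀ h0] at this
      rw [Finset.sum_range_one]; linarith
    · have := Nat.lt_floor_add_one (x / a 0)
      rw [div_lt_iff₀ h0] at this
      rw [Finset.sum_range_one]; linarith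
  | succ K ih =>
    obtain ⟨k, h1, h2, h3, h4⟩ := ih (fun m hm => ha m (by omega))
    have h0 := ha (K + 1) le_rfl
    set r := x - ∑ m ∈ range (K + 1), k m * a m with hr
    set q := ⌊r / a (K + 1)⌋₊ with hq
    have hq1 : (q : ℝ) * a (K + 1) ≤ r := by
      have := Nat.floor_le (div_nonneg h3 h0.le)
      rwa [le_div_iff₀ h0] at this
    have hq2 : r < (q + 1) * a (K + 1) := by
      have := Nat.lt_floor_add_one (r / a (K + 1))
      rwa [div_lt_iff₀ h0] at this
    have hsum : ∑ m ∈ range (K + 1 + 1), ((if m ≤ K then k m else q : ℕ) : ℝ) * a m =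
        ∑ m ∈ range (K + 1), k m * a m + q * a (K + 1) := by
      rw [Finset.sum_range_succ]
      congr 1
      · apply Finset.sum_congr rfl
        intro m hm
        rw [if_pos (Nat.lt_succ_iff.mp (Finset.mem_range.mp hm))]
      · rw [if_neg (by omega)]
    refine ⟨fun m => if m ≤ K then k m else q, ?_, ?_, ?_, ?_⟩
    · simp only [Nat.zero_le, if_true]; exact h1
    · intro m hm
      rcases Nat.lt_or_ge m K with h | h
      · simp only [show m + 1 ≤ K by omega, if_true]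
        exact h2 m h
      · have : m = K := by omega
        subst this
        simp only [show ¬ (m + 1 ≤ m) by omega, if_false]
        linarith
    · rw [hsum]; linarith
    · rw [hsum]; linarith

/-- the list of multipliers with product `v0 * ∏_{m ≤ K} B_m(P)^{2 k_m}` -/
def LL (b c : ℤ) (v0 : O b c) (k : ℕ → ℕ) (P : ℤ) (K : ℕ) : List (O b c) :=
  v0 :: (List.range (K + 1)).flatMap (fun m => (List.replicate (2 * k m) (fl b c m P)).flatten)

theorem LL_prod (b c : ℤ) (v0 : O b c) (k : ℕ → ℕ) (P : ℤ) (K : ℕ) :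
    (LL b c v0 k P K).prod = v0 * ∏ m ∈ range (K + 1), Bm b c m P ^ (2 * k m) := by
  unfold LL
  rw [List.prod_cons]
  congr 1
  induction K with
  | zero => simp [fl_prod, List.prod_flatten]
  | succ K ih =>
    rw [List.range_succ, List.flatMap_append, List.prod_append, ih, Finset.prod_range_succ _ (K + 1)]
    simp [fl_prod, List.prod_flatten]

theorem LL_length (b c : ℤ) (v0 : O b c) (k : ℕ → ℕ) (P : ℤ) (K : ℕ) :
    (LL b c v0 k P K).length = 1 + ∑ m ∈ range (K + 1), 2 * k m * 2 ^ m := by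
  unfold LL
  rw [List.length_cons, add_comm]
  congr 1
  induction K with
  | zero => simp [fl_length]
  | succ K ih =>
    rw [List.range_succ, List.flatMap_append, List.length_append, ih,
      Finset.sum_range_succ _ (K + 1)]
    simp [fl_length, List.length_flatten]

theorem LL_mem (b c : ℤ) (v0 : O b c) (k : ℕ → ℕ) (P : ℤ) (K : ℕ) {μ : O b c}
    (h : μ ∈ LL b c v0 k P K) : μ = v0 ∨ ∃ j : ℕ, j ≤ K ∧ nm μ = ff b c (P + j) := by
  unfold LL at h
  rw [List.mem_cons] at h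
  rcases h with h | h
  · left; exact h
  · right
    rw [List.mem_flatMap] at h
    obtain ⟨m, hm, h⟩ := h
    rw [List.mem_range] at hm
    rw [List.mem_flatten] at h
    obtain ⟨l, hl, h⟩ := h
    rw [List.mem_replicate] at hl
    rw [hl.2] at h
    obtain ⟨j, hj, hj'⟩ := fl_mem b c m P h
    exact ⟨j, by omega, hj'⟩

theorem hh_pow_two_mul {b c : ℤ} (v : O b c) (hv : nm v ≠ 0) (k : ℕ) : hh (v ^ (2 * k)) = 1 := by
  rw [pow_mul, pow_two]
  induction k with
  | zero => rw [pow_zero]; unfold hh; rw [nm_one, lam_one]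
  | succ k ih =>
    rw [pow_succ, hh_mul, ih, one_mul, hh_mul]
    exact lam_mul_self hv

theorem hh_LL (b c : ℤ) (v0 : O b c) (k : ℕ → ℕ) (P : ℤ) (K : ℕ)
    (h : ∀ m ≤ K, nm (Bm b c m P) ≠ 0) : hh (LL b c v0 k P K).prod = hh v0 := by
  rw [LL_prod, hh_mul]
  have : hh (∏ m ∈ range (K + 1), Bm b c m P ^ (2 * k m)) = 1 := by
    induction K with
    | zero =>
      rw [Finset.prod_range_one]
      exact hh_pow_two_mul _ (h 0 le_rfl) _
    | succ K ih =>
      rw [Finset.prod_range_succ, hh_mul, ih (fun m hm => h m (by omega)), one_mul]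
      exact hh_pow_two_mul _ (h (K + 1) le_rfl) _
  rw [this, mul_one]

/-- uniform bounds for all the digits -/
theorem digits_le {a : ℕ → ℝ} {x : ℝ} {K : ℕ} {k : ℕ → ℕ} {c1 c2 P : ℝ} (hc1 : 0 < c1)
    (hx : x ≤ c2) (hP : 1 ≤ P)
    (hl : ∀ m ≤ K, c1 ≤ a m * P ^ (m + 1)) (hu : ∀ m ≤ K, a m * P ^ (m + 1) ≤ c2)
    (h0 : (k 0 : ℝ) * a 0 ≤ x) (hs : ∀ m < K, (k (m + 1) : ℝ) * a (m + 1) ≤ a m) :
    ∀ m ≤ K, (k m : ℝ) ≤ c2 / c1 * P := by
  have hP0 : (0 : ℝ) < P := by linarith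
  intro m hm
  rcases m with _ | m
  · rw [div_mul_eq_mul_div, le_div_iff₀ hc1]
    calc (k 0 : ℝ) * c1 ≤ k 0 * (a 0 * P ^ (0 + 1)) :=
          mul_le_mul_of_nonneg_left (hl 0 (Nat.zero_le _)) (Nat.cast_nonneg _)
      _ = (k 0 * a 0) * P := by ring
      _ ≤ c2 * P := mul_le_mul_of_nonneg_right (h0.trans hx) hP0.le
  · rw [div_mul_eq_mul_div, le_div_iff₀ hc1]
    calc (k (m + 1) : ℝ) * c1 ≤ k (m + 1) * (a (m + 1) * P ^ (m + 1 + 1)) :=
          mul_le_mul_of_nonneg_left (hl (m + 1) hm) (Nat.cast_nonneg _)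
      _ = (k (m + 1) * a (m + 1)) * P ^ (m + 1 + 1) := by ring
      _ ≤ a m * P ^ (m + 1 + 1) :=
          mul_le_mul_of_nonneg_right (hs m (by omega)) (by positivity)
      _ = (a m * P ^ (m + 1)) * P := by ring
      _ ≤ c2 * P := mul_le_mul_of_nonneg_right (hu m (by omega)) hP0.le

theorem LL_length_le (b c : ℤ) (v0 : O b c) (k : ℕ → ℕ) (P : ℕ) (K : ℕ) {A : ℝ} (hA : 0 ≤ A)
    (hP : 1 ≤ P) (hk : ∀ m ≤ K, (k m : ℝ) ≤ A * P) :
    ((LL b c v0 k P K).length : ℝ) ≤ (1 + 2 * (K + 1) * 2 ^ K * A) * P := by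
  rw [LL_length]
  push_cast
  have hPr : (1 : ℝ) ≤ P := by exact_mod_cast hP
  have h : ∑ m ∈ range (K + 1), 2 * (k m : ℝ) * 2 ^ m ≤ ∑ m ∈ range (K + 1), 2 * (A * P) * 2 ^ K := by
    apply Finset.sum_le_sum
    intro m hm
    have hm' : m ≤ K := Nat.lt_succ_iff.mp (Finset.mem_range.mp hm)
    have h1 := hk m hm'
    have h2 : (2 : ℝ) ^ m ≤ 2 ^ K := pow_le_pow_right₀ (by norm_num) hm'
    have h3 : (0 : ℝ) ≤ k m := Nat.cast_nonneg _
    gcongr
  rw [Finset.sum_const, Finset.card_range, nsmul_eq_mul] at h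
  push_cast at h
  calc 1 + ∑ m ∈ range (K + 1), 2 * (k m : ℝ) * 2 ^ m ≤ 1 + (K + 1) * (2 * (A * P) * 2 ^ K) := by
        linarith
    _ ≤ _ := by nlinarith

end

end Pool.Agent.Lib.MP_648c71_nt
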