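import Pool.Agent.Lib.MP_648c71_nt.Ell

/-!
Shells of lattice vectors, starting directions and rotation data.
-/

namespace Pool.Agent.Lib.MP_648c71_nt

open QuadraticAlgebra

variable {b c : ℤ}

noncomputable section

/-- base direction -/
def z0 (K0 s : ℝ) : ℝ × ℝ := (K0, s)

theorem sz_z0 {K0 s : ℝ} (hK : 1 ≤ K0) (hs0 : 0 ≤ s) (hs1 : s ≤ 1) : sz (z0 K0 s) = K0 := by
  unfold sz z0
  simp only
  rw [abs_of_nonneg hs0, abs_of_nonneg (by linarith)]
  exact max_eq_left (by linarith)

/-- integral version of the sup norm -/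
def szn (v : O b c) : ℕ := max v.re.natAbs v.im.natAbs

theorem szv_eq (v : O b c) : szv v = (szn v : ℝ) := by
  unfold szv szn
  push_cast
  rw [Nat.cast_natAbs, Nat.cast_natAbs]
  push_cast
  rfl

/-- lattice vectors of given sup norm -/
def shell (b c : ℤ) (m : ℕ) : Finset (O b c) :=
  (Finset.Icc (-(m : ℤ)) m).image (fun y => (⟨(m : ℤ), y⟩ : O b c)) ∪
  (Finset.Icc (-(m : ℤ)) m).image (fun y => (⟨-(m : ℤ), y⟩ : O b c)) ∪
  (Finset.Icc (-(m : ℤ)) m).image (fun x => (⟨x, (m : ℤ)⟩ : O b c)) ∪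
  (Finset.Icc (-(m : ℤ)) m).image (fun x => (⟨x, -(m : ℤ)⟩ : O b c))

theorem mem_shell (v : O b c) : v ∈ shell b c (szn v) := by
  unfold shell szn
  have h1 : v.re.natAbs ≤ max v.re.natAbs v.im.natAbs := le_max_left _ _
  have h2 : v.im.natAbs ≤ max v.re.natAbs v.im.natAbs := le_max_right _ _
  set m := max v.re.natAbs v.im.natAbs with hm
  simp only [Finset.mem_union, Finset.mem_image, Finset.mem_Icc]
  rcases max_choice v.re.natAbs v.im.natAbs with h | h
  · rw [← hm] at h
    rcases le_total 0 v.re with h0 | h0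
    · left; left; left
      refine ⟨v.im, by omega, ?_⟩
      ext <;> simp only
      omega
    · left; left; right
      refine ⟨v.im, by omega, ?_⟩
      ext <;> simp only
      omega
  · rw [← hm] at h
    rcases le_total 0 v.im with h0 | h0
    · left; right
      refine ⟨v.re, by omega, ?_⟩
      ext <;> simp only
      omega
    · right
      refine ⟨v.re, by omega, ?_⟩
      ext <;> simp only
      omega

theorem card_shell (b c : ℤ) {m : ℕ} (hm : 1 ≤ m) : (shell b c m).card ≤ 12 * m := by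
  have hI : (Finset.Icc (-(m : ℤ)) m).card = 2 * m + 1 := by
    rw [Int.card_Icc]; omega
  unfold shell
  refine (Finset.card_union_le _ _).trans ?_
  refine (Nat.add_le_add_right (Finset.card_union_le _ _) _).trans ?_
  refine (Nat.add_le_add_right (Nat.add_le_add_right (Finset.card_union_le _ _) _) _).trans ?_
  have a1 := Finset.card_image_le (s := Finset.Icc (-(m : ℤ)) m)
    (f := fun y => (⟨(m : ℤ), y⟩ : O b c))
  have a2 := Finset.card_image_le (s := Finset.Icc (-(m : ℤ)) m)
    (f := fun y => (⟨-(m : ℤ), y⟩ : O b c))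
  have a3 := Finset.card_image_le (s := Finset.Icc (-(m : ℤ)) m)
    (f := fun x => (⟨x, (m : ℤ)⟩ : O b c))
  have a4 := Finset.card_image_le (s := Finset.Icc (-(m : ℤ)) m)
    (f := fun x => (⟨x, -(m : ℤ)⟩ : O b c))
  rw [hI] at a1 a2 a3 a4
  omega

theorem ne_zero_of_mem_shell {m : ℕ} (hm : 1 ≤ m) {v : O b c} (hv : v ∈ shell b c m) : v ≠ 0 := by
  rintro rfl
  unfold shell at hv
  simp only [Finset.mem_union, Finset.mem_image, Finset.mem_Icc] at hv
  rcases hv with ((⟨y, hy, h⟩ | ⟨y, hy, h⟩) | ⟨y, hy, h⟩) | ⟨y, hy, h⟩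
  · have := congrArg QuadraticAlgebra.re h
    simp at this; omega
  · have := congrArg QuadraticAlgebra.re h
    simp at this; omega
  · have := congrArg QuadraticAlgebra.im h
    simp at this; omega
  · have := congrArg QuadraticAlgebra.im h
    simp at this; omega

theorem nm_prod_pos (l : List (O b c)) (hl : ∀ μ ∈ l, 0 < nm μ) : 0 < nm l.prod := by
  induction l with
  | nil => simp [nm_one]
  | cons a l ih =>
    rw [List.prod_cons, nm_mul]
    exact mul_pos (hl a (by simp)) (ih (fun μ hμ => hl μ (by simp [hμ])))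

theorem star_mul_ne_zero {β v : O b c} (hβ : nm β ≠ 0) (hv : v ≠ 0) : star β * v ≠ 0 := by
  intro h0
  have h1 : β * (star β * v) = 0 := by rw [h0, mul_zero]
  rw [← mul_assoc] at h1
  have h2 : β * star β = (nm β : ℤ) • (1 : O b c) := by
    ext
    · simp only [re_mul, re_star, im_star, re_smul, re_one, smul_eq_mul, mul_one, nm]; ring
    · simp only [im_mul, re_star, im_star, im_smul, im_one, smul_eq_mul, mul_zero]; ring
  rw [h2, smul_mul_assoc, one_mul] at h1
  apply hv
  have h3 : (nm β) * v.re = 0 := by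
    have := congrArg QuadraticAlgebra.re h1
    simpa using this
  have h4 : (nm β) * v.im = 0 := by
    have := congrArg QuadraticAlgebra.im h1
    simpa using this
  ext
  · simpa using (mul_eq_zero.mp h3).resolve_left hβ
  · simpa using (mul_eq_zero.mp h4).resolve_left hβ

/-- The rotation data needed for the lower bound for the number of negative values. -/
def Rot (b c : ℤ) (K : ℕ) (A c0 K0 : ℝ) (P : ℕ) : Prop :=
  ∃ l : List (O b c), (l.length : ℝ) ≤ A * P ∧ (∀ μ ∈ l, 0 < nm μ ∧ (nm μ : ℝ) ≤ (P : ℝ) ^ 3) ∧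
    (∀ i ≤ l.length, ∀ s : ℝ, 0 ≤ s → s ≤ 1 → Ell b c c0 (act (l.take i).prod (z0 K0 s))) ∧
    |(l.prod.im : ℝ)| * (P : ℝ) ^ (K + 1) ≤ A * |(l.prod.re : ℝ)| ∧ l.prod.re ≠ 0 ∧
    hh l.prod ≠ 1

end

end Pool.Agent.Lib.MP_648c71_nt
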