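import Mathlib
import Pool.Agent.Lib.MP_648c71_nt.Greedy
import Pool.Agent.Lib.MP_648c71_nt.V0
import Pool.Agent.Lib.MP_648c71_nt.Shell

/-!
# The rotation in the case of negative discriminant
-/

namespace Pool.Agent.Lib.MP_648c71_nt

open Finset Filter Topology

noncomputable section

/-- half of the square root of the absolute value of the discriminant -/
def del (b c : ℤ) : ℝ := Real.sqrt (4 * c - b ^ 2) / 2

theorem del_sq {b c : ℤ} (hD : b ^ 2 < 4 * c) : del b c ^ 2 = c - (b : ℝ) ^ 2 / 4 := by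
  have h : (0 : ℝ) ≤ 4 * c - b ^ 2 := by
    have : (b : ℝ) ^ 2 < 4 * c := by exact_mod_cast hD
    linarith
  unfold del
  rw [div_pow, Real.sq_sqrt h]; ring

theorem del_pos {b c : ℤ} (hD : b ^ 2 < 4 * c) : 0 < del b c := by
  have h : (0 : ℝ) < 4 * c - b ^ 2 := by
    have : (b : ℝ) ^ 2 < 4 * c := by exact_mod_cast hD
    linarith
  unfold del
  positivity

/-- the embedding in the complex numbers -/
def emb {b c : ℤ} (v : O b c) : ℂ := ⟨v.re + b / 2 * v.im, del b c * v.im⟩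

theorem emb_mul {b c : ℤ} (hD : b ^ 2 < 4 * c) (v w : O b c) : emb (v * w) = emb v * emb w := by
  have h := del_sq hD
  apply Complex.ext
  · simp only [emb, Complex.mul_re, QuadraticAlgebra.re_mul, QuadraticAlgebra.im_mul]
    push_cast
    linear_combination (v.im : ℝ) * w.im * h
  · simp only [emb, Complex.mul_im, QuadraticAlgebra.re_mul, QuadraticAlgebra.im_mul]
    push_cast
    ring

theorem norm_emb_sq {b c : ℤ} (hD : b ^ 2 < 4 * c) (v : O b c) : ‖emb v‖ ^ 2 = nm v := by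
  have h := del_sq hD
  rw [Complex.sq_norm, Complex.normSq_apply]
  simp only [emb, nm]
  push_cast
  linear_combination (v.im : ℝ) ^ 2 * h

/-- `z` has argument `t` -/
def HasArg (z : ℂ) (t : ℝ) : Prop := z = ‖z‖ * Complex.exp (t * Complex.I)

theorem hasArg_arg (z : ℂ) : HasArg z (Complex.arg z) := (Complex.norm_mul_exp_arg_mul_I z).symm

theorem HasArg.mul {z w : ℂ} {t s : ℝ} (h1 : HasArg z t) (h2 : HasArg w s) :
    HasArg (z * w) (t + s) := by
  unfold HasArg at *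
  rw [norm_mul]
  push_cast
  rw [add_mul, Complex.exp_add]
  nth_rw 1 [h1]
  nth_rw 1 [h2]
  ring

theorem hasArg_one : HasArg 1 0 := by
  unfold HasArg
  simp

theorem HasArg.pow {z : ℂ} {t : ℝ} (h : HasArg z t) (n : ℕ) : HasArg (z ^ n) (n * t) := by
  induction n with
  | zero => simpa using hasArg_one
  | succ n ih =>
    rw [pow_succ]
    have := ih.mul h
    convert this using 1
    push_cast; ring

theorem emb_pow {b c : ℤ} (hD : b ^ 2 < 4 * c) (v : O b c) (n : ℕ) : emb (v ^ n) = emb v ^ n := by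
  induction n with
  | zero =>
    rw [pow_zero, pow_zero]
    apply Complex.ext
    · simp only [emb, QuadraticAlgebra.re_one, QuadraticAlgebra.im_one, Complex.one_re]
      norm_num
    · simp only [emb, QuadraticAlgebra.im_one, Complex.one_im]
      norm_num
  | succ n ih => rw [pow_succ, pow_succ, emb_mul hD, ih]

theorem hasArg_LL {b c : ℤ} (hD : b ^ 2 < 4 * c) (v0 : O b c) (k : ℕ → ℕ) (P : ℤ) (K : ℕ) :
    HasArg (emb (LL b c v0 k P K).prod) (Complex.arg (emb v0) +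
      2 * ∑ m ∈ range (K + 1), k m * Complex.arg (emb (Bm b c m P))) := by
  rw [LL_prod]
  induction K with
  | zero =>
    rw [Finset.prod_range_one, Finset.sum_range_one, emb_mul hD, emb_pow hD]
    have := (hasArg_arg (emb v0)).mul ((hasArg_arg (emb (Bm b c 0 P))).pow (2 * k 0))
    convert this using 1
    push_cast; ring
  | succ K ih =>
    rw [Finset.prod_range_succ, Finset.sum_range_succ, ← mul_assoc, emb_mul hD, emb_pow hD]
    have := ih.mul ((hasArg_arg (emb (Bm b c (K + 1) P))).pow (2 * k (K + 1)))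
    convert this using 1
    push_cast; ring

theorem arg_bounds {z : ℂ} (h1 : 0 < z.re) (h2 : 0 < z.im) :
    z.im / ‖z‖ ≤ Complex.arg z ∧ Complex.arg z ≤ 2 * (z.im / ‖z‖) := by
  have h3 := Complex.sin_arg z
  have h4 : 0 ≤ Complex.arg z := Complex.arg_nonneg_iff.mpr h2.le
  have h5 : Complex.arg z ≤ Real.pi / 2 := by
    have := Complex.abs_arg_lt_pi_div_two_iff.mpr (Or.inl h1)
    exact (abs_lt.mp this).2.le
  rw [← h3]
  refine ⟨Real.sin_le h4, ?_⟩
  have h6 := Real.mul_le_sin h4 h5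
  have hpi := Real.pi_pos
  have h7 : Complex.arg z ≤ Real.pi / 2 * Real.sin (Complex.arg z) := by
    have := mul_le_mul_of_nonneg_left h6 (show 0 ≤ Real.pi / 2 by positivity)
    have h8 : Real.pi / 2 * (2 / Real.pi * Complex.arg z) = Complex.arg z := by
      field_simp
    linarith
  have h9 : 0 ≤ Real.sin (Complex.arg z) := by rw [h3]; positivity
  nlinarith [Real.pi_le_four]

/-- argument of vectors with small slope -/
theorem arg_flat {b c : ℤ} (hD : b ^ 2 < 4 * c) (v : O b c) (h1 : 0 < v.re) (h2 : 0 < v.im)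
    (h3 : 4 * (1 + |(b : ℝ)| + |(c : ℝ)|) * v.im ≤ v.re) :
    del b c * v.im ≤ 2 * (v.re * Complex.arg (emb v)) ∧
      v.re * Complex.arg (emb v) ≤ 4 * (del b c * v.im) := by
  have hd := del_pos hD
  have hx : (0 : ℝ) < v.re := by exact_mod_cast h1
  have hy : (0 : ℝ) < v.im := by exact_mod_cast h2
  have hb := abs_nonneg (b : ℝ)
  have hc := abs_nonneg (c : ℝ)
  have hb1 := neg_abs_le (b : ℝ)
  have hb2 := le_abs_self (b : ℝ)
  have hc2 := le_abs_self (c : ℝ)
  have hc0 : (0 : ℝ) < c := by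
    have : 0 < c := by nlinarith [sq_nonneg b]
    exact_mod_cast this
  have h4 : 4 * (|(b : ℝ)| * v.im) ≤ v.re := by nlinarith
  have h5 : 4 * (c * v.im) ≤ (v.re : ℝ) := by
    have e1 := mul_le_mul_of_nonneg_right hc2 hy.le
    have e2 := mul_nonneg hb hy.le
    nlinarith
  have h6 : (v.im : ℝ) ≤ v.re := by nlinarith
  have hre : 0 < (emb v).re := by
    simp only [emb]
    nlinarith
  have him : 0 < (emb v).im := by
    simp only [emb]; positivity
  obtain ⟨h7, h8⟩ := arg_bounds hre him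
  have hn := norm_emb_sq hD v
  have hn0 : 0 < ‖emb v‖ := by
    rw [norm_pos_iff]
    intro h
    rw [h] at hre
    simp at hre
  have hnm : (nm v : ℝ) = v.re ^ 2 + b * v.re * v.im + c * v.im ^ 2 := by
    simp only [nm]; push_cast; ring
  have hxy := mul_pos hx hy
  have hbxy1 : -(|(b : ℝ)| * v.im * v.re) ≤ b * v.re * v.im := by nlinarith
  have hbxy2 : b * v.re * v.im ≤ |(b : ℝ)| * v.im * v.re := by nlinarith
  have hlo : (v.re : ℝ) / 2 ≤ ‖emb v‖ := by
    apply le_of_sq_le_sq _ hn0.le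
    rw [hn, hnm]
    have : 0 ≤ (c : ℝ) * v.im ^ 2 := by positivity
    nlinarith
  have hhi : ‖emb v‖ ≤ 2 * (v.re : ℝ) := by
    apply le_of_sq_le_sq _ (by positivity)
    rw [hn, hnm]
    have : (c : ℝ) * v.im ^ 2 ≤ v.re * v.re := by nlinarith
    nlinarith
  rw [div_le_iff₀ hn0] at h7
  rw [← mul_div_assoc, le_div_iff₀ hn0] at h8
  have him' : (emb v).im = del b c * v.im := rfl
  rw [him'] at h7 h8
  have ha : 0 ≤ Complex.arg (emb v) := Complex.arg_nonneg_iff.mpr him.le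
  constructor
  · nlinarith
  · nlinarith

theorem flat_of_hasArg {b c : ℤ} (hD : b ^ 2 < 4 * c) (v : O b c) (hv : 0 < nm v) {r : ℝ}
    (h : HasArg (emb v) (Real.pi - 2 * r)) (hr0 : 0 ≤ r) (hr1 : r ≤ 1 / 3)
    (hr2 : 4 * (|(b : ℝ)| * r) ≤ del b c) :
    del b c * |(v.im : ℝ)| ≤ 4 * (r * |(v.re : ℝ)|) ∧ v.re ≠ 0 := by
  have hd := del_pos hD
  have hn := norm_emb_sq hD v
  have hv' : (0 : ℝ) < nm v := by exact_mod_cast hv
  set R := ‖emb v‖ with hR
  have hR0 : 0 < R := by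
    rcases (norm_nonneg (emb v)).lt_or_eq with h0 | h0
    · exact h0
    · rw [hR, ← h0] at hn
      norm_num at hn
      linarith
  unfold HasArg at h
  rw [← hR] at h
  have hre : (emb v).re = R * Real.cos (Real.pi - 2 * r) := by
    rw [h, Complex.re_ofReal_mul, Complex.exp_ofReal_mul_I_re]
  have him : (emb v).im = R * Real.sin (Real.pi - 2 * r) := by
    rw [h, Complex.im_ofReal_mul, Complex.exp_ofReal_mul_I_im]
  rw [Real.cos_pi_sub] at hre
  rw [Real.sin_pi_sub] at him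
  have e1 : (emb v).re = v.re + b / 2 * v.im := rfl
  have e2 : (emb v).im = del b c * v.im := rfl
  have hs1 : Real.sin (2 * r) ≤ 2 * r := Real.sin_le (by linarith)
  have hs0 : 0 ≤ Real.sin (2 * r) := by
    apply Real.sin_nonneg_of_nonneg_of_le_pi (by linarith)
    have := Real.pi_gt_three
    linarith
  have hc1 : 3 / 4 ≤ Real.cos (2 * r) := by
    have := Real.one_sub_sq_div_two_le_cos (x := 2 * r)
    nlinarith
  rw [e2] at him
  rw [e1] at hre
  have himabs : del b c * |(v.im : ℝ)| ≤ 2 * R * r := by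
    rw [← abs_of_pos hd, ← abs_mul, him, abs_of_nonneg (by positivity)]
    nlinarith
  have hbim : |(b : ℝ) / 2 * v.im| ≤ R / 4 := by
    have h1 : del b c * |(b : ℝ) / 2 * v.im| ≤ del b c * (R / 4) := by
      rw [abs_mul, abs_div, abs_two]
      calc del b c * (|(b : ℝ)| / 2 * |(v.im : ℝ)|) = |(b : ℝ)| / 2 * (del b c * |(v.im : ℝ)|) := by ring
        _ ≤ |(b : ℝ)| / 2 * (2 * R * r) := by gcongr
        _ = R / 4 * (4 * (|(b : ℝ)| * r)) := by ring
        _ ≤ R / 4 * del b c := by gcongr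
        _ = _ := by ring
    exact le_of_mul_le_mul_left h1 hd
  have hreabs : R / 2 ≤ |(v.re : ℝ)| := by
    have h1 : (v.re : ℝ) = -(R * Real.cos (2 * r)) - b / 2 * v.im := by linarith
    have h2 : (v.re : ℝ) ≤ -(R / 2) := by
      have := (abs_le.mp hbim).1
      nlinarith
    rw [abs_of_neg (by linarith)]
    linarith
  constructor
  · nlinarith
  · intro h0
    rw [h0] at hreabs
    norm_num at hreabs
    linarith

theorem ell_neg {b c : ℤ} (hD : b ^ 2 < 4 * c) {z : ℝ × ℝ} (hz : 0 < nR b c z) :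
    Ell b c ((4 * c - b ^ 2) / (4 * c)) z := by
  have hD' : (b : ℝ) ^ 2 < 4 * c := by exact_mod_cast hD
  have hc0 : (1 : ℝ) ≤ c := by
    have : 0 < c := by nlinarith [sq_nonneg b]
    exact_mod_cast this
  have hDp : (0 : ℝ) < 4 * c - b ^ 2 := by linarith
  constructor
  · by_contra hcon
    push Not at hcon
    have h1 : |z.1| ≤ 0 := (le_max_left _ _).trans hcon
    have h2 : |z.2| ≤ 0 := (le_max_right _ _).trans hcon
    have h3 : z.1 = 0 := abs_nonpos_iff.mp h1
    have h4 : z.2 = 0 := abs_nonpos_iff.mp h2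
    unfold nR at hz
    rw [h3, h4] at hz
    norm_num at hz
  · rw [div_mul_eq_mul_div, div_le_iff₀ (by linarith)]
    unfold sz nR
    rcases le_total |z.1| |z.2| with h | h
    · rw [max_eq_right h, sq_abs]
      have h5 : (4 * (c : ℝ) - b ^ 2) * z.2 ^ 2 ≤ 4 * (z.1 ^ 2 + b * z.1 * z.2 + c * z.2 ^ 2) := by
        nlinarith [sq_nonneg (2 * z.1 + b * z.2)]
      have h6 : 0 ≤ 4 * (z.1 ^ 2 + b * z.1 * z.2 + (c : ℝ) * z.2 ^ 2) := by
        refine le_trans ?_ h5
        positivity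
      nlinarith
    · rw [max_eq_left h, sq_abs]
      nlinarith [sq_nonneg (2 * c * z.2 + b * z.1)]

theorem nm_factor_le {b c : ℤ} {P j K : ℕ} (hj : j ≤ K) (hP : K + 1 ≤ P)
    (hP2 : 4 + 2 * |(b : ℝ)| + |(c : ℝ)| ≤ P) : (ff b c (P + j) : ℝ) ≤ (P : ℝ) ^ 3 := by
  have h1 : (1 : ℝ) ≤ P := by
    have : 1 ≤ P := by omega
    exact_mod_cast this
  have h2 : (j : ℝ) ≤ P := by
    have : j ≤ P := by omega
    exact_mod_cast this
  have h3 : (0 : ℝ) ≤ j := Nat.cast_nonneg _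
  have hb := abs_nonneg (b : ℝ)
  have hc := abs_nonneg (c : ℝ)
  have hb2 := le_abs_self (b : ℝ)
  have hc2 := le_abs_self (c : ℝ)
  have e1 : (ff b c (P + j) : ℝ) = ((P : ℝ) + j) ^ 2 + b * (P + j) + c := by
    simp only [ff]; push_cast; ring
  rw [e1]
  have e2 : ((P : ℝ) + j) ^ 2 ≤ 4 * P ^ 2 := by nlinarith
  have e3 : (b : ℝ) * (P + j) ≤ 2 * |(b : ℝ)| * P ^ 2 := by
    calc (b : ℝ) * (P + j) ≤ |(b : ℝ)| * (P + j) := by gcongr
      _ ≤ |(b : ℝ)| * (2 * P ^ 2) := by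
        apply mul_le_mul_of_nonneg_left _ hb
        nlinarith
      _ = _ := by ring
  have e4 : (c : ℝ) ≤ |(c : ℝ)| * P ^ 2 :=
    hc2.trans (le_mul_of_one_le_right hc (by nlinarith))
  have hPP : (0 : ℝ) ≤ (P : ℝ) ^ 2 := by positivity
  calc _ ≤ (4 + 2 * |(b : ℝ)| + |(c : ℝ)|) * (P : ℝ) ^ 2 := by linarith
    _ ≤ P * (P : ℝ) ^ 2 := by gcongr
    _ = _ := by ring

theorem build_neg {b c : ℤ} (hD : b ^ 2 < 4 * c) (K : ℕ) : ∃ A c0 : ℝ, 0 < A ∧ 0 < c0 ∧ c0 ≤ 1 ∧
    ∀ᶠ P : ℕ in atTop, Rot b c K A c0 2 P := by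
  have hD' : (b : ℝ) ^ 2 < 4 * c := by exact_mod_cast hD
  have hc0 : (1 : ℝ) ≤ c := by
    have : 0 < c := by nlinarith [sq_nonneg b]
    exact_mod_cast this
  have hns : ¬ IsSquare (b ^ 2 - 4 * c) := by
    rintro ⟨r, hr⟩
    nlinarith [mul_self_nonneg r]
  obtain ⟨v0, hv1, hv2⟩ := exists_v0 b c hns
  have hd := del_pos hD
  set δ := del b c with hδ
  set M : ℝ := (K.factorial : ℝ) with hM
  have hM1 : 1 ≤ M := by
    rw [hM]; exact_mod_cast K.factorial_pos
  set c1 : ℝ := δ / 4 with hc1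
  set c2 : ℝ := 8 * δ * M + 4 with hc2
  have hc1p : 0 < c1 := by positivity
  have hc2p : 0 < c2 := by positivity
  set A : ℝ := 1 + 2 * (K + 1) * 2 ^ K * (c2 / c1) + 4 * c2 / δ with hA
  have hA1 : 0 < A := by positivity
  refine ⟨A, (4 * c - b ^ 2) / (4 * c), hA1, by apply div_pos <;> linarith, ?_, ?_⟩
  · rw [div_le_one (by linarith)]
    nlinarith [sq_nonneg (b : ℝ)]
  have hev : ∀ᶠ P : ℕ in atTop, ∀ m ∈ Set.Iic K,
      0 < (Bm b c m P).re ∧ 0 < (Bm b c m P).im ∧
      ((Bm b c m P).re : ℝ) ≤ 2 * ((Bm b c m P).im * (P : ℝ) ^ (m + 1)) ∧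
      ((Bm b c m P).im : ℝ) * (P : ℝ) ^ (m + 1) ≤ 2 * m.factorial * (Bm b c m P).re :=
    (eventually_all_finite (Set.finite_Iic K)).mpr (fun m _ => eventually_Bm b c m)
  have hbig : ∀ x : ℝ, ∀ᶠ P : ℕ in atTop, x ≤ P := fun x =>
    tendsto_natCast_atTop_atTop.eventually_ge_atTop x
  filter_upwards [hev, hbig (kap b c * (2 * M)), hbig (4 + 2 * |(b : ℝ)| + |(c : ℝ)|),
    hbig (nm v0), hbig (3 * c2), hbig (4 * |(b : ℝ)| * c2 / δ), eventually_ge_atTop (K + 1)]
    with P hB hP1 hP2 hP3 hP4 hP5 hP6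
  have hPr : (1 : ℝ) ≤ P := by
    have : 1 ≤ P := by omega
    exact_mod_cast this
  have hP0 : (0 : ℝ) < P := by linarith
  set a : ℕ → ℝ := fun m => Complex.arg (emb (Bm b c m P)) with ha
  have hab : ∀ m ≤ K, c1 ≤ a m * (P : ℝ) ^ (m + 1) ∧ a m * (P : ℝ) ^ (m + 1) ≤ c2 := by
    intro m hm
    obtain ⟨g1, g2, g3, g4⟩ := hB m hm
    have hmf : (m.factorial : ℝ) ≤ M := by
      rw [hM]; exact_mod_cast Nat.factorial_le hm
    have hx : (0 : ℝ) < (Bm b c m P).re := by exact_mod_cast g1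
    have hy : (0 : ℝ) < (Bm b c m P).im := by exact_mod_cast g2
    have hpow : (0 : ℝ) < (P : ℝ) ^ (m + 1) := by positivity
    have hpow1 : (P : ℝ) ≤ (P : ℝ) ^ (m + 1) := le_self_pow₀ hPr (by omega)
    have g4' : ((Bm b c m P).im : ℝ) * (P : ℝ) ^ (m + 1) ≤ 2 * M * (Bm b c m P).re := by
      refine g4.trans ?_
      gcongr
    have hflat : 4 * (1 + |(b : ℝ)| + |(c : ℝ)|) * (Bm b c m P).im ≤ (Bm b c m P).re := by
      have hk : 4 * (1 + |(b : ℝ)| + |(c : ℝ)|) = kap b c := rfl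
      rw [hk]
      have hk0 : 0 < kap b c := by have := four_le_kap b c; linarith
      apply le_of_mul_le_mul_right _ hpow
      calc kap b c * (Bm b c m P).im * (P : ℝ) ^ (m + 1)
          = kap b c * ((Bm b c m P).im * (P : ℝ) ^ (m + 1)) := by ring
        _ ≤ kap b c * (2 * M * (Bm b c m P).re) := by gcongr
        _ = kap b c * (2 * M) * (Bm b c m P).re := by ring
        _ ≤ P * (Bm b c m P).re := by gcongr
        _ ≤ (P : ℝ) ^ (m + 1) * (Bm b c m P).re := by gcongr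
        _ = _ := by ring
    obtain ⟨f1, f2⟩ := arg_flat hD (Bm b c m P) g1 g2 hflat
    constructor
    · apply le_of_mul_le_mul_left _ hx
      calc ((Bm b c m P).re : ℝ) * c1 = δ / 4 * (Bm b c m P).re := by rw [hc1]; ring
        _ ≤ δ / 4 * (2 * ((Bm b c m P).im * (P : ℝ) ^ (m + 1))) := by gcongr
        _ = (δ * (Bm b c m P).im) * (P : ℝ) ^ (m + 1) / 2 := by ring
        _ ≤ (2 * ((Bm b c m P).re * a m)) * (P : ℝ) ^ (m + 1) / 2 := by gcongr
        _ = _ := by ring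
    · apply le_of_mul_le_mul_left _ hx
      calc ((Bm b c m P).re : ℝ) * (a m * (P : ℝ) ^ (m + 1))
          = ((Bm b c m P).re * a m) * (P : ℝ) ^ (m + 1) := by ring
        _ ≤ (4 * (δ * (Bm b c m P).im)) * (P : ℝ) ^ (m + 1) := by gcongr
        _ = 4 * δ * ((Bm b c m P).im * (P : ℝ) ^ (m + 1)) := by ring
        _ ≤ 4 * δ * (2 * M * (Bm b c m P).re) := by gcongr
        _ ≤ (Bm b c m P).re * c2 := by rw [hc2]; linarith
  have hapos : ∀ m ≤ K, 0 < a m := by
    intro m hm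
    have hpow : (0 : ℝ) < (P : ℝ) ^ (m + 1) := by positivity
    exact (mul_pos_iff_of_pos_right hpow).mp (lt_of_lt_of_le hc1p (hab m hm).1)
  set x : ℝ := (Real.pi - Complex.arg (emb v0)) / 2 with hx
  have hx0 : 0 ≤ x := by
    have := Complex.arg_le_pi (emb v0)
    rw [hx]; linarith
  have hx1 : x ≤ c2 := by
    have h1 := Complex.neg_pi_lt_arg (emb v0)
    have h2 := Real.pi_le_four
    rw [hx, hc2]
    have : 0 < 8 * δ * M := by positivity
    linarith
  obtain ⟨k, k1, k2, k3, k4⟩ := greedy a x hx0 K hapos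
  have hk := digits_le (c1 := c1) (c2 := c2) (P := P) hc1p hx1 hPr (fun m hm => (hab m hm).1)
    (fun m hm => (hab m hm).2) k1 k2
  have hlen := LL_length_le b c v0 k P K (A := c2 / c1) (by positivity) (by omega) hk
  have hmem : ∀ μ ∈ LL b c v0 k P K, 0 < nm μ ∧ (nm μ : ℝ) ≤ (P : ℝ) ^ 3 := by
    intro μ hμ
    rcases LL_mem b c v0 k P K hμ with h | ⟨j, hj, hj'⟩
    · rw [h]
      refine ⟨hv2, hP3.trans (le_self_pow₀ hPr (by norm_num))⟩
    · rw [hj']
      constructor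
      · have : 0 < 4 * ff b c (P + j) := by
          simp only [ff]
          nlinarith [sq_nonneg (2 * ((P : ℤ) + j) + b)]
        omega
      · exact nm_factor_le hj (by omega) hP2
  have hprodpos := nm_prod_pos _ (fun μ hμ => (hmem μ hμ).1)
  set r : ℝ := x - ∑ m ∈ range (K + 1), k m * a m with hr
  have harg := hasArg_LL hD v0 k P K
  have hTheta : Complex.arg (emb v0) + 2 * ∑ m ∈ range (K + 1), k m * Complex.arg (emb (Bm b c m P)) =
      Real.pi - 2 * r := by
    rw [hr, hx]; ring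
  rw [hTheta] at harg
  have hrP : r * (P : ℝ) ^ (K + 1) ≤ c2 := by
    have h1 := (hab K le_rfl).2
    have hpow : (0 : ℝ) < (P : ℝ) ^ (K + 1) := by positivity
    have h2 := mul_le_mul_of_nonneg_right k4.le hpow.le
    linarith
  have hrP1 : r * P ≤ c2 := by
    have hpow1 : (P : ℝ) ≤ (P : ℝ) ^ (K + 1) := le_self_pow₀ hPr (by omega)
    exact (mul_le_mul_of_nonneg_left hpow1 k3).trans hrP
  have hr1 : r ≤ 1 / 3 := by
    by_contra hcon
    push Not at hcon
    have := mul_lt_mul_of_pos_right hcon hP0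
    linarith
  have hr2 : 4 * (|(b : ℝ)| * r) ≤ δ := by
    rw [div_le_iff₀ hd] at hP5
    apply le_of_mul_le_mul_right _ hP0
    calc 4 * (|(b : ℝ)| * r) * P = 4 * |(b : ℝ)| * (r * P) := by ring
      _ ≤ 4 * |(b : ℝ)| * c2 := by gcongr
      _ ≤ P * δ := hP5
      _ = _ := by ring
  obtain ⟨hf1, hf2⟩ := flat_of_hasArg hD _ hprodpos harg k3 hr1 hr2
  refine ⟨LL b c v0 k P K, ?_, hmem, ?_, ?_, hf2, ?_⟩
  · refine hlen.trans ?_
    apply mul_le_mul_of_nonneg_right _ hP0.le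
    rw [hA]
    have : 0 < 4 * c2 / δ := by positivity
    linarith
  · intro i _ s hs0 hs1
    apply ell_neg hD
    rw [nR_act]
    have h1 : 0 < nm ((LL b c v0 k P K).take i).prod :=
      nm_prod_pos _ (fun μ hμ => (hmem μ (List.mem_of_mem_take hμ)).1)
    have h2 : (0 : ℝ) < nm ((LL b c v0 k P K).take i).prod := by exact_mod_cast h1
    apply mul_pos h2
    simp only [nR, z0]
    nlinarith [sq_nonneg (2 * c * s + b * 2)]
  · apply le_of_mul_le_mul_left _ hd
    calc δ * (|((LL b c v0 k P K).prod.im : ℝ)| * (P : ℝ) ^ (K + 1))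
        = (δ * |((LL b c v0 k P K).prod.im : ℝ)|) * (P : ℝ) ^ (K + 1) := by ring
      _ ≤ (4 * (r * |((LL b c v0 k P K).prod.re : ℝ)|)) * (P : ℝ) ^ (K + 1) := by gcongr
      _ = 4 * |((LL b c v0 k P K).prod.re : ℝ)| * (r * (P : ℝ) ^ (K + 1)) := by ring
      _ ≤ 4 * |((LL b c v0 k P K).prod.re : ℝ)| * c2 := by gcongr
      _ = δ * ((4 * c2 / δ) * |((LL b c v0 k P K).prod.re : ℝ)|) := by field_simp
      _ ≤ δ * (A * |((LL b c v0 k P K).prod.re : ℝ)|) := by
          apply mul_le_mul_of_nonneg_left _ hd.le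
          apply mul_le_mul_of_nonneg_right _ (abs_nonneg _)
          rw [hA]
          have : 0 < 1 + 2 * (K + 1 : ℝ) * 2 ^ K * (c2 / c1) := by positivity
          linarith
  · rw [hh_LL, hv1]
    · norm_num
    · intro m hm
      have h1 := (hB m hm).1
      intro h0
      have h2 := norm_emb_sq hD (Bm b c m P)
      rw [h0, Int.cast_zero] at h2
      have h3 : emb (Bm b c m P) = 0 := by
        rw [← norm_eq_zero]
        exact pow_eq_zero_iff two_ne_zero |>.mp h2
      have h4 := hapos m hm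
      rw [ha] at h4
      simp only [h3, Complex.arg_zero, lt_irrefl] at h4

end

end Pool.Agent.Lib.MP_648c71_nt
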