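import Mathlib
import Pool.Agent.Lib.MP_648c71_nt.BuildNeg

/-!
# The rotation in the case of positive non-square discriminant
-/

namespace Pool.Agent.Lib.MP_648c71_nt

open Finset Filter Topology

noncomputable section

/-- square root of the discriminant -/
def rr (b c : ℤ) : ℝ := Real.sqrt ((b : ℝ) ^ 2 - 4 * c)

/-- the larger root -/
def w1 (b c : ℤ) : ℝ := (b + rr b c) / 2

/-- the smaller root -/
def w2 (b c : ℤ) : ℝ := (b - rr b c) / 2

section

variable {b c : ℤ}

theorem rr_sq (hD : 4 * c < b ^ 2) : rr b c ^ 2 = (b : ℝ) ^ 2 - 4 * c := by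
  have h : (4 : ℝ) * c < b ^ 2 := by exact_mod_cast hD
  unfold rr
  rw [Real.sq_sqrt (by linarith)]

theorem rr_pos (hD : 4 * c < b ^ 2) : 0 < rr b c := by
  have h : (4 : ℝ) * c < b ^ 2 := by exact_mod_cast hD
  unfold rr
  apply Real.sqrt_pos_of_pos
  linarith

theorem rr_le (hD : 4 * c < b ^ 2) : rr b c ≤ 1 + |(b : ℝ)| + |(c : ℝ)| := by
  have h1 := rr_sq hD
  have h2 := rr_pos hD
  have hb := abs_nonneg (b : ℝ)
  have hc := abs_nonneg (c : ℝ)
  apply le_of_sq_le_sq _ (by positivity)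
  rw [h1]
  have h3 : (b : ℝ) ^ 2 = |(b : ℝ)| ^ 2 := (sq_abs _).symm
  have h4 := neg_abs_le (c : ℝ)
  rw [h3]
  nlinarith [sq_nonneg (1 - |(c : ℝ)|)]

theorem abs_w1_le (hD : 4 * c < b ^ 2) : |w1 b c| ≤ 1 + |(b : ℝ)| + |(c : ℝ)| := by
  have h1 := rr_le hD
  have h2 := rr_pos hD
  have h3 := neg_abs_le (b : ℝ)
  have h4 := le_abs_self (b : ℝ)
  have hc := abs_nonneg (c : ℝ)
  unfold w1
  rw [abs_le]
  constructor <;> linarith

theorem abs_w2_le (hD : 4 * c < b ^ 2) : |w2 b c| ≤ 1 + |(b : ℝ)| + |(c : ℝ)| := by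
  have h1 := rr_le hD
  have h2 := rr_pos hD
  have h3 := neg_abs_le (b : ℝ)
  have h4 := le_abs_self (b : ℝ)
  have hc := abs_nonneg (c : ℝ)
  unfold w2
  rw [abs_le]
  constructor <;> linarith

/-- the two real embeddings of real vectors -/
def q1 (b c : ℤ) (z : ℝ × ℝ) : ℝ := z.1 + z.2 * w1 b c

/-- the two real embeddings of real vectors -/
def q2 (b c : ℤ) (z : ℝ × ℝ) : ℝ := z.1 + z.2 * w2 b c

/-- the two real embeddings -/
def p1 (v : O b c) : ℝ := v.re + v.im * w1 b c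

/-- the two real embeddings -/
def p2 (v : O b c) : ℝ := v.re + v.im * w2 b c

theorem w_mul (hD : 4 * c < b ^ 2) : w1 b c * w2 b c = c := by
  have h := rr_sq hD
  unfold w1 w2
  linear_combination (-1 / 4 : ℝ) * h

theorem w_add : w1 b c + w2 b c = b := by
  unfold w1 w2; ring

theorem w_sub : w1 b c - w2 b c = rr b c := by
  unfold w1 w2; ring

theorem w1_sq (hD : 4 * c < b ^ 2) : w1 b c ^ 2 = b * w1 b c - c := by
  have h := rr_sq hD
  unfold w1
  linear_combination (1 / 4 : ℝ) * h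

theorem w2_sq (hD : 4 * c < b ^ 2) : w2 b c ^ 2 = b * w2 b c - c := by
  have h := rr_sq hD
  unfold w2
  linear_combination (1 / 4 : ℝ) * h

theorem p1_mul (hD : 4 * c < b ^ 2) (v w : O b c) : p1 (v * w) = p1 v * p1 w := by
  have h := w1_sq hD
  simp only [p1, QuadraticAlgebra.re_mul, QuadraticAlgebra.im_mul]
  push_cast
  linear_combination (-(v.im : ℝ) * w.im) * h

theorem p2_mul (hD : 4 * c < b ^ 2) (v w : O b c) : p2 (v * w) = p2 v * p2 w := by
  have h := w2_sq hD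
  simp only [p2, QuadraticAlgebra.re_mul, QuadraticAlgebra.im_mul]
  push_cast
  linear_combination (-(v.im : ℝ) * w.im) * h

theorem p_mul (hD : 4 * c < b ^ 2) (v : O b c) : p1 v * p2 v = nm v := by
  have h1 := w_mul hD
  have h2 := w_add (b := b) (c := c)
  simp only [p1, p2, nm]
  push_cast
  linear_combination (v.re : ℝ) * v.im * h2 + (v.im : ℝ) ^ 2 * h1

theorem q_mul (hD : 4 * c < b ^ 2) (z : ℝ × ℝ) : q1 b c z * q2 b c z = nR b c z := by
  have h1 := w_mul hD
  have h2 := w_add (b := b) (c := c)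
  simp only [q1, q2, nR]
  linear_combination z.1 * z.2 * h2 + z.2 ^ 2 * h1

theorem q1_act (hD : 4 * c < b ^ 2) (μ : O b c) (z : ℝ × ℝ) :
    q1 b c (act μ z) = p1 μ * q1 b c z := by
  have h := w1_sq hD
  simp only [q1, p1, act]
  linear_combination (-(μ.im : ℝ) * z.2) * h

theorem q2_act (hD : 4 * c < b ^ 2) (μ : O b c) (z : ℝ × ℝ) :
    q2 b c (act μ z) = p2 μ * q2 b c z := by
  have h := w2_sq hD
  simp only [q2, p2, act]
  linear_combination (-(μ.im : ℝ) * z.2) * h

theorem p1_star (v : O b c) : p1 (star v) = p2 v := by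
  have h2 := w_add (b := b) (c := c)
  simp only [p1, p2, QuadraticAlgebra.re_star, QuadraticAlgebra.im_star]
  push_cast
  linear_combination (-(v.im : ℝ)) * h2

theorem p2_star (v : O b c) : p2 (star v) = p1 v := by
  have h2 := w_add (b := b) (c := c)
  simp only [p1, p2, QuadraticAlgebra.re_star, QuadraticAlgebra.im_star]
  push_cast
  linear_combination (-(v.im : ℝ)) * h2

/-- the logarithm of the ratio of the two embeddings -/
def Lg (v : O b c) : ℝ := Real.log (p1 v) - Real.log (p2 v)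

theorem p_ne_zero (hD : 4 * c < b ^ 2) {v : O b c} (hv : nm v ≠ 0) : p1 v ≠ 0 ∧ p2 v ≠ 0 := by
  have h := p_mul hD v
  have h2 : (nm v : ℝ) ≠ 0 := by exact_mod_cast hv
  rw [← h] at h2
  exact mul_ne_zero_iff.mp h2

theorem Lg_mul (hD : 4 * c < b ^ 2) {v w : O b c} (hv : nm v ≠ 0) (hw : nm w ≠ 0) :
    Lg (v * w) = Lg v + Lg w := by
  obtain ⟨h1, h2⟩ := p_ne_zero hD hv
  obtain ⟨h3, h4⟩ := p_ne_zero hD hw
  unfold Lg
  rw [p1_mul hD, p2_mul hD, Real.log_mul h1 h3, Real.log_mul h2 h4]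
  ring

theorem Lg_star (v : O b c) : Lg (star v) = -Lg v := by
  unfold Lg
  rw [p1_star, p2_star]; ring

theorem Lg_one : Lg (1 : O b c) = 0 := by
  simp [Lg, p1, p2, QuadraticAlgebra.re_one, QuadraticAlgebra.im_one]

theorem nm_pow_ne {v : O b c} (hv : nm v ≠ 0) (n : ℕ) : nm (v ^ n) ≠ 0 := by
  induction n with
  | zero => rw [pow_zero, nm_one]; exact one_ne_zero
  | succ n ih => rw [pow_succ, nm_mul]; exact mul_ne_zero ih hv

theorem Lg_pow (hD : 4 * c < b ^ 2) {v : O b c} (hv : nm v ≠ 0) (n : ℕ) :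
    Lg (v ^ n) = n * Lg v := by
  induction n with
  | zero => rw [pow_zero, Lg_one]; simp
  | succ n ih => rw [pow_succ, Lg_mul hD (nm_pow_ne hv n) hv, ih]; push_cast; ring

theorem Lg_prod_le (hD : 4 * c < b ^ 2) (l : List (O b c)) (h : ∀ μ ∈ l, nm μ ≠ 0) {M : ℝ}
    (hM : ∀ μ ∈ l, |Lg μ| ≤ M) : |Lg l.prod| ≤ l.length * M := by
  induction l with
  | nil => rw [List.prod_nil, Lg_one]; simp
  | cons a l ih =>
    have hne : nm l.prod ≠ 0 := by
      have : ∀ l : List (O b c), (∀ μ ∈ l, nm μ ≠ 0) → nm l.prod ≠ 0 := by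
        intro l
        induction l with
        | nil => intro _; rw [List.prod_nil, nm_one]; exact one_ne_zero
        | cons a l ih =>
          intro h
          rw [List.prod_cons, nm_mul]
          exact mul_ne_zero (h a (by simp)) (ih (fun μ hμ => h μ (by simp [hμ])))
      exact this l (fun μ hμ => h μ (by simp [hμ]))
    rw [List.prod_cons, Lg_mul hD (h a (by simp)) hne, List.length_cons]
    have h1 := ih (fun μ hμ => h μ (by simp [hμ])) (fun μ hμ => hM μ (by simp [hμ]))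
    have h2 := hM a (by simp)
    calc |Lg a + Lg l.prod| ≤ |Lg a| + |Lg l.prod| := abs_add_le _ _
      _ ≤ M + l.length * M := add_le_add h2 h1
      _ = _ := by push_cast; ring

theorem Lg_LL (hD : 4 * c < b ^ 2) (v0 : O b c) (hv0 : nm v0 ≠ 0) (k : ℕ → ℕ) (P : ℤ) (K : ℕ)
    (h : ∀ m ≤ K, nm (Bm b c m P) ≠ 0) :
    nm (LL b c v0 k P K).prod ≠ 0 ∧ Lg (LL b c v0 k P K).prod = Lg v0 +
      2 * ∑ m ∈ range (K + 1), k m * Lg (Bm b c m P) := by
  rw [LL_prod]
  induction K with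
  | zero =>
    have h0 := h 0 le_rfl
    rw [Finset.prod_range_one, Finset.sum_range_one]
    refine ⟨?_, ?_⟩
    · rw [nm_mul]; exact mul_ne_zero hv0 (nm_pow_ne h0 _)
    · rw [Lg_mul hD hv0 (nm_pow_ne h0 _), Lg_pow hD h0]
      push_cast; ring
  | succ K ih =>
    have h0 := h (K + 1) le_rfl
    obtain ⟨i1, i2⟩ := ih (fun m hm => h m (by omega))
    rw [Finset.prod_range_succ, Finset.sum_range_succ, ← mul_assoc]
    refine ⟨?_, ?_⟩
    · rw [nm_mul]; exact mul_ne_zero i1 (nm_pow_ne h0 _)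
    · rw [Lg_mul hD i1 (nm_pow_ne h0 _), Lg_pow hD h0, i2]
      push_cast; ring

theorem log_one_add_bounds {u : ℝ} (h0 : 0 ≤ u) (h1 : u ≤ 1) :
    u / 2 ≤ Real.log (1 + u) ∧ Real.log (1 + u) ≤ u := by
  constructor
  · have h2 := Real.one_sub_inv_le_log_of_pos (show 0 < 1 + u by linarith)
    refine le_trans ?_ h2
    have h3 : 1 - (1 + u)⁻¹ = u / (1 + u) := by field_simp; ring
    rw [h3, div_le_div_iff₀ (by norm_num) (by linarith)]
    nlinarith
  · have h2 := Real.log_le_sub_one_of_pos (show 0 < 1 + u by linarith)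
    linarith

/-- log-ratio of vectors with small slope -/
theorem Lg_flat (hD : 4 * c < b ^ 2) (v : O b c) (h1 : 0 < v.re) (h2 : 0 < v.im)
    (h3 : 4 * (1 + |(b : ℝ)| + |(c : ℝ)|) * v.im ≤ v.re) :
    rr b c * v.im ≤ 4 * (v.re * Lg v) ∧ v.re * Lg v ≤ 2 * (rr b c * v.im) ∧
      0 < p1 v ∧ 0 < p2 v := by
  have hr := rr_pos hD
  have hx : (0 : ℝ) < v.re := by exact_mod_cast h1
  have hy : (0 : ℝ) < v.im := by exact_mod_cast h2
  set S := 1 + |(b : ℝ)| + |(c : ℝ)| with hS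
  have hw1 := abs_le.mp (abs_w1_le hD)
  have hw2 := abs_le.mp (abs_w2_le hD)
  rw [← hS] at hw1 hw2
  have e2 : -(v.re / 4) ≤ v.im * w2 b c := by nlinarith
  have e2' : v.im * w2 b c ≤ v.re / 4 := by nlinarith
  have hp2 : (3 / 4 : ℝ) * v.re ≤ p2 v := by unfold p2; linarith
  have hp2' : p2 v ≤ (5 / 4 : ℝ) * v.re := by unfold p2; linarith
  have hp2pos : 0 < p2 v := by linarith
  have hp12 : p1 v = p2 v + rr b c * v.im := by
    have := w_sub (b := b) (c := c)
    unfold p1 p2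
    rw [← this]; ring
  have hry : 0 < rr b c * v.im := by positivity
  have hp1pos : 0 < p1 v := by rw [hp12]; linarith
  have hrS := rr_le hD
  rw [← hS] at hrS
  have hry2 : rr b c * v.im ≤ v.re / 4 := by nlinarith
  set u := rr b c * v.im / p2 v with hu
  have hu0 : 0 ≤ u := by positivity
  have hu1 : u ≤ 1 := by
    rw [hu, div_le_one hp2pos]; linarith
  have hLg : Lg v = Real.log (1 + u) := by
    unfold Lg
    rw [← Real.log_div hp1pos.ne' hp2pos.ne', hp12, hu]
    congr 1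
    field_simp
  obtain ⟨g1, g2⟩ := log_one_add_bounds hu0 hu1
  rw [← hLg] at g1 g2
  have hup : u * p2 v = rr b c * v.im := by rw [hu]; field_simp
  refine ⟨?_, ?_, hp1pos, hp2pos⟩
  · calc rr b c * v.im = u * p2 v := hup.symm
      _ ≤ u * (5 / 4 * v.re) := by gcongr
      _ ≤ (2 * Lg v) * (5 / 4 * v.re) := by
          apply mul_le_mul_of_nonneg_right _ (by positivity)
          linarith
      _ ≤ 4 * (v.re * Lg v) := by
          have : 0 ≤ Lg v := by linarith
          nlinarith [mul_nonneg this hx.le]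
  · calc v.re * Lg v ≤ v.re * u := by gcongr
      _ = u * v.re := by ring
      _ ≤ u * (2 * p2 v) := by
          apply mul_le_mul_of_nonneg_left _ hu0
          linarith
      _ = _ := by rw [← hup]; ring

theorem fl_mem2 (b c : ℤ) (m : ℕ) (n : ℤ) {μ : O b c} (h : μ ∈ fl b c m n) :
    ∃ j : ℕ, j ≤ m ∧ (μ = ⟨n + j, 1⟩ ∨ μ = star ⟨n + j, 1⟩) := by
  induction m generalizing n μ with
  | zero =>
    simp only [fl, List.mem_singleton] at h
    refine ⟨0, le_rfl, Or.inl ?_⟩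
    rw [h]; simp
  | succ m ih =>
    simp only [fl, List.mem_append, List.mem_map] at h
    rcases h with ⟨ν, hν, rfl⟩ | h
    · obtain ⟨j, hj, hj'⟩ := ih (n + 1) hν
      have e : n + 1 + (j : ℤ) = n + ((j + 1 : ℕ) : ℤ) := by push_cast; ring
      rw [e] at hj'
      refine ⟨j + 1, by omega, ?_⟩
      rcases hj' with hj' | hj'
      · right; rw [hj']
      · left; rw [hj', star_star]
    · obtain ⟨j, hj, hj'⟩ := ih n h
      exact ⟨j, by omega, hj'⟩

theorem flat_of_Lg (hD : 4 * c < b ^ 2) (v : O b c) (hv : 0 < nm v) {r : ℝ}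
    (h : Lg v = -(2 * r)) (hr0 : 0 ≤ r) (hr2 : 4 * ((1 + |(b : ℝ)| + |(c : ℝ)|) * r) ≤ rr b c) :
    rr b c * |(v.im : ℝ)| ≤ 4 * (r * |(v.re : ℝ)|) ∧ v.re ≠ 0 := by
  have hd := rr_pos hD
  have hv' : (0 : ℝ) < nm v := by exact_mod_cast hv
  have hp := p_mul hD v
  obtain ⟨h1, h2⟩ := p_ne_zero hD hv.ne'
  rw [← hp] at hv'
  set S := 1 + |(b : ℝ)| + |(c : ℝ)| with hS
  have hS0 : 0 < S := by positivity
  have hratio : 0 < p1 v / p2 v := by
    have : p1 v / p2 v = p1 v * p2 v / p2 v ^ 2 := by field_simp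
    rw [this]
    positivity
  have hlog : Real.log (p1 v / p2 v) = -(2 * r) := by
    rw [Real.log_div h1 h2]; exact h
  have hexp : p1 v = p2 v * Real.exp (-(2 * r)) := by
    rw [← hlog, Real.exp_log hratio]; field_simp
  have hE1 : Real.exp (-(2 * r)) ≤ 1 := Real.exp_le_one_iff.mpr (by linarith)
  have hE2 : 1 - 2 * r ≤ Real.exp (-(2 * r)) := by
    have := Real.add_one_le_exp (-(2 * r))
    linarith
  have hdiff : p1 v - p2 v = rr b c * v.im := by
    have := w_sub (b := b) (c := c)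
    unfold p1 p2
    rw [← this]; ring
  have him : rr b c * |(v.im : ℝ)| ≤ 2 * r * |p2 v| := by
    rw [← abs_of_pos hd, ← abs_mul, ← hdiff, hexp]
    have : p2 v * Real.exp (-(2 * r)) - p2 v = -(p2 v * (1 - Real.exp (-(2 * r)))) := by ring
    rw [this, abs_neg, abs_mul, abs_of_nonneg (show 0 ≤ 1 - Real.exp (-(2 * r)) by linarith)]
    nlinarith [abs_nonneg (p2 v)]
  have hp2 : 0 < |p2 v| := abs_pos.mpr h2
  have hbound : |(v.im : ℝ) * w2 b c| ≤ |p2 v| / 2 := by
    rw [abs_mul]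
    apply le_of_mul_le_mul_left _ hd
    calc rr b c * (|(v.im : ℝ)| * |w2 b c|) = (rr b c * |(v.im : ℝ)|) * |w2 b c| := by ring
      _ ≤ (2 * r * |p2 v|) * S := by
          have := abs_w2_le hD
          gcongr
      _ = (4 * (S * r)) * (|p2 v| / 2) := by ring
      _ ≤ rr b c * (|p2 v| / 2) := by gcongr
  have hre : |p2 v| / 2 ≤ |(v.re : ℝ)| := by
    have e : p2 v = v.re + v.im * w2 b c := rfl
    have h3 : |p2 v| ≤ |(v.re : ℝ)| + |(v.im : ℝ) * w2 b c| := by
      rw [e]; exact abs_add_le _ _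
    linarith
  constructor
  · nlinarith
  · intro h0
    rw [h0, Int.cast_zero, abs_zero] at hre
    linarith

theorem ell_pos' (hD : 4 * c < b ^ 2) {z : ℝ × ℝ} (hz : 0 < nR b c z) {M : ℝ}
    (hM : |Real.log (q1 b c z) - Real.log (q2 b c z)| ≤ M) :
    Ell b c (1 / ((1 + 2 * (1 + |(b : ℝ)| + |(c : ℝ)|) / rr b c) ^ 2 * Real.exp M)) z := by
  have hd := rr_pos hD
  set S := 1 + |(b : ℝ)| + |(c : ℝ)| with hS
  have hS1 : 1 ≤ S := by
    rw [hS]
    have hb := abs_nonneg (b : ℝ)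
    have hc := abs_nonneg (c : ℝ)
    linarith
  have hq := q_mul hD z
  rw [← hq] at hz
  have hq1 : q1 b c z ≠ 0 := by
    intro h; rw [h, zero_mul] at hz; exact lt_irrefl _ hz
  have hq2 : q2 b c z ≠ 0 := by
    intro h; rw [h, mul_zero] at hz; exact lt_irrefl _ hz
  set m : ℝ := max |q1 b c z| |q2 b c z| with hm
  have hm1 : |q1 b c z| ≤ m := le_max_left _ _
  have hm2 : |q2 b c z| ≤ m := le_max_right _ _
  have hm0 : 0 < m := lt_of_lt_of_le (abs_pos.mpr hq1) hm1
  have e1 : rr b c * z.2 = q1 b c z - q2 b c z := by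
    have := w_sub (b := b) (c := c)
    unfold q1 q2
    rw [← this]; ring
  have hz2 : rr b c * |z.2| ≤ 2 * m := by
    rw [← abs_of_pos hd, ← abs_mul, e1]
    calc |q1 b c z - q2 b c z| ≤ |q1 b c z| + |q2 b c z| := abs_sub _ _
      _ ≤ _ := by linarith
  have hz2' : |z.2| ≤ 2 * m / rr b c := by
    rw [le_div_iff₀ hd]; linarith
  have hz1 : |z.1| ≤ m + 2 * m / rr b c * S := by
    have e : z.1 = q1 b c z - z.2 * w1 b c := by unfold q1; ring
    calc |z.1| = |q1 b c z - z.2 * w1 b c| := by rw [← e]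
      _ ≤ |q1 b c z| + |z.2 * w1 b c| := abs_sub _ _
      _ ≤ m + 2 * m / rr b c * S := by
          rw [abs_mul]
          have := abs_w1_le hD
          gcongr
  set C : ℝ := 1 + 2 * S / rr b c with hC
  have hC0 : 0 < C := by positivity
  have hsz : sz z ≤ C * m := by
    apply max_le
    · calc |z.1| ≤ m + 2 * m / rr b c * S := hz1
        _ = C * m := by rw [hC]; field_simp
    · calc |z.2| ≤ 2 * m / rr b c := hz2'
        _ ≤ 2 * m / rr b c * S := by
            apply le_mul_of_one_le_right (by positivity) hS1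
        _ ≤ m + 2 * m / rr b c * S := by linarith
        _ = C * m := by rw [hC]; field_simp
  have hszpos : 0 < sz z := by
    by_contra hcon
    push Not at hcon
    have h1 : |z.1| ≤ 0 := (le_max_left _ _).trans hcon
    have h2 : |z.2| ≤ 0 := (le_max_right _ _).trans hcon
    have h3 : z.1 = 0 := abs_nonpos_iff.mp h1
    have h4 : z.2 = 0 := abs_nonpos_iff.mp h2
    apply hq1
    unfold q1
    rw [h3, h4]; ring
  refine ⟨hszpos, ?_⟩
  have hmm : m ^ 2 ≤ Real.exp M * nR b c z := by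
    rw [← hq, ← abs_of_pos hz, abs_mul]
    have hab := abs_le.mp hM
    have l1 : Real.log |q1 b c z| = Real.log (q1 b c z) := Real.log_abs _
    have l2 : Real.log |q2 b c z| = Real.log (q2 b c z) := Real.log_abs _
    have p1' : 0 < |q1 b c z| := abs_pos.mpr hq1
    have p2' : 0 < |q2 b c z| := abs_pos.mpr hq2
    have r1 : |q1 b c z| ≤ Real.exp M * |q2 b c z| := by
      rw [← Real.log_le_log_iff p1' (by positivity), Real.log_mul (Real.exp_ne_zero _) p2'.ne',
        Real.log_exp, l1, l2]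
      linarith [hab.2]
    have r2 : |q2 b c z| ≤ Real.exp M * |q1 b c z| := by
      rw [← Real.log_le_log_iff p2' (by positivity), Real.log_mul (Real.exp_ne_zero _) p1'.ne',
        Real.log_exp, l1, l2]
      linarith [hab.1]
    rcases le_total |q1 b c z| |q2 b c z| with h | h
    · rw [hm, max_eq_right h]; nlinarith
    · rw [hm, max_eq_left h]; nlinarith
  have hE : 0 < Real.exp M := Real.exp_pos M
  rw [one_div_mul_eq_div, div_le_iff₀ (by positivity)]
  calc sz z ^ 2 ≤ (C * m) ^ 2 := by gcongr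
    _ = C ^ 2 * m ^ 2 := by ring
    _ ≤ C ^ 2 * (Real.exp M * nR b c z) := by gcongr
    _ = _ := by ring

theorem z0_log (hD : 4 * c < b ^ 2) {s : ℝ} (hs0 : 0 ≤ s) (hs1 : s ≤ 1) :
    0 < q1 b c (z0 (2 * (1 + |(b : ℝ)| + |(c : ℝ)|)) s) ∧
    0 < q2 b c (z0 (2 * (1 + |(b : ℝ)| + |(c : ℝ)|)) s) ∧
    |Real.log (q1 b c (z0 (2 * (1 + |(b : ℝ)| + |(c : ℝ)|)) s)) -
      Real.log (q2 b c (z0 (2 * (1 + |(b : ℝ)| + |(c : ℝ)|)) s))| ≤ 2 := by
  set S := 1 + |(b : ℝ)| + |(c : ℝ)| with hS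
  have hS0 : 0 < S := by positivity
  have hw1 := abs_le.mp (abs_w1_le hD)
  have hw2 := abs_le.mp (abs_w2_le hD)
  rw [← hS] at hw1 hw2
  have a1 : S ≤ q1 b c (z0 (2 * S) s) := by simp only [q1, z0]; nlinarith
  have a2 : q1 b c (z0 (2 * S) s) ≤ 3 * S := by simp only [q1, z0]; nlinarith
  have a3 : S ≤ q2 b c (z0 (2 * S) s) := by simp only [q2, z0]; nlinarith
  have a4 : q2 b c (z0 (2 * S) s) ≤ 3 * S := by simp only [q2, z0]; nlinarith
  have b1 : 0 < q1 b c (z0 (2 * S) s) := by linarith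
  have b2 : 0 < q2 b c (z0 (2 * S) s) := by linarith
  have l3 : Real.log 3 ≤ 2 := by
    have := Real.log_le_sub_one_of_pos (show (0 : ℝ) < 3 by norm_num)
    linarith
  refine ⟨b1, b2, ?_⟩
  have u1 := Real.log_le_log hS0 a1
  have u2 := Real.log_le_log b1 a2
  have u3 := Real.log_le_log hS0 a3
  have u4 := Real.log_le_log b2 a4
  rw [Real.log_mul (by norm_num) hS0.ne'] at u2 u4
  rw [abs_le]
  constructor <;> linarith

theorem exists_v0' (hD : 4 * c < b ^ 2) (hns : ¬ IsSquare (b ^ 2 - 4 * c)) :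
    ∃ v0 : O b c, hh v0 = -1 ∧ 0 < nm v0 ∧ Lg v0 ≤ 0 := by
  obtain ⟨v0, h1, h2⟩ := exists_v0 b c hns
  rcases le_total (Lg v0) 0 with h | h
  · exact ⟨v0, h1, h2, h⟩
  · refine ⟨star v0, ?_, ?_, ?_⟩
    · unfold hh at *
      rw [nm_star]; exact h1
    · rw [nm_star]; exact h2
    · rw [Lg_star]; linarith

theorem ff_pos_large {n : ℤ} (h1 : |b| + 1 ≤ n) (h2 : |c| + 1 ≤ n) : 0 < ff b c n := by
  have h3 := neg_abs_le b
  have h4 := neg_abs_le c
  have h5 := abs_nonneg b
  simp only [ff]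
  nlinarith

theorem build_pos (hD : 4 * c < b ^ 2) (hns : ¬ IsSquare (b ^ 2 - 4 * c)) (K : ℕ) :
    ∃ A c0 K0 : ℝ, 0 < A ∧ 0 < c0 ∧ c0 ≤ 1 ∧ 2 ≤ K0 ∧
    ∀ᶠ P : ℕ in atTop, Rot b c K A c0 K0 P := by
  obtain ⟨v0, hv1, hv2, hv3⟩ := exists_v0' hD hns
  have hd := rr_pos hD
  set δ := rr b c with hδ
  set M : ℝ := (K.factorial : ℝ) with hM
  have hM1 : 1 ≤ M := by
    rw [hM]; exact_mod_cast K.factorial_pos
  set S := 1 + |(b : ℝ)| + |(c : ℝ)| with hS
  have hS1 : 1 ≤ S := by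
    rw [hS]
    have hb := abs_nonneg (b : ℝ)
    have hc := abs_nonneg (c : ℝ)
    linarith
  set x : ℝ := -Lg v0 / 2 with hx
  have hx0 : 0 ≤ x := by rw [hx]; linarith
  set c1 : ℝ := δ / 8 with hc1
  set c2 : ℝ := 4 * δ * M + x with hc2
  have hc1p : 0 < c1 := by positivity
  have hc2p : 0 < c2 := by positivity
  set A : ℝ := 1 + 2 * (K + 1) * 2 ^ K * (c2 / c1) + 4 * c2 / δ with hA
  have hA1 : 0 < A := by positivity
  set Mx : ℝ := |Lg v0| + 2 * δ * A + 2 with hMx
  have hMx0 : 0 ≤ Mx := by positivity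
  refine ⟨A, 1 / ((1 + 2 * S / δ) ^ 2 * Real.exp Mx), 2 * S, hA1, by positivity, ?_, by linarith, ?_⟩
  · rw [div_le_one (by positivity)]
    have h1 : 1 ≤ (1 + 2 * S / δ) ^ 2 := by
      apply one_le_pow₀
      have : 0 < 2 * S / δ := by positivity
      linarith
    have h2 : 1 ≤ Real.exp Mx := Real.one_le_exp hMx0
    exact one_le_mul_of_one_le_of_one_le h1 h2
  have hev : ∀ᶠ P : ℕ in atTop, ∀ m ∈ Set.Iic K,
      0 < (Bm b c m P).re ∧ 0 < (Bm b c m P).im ∧
      ((Bm b c m P).re : ℝ) ≤ 2 * ((Bm b c m P).im * (P : ℝ) ^ (m + 1)) ∧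
      ((Bm b c m P).im : ℝ) * (P : ℝ) ^ (m + 1) ≤ 2 * m.factorial * (Bm b c m P).re :=
    (eventually_all_finite (Set.finite_Iic K)).mpr (fun m _ => eventually_Bm b c m)
  have hbig : ∀ x : ℝ, ∀ᶠ P : ℕ in atTop, x ≤ P := fun x =>
    tendsto_natCast_atTop_atTop.eventually_ge_atTop x
  filter_upwards [hev, hbig (kap b c * (2 * M)), hbig (4 + 2 * |(b : ℝ)| + |(c : ℝ)|),
    hbig (nm v0), hbig (4 * S * c2 / δ), eventually_ge_atTop (K + 1),
    eventually_ge_atTop (b.natAbs + 1), eventually_ge_atTop (c.natAbs + 1)]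
    with P hB hP1 hP2 hP3 hP5 hP6 hP7 hP8
  have hPr : (1 : ℝ) ≤ P := by
    have : 1 ≤ P := by omega
    exact_mod_cast this
  have hP0 : (0 : ℝ) < P := by linarith
  have hffpos : ∀ j : ℕ, 0 < ff b c (P + j) := by
    intro j
    apply ff_pos_large
    · rw [← Int.natCast_natAbs]; omega
    · rw [← Int.natCast_natAbs]; omega
  set a : ℕ → ℝ := fun m => Lg (Bm b c m P) with ha
  have hall : ∀ m ≤ K, (c1 ≤ a m * (P : ℝ) ^ (m + 1) ∧ a m * (P : ℝ) ^ (m + 1) ≤ c2) ∧
      0 < p1 (Bm b c m P) ∧ 0 < p2 (Bm b c m P) := by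
    intro m hm
    obtain ⟨g1, g2, g3, g4⟩ := hB m hm
    have hmf : (m.factorial : ℝ) ≤ M := by
      rw [hM]; exact_mod_cast Nat.factorial_le hm
    have hxx : (0 : ℝ) < (Bm b c m P).re := by exact_mod_cast g1
    have hy : (0 : ℝ) < (Bm b c m P).im := by exact_mod_cast g2
    have hpow : (0 : ℝ) < (P : ℝ) ^ (m + 1) := by positivity
    have hpow1 : (P : ℝ) ≤ (P : ℝ) ^ (m + 1) := le_self_pow₀ hPr (by omega)
    have g4' : ((Bm b c m P).im : ℝ) * (P : ℝ) ^ (m + 1) ≤ 2 * M * (Bm b c m P).re := by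
      refine g4.trans ?_
      gcongr
    have hflat : 4 * (1 + |(b : ℝ)| + |(c : ℝ)|) * (Bm b c m P).im ≤ (Bm b c m P).re := by
      have hk : 4 * (1 + |(b : ℝ)| + |(c : ℝ)|) = kap b c := rfl
      rw [hk]
      have hk0 : 0 < kap b c := by have := four_le_kap b c; linarith
      apply le_of_mul_le_mul_right _ hpow
      calc kap b c * (Bm b c m P).im * (P : ℝ) ^ (m + 1)
          = kap b c * ((Bm b c m P).im * (P : ℝ) ^ (m + 1)) := by ring
        _ ≤ kap b c * (2 * M * (Bm b c m P).re) := by gcongr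
        _ = kap b c * (2 * M) * (Bm b c m P).re := by ring
        _ ≤ P * (Bm b c m P).re := by gcongr
        _ ≤ (P : ℝ) ^ (m + 1) * (Bm b c m P).re := by gcongr
        _ = _ := by ring
    obtain ⟨f1, f2, f3, f4⟩ := Lg_flat hD (Bm b c m P) g1 g2 hflat
    refine ⟨⟨?_, ?_⟩, f3, f4⟩
    · apply le_of_mul_le_mul_left _ hxx
      calc ((Bm b c m P).re : ℝ) * c1 = δ / 8 * (Bm b c m P).re := by rw [hc1]; ring
        _ ≤ δ / 8 * (2 * ((Bm b c m P).im * (P : ℝ) ^ (m + 1))) := by gcongr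
        _ = (δ * (Bm b c m P).im) * (P : ℝ) ^ (m + 1) / 4 := by ring
        _ ≤ (4 * ((Bm b c m P).re * a m)) * (P : ℝ) ^ (m + 1) / 4 := by gcongr
        _ = _ := by ring
    · apply le_of_mul_le_mul_left _ hxx
      calc ((Bm b c m P).re : ℝ) * (a m * (P : ℝ) ^ (m + 1))
          = ((Bm b c m P).re * a m) * (P : ℝ) ^ (m + 1) := by ring
        _ ≤ (2 * (δ * (Bm b c m P).im)) * (P : ℝ) ^ (m + 1) := by gcongr
        _ = 2 * δ * ((Bm b c m P).im * (P : ℝ) ^ (m + 1)) := by ring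
        _ ≤ 2 * δ * (2 * M * (Bm b c m P).re) := by gcongr
        _ ≤ (Bm b c m P).re * c2 := by
            rw [hc2]
            have := mul_nonneg hxx.le hx0
            linarith
  have hab := fun m hm => (hall m hm).1
  have hnmB : ∀ m ≤ K, nm (Bm b c m P) ≠ 0 := by
    intro m hm h0
    obtain ⟨_, h1, h2⟩ := hall m hm
    have h3 := p_mul hD (Bm b c m P)
    rw [h0, Int.cast_zero] at h3
    have h4 := mul_pos h1 h2
    linarith
  have hapos : ∀ m ≤ K, 0 < a m := by
    intro m hm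
    have hpow : (0 : ℝ) < (P : ℝ) ^ (m + 1) := by positivity
    exact (mul_pos_iff_of_pos_right hpow).mp (lt_of_lt_of_le hc1p (hab m hm).1)
  have hx1 : x ≤ c2 := by
    rw [hc2]
    have : 0 < 4 * δ * M := by positivity
    linarith
  obtain ⟨k, k1, k2, k3, k4⟩ := greedy a x hx0 K hapos
  have hk := digits_le (c1 := c1) (c2 := c2) (P := P) hc1p hx1 hPr (fun m hm => (hab m hm).1)
    (fun m hm => (hab m hm).2) k1 k2
  have hlen := LL_length_le b c v0 k P K (A := c2 / c1) (by positivity) (by omega) hk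
  have hlen' : ((LL b c v0 k P K).length : ℝ) ≤ A * P := by
    refine hlen.trans ?_
    apply mul_le_mul_of_nonneg_right _ hP0.le
    rw [hA]
    have : 0 < 4 * c2 / δ := by positivity
    linarith
  have hmem : ∀ μ ∈ LL b c v0 k P K, 0 < nm μ ∧ (nm μ : ℝ) ≤ (P : ℝ) ^ 3 := by
    intro μ hμ
    rcases LL_mem b c v0 k P K hμ with h | ⟨j, hj, hj'⟩
    · rw [h]
      refine ⟨hv2, hP3.trans (le_self_pow₀ hPr (by norm_num))⟩
    · rw [hj']
      exact ⟨hffpos j, nm_factor_le hj (by omega) hP2⟩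
  have hprodpos := nm_prod_pos _ (fun μ hμ => (hmem μ hμ).1)
  set r : ℝ := x - ∑ m ∈ range (K + 1), k m * a m with hr
  have harg := (Lg_LL hD v0 hv2.ne' k P K hnmB).2
  have hTheta : Lg v0 + 2 * ∑ m ∈ range (K + 1), k m * Lg (Bm b c m P) = -(2 * r) := by
    rw [hr, hx]; ring
  rw [hTheta] at harg
  have hrP : r * (P : ℝ) ^ (K + 1) ≤ c2 := by
    have h1 := (hab K le_rfl).2
    have hpow : (0 : ℝ) < (P : ℝ) ^ (K + 1) := by positivity
    have h2 := mul_le_mul_of_nonneg_right k4.le hpow.le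
    linarith
  have hrP1 : r * P ≤ c2 := by
    have hpow1 : (P : ℝ) ≤ (P : ℝ) ^ (K + 1) := le_self_pow₀ hPr (by omega)
    exact (mul_le_mul_of_nonneg_left hpow1 k3).trans hrP
  have hr2 : 4 * (S * r) ≤ δ := by
    rw [div_le_iff₀ hd] at hP5
    apply le_of_mul_le_mul_right _ hP0
    calc 4 * (S * r) * P = 4 * S * (r * P) := by ring
      _ ≤ 4 * S * c2 := by gcongr
      _ ≤ P * δ := hP5
      _ = _ := by ring
  obtain ⟨hf1, hf2⟩ := flat_of_Lg hD _ hprodpos harg k3 hr2
  -- log-ratio of the factors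
  have hfac : ∀ m ≤ K, ∀ μ ∈ fl b c m P, |Lg μ| ≤ 2 * δ / P := by
    intro m hm μ hμ
    obtain ⟨j, hj, hμj⟩ := fl_mem2 b c m P hμ
    have habs : |Lg μ| = |Lg (⟨P + j, 1⟩ : O b c)| := by
      rcases hμj with h | h
      · rw [h]
      · rw [h, Lg_star, abs_neg]
    rw [habs]
    have h1 : (0 : ℤ) < (⟨P + j, 1⟩ : O b c).re := by simp only; omega
    have h3 : 4 * (1 + |(b : ℝ)| + |(c : ℝ)|) * ((⟨P + j, 1⟩ : O b c).im : ℝ) ≤
        ((⟨P + j, 1⟩ : O b c).re : ℝ) := by
      have hk : 4 * (1 + |(b : ℝ)| + |(c : ℝ)|) = kap b c := rfl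
      rw [hk]
      push_cast
      have hk0 : 0 < kap b c := by have := four_le_kap b c; linarith
      have hj0 : (0 : ℝ) ≤ j := Nat.cast_nonneg _
      have hle : kap b c * 1 ≤ kap b c * (2 * M) :=
        mul_le_mul_of_nonneg_left (by linarith) hk0.le
      linarith
    obtain ⟨f1, f2, _, _⟩ := Lg_flat hD (⟨P + j, 1⟩ : O b c) h1 (by norm_num) h3
    have hj0 : (0 : ℝ) ≤ j := Nat.cast_nonneg _
    push_cast at f1 f2
    rw [mul_one] at f1 f2
    have hL0 : 0 ≤ Lg (⟨P + j, 1⟩ : O b c) := by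
      by_contra hcon
      push Not at hcon
      have := mul_neg_of_pos_of_neg (show 0 < (P : ℝ) + j by linarith) hcon
      linarith
    rw [abs_of_nonneg hL0, le_div_iff₀ hP0]
    have := mul_nonneg hj0 hL0
    linarith
  have hprefix : ∀ i ≤ (LL b c v0 k P K).length, |Lg ((LL b c v0 k P K).take i).prod| ≤
      |Lg v0| + 2 * δ * A := by
    intro i _
    rcases i with _ | i
    · rw [List.take_zero, List.prod_nil, Lg_one, abs_zero]; positivity
    · have hLL : LL b c v0 k P K = v0 :: (List.range (K + 1)).flatMap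
          (fun m => (List.replicate (2 * k m) (fl b c m P)).flatten) := rfl
      rw [hLL] at hlen' hmem ⊢
      set rest := (List.range (K + 1)).flatMap
          (fun m => (List.replicate (2 * k m) (fl b c m P)).flatten) with hrest
      rw [List.take_succ_cons, List.prod_cons]
      have hrm : ∀ μ ∈ rest.take i, μ ∈ rest := fun μ hμ => List.mem_of_mem_take hμ
      have hne : 0 < nm (rest.take i).prod :=
        nm_prod_pos _ (fun μ hμ => (hmem μ (List.mem_cons_of_mem _ (hrm μ hμ))).1)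
      rw [Lg_mul hD hv2.ne' hne.ne']
      have hb : |Lg (rest.take i).prod| ≤ (rest.take i).length * (2 * δ / P) := by
        apply Lg_prod_le hD
        · intro μ hμ
          exact (hmem μ (List.mem_cons_of_mem _ (hrm μ hμ))).1.ne'
        · intro μ hμ
          have h := hrm μ hμ
          rw [hrest, List.mem_flatMap] at h
          obtain ⟨m, hm, h⟩ := h
          rw [List.mem_range] at hm
          rw [List.mem_flatten] at h
          obtain ⟨l, hl, h⟩ := h
          rw [List.mem_replicate] at hl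
          rw [hl.2] at h
          exact hfac m (by omega) μ h
      have hlr : ((rest.take i).length : ℝ) ≤ A * P := by
        refine le_trans ?_ hlen'
        have : (rest.take i).length ≤ (v0 :: rest).length := by
          rw [List.length_take, List.length_cons]; omega
        exact_mod_cast this
      calc |Lg v0 + Lg (rest.take i).prod| ≤ |Lg v0| + |Lg (rest.take i).prod| := abs_add_le _ _
        _ ≤ |Lg v0| + (A * P) * (2 * δ / P) := by
            have h5 : ((rest.take i).length : ℝ) * (2 * δ / P) ≤ (A * P) * (2 * δ / P) := by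
              gcongr
            linarith
        _ = _ := by field_simp
  refine ⟨LL b c v0 k P K, hlen', hmem, ?_, ?_, hf2, ?_⟩
  · intro i hi s hs0 hs1
    obtain ⟨z1, z2, z3⟩ := z0_log hD hs0 hs1
    rw [← hS] at z1 z2 z3
    have h1 : 0 < nm ((LL b c v0 k P K).take i).prod :=
      nm_prod_pos _ (fun μ hμ => (hmem μ (List.mem_of_mem_take hμ)).1)
    have h2 : (0 : ℝ) < nm ((LL b c v0 k P K).take i).prod := by exact_mod_cast h1
    obtain ⟨n1, n2⟩ := p_ne_zero hD h1.ne'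
    apply ell_pos' hD
    · rw [nR_act]
      apply mul_pos h2
      rw [← q_mul hD]
      exact mul_pos z1 z2
    · rw [q1_act hD, q2_act hD, Real.log_mul n1 z1.ne', Real.log_mul n2 z2.ne']
      have h3 := hprefix i hi
      unfold Lg at h3
      calc _ = |(Real.log (p1 ((LL b c v0 k P K).take i).prod) -
            Real.log (p2 ((LL b c v0 k P K).take i).prod)) +
            (Real.log (q1 b c (z0 (2 * S) s)) - Real.log (q2 b c (z0 (2 * S) s)))| := by
              congr 1; ring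
        _ ≤ _ := (abs_add_le _ _).trans (by unfold Lg at hMx; rw [hMx]; linarith)
  · apply le_of_mul_le_mul_left _ hd
    calc δ * (|((LL b c v0 k P K).prod.im : ℝ)| * (P : ℝ) ^ (K + 1))
        = (δ * |((LL b c v0 k P K).prod.im : ℝ)|) * (P : ℝ) ^ (K + 1) := by ring
      _ ≤ (4 * (r * |((LL b c v0 k P K).prod.re : ℝ)|)) * (P : ℝ) ^ (K + 1) := by gcongr
      _ = 4 * |((LL b c v0 k P K).prod.re : ℝ)| * (r * (P : ℝ) ^ (K + 1)) := by ring
      _ ≤ 4 * |((LL b c v0 k P K).prod.re : ℝ)| * c2 := by gcongr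
      _ = δ * ((4 * c2 / δ) * |((LL b c v0 k P K).prod.re : ℝ)|) := by field_simp
      _ ≤ δ * (A * |((LL b c v0 k P K).prod.re : ℝ)|) := by
          apply mul_le_mul_of_nonneg_left _ hd.le
          apply mul_le_mul_of_nonneg_right _ (abs_nonneg _)
          rw [hA]
          have : 0 < 1 + 2 * (K + 1 : ℝ) * 2 ^ K * (c2 / c1) := by positivity
          linarith
  · rw [hh_LL _ _ _ _ _ _ hnmB, hv1]
    norm_num

end

end

end Pool.Agent.Lib.MP_648c71_nt
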