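import Pool.Agent.Lib.MP_648c71_nt.Shell

/-!
The chain argument at a single direction.
-/

namespace Pool.Agent.Lib.MP_648c71_nt

open QuadraticAlgebra

variable {b c : ℤ}

noncomputable section

/-- `z` is good: `h` is constant on the bounded part of the cone of aperture `η`. -/
def Good (b c : ℤ) (X η : ℝ) (z : ℝ × ℝ) : Prop :=
  ∀ v w : O b c, v ≠ 0 → w ≠ 0 → Cone z η v → Cone z η w →
    bR z v ^ 2 ≤ 2 * X * nR b c z → bR z w ^ 2 ≤ 2 * X * nR b c z → hh v = hh w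

/-- existence of a small vector in the half cone -/
def Small (b c : ℤ) (n : ℕ) (η : ℝ) (z : ℝ × ℝ) : Prop :=
  ∃ w : O b c, w ≠ 0 ∧ Cone z (η / 2) w ∧ szv w ≤ n

theorem bR_sq_le_of_small {c0 : ℝ} {z : ℝ × ℝ} {n : ℕ} (hc0 : 0 < c0)
    (hE : Ell b c c0 z) {w : O b c} (hw : szv w ≤ n) :
    c0 * bR z w ^ 2 ≤ kap b c ^ 2 * n ^ 2 * nR b c z := by
  have hk := four_le_kap b c
  have h1 := abs_bR_le z w
  have hZ := hE.pos
  have h2 : bR z w ^ 2 ≤ (kap b c * sz z * n) ^ 2 := by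
    rw [← sq_abs (bR z w)]
    have : |bR z w| ≤ kap b c * sz z * n := h1.trans (by gcongr)
    gcongr
  calc c0 * bR z w ^ 2 ≤ c0 * (kap b c * sz z * n) ^ 2 := by gcongr
    _ = kap b c ^ 2 * n ^ 2 * (c0 * sz z ^ 2) := by ring
    _ ≤ _ := by gcongr; exact hE.le

theorem small_sq_le {c0 : ℝ} {z : ℝ × ℝ} {n : ℕ} {X : ℝ} (hc0 : 0 < c0)
    (hE : Ell b c c0 z) {w : O b c} (hw : szv w ≤ n)
    (hX : 4 * kap b c ^ 2 * n ^ 2 ≤ c0 * X) (hX0 : 0 ≤ X) :
    bR z w ^ 2 ≤ 2 * X * nR b c z := by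
  have hs := bR_sq_le_of_small hc0 hE hw
  have hN := hE.nR_pos hc0
  have h1 : (0 : ℝ) ≤ kap b c ^ 2 * n ^ 2 := by positivity
  have h2 : kap b c ^ 2 * n ^ 2 * nR b c z ≤ (c0 * X) * nR b c z :=
    mul_le_mul_of_nonneg_right (by linarith) hN.le
  have h3 : 0 ≤ c0 * X * nR b c z := by positivity
  have h4 : c0 * bR z w ^ 2 ≤ c0 * (2 * X * nR b c z) := by linarith
  exact le_of_mul_le_mul_left h4 hc0

theorem X_nonneg {c0 : ℝ} {n : ℕ} {X : ℝ} (hc0 : 0 < c0)
    (hX : 4 * kap b c ^ 2 * n ^ 2 ≤ c0 * X) : 0 ≤ X := by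
  have h5 : 0 ≤ 4 * kap b c ^ 2 * (n : ℝ) ^ 2 := by positivity
  by_contra hneg
  push Not at hneg
  nlinarith

theorem nm_of_flat {c0 η : ℝ} {γ : O b c} (hc0 : 0 < c0)
    (hc1 : c0 ≤ 1) (hη : 0 < η) (hη1 : η ≤ 1)
    (hγ : 8 * kap b c ^ 2 * |(γ.im : ℝ)| ≤ c0 * η * |(γ.re : ℝ)|) :
    (γ.re : ℝ) ^ 2 ≤ 2 * nm γ := by
  have hk := four_le_kap b c
  have hr := abs_nonneg (γ.re : ℝ)
  have h1 : |(γ.im : ℝ)| * kap b c ≤ |(γ.re : ℝ)| / 32 := by
    have : (|(γ.im : ℝ)| * kap b c) * (8 * kap b c) ≤ |(γ.re : ℝ)| / 32 * (8 * kap b c) := by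
      calc (|(γ.im : ℝ)| * kap b c) * (8 * kap b c) = 8 * kap b c ^ 2 * |(γ.im : ℝ)| := by ring
        _ ≤ c0 * η * |(γ.re : ℝ)| := hγ
        _ ≤ 1 * 1 * |(γ.re : ℝ)| := by gcongr
        _ ≤ |(γ.re : ℝ)| / 32 * (8 * kap b c) := by nlinarith
    exact le_of_mul_le_mul_right this (by positivity)
  have hb := abs_nonneg (b : ℝ)
  have hc := abs_nonneg (c : ℝ)
  have hgi := abs_nonneg (γ.im : ℝ)
  have h2 : |(b : ℝ)| * |(γ.im : ℝ)| ≤ |(γ.re : ℝ)| / 32 := by
    have : |(b : ℝ)| ≤ kap b c := by unfold kap; linarith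
    nlinarith
  have h3 : |(c : ℝ)| * |(γ.im : ℝ)| ≤ |(γ.re : ℝ)| / 32 := by
    have : |(c : ℝ)| ≤ kap b c := by unfold kap; linarith
    nlinarith
  have h4 : |(γ.im : ℝ)| ≤ |(γ.re : ℝ)| / 32 := by nlinarith
  have h5 : |(b : ℝ) * γ.re * γ.im| ≤ |(γ.re : ℝ)| * (|(γ.re : ℝ)| / 32) := by
    rw [abs_mul, abs_mul]
    calc |(b : ℝ)| * |(γ.re : ℝ)| * |(γ.im : ℝ)| = |(γ.re : ℝ)| * (|(b : ℝ)| * |(γ.im : ℝ)|) := by
          ring
      _ ≤ _ := by gcongr
  have h6 : |(c : ℝ) * γ.im ^ 2| ≤ |(γ.re : ℝ)| * (|(γ.re : ℝ)| / 32) := by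
    rw [abs_mul, abs_pow]
    calc |(c : ℝ)| * |(γ.im : ℝ)| ^ 2 = (|(c : ℝ)| * |(γ.im : ℝ)|) * |(γ.im : ℝ)| := by ring
      _ ≤ (|(γ.re : ℝ)| / 32) * (|(γ.re : ℝ)| / 32) := by gcongr
      _ ≤ _ := by nlinarith
  have h7 := (abs_le.mp h5).1
  have h8 := (abs_le.mp h6).1
  have h9 : (γ.re : ℝ) ^ 2 = |(γ.re : ℝ)| * |(γ.re : ℝ)| := by rw [← sq, sq_abs]
  unfold nm
  push_cast
  nlinarith

theorem szv_star_omega_mul (w : O b c) :
    szv (⟨b * w.re + c * w.im, -w.re⟩ : O b c) ≤ kap b c * szv w := by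
  have hk := four_le_kap b c
  have h1 := re_le_szv w
  have h2 := im_le_szv w
  have h3 := szv_nonneg w
  have hb := abs_nonneg (b : ℝ)
  have hc := abs_nonneg (c : ℝ)
  rw [szv]
  apply max_le
  · push_cast
    calc |(b : ℝ) * w.re + c * w.im| ≤ |(b : ℝ) * w.re| + |(c : ℝ) * w.im| := abs_add_le _ _
      _ = |(b : ℝ)| * |(w.re : ℝ)| + |(c : ℝ)| * |(w.im : ℝ)| := by rw [abs_mul, abs_mul]
      _ ≤ |(b : ℝ)| * szv w + |(c : ℝ)| * szv w := by gcongr
      _ ≤ kap b c * szv w := by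
          unfold kap
          nlinarith [mul_nonneg hb h3, mul_nonneg hc h3]
  · push_cast
    rw [abs_neg]
    calc |(w.re : ℝ)| ≤ szv w := h1
      _ ≤ kap b c * szv w := by nlinarith

/-- closeness of the last direction to the first -/
theorem close_last {c0 η : ℝ} {z : ℝ × ℝ} {w γ : O b c} {n : ℕ} {X : ℝ} (hc0 : 0 < c0)
    (hc1 : c0 ≤ 1) (hE : Ell b c c0 z) (hη : 0 < η) (hηκ : 2 * (kap b c * η) ≤ 1)
    (hw : Cone z (η / 2) w) (hwn : szv w ≤ n)
    (hγ : 8 * kap b c ^ 2 * |(γ.im : ℝ)| ≤ c0 * η * |(γ.re : ℝ)|) (hγ0 : γ.re ≠ 0)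
    (hX : 4 * kap b c ^ 2 * n ^ 2 ≤ c0 * X) :
    ∃ w' : O b c, (w' = w ∨ w' = -w) ∧ Cone (act γ z) η w' ∧
      bR (act γ z) w' ^ 2 ≤ 2 * X * nR b c (act γ z) := by
  have hk := four_le_kap b c
  have hb0 : 0 ≤ bR z w := hw.bR_nonneg (by positivity)
  have h4η : 4 * η ≤ kap b c * η := mul_le_mul_of_nonneg_right hk hη.le
  have hη1 : η ≤ 1 := by linarith
  have hZ := hE.pos
  have hN0 := hE.nR_pos hc0
  have hγr : 0 < |(γ.re : ℝ)| := abs_pos.mpr (by exact_mod_cast hγ0)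
  -- size of w
  have hsize : c0 * (szv w * sz z) ≤ 2 * bR z w :=
    szv_le hc0 hc1 hE hη (by linarith) (hw.mono (by positivity) (by linarith))
  -- the vector `ω̄ w`
  set ww : O b c := ⟨b * w.re + c * w.im, -w.re⟩ with hww
  have hstar : star γ * w = γ.re • w + γ.im • ww := by
    rw [star_mul_eq]
    ext
    · simp only [sc, hww, re_add, re_smul, smul_eq_mul]; ring
    · simp only [dt, hww, im_add, im_smul, smul_eq_mul]; ring
  have hwwsz : szv ww ≤ kap b c * szv w := szv_star_omega_mul w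
  have hδ1 : |(γ.im : ℝ)| * |dR z ww| ≤ η / 4 * |(γ.re : ℝ)| * bR z w := by
    have h1 := abs_dR_le z ww
    have h2 : c0 * (|(γ.im : ℝ)| * |dR z ww|) ≤ c0 * (η / 4 * |(γ.re : ℝ)| * bR z w) := by
      calc c0 * (|(γ.im : ℝ)| * |dR z ww|)
          ≤ c0 * (|(γ.im : ℝ)| * (kap b c * sz z * (kap b c * szv w))) := by
            have : |dR z ww| ≤ kap b c * sz z * (kap b c * szv w) := h1.trans (by gcongr)
            gcongr
        _ = kap b c ^ 2 * |(γ.im : ℝ)| * (c0 * (szv w * sz z)) := by ring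
        _ ≤ kap b c ^ 2 * |(γ.im : ℝ)| * (2 * bR z w) := by gcongr
        _ = 1 / 4 * (8 * kap b c ^ 2 * |(γ.im : ℝ)|) * bR z w := by ring
        _ ≤ 1 / 4 * (c0 * η * |(γ.re : ℝ)|) * bR z w := by gcongr
        _ = _ := by ring
    exact le_of_mul_le_mul_left h2 hc0
  have hδ2 : |(γ.im : ℝ)| * |bR z ww| ≤ η / 4 * |(γ.re : ℝ)| * bR z w := by
    have h1 := abs_bR_le z ww
    have h2 : c0 * (|(γ.im : ℝ)| * |bR z ww|) ≤ c0 * (η / 4 * |(γ.re : ℝ)| * bR z w) := by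
      calc c0 * (|(γ.im : ℝ)| * |bR z ww|)
          ≤ c0 * (|(γ.im : ℝ)| * (kap b c * sz z * (kap b c * szv w))) := by
            have : |bR z ww| ≤ kap b c * sz z * (kap b c * szv w) := h1.trans (by gcongr)
            gcongr
        _ = kap b c ^ 2 * |(γ.im : ℝ)| * (c0 * (szv w * sz z)) := by ring
        _ ≤ kap b c ^ 2 * |(γ.im : ℝ)| * (2 * bR z w) := by gcongr
        _ = 1 / 4 * (8 * kap b c ^ 2 * |(γ.im : ℝ)|) * bR z w := by ring
        _ ≤ 1 / 4 * (c0 * η * |(γ.re : ℝ)|) * bR z w := by gcongr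
        _ = _ := by ring
    exact le_of_mul_le_mul_left h2 hc0
  have ed : dR (act γ z) w = γ.re * dR z w + γ.im * dR z ww := by
    rw [dR_act, hstar, dR_add, dR_smul, dR_smul]
  have eb : bR (act γ z) w = γ.re * bR z w + γ.im * bR z ww := by
    rw [bR_act, hstar, bR_add, bR_smul, bR_smul]
  have hd : |dR (act γ z) w| ≤ (3 / 4 * η) * (|(γ.re : ℝ)| * bR z w) := by
    rw [ed]
    have hw' : |dR z w| ≤ η / 2 * bR z w := hw
    calc |γ.re * dR z w + γ.im * dR z ww| ≤ |γ.re * dR z w| + |γ.im * dR z ww| := abs_add_le _ _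
      _ = |(γ.re : ℝ)| * |dR z w| + |(γ.im : ℝ)| * |dR z ww| := by rw [abs_mul, abs_mul]
      _ ≤ |(γ.re : ℝ)| * (η / 2 * bR z w) + η / 4 * |(γ.re : ℝ)| * bR z w := by gcongr
      _ = _ := by ring
  have hnmγ : (γ.re : ℝ) ^ 2 ≤ 2 * nm γ := nm_of_flat hc0 hc1 hη hη1 hγ
  have hsmall := bR_sq_le_of_small hc0 hE hwn
  -- bound for the trace form
  have hfin : ∀ w' : O b c, |bR (act γ z) w'| ≤ 5 / 4 * (|(γ.re : ℝ)| * bR z w) →
      bR (act γ z) w' ^ 2 ≤ 2 * X * nR b c (act γ z) := by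
    intro w' hw'
    rw [nR_act]
    have h1 : bR (act γ z) w' ^ 2 ≤ 2 * (|(γ.re : ℝ)| ^ 2 * bR z w ^ 2) := by
      rw [← sq_abs (bR (act γ z) w')]
      calc |bR (act γ z) w'| ^ 2 ≤ (5 / 4 * (|(γ.re : ℝ)| * bR z w)) ^ 2 := by gcongr
        _ = 25 / 16 * (|(γ.re : ℝ)| ^ 2 * bR z w ^ 2) := by ring
        _ ≤ 2 * (|(γ.re : ℝ)| ^ 2 * bR z w ^ 2) := by
            have : 0 ≤ |(γ.re : ℝ)| ^ 2 * bR z w ^ 2 := by positivity
            linarith
    have h2 : c0 * bR (act γ z) w' ^ 2 ≤ c0 * (2 * X * (nm γ * nR b c z)) := by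
      have hnmγ0 : (0 : ℝ) ≤ nm γ := by nlinarith [sq_nonneg (γ.re : ℝ)]
      calc c0 * bR (act γ z) w' ^ 2 ≤ c0 * (2 * (|(γ.re : ℝ)| ^ 2 * bR z w ^ 2)) := by gcongr
        _ = 2 * |(γ.re : ℝ)| ^ 2 * (c0 * bR z w ^ 2) := by ring
        _ ≤ 2 * |(γ.re : ℝ)| ^ 2 * (kap b c ^ 2 * n ^ 2 * nR b c z) := by gcongr
        _ = (γ.re : ℝ) ^ 2 * (2 * (kap b c ^ 2 * n ^ 2) * nR b c z) := by rw [sq_abs]; ring
        _ ≤ (2 * nm γ) * (2 * (kap b c ^ 2 * n ^ 2) * nR b c z) := by gcongr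
        _ = (4 * kap b c ^ 2 * n ^ 2) * (nm γ * nR b c z) := by ring
        _ ≤ (c0 * X) * (nm γ * nR b c z) := by gcongr
        _ ≤ c0 * (2 * X * (nm γ * nR b c z)) := by
            have hX0 : 0 ≤ X := X_nonneg hc0 hX
            have h8 : 0 ≤ c0 * X * (nm γ * nR b c z) := by positivity
            have h9 : c0 * (2 * X * (nm γ * nR b c z)) =
              c0 * X * (nm γ * nR b c z) + c0 * X * (nm γ * nR b c z) := by ring
            linarith
    exact le_of_mul_le_mul_left h2 hc0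
  rcases lt_or_gt_of_ne hγ0 with hneg | hpos
  · -- negative real part
    have hgr : |(γ.re : ℝ)| = -(γ.re : ℝ) := abs_of_neg (by exact_mod_cast hneg)
    refine ⟨-w, Or.inr rfl, ?_, ?_⟩
    · unfold Cone
      rw [dR_neg, abs_neg, bR_neg]
      have h1 : (1 - η / 4) * (|(γ.re : ℝ)| * bR z w) ≤ -bR (act γ z) w := by
        rw [eb]
        have := neg_abs_le ((γ.im : ℝ) * bR z ww)
        have h2 := le_abs_self ((γ.im : ℝ) * bR z ww)
        rw [abs_mul] at h2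
        rw [hgr] at hδ2 ⊢
        linarith
      have hp : 0 ≤ |(γ.re : ℝ)| * bR z w := by positivity
      calc |dR (act γ z) w| ≤ (3 / 4 * η) * (|(γ.re : ℝ)| * bR z w) := hd
        _ ≤ η * ((1 - η / 4) * (|(γ.re : ℝ)| * bR z w)) := by
            have h34 : 3 / 4 * η ≤ η * (1 - η / 4) := by
              have : η * (3 / 4) ≤ η * (1 - η / 4) :=
                mul_le_mul_of_nonneg_left (by linarith) hη.le
              linarith
            calc (3 / 4 * η) * (|(γ.re : ℝ)| * bR z w)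
                ≤ (η * (1 - η / 4)) * (|(γ.re : ℝ)| * bR z w) :=
                  mul_le_mul_of_nonneg_right h34 hp
              _ = _ := by ring
        _ ≤ η * -bR (act γ z) w := by gcongr
    · apply hfin
      rw [bR_neg, abs_neg, eb]
      calc |γ.re * bR z w + γ.im * bR z ww| ≤ |γ.re * bR z w| + |γ.im * bR z ww| := abs_add_le _ _
        _ = |(γ.re : ℝ)| * bR z w + |(γ.im : ℝ)| * |bR z ww| := by
            rw [abs_mul, abs_mul, abs_of_nonneg hb0]
        _ ≤ |(γ.re : ℝ)| * bR z w + η / 4 * |(γ.re : ℝ)| * bR z w := by gcongr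
        _ ≤ |(γ.re : ℝ)| * bR z w + 1 / 4 * |(γ.re : ℝ)| * bR z w := by gcongr
        _ = _ := by ring
  · have hgr : |(γ.re : ℝ)| = (γ.re : ℝ) := abs_of_pos (by exact_mod_cast hpos)
    refine ⟨w, Or.inl rfl, ?_, ?_⟩
    · unfold Cone
      have h1 : (1 - η / 4) * (|(γ.re : ℝ)| * bR z w) ≤ bR (act γ z) w := by
        rw [eb]
        have h2 := neg_abs_le ((γ.im : ℝ) * bR z ww)
        rw [abs_mul] at h2
        rw [hgr] at hδ2 ⊢
        linarith
      have hp : 0 ≤ |(γ.re : ℝ)| * bR z w := by positivity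
      calc |dR (act γ z) w| ≤ (3 / 4 * η) * (|(γ.re : ℝ)| * bR z w) := hd
        _ ≤ η * ((1 - η / 4) * (|(γ.re : ℝ)| * bR z w)) := by
            have h34 : 3 / 4 * η ≤ η * (1 - η / 4) := by
              have : η * (3 / 4) ≤ η * (1 - η / 4) :=
                mul_le_mul_of_nonneg_left (by linarith) hη.le
              linarith
            calc (3 / 4 * η) * (|(γ.re : ℝ)| * bR z w)
                ≤ (η * (1 - η / 4)) * (|(γ.re : ℝ)| * bR z w) :=
                  mul_le_mul_of_nonneg_right h34 hp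
              _ = _ := by ring
        _ ≤ η * bR (act γ z) w := by gcongr
    · apply hfin
      rw [eb]
      calc |γ.re * bR z w + γ.im * bR z ww| ≤ |γ.re * bR z w| + |γ.im * bR z ww| := abs_add_le _ _
        _ = |(γ.re : ℝ)| * bR z w + |(γ.im : ℝ)| * |bR z ww| := by
            rw [abs_mul, abs_mul, abs_of_nonneg hb0]
        _ ≤ |(γ.re : ℝ)| * bR z w + η / 4 * |(γ.re : ℝ)| * bR z w := by gcongr
        _ ≤ |(γ.re : ℝ)| * bR z w + 1 / 4 * |(γ.re : ℝ)| * bR z w := by gcongr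
        _ = _ := by ring

/-- The chain argument: if all prefix directions are good and have small vectors, then `h = 1` on
the product. -/
theorem chain {c0 η : ℝ} {z : ℝ × ℝ} {n : ℕ} {X : ℝ} (l : List (O b c)) (hc0 : 0 < c0)
    (hc1 : c0 ≤ 1) (hη : 0 < η) (hηκ : 2 * (kap b c * η) ≤ 1)
    (hEll : ∀ i ≤ l.length, Ell b c c0 (act (l.take i).prod z))
    (hl : ∀ μ ∈ l, 0 < nm μ ∧ (nm μ : ℝ) * (kap b c ^ 2 * n ^ 2) ≤ 2 * c0 * X)
    (hgood : ∀ i ≤ l.length, Good b c X η (act (l.take i).prod z))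
    (hsmall : ∀ i ≤ l.length, Small b c n η (act (l.take i).prod z))
    (hγ : 8 * kap b c ^ 2 * |(l.prod.im : ℝ)| ≤ c0 * η * |(l.prod.re : ℝ)|)
    (hγ0 : l.prod.re ≠ 0)
    (hX : 4 * kap b c ^ 2 * n ^ 2 ≤ c0 * X) : hh l.prod = 1 := by
  have hk := four_le_kap b c
  have hX0 : 0 ≤ X := X_nonneg hc0 hX
  obtain ⟨w0, hw00, hw0c, hw0n⟩ := hsmall 0 (Nat.zero_le _)
  have key : ∀ i ≤ l.length, ∃ w : O b c, w ≠ 0 ∧ Cone (act (l.take i).prod z) (η / 2) w ∧
      szv w ≤ n ∧ hh w = hh (l.take i).prod * hh w0 := by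
    intro i
    induction i with
    | zero =>
      intro _
      refine ⟨w0, hw00, hw0c, hw0n, ?_⟩
      simp only [List.take_zero, List.prod_nil]
      rw [hh, hh, nm_one, lam_one, one_mul]
    | succ i ih =>
      intro hi
      obtain ⟨w, hw0, hwc, hwn, hwh⟩ := ih (by omega)
      obtain ⟨w', hw'0, hw'c, hw'n⟩ := hsmall (i + 1) hi
      have hilt : i < l.length := by omega
      have hprod : (l.take (i + 1)).prod = l[i] * (l.take i).prod := by
        rw [List.take_succ_eq_append_getElem hilt, List.prod_append, List.prod_singleton, mul_comm]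
      set μ := l[i] with hμ
      obtain ⟨hμ0, hμX⟩ := hl μ (List.getElem_mem hilt)
      have hμr : (0 : ℝ) < nm μ := by exact_mod_cast hμ0
      have hact : act (l.take (i + 1)).prod z = act μ (act (l.take i).prod z) := by
        rw [hprod, act_mul]
      refine ⟨w', hw'0, hw'c, hw'n, ?_⟩
      have hEi := hEll i (by omega)
      have hEi1 := hEll (i + 1) hi
      have hs := bR_sq_le_of_small hc0 hEi hwn
      have hNi := hEi.nR_pos hc0
      have hNi1 := hEi1.nR_pos hc0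
      have hmu0 : μ * w ≠ 0 := by
        intro h0
        have h1 : star μ * w ≠ 0 := star_mul_ne_zero hμ0.ne' hw0
        have h2 : star (star μ) * w ≠ 0 := star_mul_ne_zero (by rw [nm_star]; exact hμ0.ne') hw0
        rw [star_star] at h2
        exact h2 h0
      have hcone : Cone (act (l.take (i + 1)).prod z) η (μ * w) := by
        rw [hact]
        exact (hwc.act_mul hμ0.le).mono (by positivity) (by linarith)
      have hbd : bR (act (l.take (i + 1)).prod z) (μ * w) ^ 2 ≤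
          2 * X * nR b c (act (l.take (i + 1)).prod z) := by
        rw [hact, bR_act_mul, nR_act]
        have h2 : c0 * ((nm μ : ℝ) * bR (act (l.take i).prod z) w) ^ 2 ≤
            c0 * (2 * X * (nm μ * nR b c (act (l.take i).prod z))) := by
          calc c0 * ((nm μ : ℝ) * bR (act (l.take i).prod z) w) ^ 2
              = (nm μ : ℝ) ^ 2 * (c0 * bR (act (l.take i).prod z) w ^ 2) := by ring
            _ ≤ (nm μ : ℝ) ^ 2 * (kap b c ^ 2 * n ^ 2 * nR b c (act (l.take i).prod z)) := by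
                gcongr
            _ = ((nm μ : ℝ) * (kap b c ^ 2 * n ^ 2)) *
                (nm μ * nR b c (act (l.take i).prod z)) := by ring
            _ ≤ (2 * c0 * X) * (nm μ * nR b c (act (l.take i).prod z)) := by gcongr
            _ = _ := by ring
        exact le_of_mul_le_mul_left h2 hc0
      have hbd' : bR (act (l.take (i + 1)).prod z) w' ^ 2 ≤
          2 * X * nR b c (act (l.take (i + 1)).prod z) :=
        small_sq_le hc0 hEi1 hw'n hX hX0
      have := hgood (i + 1) hi w' (μ * w) hw'0 hmu0 (hw'c.mono (by positivity) (by linarith))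
        hcone hbd' hbd
      rw [this, hh_mul, hwh, hprod, hh_mul, mul_assoc]
  obtain ⟨w, hw0, hwc, hwn, hwh⟩ := key l.length le_rfl
  rw [List.take_length] at hwc hwh
  have hE0 := hEll 0 (Nat.zero_le _)
  have hEl := hEll l.length le_rfl
  have hgl := hgood l.length le_rfl
  rw [List.take_length] at hEl hgl
  simp only [List.take_zero, List.prod_nil, act_one] at hE0 hw0c
  obtain ⟨w', hw', hcone', hbd'⟩ := close_last hc0 hc1 hE0 hη hηκ hw0c hw0n hγ hγ0 hX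
  have hw'0 : w' ≠ 0 := by
    rcases hw' with rfl | rfl
    · exact hw00
    · exact neg_ne_zero.mpr hw00
  have hhw' : hh w' = hh w0 := by
    rcases hw' with rfl | rfl
    · rfl
    · exact hh_neg w0
  have hNl := hEl.nR_pos hc0
  have hbd : bR (act l.prod z) w ^ 2 ≤ 2 * X * nR b c (act l.prod z) :=
    small_sq_le hc0 hEl hwn hX hX0
  have heq := hgl w w' hw0 hw'0 (hwc.mono (by positivity) (by linarith)) hcone' hbd hbd'
  rw [hhw', hwh] at heq
  have hnm0 : 0 < nm w0 := nm_pos hc0 hc1 hE0 (η := η) hη hηκ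
    (hw0c.mono (by positivity) (by linarith)) hw00
  have hne : hh w0 ≠ 0 := lam_ne_zero hnm0.ne'
  exact mul_right_cancel₀ hne (by rw [heq, one_mul])

end

end Pool.Agent.Lib.MP_648c71_nt
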