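import Pool.Agent.Lib.MP_648c71_nt.Lattice

/-!
Real directions and cones.
-/

namespace Pool.Agent.Lib.MP_648c71_nt

open QuadraticAlgebra

variable {b c : ℤ}

noncomputable section

/-- determinant of a real vector and a lattice vector -/
def dR (z : ℝ × ℝ) (v : O b c) : ℝ := z.1 * v.im - z.2 * v.re

/-- trace form `Tr(z̄ v)` -/
def bR (z : ℝ × ℝ) (v : O b c) : ℝ :=
  2 * z.1 * v.re + b * (z.1 * v.im + z.2 * v.re) + 2 * c * z.2 * v.im

/-- norm form on real vectors -/
def nR (b c : ℤ) (z : ℝ × ℝ) : ℝ := z.1 ^ 2 + b * z.1 * z.2 + c * z.2 ^ 2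

/-- multiplication of a real vector by a lattice vector -/
def act (μ : O b c) (z : ℝ × ℝ) : ℝ × ℝ :=
  (μ.re * z.1 - c * μ.im * z.2, μ.re * z.2 + μ.im * z.1 + b * μ.im * z.2)

theorem act_one (z : ℝ × ℝ) : act (1 : O b c) z = z := by
  simp [act, re_one, im_one]

theorem act_mul (μ ν : O b c) (z : ℝ × ℝ) : act (μ * ν) z = act μ (act ν z) := by
  ext
  · simp only [act, re_mul, im_mul]; push_cast; ring
  · simp only [act, re_mul, im_mul]; push_cast; ring

theorem dR_act_mul (μ v : O b c) (z : ℝ × ℝ) : dR (act μ z) (μ * v) = nm μ * dR z v := by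
  simp only [act, dR, nm, re_mul, im_mul]; push_cast; ring

theorem bR_act_mul (μ v : O b c) (z : ℝ × ℝ) : bR (act μ z) (μ * v) = nm μ * bR z v := by
  simp only [act, bR, nm, re_mul, im_mul]; push_cast; ring

theorem nR_act (μ : O b c) (z : ℝ × ℝ) : nR b c (act μ z) = nm μ * nR b c z := by
  simp only [act, nR, nm]; push_cast; ring

theorem dR_act (β v : O b c) (z : ℝ × ℝ) : dR (act β z) v = dR z (star β * v) := by
  simp only [act, dR, star_mul_eq, sc, dt]; push_cast; ring

theorem bR_act (β v : O b c) (z : ℝ × ℝ) : bR (act β z) v = bR z (star β * v) := by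
  simp only [act, bR, star_mul_eq, sc, dt]; push_cast; ring

/-- discriminant -/
def dsc (b c : ℤ) : ℤ := b ^ 2 - 4 * c

theorem bR_sq (z : ℝ × ℝ) (v : O b c) :
    bR z v ^ 2 - dsc b c * dR z v ^ 2 = 4 * nR b c z * nm v := by
  simp only [bR, dR, nR, nm, dsc]; push_cast; ring

theorem polar (z : ℝ × ℝ) (v u : O b c) :
    2 * nR b c z * (2 * sc v u + b * dt v u) = bR z v * bR z u - dsc b c * dR z v * dR z u := by
  simp only [bR, dR, nR, sc, dt, dsc]; push_cast; ring

theorem fst_mul_bR (z : ℝ × ℝ) (v : O b c) :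
    z.1 * bR z v = 2 * v.re * nR b c z + dR z v * (b * z.1 + 2 * c * z.2) := by
  simp only [bR, dR, nR]; ring

theorem snd_mul_bR (z : ℝ × ℝ) (v : O b c) :
    z.2 * bR z v = 2 * v.im * nR b c z - dR z v * (2 * z.1 + b * z.2) := by
  simp only [bR, dR, nR]; ring

theorem dR_smul (z : ℝ × ℝ) (k : ℤ) (v : O b c) : dR z (k • v) = k * dR z v := by
  simp only [dR, re_smul, im_smul, smul_eq_mul]; push_cast; ring

theorem bR_smul (z : ℝ × ℝ) (k : ℤ) (v : O b c) : bR z (k • v) = k * bR z v := by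
  simp only [bR, re_smul, im_smul, smul_eq_mul]; push_cast; ring

theorem dR_add (z : ℝ × ℝ) (v w : O b c) : dR z (v + w) = dR z v + dR z w := by
  simp only [dR, re_add, im_add]; push_cast; ring

theorem bR_add (z : ℝ × ℝ) (v w : O b c) : bR z (v + w) = bR z v + bR z w := by
  simp only [bR, re_add, im_add]; push_cast; ring

theorem dR_neg (z : ℝ × ℝ) (v : O b c) : dR z (-v) = - dR z v := by
  simp only [dR, re_neg, im_neg]; push_cast; ring

theorem bR_neg (z : ℝ × ℝ) (v : O b c) : bR z (-v) = - bR z v := by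
  simp only [bR, re_neg, im_neg]; push_cast; ring

/-- the cone of aperture `η` around `z` -/
def Cone (z : ℝ × ℝ) (η : ℝ) (v : O b c) : Prop := |dR z v| ≤ η * bR z v

theorem Cone.mono {z : ℝ × ℝ} {η η' : ℝ} {v : O b c} (h : Cone z η v) (hη : 0 < η)
    (hle : η ≤ η') : Cone z η' v := by
  unfold Cone at *
  have h0 : 0 ≤ bR z v := by
    by_contra hneg
    push Not at hneg
    have := abs_nonneg (dR z v)
    nlinarith
  nlinarith

theorem Cone.bR_nonneg {z : ℝ × ℝ} {η : ℝ} {v : O b c} (h : Cone z η v) (hη : 0 < η) :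
    0 ≤ bR z v := by
  unfold Cone at h
  by_contra hneg
  push Not at hneg
  have := abs_nonneg (dR z v)
  nlinarith

theorem Cone.act_mul {z : ℝ × ℝ} {η : ℝ} {v μ : O b c} (h : Cone z η v) (hμ : 0 ≤ nm μ) :
    Cone (act μ z) η (μ * v) := by
  unfold Cone at *
  rw [dR_act_mul, bR_act_mul, abs_mul]
  have : (0 : ℝ) ≤ nm μ := by exact_mod_cast hμ
  rw [abs_of_nonneg this]
  nlinarith

/-- If all unimodular edges in the cone have label `1` then `h` is constant on the cone. -/
theorem hh_const_of_edges (z : ℝ × ℝ) (η T : ℝ) (hη : 0 < η)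
    (hedge : ∀ v u : O b c, dt v u = 1 → Cone z η v → Cone z η u → bR z v ≤ T → bR z u ≤ T →
      lam (ff b c (sc v u)) = 1) :
    ∀ v w : O b c, v ≠ 0 → w ≠ 0 → Cone z η v → Cone z η w → bR z v ≤ T → bR z w ≤ T →
      hh v = hh w := by
  intro v w hv hw hcv hcw hbv hbw
  refine path (fun v => Cone z η v ∧ bR z v ≤ T) hh ?_ ?_ ?_ ?_ v w hv hw ⟨hcv, hbv⟩ ⟨hcw, hbw⟩
  · rintro u v w D r hD hr hrD hcr ⟨hv1, hv2⟩ ⟨hw1, hw2⟩
    have hDr : (0 : ℝ) < D := by exact_mod_cast hD
    have hrr : (0 : ℝ) ≤ r := by exact_mod_cast hr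
    have hrD' : (r : ℝ) + 1 ≤ D := by exact_mod_cast hrD
    have e1 : (D : ℝ) * dR z u = r * dR z v + dR z w := by
      rw [← dR_smul, hcr, dR_add, dR_smul]
    have e2 : (D : ℝ) * bR z u = r * bR z v + bR z w := by
      rw [← bR_smul, hcr, bR_add, bR_smul]
    have b1 := hv1.bR_nonneg hη
    have b2 := hw1.bR_nonneg hη
    unfold Cone at hv1 hw1
    constructor
    · unfold Cone
      have h1 : (D : ℝ) * |dR z u| ≤ D * (η * bR z u) := by
        calc (D : ℝ) * |dR z u| = |(D : ℝ) * dR z u| := by rw [abs_mul, abs_of_pos hDr]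
          _ = |r * dR z v + dR z w| := by rw [e1]
          _ ≤ |r * dR z v| + |dR z w| := abs_add_le _ _
          _ = r * |dR z v| + |dR z w| := by rw [abs_mul, abs_of_nonneg hrr]
          _ ≤ r * (η * bR z v) + η * bR z w := by gcongr
          _ = η * (r * bR z v + bR z w) := by ring
          _ = D * (η * bR z u) := by rw [← e2]; ring
      exact le_of_mul_le_mul_left h1 hDr
    · have hT : 0 ≤ T := b1.trans hv2
      have h1 : (D : ℝ) * bR z u ≤ D * T := by
        rw [e2]
        calc r * bR z v + bR z w ≤ r * T + T := by gcongr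
          _ = (r + 1) * T := by ring
          _ ≤ D * T := by gcongr
      exact le_of_mul_le_mul_left h1 hDr
  · rintro v g hg ⟨h1, h2⟩
    have hgr : (0 : ℝ) < g := by exact_mod_cast hg
    have hg1 : (1 : ℝ) ≤ g := by exact_mod_cast hg
    have b1 := h1.bR_nonneg hη
    unfold Cone at h1
    rw [bR_smul] at h1 h2 b1
    rw [dR_smul, abs_mul, abs_of_pos hgr] at h1
    have b2 : 0 ≤ bR z v := by
      by_contra hneg
      push Not at hneg
      nlinarith
    refine ⟨?_, by nlinarith⟩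
    unfold Cone
    have : (g : ℝ) * |dR z v| ≤ g * (η * bR z v) := by linarith
    exact le_of_mul_le_mul_left this hgr
  · intro k u hk
    exact hh_zsmul hk u
  · rintro v u hdt ⟨h1, h2⟩ ⟨h3, h4⟩
    have := hedge v u hdt h1 h3 h2 h4
    rw [← nm_mul_nm_of_dt hdt] at this
    exact eq_of_lam_mul_eq_one this

end

end Pool.Agent.Lib.MP_648c71_nt
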