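import Pool.Agent.Lib.MP_648c71_nt.Shell

/-!
Grid counting.
-/

namespace Pool.Agent.Lib.MP_648c71_nt

open QuadraticAlgebra

variable {b c : ℤ}

noncomputable section

theorem card_near (N : ℕ) (τ δ : ℝ) (hN : 0 < N) (hδ : 0 ≤ δ) :
    (((Finset.range N).filter (fun k : ℕ => |(k : ℝ) / N - τ| ≤ δ)).card : ℝ) ≤ 2 * δ * N + 1 := by
  classical
  have hNr : (0 : ℝ) < N := by exact_mod_cast hN
  set A := (Finset.range N).filter (fun k : ℕ => |(k : ℝ) / N - τ| ≤ δ) with hA
  set I := Finset.Icc ⌈(N : ℝ) * τ - N * δ⌉ ⌊(N : ℝ) * τ + N * δ⌋ with hI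
  have h1 : A.card ≤ I.card := by
    apply Finset.card_le_card_of_injOn (fun k : ℕ => (k : ℤ))
    · intro k hk
      simp only [hA, Finset.coe_filter, Finset.mem_range, Set.mem_ofPred_eq] at hk
      have h := abs_le.mp hk.2
      simp only [hI, Finset.coe_Icc, Set.mem_Icc]
      have e : (k : ℝ) / N * N = k := by field_simp
      constructor
      · rw [Int.ceil_le]
        have : -δ * N ≤ ((k : ℝ) / N - τ) * N := by gcongr; exact h.1
        push_cast
        nlinarith
      · rw [Int.le_floor]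
        have : ((k : ℝ) / N - τ) * N ≤ δ * N := by gcongr; exact h.2
        push_cast
        nlinarith
    · intro x _ y _ hxy
      have hxy' : (x : ℤ) = y := hxy
      exact_mod_cast hxy'
  have h2 : (I.card : ℝ) ≤ 2 * δ * N + 1 := by
    rw [hI, Int.card_Icc]
    rcases le_total 0 (⌊(N : ℝ) * τ + N * δ⌋ + 1 - ⌈(N : ℝ) * τ - N * δ⌉) with h | h
    · have h3 : (((⌊(N : ℝ) * τ + N * δ⌋ + 1 - ⌈(N : ℝ) * τ - N * δ⌉).toNat : ℤ) : ℝ) =
          (⌊(N : ℝ) * τ + N * δ⌋ : ℝ) + 1 - (⌈(N : ℝ) * τ - N * δ⌉ : ℝ) := by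
        rw [Int.toNat_of_nonneg h]; push_cast; ring
      have h4 := Int.floor_le ((N : ℝ) * τ + N * δ)
      have h5 := Int.le_ceil ((N : ℝ) * τ - N * δ)
      have h6 : (((⌊(N : ℝ) * τ + N * δ⌋ + 1 - ⌈(N : ℝ) * τ - N * δ⌉).toNat : ℕ) : ℝ) =
          (((⌊(N : ℝ) * τ + N * δ⌋ + 1 - ⌈(N : ℝ) * τ - N * δ⌉).toNat : ℤ) : ℝ) := by
        norm_cast
      rw [h6, h3]
      linarith
    · rw [Int.toNat_of_nonpos h]
      have : 0 ≤ 2 * δ * N := by positivity
      push_cast
      linarith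
  have h1' : (A.card : ℝ) ≤ I.card := by exact_mod_cast h1
  linarith

/-- the number of grid directions seen from `β` whose cone contains `v` -/
theorem card_cone (β v : O b c) (hβv : star β * v ≠ 0) {K0 η : ℝ} (hK : 2 ≤ K0) (hη : 0 < η)
    (hηκ : 2 * (kap b c * η) ≤ 1) (N : ℕ) (hN : 0 < N) [DecidablePred fun k : ℕ =>
      Cone (act β (z0 K0 ((k : ℝ) / N))) η v] :
    (((Finset.range N).filter (fun k : ℕ => Cone (act β (z0 K0 ((k : ℝ) / N))) η v)).card : ℝ) ≤
      2 * (kap b c * K0 * η) * N + 1 := by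
  classical
  have hNr : (0 : ℝ) < N := by exact_mod_cast hN
  have hk := four_le_kap b c
  set u := star β * v with hu
  refine le_trans ?_ (card_near N (K0 * u.im / u.re) (kap b c * K0 * η) hN (by positivity))
  have hsub : (Finset.range N).filter (fun k : ℕ => Cone (act β (z0 K0 ((k : ℝ) / N))) η v) ⊆
      (Finset.range N).filter (fun k : ℕ => |(k : ℝ) / N - K0 * u.im / u.re| ≤ kap b c * K0 * η) := by
    intro k hk'
    simp only [Finset.mem_filter, Finset.mem_range] at hk' ⊢
    refine ⟨hk'.1, ?_⟩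
    have hcone := hk'.2
    unfold Cone at hcone
    rw [dR_act, bR_act, ← hu] at hcone
    set s : ℝ := (k : ℝ) / N with hs
    have hs0 : 0 ≤ s := by positivity
    have hs1 : s ≤ 1 := by
      rw [hs, div_le_one hNr]
      exact_mod_cast hk'.1.le
    have hszz : sz (z0 K0 s) = K0 := sz_z0 (by linarith) hs0 hs1
    have hb := (le_abs_self _).trans (abs_bR_le (z0 K0 s) u)
    rw [hszz] at hb
    have hd : |K0 * u.im - s * u.re| ≤ η * (kap b c * K0 * szv u) := by
      have e : dR (z0 K0 s) u = K0 * u.im - s * u.re := rfl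
      rw [← e]
      calc _ ≤ η * bR (z0 K0 s) u := hcone
        _ ≤ _ := by gcongr
    -- the rational part dominates
    have hle : |(u.im : ℝ)| ≤ |(u.re : ℝ)| := by
      by_contra hlt
      push Not at hlt
      have hsz : szv u = |(u.im : ℝ)| := max_eq_right hlt.le
      rw [hsz] at hd
      have h1 : K0 * |(u.im : ℝ)| ≤ |K0 * u.im - s * u.re| + s * |(u.re : ℝ)| := by
        calc K0 * |(u.im : ℝ)| = |K0 * u.im| := by
              rw [abs_mul, abs_of_nonneg (show (0 : ℝ) ≤ K0 by linarith)]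
          _ = |(K0 * u.im - s * u.re) + s * u.re| := by ring_nf
          _ ≤ |K0 * u.im - s * u.re| + |s * u.re| := abs_add_le _ _
          _ = _ := by rw [abs_mul s, abs_of_nonneg hs0]
      have h2 : s * |(u.re : ℝ)| ≤ 1 * |(u.re : ℝ)| := by gcongr
      have h3 : η * (kap b c * K0 * |(u.im : ℝ)|) = (kap b c * η) * (K0 * |(u.im : ℝ)|) := by ring
      have h4 : (kap b c * η) * (K0 * |(u.im : ℝ)|) ≤ 1 / 2 * (K0 * |(u.im : ℝ)|) := by
        gcongr; linarith
      have h5 : 2 * |(u.im : ℝ)| ≤ K0 * |(u.im : ℝ)| := by gcongr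
      linarith
    have hsz : szv u = |(u.re : ℝ)| := max_eq_left hle
    have hre : 0 < |(u.re : ℝ)| := by
      rw [← hsz]
      exact lt_of_lt_of_le one_pos (one_le_szv hβv)
    have hre0 : (u.re : ℝ) ≠ 0 := abs_pos.mp hre
    rw [hsz] at hd
    have e : s - K0 * u.im / u.re = -(K0 * u.im - s * u.re) / u.re := by field_simp; ring
    rw [e, abs_div, abs_neg, div_le_iff₀ hre]
    calc |K0 * u.im - s * u.re| ≤ η * (kap b c * K0 * |(u.re : ℝ)|) := hd
      _ = _ := by ring
  exact_mod_cast Finset.card_le_card hsub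

/-- Dirichlet alternative: a small lattice vector in the half cone, or a very short vector nearby. -/
theorem exists_small_or {c0 η : ℝ} {z : ℝ × ℝ} {n : ℕ} (hn : 0 < n) (hc0 : 0 < c0)
    (hE : Ell b c c0 z) (hη : 0 < η) (hnκ : kap b c ≤ c0 * (n + 1)) :
    (∃ w : O b c, w ≠ 0 ∧ Cone z (η / 2) w ∧ szv w ≤ n) ∨
    (∃ w : O b c, w ≠ 0 ∧ szv w * (c0 * η * (n + 1)) < 2 ∧ Cone z (1 / (c0 * szv w * (n + 1))) w) := by
  obtain ⟨w, hw0, hwn, hd, hcase⟩ := exists_approx (b := b) (c := c) z hn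
  have hk := four_le_kap b c
  have hZ := hE.pos
  have hN := hE.le
  have hN0 := hE.nR_pos hc0
  have hn1 : (0 : ℝ) < n + 1 := by positivity
  have hw1 := one_le_szv hw0
  -- lower bound for the trace form
  have hb : c0 * (sz z * szv w) ≤ |bR z w| := by
    have h1 : |dR z w| * (kap b c * sz z) ≤ c0 * sz z ^ 2 := by
      calc |dR z w| * (kap b c * sz z) ≤ (sz z / (n + 1)) * ((c0 * (n + 1)) * sz z) := by gcongr
        _ = c0 * sz z ^ 2 := by field_simp
    rcases hcase with ⟨hle, hsz⟩ | ⟨hle, hsz⟩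
    · have hZ1 : sz z = |z.1| := max_eq_left hle
      have e1 := fst_mul_bR z w
      have hf1 := abs_form1_le (b := b) (c := c) z
      have h2 : 2 * szv w * nR b c z ≤ sz z * |bR z w| + |dR z w| * (kap b c * sz z) := by
        calc 2 * szv w * nR b c z = |2 * w.re * nR b c z| := by
              rw [abs_mul, abs_mul, abs_two, abs_of_nonneg hN0.le, hsz]
          _ = |z.1 * bR z w - dR z w * (b * z.1 + 2 * c * z.2)| := by rw [e1]; ring_nf
          _ ≤ |z.1 * bR z w| + |dR z w * (b * z.1 + 2 * c * z.2)| := abs_sub _ _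
          _ = |z.1| * |bR z w| + |dR z w| * |b * z.1 + 2 * c * z.2| := by
              rw [abs_mul, abs_mul]
          _ ≤ _ := by rw [← hZ1]; gcongr
      have h3 : (c0 * (sz z * szv w)) * sz z ≤ |bR z w| * sz z := by
        have h4 : szv w * (c0 * sz z ^ 2) ≤ szv w * nR b c z := by gcongr
        have h5 : c0 * sz z ^ 2 ≤ szv w * (c0 * sz z ^ 2) := by
          have : 0 ≤ c0 * sz z ^ 2 := by positivity
          nlinarith
        nlinarith
      exact le_of_mul_le_mul_right h3 hZ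
    · have hZ1 : sz z = |z.2| := max_eq_right hle
      have e1 := snd_mul_bR z w
      have hf1 := abs_form2_le (b := b) (c := c) z
      have h2 : 2 * szv w * nR b c z ≤ sz z * |bR z w| + |dR z w| * (kap b c * sz z) := by
        calc 2 * szv w * nR b c z = |2 * w.im * nR b c z| := by
              rw [abs_mul, abs_mul, abs_two, abs_of_nonneg hN0.le, hsz]
          _ = |z.2 * bR z w + dR z w * (2 * z.1 + b * z.2)| := by rw [e1]; ring_nf
          _ ≤ |z.2 * bR z w| + |dR z w * (2 * z.1 + b * z.2)| := abs_add_le _ _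
          _ = |z.2| * |bR z w| + |dR z w| * |2 * z.1 + b * z.2| := by
              rw [abs_mul, abs_mul]
          _ ≤ _ := by rw [← hZ1]; gcongr
      have h3 : (c0 * (sz z * szv w)) * sz z ≤ |bR z w| * sz z := by
        have h4 : szv w * (c0 * sz z ^ 2) ≤ szv w * nR b c z := by gcongr
        have h5 : c0 * sz z ^ 2 ≤ szv w * (c0 * sz z ^ 2) := by
          have : 0 ≤ c0 * sz z ^ 2 := by positivity
          nlinarith
        nlinarith
      exact le_of_mul_le_mul_right h3 hZ
  -- choose the sign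
  obtain ⟨w', hw'0, hszw', hdw', hbw'⟩ : ∃ w' : O b c, w' ≠ 0 ∧ szv w' = szv w ∧
      |dR z w'| = |dR z w| ∧ bR z w' = |bR z w| := by
    rcases le_total 0 (bR z w) with h | h
    · exact ⟨w, hw0, rfl, rfl, (abs_of_nonneg h).symm⟩
    · refine ⟨-w, neg_ne_zero.mpr hw0, ?_, ?_, ?_⟩
      · simp only [szv, re_neg, im_neg, Int.cast_neg, abs_neg]
      · rw [dR_neg, abs_neg]
      · rw [bR_neg, abs_of_nonpos h]
  have hden : 0 < c0 * szv w * (n + 1) := by positivity
  have hcone1 : Cone z (1 / (c0 * szv w' * (n + 1))) w' := by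
    unfold Cone
    rw [hdw', hbw', hszw', one_div, ← div_eq_inv_mul, le_div_iff₀ hden]
    calc |dR z w| * (c0 * szv w * (n + 1)) ≤ (sz z / (n + 1)) * (c0 * szv w * (n + 1)) := by
          gcongr
      _ = c0 * (sz z * szv w) := by field_simp
      _ ≤ _ := hb
  by_cases hcone : Cone z (η / 2) w'
  · left
    exact ⟨w', hw'0, hcone, by rw [hszw']; exact hwn⟩
  · right
    refine ⟨w', hw'0, ?_, hcone1⟩
    unfold Cone at hcone
    push Not at hcone
    rw [hdw', hbw'] at hcone
    rw [hszw']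
    have h1 : η / 2 * (c0 * (sz z * szv w)) < sz z / (n + 1) := by
      calc η / 2 * (c0 * (sz z * szv w)) ≤ η / 2 * |bR z w| := by gcongr
        _ < |dR z w| := hcone
        _ ≤ _ := hd
    rw [lt_div_iff₀ hn1] at h1
    have h2 : (szv w * (c0 * η * (n + 1))) * sz z < 2 * sz z := by nlinarith
    exact lt_of_mul_lt_mul_right h2 hZ.le

end

end Pool.Agent.Lib.MP_648c71_nt
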