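import Pool.Agent.Lib.MP_648c71_nt.Chain
import Pool.Agent.Lib.MP_648c71_nt.Grid

/-!
The counting argument over the grid of directions.
-/

namespace Pool.Agent.Lib.MP_648c71_nt

open QuadraticAlgebra

variable {b c : ℤ}

noncomputable section

theorem good_of_no_bad {c0 η X : ℝ} {z : ℝ × ℝ} (E : Finset (O b c)) (hc0 : 0 < c0)
    (hc1 : c0 ≤ 1) (hEz : Ell b c c0 z) (hη : 0 < η) (hηκ : 2 * (kap b c * η) ≤ 1) (hX0 : 0 ≤ X)
    (hE : ∀ v u : O b c, dt v u = 1 → 0 < nm v → 0 < nm u →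
      c0 ^ 2 * szv v ^ 2 ≤ 32 * kap b c * nm v → -|(b : ℝ)| ≤ sc v u → (sc v u : ℝ) ≤ X + |(b : ℝ)| →
      lam (ff b c (sc v u)) ≠ 1 → v ∈ E)
    (hno : ∀ v ∈ E, ¬ Cone z η v) : Good b c X η z := by
  intro v w hv hw hcv hcw hbv hbw
  have hN := hEz.nR_pos hc0
  have hs0 : 0 ≤ 2 * X * nR b c z := by positivity
  set T := Real.sqrt (2 * X * nR b c z) with hT
  have hTsq : T ^ 2 = 2 * X * nR b c z := Real.sq_sqrt hs0
  have hv' : bR z v ≤ T := Real.le_sqrt_of_sq_le hbv
  have hw' : bR z w ≤ T := Real.le_sqrt_of_sq_le hbw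
  refine hh_const_of_edges z η T hη ?_ v w hv hw hcv hcw hv' hw'
  intro v u hdt hcv hcu hbv hbu
  by_contra hbad
  have hv0 : v ≠ 0 := by rintro rfl; simp [dt] at hdt
  have hu0 : u ≠ 0 := by rintro rfl; simp [dt] at hdt
  obtain ⟨h1, h2⟩ := sc_range hc0 hc1 hEz hη hηκ hcv hcu hbv hbu hdt (X := X) hTsq.le
  exact hno v (hE v u hdt (nm_pos hc0 hc1 hEz hη hηκ hcv hv0) (nm_pos hc0 hc1 hEz hη hηκ hcu hu0)
    (szv_sq_le hc0 hc1 hEz hη hηκ hcv) h1 h2 hbad) hcv

theorem core {c0 K0 η X : ℝ} {n N : ℕ} (l : List (O b c)) (E : Finset (O b c))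
    (hc0 : 0 < c0) (hc1 : c0 ≤ 1) (hK : 2 ≤ K0) (hη : 0 < η) (hηκ : 2 * (kap b c * η) ≤ 1)
    (hN : 0 < N) (hn : 0 < n) (hnκ : 2 * kap b c ≤ c0 * (n + 1))
    (hEll : ∀ i ≤ l.length, ∀ s : ℝ, 0 ≤ s → s ≤ 1 → Ell b c c0 (act (l.take i).prod (z0 K0 s)))
    (hl : ∀ μ ∈ l, 0 < nm μ ∧ (nm μ : ℝ) * (kap b c ^ 2 * n ^ 2) ≤ 2 * c0 * X)
    (hX : 4 * kap b c ^ 2 * n ^ 2 ≤ c0 * X)
    (hE : ∀ v u : O b c, dt v u = 1 → 0 < nm v → 0 < nm u →
      c0 ^ 2 * szv v ^ 2 ≤ 32 * kap b c * nm v → -|(b : ℝ)| ≤ sc v u → (sc v u : ℝ) ≤ X + |(b : ℝ)| →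
      lam (ff b c (sc v u)) ≠ 1 → v ∈ E)
    (hE0 : ∀ v ∈ E, v ≠ 0)
    (hγ : 8 * kap b c ^ 2 * |(l.prod.im : ℝ)| ≤ c0 * η * |(l.prod.re : ℝ)|)
    (hγ0 : l.prod.re ≠ 0) (hh1 : hh l.prod ≠ 1) :
    (N : ℝ) ≤ (l.length + 1) * (E.card * (2 * (kap b c * K0 * η) * N + 1) +
      (48 * kap b c * K0 * N / (c0 ^ 2 * η * (n + 1) ^ 2) +
        48 / (c0 ^ 2 * η ^ 2 * (n + 1) ^ 2))) := by
  classical
  have hk := four_le_kap b c
  have hX0 : 0 ≤ X := X_nonneg hc0 hX
  have hNr : (0 : ℝ) < N := by exact_mod_cast hN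
  have hn1 : (0 : ℝ) < n + 1 := by positivity
  set Zk : ℕ → ℕ → ℝ × ℝ := fun i k => act (l.take i).prod (z0 K0 ((k : ℝ) / N)) with hZk
  set Qr : ℝ := 2 / (c0 * η * (n + 1)) with hQr
  have hQr0 : 0 < Qr := by positivity
  set Q : ℕ := ⌊Qr⌋₊ with hQ
  -- bad sets
  set A : ℕ → O b c → Finset ℕ := fun i v => (Finset.range N).filter (fun k => Cone (Zk i k) η v)
    with hA
  set B : ℕ → ℕ → O b c → Finset ℕ := fun i m w =>
    (Finset.range N).filter (fun k => Cone (Zk i k) (1 / (c0 * m * (n + 1))) w) with hB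
  set Bad : Finset ℕ := (Finset.range (l.length + 1)).biUnion (fun i =>
    E.biUnion (A i) ∪ (Finset.Icc 1 Q).biUnion (fun m => (shell b c m).biUnion (B i m))) with hBad
  have hcover : Finset.range N ⊆ Bad := by
    intro k hkN
    by_contra hkB
    apply hh1
    have hkN' : k < N := Finset.mem_range.mp hkN
    have hs0 : (0 : ℝ) ≤ (k : ℝ) / N := by positivity
    have hs1 : (k : ℝ) / N ≤ 1 := by
      rw [div_le_one hNr]; exact_mod_cast hkN'.le
    simp only [hBad, Finset.mem_biUnion, Finset.mem_union, Finset.mem_range, not_exists,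
      not_and, not_or] at hkB
    refine chain (z := z0 K0 ((k : ℝ) / N)) (n := n) (X := X) l hc0 hc1 hη hηκ
      (fun i hi => hEll i hi _ hs0 hs1) hl ?_ ?_ hγ hγ0 hX
    · intro i hi
      have hEz := hEll i hi _ hs0 hs1
      refine good_of_no_bad E hc0 hc1 hEz hη hηκ hX0 hE ?_
      intro v hvE hcone
      have h1 := (hkB i (by omega)).1 v hvE
      apply h1
      simp only [hA, Finset.mem_filter, Finset.mem_range]
      exact ⟨hkN', hcone⟩
    · intro i hi
      have hEz := hEll i hi _ hs0 hs1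
      rcases exists_small_or (c0 := c0) (η := η) hn hc0 hEz hη (by linarith) with h | h
      · exact h
      · exfalso
        obtain ⟨w, hw0, hwlt, hwc⟩ := h
        have h1 := (hkB i (by omega)).2
        have hw1 : 1 ≤ szn w := by
          have := one_le_szv hw0
          rw [szv_eq] at this
          exact_mod_cast this
        have hwQ : szn w ≤ Q := by
          rw [hQ]
          apply Nat.le_floor
          rw [hQr, le_div_iff₀ (by positivity), ← szv_eq]
          exact hwlt.le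
        apply h1 (szn w) (Finset.mem_Icc.mpr ⟨hw1, hwQ⟩) w (mem_shell w)
        simp only [hB, Finset.mem_filter, Finset.mem_range]
        refine ⟨hkN', ?_⟩
        rw [szv_eq] at hwc
        exact hwc
  have hnmβ : ∀ i, nm (l.take i).prod ≠ 0 := fun i =>
    (nm_prod_pos _ (fun μ hμ => (hl μ (List.mem_of_mem_take hμ)).1)).ne'
  -- counting
  have hAcard : ∀ i, ∀ v ∈ E, ((A i v).card : ℝ) ≤ 2 * (kap b c * K0 * η) * N + 1 := by
    intro i v hv
    exact card_cone (l.take i).prod v (star_mul_ne_zero (hnmβ i) (hE0 v hv)) hK hη hηκ N hN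
  have hBcard : ∀ i, ∀ m ∈ Finset.Icc 1 Q, ∀ w ∈ shell b c m, ((B i m w).card : ℝ) ≤
      2 * (kap b c * K0 * (1 / (c0 * m * (n + 1)))) * N + 1 := by
    intro i m hm w hw
    have hm1 := (Finset.mem_Icc.mp hm).1
    have hmr : (1 : ℝ) ≤ m := by exact_mod_cast hm1
    refine card_cone (l.take i).prod w (star_mul_ne_zero (hnmβ i) (ne_zero_of_mem_shell hm1 hw)) hK
      (by positivity) ?_ N hN
    have h1 : c0 * (n + 1) ≤ c0 * m * (n + 1) := by
      have : 0 ≤ c0 * (n + 1) := by positivity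
      nlinarith
    rw [mul_one_div, ← mul_div_assoc, div_le_one (by positivity)]
    linarith
  have hBm : ∀ i, ∀ m ∈ Finset.Icc 1 Q, (((shell b c m).biUnion (B i m)).card : ℝ) ≤
      24 * kap b c * K0 * N / (c0 * (n + 1)) + 12 * Q := by
    intro i m hm
    have hm1 := (Finset.mem_Icc.mp hm).1
    have hmQ := (Finset.mem_Icc.mp hm).2
    have hmr : (1 : ℝ) ≤ m := by exact_mod_cast hm1
    have hmQr : (m : ℝ) ≤ Q := by exact_mod_cast hmQ
    calc (((shell b c m).biUnion (B i m)).card : ℝ) ≤ ∑ w ∈ shell b c m, ((B i m w).card : ℝ) := by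
          exact_mod_cast Finset.card_biUnion_le
      _ ≤ ∑ w ∈ shell b c m, (2 * (kap b c * K0 * (1 / (c0 * m * (n + 1)))) * N + 1) :=
          Finset.sum_le_sum (hBcard i m hm)
      _ = (shell b c m).card * (2 * (kap b c * K0 * (1 / (c0 * m * (n + 1)))) * N + 1) := by
          rw [Finset.sum_const, nsmul_eq_mul]
      _ ≤ (12 * m) * (2 * (kap b c * K0 * (1 / (c0 * m * (n + 1)))) * N + 1) := by
          gcongr
          exact_mod_cast card_shell b c hm1
      _ = 24 * kap b c * K0 * N / (c0 * (n + 1)) + 12 * m := by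
          field_simp
          ring
      _ ≤ _ := by gcongr
  have hQle : (Q : ℝ) ≤ Qr := Nat.floor_le hQr0.le
  have hcard : (Bad.card : ℝ) ≤ (l.length + 1) * (E.card * (2 * (kap b c * K0 * η) * N + 1) +
      (48 * kap b c * K0 * N / (c0 ^ 2 * η * (n + 1) ^ 2) +
        48 / (c0 ^ 2 * η ^ 2 * (n + 1) ^ 2))) := by
    calc (Bad.card : ℝ) ≤ ∑ i ∈ Finset.range (l.length + 1), ((E.biUnion (A i) ∪
          (Finset.Icc 1 Q).biUnion (fun m => (shell b c m).biUnion (B i m))).card : ℝ) := by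
          rw [hBad]; exact_mod_cast Finset.card_biUnion_le
      _ ≤ ∑ i ∈ Finset.range (l.length + 1), (E.card * (2 * (kap b c * K0 * η) * N + 1) +
            (48 * kap b c * K0 * N / (c0 ^ 2 * η * (n + 1) ^ 2) +
              48 / (c0 ^ 2 * η ^ 2 * (n + 1) ^ 2))) := by
          apply Finset.sum_le_sum
          intro i _
          have h1 : ((E.biUnion (A i) ∪ (Finset.Icc 1 Q).biUnion
              (fun m => (shell b c m).biUnion (B i m))).card : ℝ) ≤
              (E.biUnion (A i)).card + ((Finset.Icc 1 Q).biUnion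
              (fun m => (shell b c m).biUnion (B i m))).card := by
            exact_mod_cast Finset.card_union_le _ _
          refine h1.trans ?_
          apply add_le_add
          · calc ((E.biUnion (A i)).card : ℝ) ≤ ∑ v ∈ E, ((A i v).card : ℝ) := by
                  exact_mod_cast Finset.card_biUnion_le
              _ ≤ ∑ v ∈ E, (2 * (kap b c * K0 * η) * N + 1) := Finset.sum_le_sum (hAcard i)
              _ = _ := by rw [Finset.sum_const, nsmul_eq_mul]
          · calc (((Finset.Icc 1 Q).biUnion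
                (fun m => (shell b c m).biUnion (B i m))).card : ℝ)
                ≤ ∑ m ∈ Finset.Icc 1 Q, (((shell b c m).biUnion (B i m)).card : ℝ) := by
                  exact_mod_cast Finset.card_biUnion_le
              _ ≤ ∑ m ∈ Finset.Icc 1 Q, (24 * kap b c * K0 * N / (c0 * (n + 1)) + 12 * Q) :=
                  Finset.sum_le_sum (hBm i)
              _ = Q * (24 * kap b c * K0 * N / (c0 * (n + 1)) + 12 * Q) := by
                  rw [Finset.sum_const, nsmul_eq_mul, Nat.card_Icc, Nat.add_sub_cancel]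
              _ ≤ Qr * (24 * kap b c * K0 * N / (c0 * (n + 1)) + 12 * Qr) := by gcongr
              _ = _ := by
                  rw [hQr]
                  field_simp
                  ring
      _ = _ := by
          rw [Finset.sum_const, nsmul_eq_mul, Finset.card_range]
          push_cast
          ring
  have hNB : (N : ℝ) ≤ Bad.card := by
    have := Finset.card_le_card hcover
    rw [Finset.card_range] at this
    exact_mod_cast this
  exact hNB.trans hcard

end

end Pool.Agent.Lib.MP_648c71_nt
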