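import Mathlib

/-!
# Negative values of Liouville's function at the simplest cubic polynomials

For every integer `a` there is an integer `m`, `|m| ≤ 6 (|a| + 2)^3`, with `λ(f_a(m)) = -1`, where
`f_a(T) = T^3 - a T^2 - (a+3) T - 1`.
-/

namespace Pool.Agent.Lib.MP_648c71_nt.CubicNeg

/-- Liouville's function of an integer -/
def lam (z : ℤ) : ℤ := (-1) ^ (ArithmeticFunction.cardFactors z.natAbs)

theorem lam_mul {x y : ℤ} (hx : x ≠ 0) (hy : y ≠ 0) : lam (x * y) = lam x * lam y := by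
  unfold lam
  rw [Int.natAbs_mul, ArithmeticFunction.cardFactors_mul (Int.natAbs_ne_zero.mpr hx)
    (Int.natAbs_ne_zero.mpr hy), pow_add]

theorem lam_neg (x : ℤ) : lam (-x) = lam x := by
  unfold lam; rw [Int.natAbs_neg]

theorem lam_mul_self (x : ℤ) : lam x * lam x = 1 := by
  unfold lam
  rw [← mul_pow]; norm_num

theorem lam_cases (x : ℤ) : lam x = 1 ∨ lam x = -1 := by
  unfold lam
  exact neg_one_pow_eq_or ℤ _

theorem lam_prime {z : ℤ} (h : z.natAbs.Prime) : lam z = -1 := by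
  unfold lam
  rw [ArithmeticFunction.cardFactors_apply_prime h]; norm_num

theorem lam_neg_one : lam (-1) = 1 := by
  unfold lam; simp

theorem lam_pow_three {x : ℤ} (hx : x ≠ 0) : lam (x ^ 3) = lam x := by
  rw [show x ^ 3 = x * (x * x) by ring, lam_mul hx (mul_ne_zero hx hx), lam_mul hx hx,
    lam_mul_self, mul_one]

/-- the binary cubic form `x^3 - a x^2 y - (a+3) x y^2 - y^3` -/
def G (a x y : ℤ) : ℤ := x ^ 3 - a * x ^ 2 * y - (a + 3) * x * y ^ 2 - y ^ 3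

/-- Shanks' simplest cubic `T^3 - a T^2 - (a+3) T - 1` -/
def f (a x : ℤ) : ℤ := x ^ 3 - a * x ^ 2 - (a + 3) * x - 1

theorem f_ne_zero (a x : ℤ) : f a x ≠ 0 := by
  intro h
  have h1 : x ∣ 1 := ⟨x ^ 2 - a * x - (a + 3), by unfold f at h; linarith⟩
  rcases Int.isUnit_iff.mp (isUnit_of_dvd_one h1) with h2 | h2
  · subst h2; unfold f at h; omega
  · subst h2; unfold f at h; omega

/-- the common factor in the three identities below -/
def Nk (a k : ℤ) : ℤ :=
  (3 - 18 * k - 27 * k ^ 2 - 9 * k ^ 3) + (2 + 3 * k - 18 * k ^ 2 - 12 * k ^ 3) * a +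
    (k - 4 * k ^ 3) * a ^ 2

def n1 (a k : ℤ) : ℤ := k * (2 * k + 1) * a + 3 * k ^ 2 + 6 * k + 1
def n2 (a k : ℤ) : ℤ := k * (2 * k - 1) * a + 3 * k ^ 2 + 3 * k - 2
def n3 (a k : ℤ) : ℤ := (1 - 4 * k ^ 2) * a - 6 * k ^ 2 - 9 * k + 1

theorem id1 (a k : ℤ) : f a (n1 a k) = G a k (k + 1) * Nk a k := by
  unfold f n1 G Nk; ring

theorem id2 (a k : ℤ) : f a (n2 a k) = G a (k - 1) k * Nk a k := by
  unfold f n2 G Nk; ring

theorem id3 (a k : ℤ) : f a (n3 a k) = G a (-(2 * k + 1)) (4 * k) * Nk a k := by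
  unfold f n3 G Nk; ring

theorem id4 (a k t : ℤ) (h : 2 * a + 3 = (6 * k + 1) * t) :
    (6 * k + 1) ^ 3 * f a (1 + 2 * k * (2 * k + 1) * t) =
      f a 1 * (G a (2 * k) (2 * k + 1) * G a (-(2 * k + 1)) (4 * k)) := by
  have h8 : (8 : ℤ) * ((6 * k + 1) ^ 3 * f a (1 + 2 * k * (2 * k + 1) * t)) =
      8 * (f a 1 * (G a (2 * k) (2 * k + 1) * G a (-(2 * k + 1)) (4 * k))) := by
    have e1 : (2 : ℤ) * f a 1 = -(2 * (2 * a + 3)) := by unfold f; ring
    have e2 : 2 * G a (2 * k) (2 * k + 1) =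
        2 * (2 * k) ^ 3 - (2 * a + 3 - 3) * (2 * k) ^ 2 * (2 * k + 1)
          - (2 * a + 3 + 3) * (2 * k) * (2 * k + 1) ^ 2 - 2 * (2 * k + 1) ^ 3 := by
      unfold G; ring
    have e3 : 2 * G a (-(2 * k + 1)) (4 * k) =
        2 * (-(2 * k + 1)) ^ 3 - (2 * a + 3 - 3) * (-(2 * k + 1)) ^ 2 * (4 * k)
          - (2 * a + 3 + 3) * (-(2 * k + 1)) * (4 * k) ^ 2 - 2 * (4 * k) ^ 3 := by
      unfold G; ring
    have e4 : ∀ n : ℤ, 2 * f a n =
        2 * n ^ 3 - (2 * a + 3 - 3) * n ^ 2 - (2 * a + 3 + 3) * n - 2 := by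
      intro n; unfold f; ring
    calc (8 : ℤ) * ((6 * k + 1) ^ 3 * f a (1 + 2 * k * (2 * k + 1) * t))
        = 4 * (6 * k + 1) ^ 3 * (2 * f a (1 + 2 * k * (2 * k + 1) * t)) := by ring
      _ = (2 * f a 1) * ((2 * G a (2 * k) (2 * k + 1)) *
            (2 * G a (-(2 * k + 1)) (4 * k))) := by
          rw [e4, e1, e2, e3, h]; ring
      _ = _ := by ring
  linarith

theorem id5 (a t : ℤ) (h : 2 * a + 3 = 27 * t) :
    27 ^ 3 * f a (1 - 4 * t) = f a 1 * (f a 4 * f a 7) := by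
  have h8 : (8 : ℤ) * (27 ^ 3 * f a (1 - 4 * t)) = 8 * (f a 1 * (f a 4 * f a 7)) := by
    have e4 : ∀ n : ℤ, 2 * f a n =
        2 * n ^ 3 - (2 * a + 3 - 3) * n ^ 2 - (2 * a + 3 + 3) * n - 2 := by
      intro n; unfold f; ring
    calc (8 : ℤ) * (27 ^ 3 * f a (1 - 4 * t)) = 4 * 27 ^ 3 * (2 * f a (1 - 4 * t)) := by ring
      _ = (2 * f a 1) * ((2 * f a 4) * (2 * f a 7)) := by
          rw [e4, e4, e4, e4, h]; ring
      _ = _ := by ring
  linarith

theorem lam_G_eq {a k : ℤ} (h1 : lam (f a (n1 a k)) = 1) (h2 : lam (f a (n2 a k)) = 1) :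
    lam (G a k (k + 1)) = lam (G a (k - 1) k) := by
  have hne1 := f_ne_zero a (n1 a k)
  have hne2 := f_ne_zero a (n2 a k)
  rw [id1] at h1 hne1
  rw [id2] at h2 hne2
  have hN : Nk a k ≠ 0 := right_ne_zero_of_mul hne1
  rw [lam_mul (left_ne_zero_of_mul hne1) hN] at h1
  rw [lam_mul (left_ne_zero_of_mul hne2) hN] at h2
  have hs := lam_mul_self (Nk a k)
  calc lam (G a k (k + 1)) = lam (G a k (k + 1)) * (lam (Nk a k) * lam (Nk a k)) := by
        rw [hs, mul_one]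
    _ = (lam (G a k (k + 1)) * lam (Nk a k)) * lam (Nk a k) := by ring
    _ = (lam (G a (k - 1) k) * lam (Nk a k)) * lam (Nk a k) := by rw [h1, h2]
    _ = lam (G a (k - 1) k) * (lam (Nk a k) * lam (Nk a k)) := by ring
    _ = _ := by rw [hs, mul_one]

theorem lam_G_eq' {a k : ℤ} (h1 : lam (f a (n1 a k)) = 1) (h2 : lam (f a (n3 a k)) = 1) :
    lam (G a (-(2 * k + 1)) (4 * k)) = lam (G a k (k + 1)) := by
  have hne1 := f_ne_zero a (n1 a k)
  have hne2 := f_ne_zero a (n3 a k)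
  rw [id1] at h1 hne1
  rw [id3] at h2 hne2
  have hN : Nk a k ≠ 0 := right_ne_zero_of_mul hne1
  rw [lam_mul (left_ne_zero_of_mul hne1) hN] at h1
  rw [lam_mul (left_ne_zero_of_mul hne2) hN] at h2
  have hs := lam_mul_self (Nk a k)
  calc lam (G a (-(2 * k + 1)) (4 * k))
      = lam (G a (-(2 * k + 1)) (4 * k)) * (lam (Nk a k) * lam (Nk a k)) := by
        rw [hs, mul_one]
    _ = (lam (G a (-(2 * k + 1)) (4 * k)) * lam (Nk a k)) * lam (Nk a k) := by ring
    _ = (lam (G a k (k + 1)) * lam (Nk a k)) * lam (Nk a k) := by rw [h1, h2]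
    _ = lam (G a k (k + 1)) * (lam (Nk a k) * lam (Nk a k)) := by ring
    _ = _ := by rw [hs, mul_one]

/-- bound for the arguments that occur -/
def B (a : ℤ) : ℤ := 6 * (|a| + 2) ^ 3

theorem abs_bound {a k : ℤ} (hk : |k| ≤ |a| + 2) :
    |n1 a k| ≤ B a ∧ |n2 a k| ≤ B a ∧ |n3 a k| ≤ B a := by
  set R := |a| + 2 with hR
  have ha0 := abs_nonneg a
  have hR2 : 2 ≤ R := by linarith
  have ha : |a| ≤ R := by linarith
  have hk0 := abs_nonneg k
  have hk2 : k ^ 2 ≤ R ^ 2 := by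
    rw [← sq_abs k]; exact pow_le_pow_left₀ hk0 hk 2
  have hk2' : |k ^ 2| ≤ R ^ 2 := by rw [abs_of_nonneg (sq_nonneg k)]; exact hk2
  have hR3 : R ^ 2 * 2 ≤ R ^ 3 := by nlinarith [sq_nonneg R]
  have hR1 : R * 4 ≤ R ^ 3 := by nlinarith [sq_nonneg R]
  have hR0 : 8 ≤ R ^ 3 := by nlinarith
  have e1 : |k * a| ≤ R ^ 2 - 2 * R := by
    rw [abs_mul]
    have : |a| = R - 2 := by rw [hR]; ring
    rw [this]
    nlinarith
  have e2 : |k ^ 2 * a| ≤ R ^ 3 - 2 * R ^ 2 := by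
    rw [abs_mul]
    have : |a| = R - 2 := by rw [hR]; ring
    rw [this]
    nlinarith [sq_nonneg R]
  rw [abs_le] at e1 e2 hk2' hk
  have ha' : -R ≤ a ∧ a ≤ R := abs_le.mp ha
  obtain ⟨e1a, e1b⟩ := e1
  obtain ⟨e2a, e2b⟩ := e2
  obtain ⟨e3a, e3b⟩ := hk2'
  obtain ⟨e4a, e4b⟩ := hk
  obtain ⟨e5a, e5b⟩ := ha'
  have hk2n := sq_nonneg k
  unfold B n1 n2 n3
  rw [← hR]
  refine ⟨abs_le.mpr ⟨?_, ?_⟩, abs_le.mpr ⟨?_, ?_⟩, abs_le.mpr ⟨?_, ?_⟩⟩ <;> nlinarith

/-- if `λ(f_a) = 1` on `[-B, B]` then `λ(G_a(k,k+1)) = 1` for `0 ≤ k ≤ |a| + 2` -/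
theorem up {a : ℤ} (h : ∀ m : ℤ, |m| ≤ B a → lam (f a m) = 1) :
    ∀ k : ℕ, (k : ℤ) ≤ |a| + 2 → lam (G a (k : ℤ) ((k : ℤ) + 1)) = 1 := by
  intro k
  induction k with
  | zero =>
    intro _
    have : G a ((0 : ℕ) : ℤ) (((0 : ℕ) : ℤ) + 1) = -1 := by unfold G; push_cast; ring
    rw [this]; exact lam_neg_one
  | succ k ih =>
    intro hk
    push_cast at hk ⊢
    have hk' : |(k : ℤ) + 1| ≤ |a| + 2 := by
      rw [abs_of_nonneg (by positivity)]; exact hk
    obtain ⟨b1, b2, b3⟩ := abs_bound hk'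
    rw [lam_G_eq (h _ b1) (h _ b2), add_sub_cancel_right]
    exact ih (by linarith)

/-- if `λ(f_a) = 1` on `[-B, B]` then `λ(G_a(k,k+1)) = 1` for `-(|a|+2) ≤ k ≤ 0` -/
theorem down {a : ℤ} (h : ∀ m : ℤ, |m| ≤ B a → lam (f a m) = 1) :
    ∀ k : ℕ, (k : ℤ) ≤ |a| + 2 → lam (G a (-(k : ℤ)) (-(k : ℤ) + 1)) = 1 := by
  intro k
  induction k with
  | zero =>
    intro _
    have : G a (-((0 : ℕ) : ℤ)) (-((0 : ℕ) : ℤ) + 1) = -1 := by unfold G; push_cast; ring
    rw [this]; exact lam_neg_one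
  | succ k ih =>
    intro hk
    push_cast at hk ⊢
    have hk' : |-(k : ℤ)| ≤ |a| + 2 := by
      rw [abs_neg, abs_of_nonneg (by positivity)]; linarith
    obtain ⟨b1, b2, b3⟩ := abs_bound hk'
    have h1 := lam_G_eq (h _ b1) (h _ b2)
    rw [ih (by linarith)] at h1
    rw [show -((k : ℤ) + 1) = -(k : ℤ) - 1 by ring, show -(k : ℤ) - 1 + 1 = -(k : ℤ) by ring]
    exact h1.symm

theorem both {a : ℤ} (h : ∀ m : ℤ, |m| ≤ B a → lam (f a m) = 1) (k : ℤ) (hk : |k| ≤ |a| + 2) :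
    lam (G a k (k + 1)) = 1 := by
  rcases le_total 0 k with h0 | h0
  · have := up h k.toNat (by rw [Int.toNat_of_nonneg h0]; rwa [abs_of_nonneg h0] at hk)
    rwa [Int.toNat_of_nonneg h0] at this
  · have := down h (-k).toNat (by
      rw [Int.toNat_of_nonneg (by linarith)]; rwa [abs_of_nonpos h0] at hk)
    rwa [Int.toNat_of_nonneg (by linarith), neg_neg] at this

/-- divisors `6k+1` of `2a+3` have an even number of prime factors -/
theorem lam_divisor {a : ℤ} (h : ∀ m : ℤ, |m| ≤ B a → lam (f a m) = 1) {k t : ℤ}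
    (hkt : 2 * a + 3 = (6 * k + 1) * t) : lam (6 * k + 1) = 1 := by
  have ha0 := abs_nonneg a
  have hne : 2 * a + 3 ≠ 0 := by omega
  have hs0 : 6 * k + 1 ≠ 0 := by omega
  have ht0 : t ≠ 0 := by rintro rfl; rw [mul_zero] at hkt; exact hne hkt
  have hR : |2 * a + 3| ≤ 2 * |a| + 3 := by
    calc |2 * a + 3| ≤ |2 * a| + |3| := abs_add_le _ _
      _ = 2 * |a| + 3 := by rw [abs_mul]; norm_num
  have hmul : |2 * a + 3| = |6 * k + 1| * |t| := by rw [hkt, abs_mul]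
  have ht1 : 1 ≤ |t| := Int.one_le_abs ht0
  have hs1 : 1 ≤ |6 * k + 1| := Int.one_le_abs hs0
  have hsle : |6 * k + 1| ≤ 2 * |a| + 3 := by nlinarith
  have h6k : 6 * |k| ≤ |6 * k + 1| + 1 := by
    have : |6 * k| ≤ |6 * k + 1| + |(-1 : ℤ)| := by
      calc |6 * k| = |(6 * k + 1) + (-1)| := by ring_nf
        _ ≤ _ := abs_add_le _ _
    rw [abs_mul] at this
    norm_num at this
    exact this
  have hk0 := abs_nonneg k
  have hk3 : 3 * |k| ≤ |a| + 2 := by linarith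
  have hk1 : |k| ≤ |a| + 2 := by linarith
  have hk2 : |2 * k| ≤ |a| + 2 := by
    rw [abs_mul]; norm_num; linarith
  -- the value at 1
  have hR3 : 6 * (|a| + 2) ≤ B a := by unfold B; nlinarith [sq_nonneg (|a| + 2)]
  have v1 : lam (f a 1) = 1 := h 1 (by norm_num; linarith)
  have v2 : lam (G a (2 * k) (2 * k + 1)) = 1 := both h _ hk2
  obtain ⟨b1, b2, b3⟩ := abs_bound hk1
  have v3 : lam (G a (-(2 * k + 1)) (4 * k)) = 1 := by
    rw [lam_G_eq' (h _ b1) (h _ b3)]; exact both h _ hk1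
  have hbt : |1 + 2 * k * (2 * k + 1) * t| ≤ B a := by
    have e1 : |2 * k * (2 * k + 1)| ≤ 2 * |k| * (2 * |k| + 1) := by
      rw [abs_mul, abs_mul]
      have : |2 * k + 1| ≤ 2 * |k| + 1 := by
        calc |2 * k + 1| ≤ |2 * k| + |1| := abs_add_le _ _
          _ = _ := by rw [abs_mul]; norm_num
      have h2 : |(2 : ℤ)| = 2 := by norm_num
      rw [h2]
      nlinarith
    have e2 : |1 + 2 * k * (2 * k + 1) * t| ≤ 1 + 2 * |k| * (2 * |k| + 1) * |t| := by
      calc |1 + 2 * k * (2 * k + 1) * t| ≤ |1| + |2 * k * (2 * k + 1) * t| := abs_add_le _ _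
        _ = 1 + |2 * k * (2 * k + 1)| * |t| := by rw [abs_mul _ t, abs_one]
        _ ≤ _ := by linarith [mul_le_mul_of_nonneg_right e1 (abs_nonneg t)]
    have ht2 : |t| ≤ 2 * |a| + 3 := by nlinarith
    set R := |a| + 2 with hRdef
    have hR2 : 2 ≤ R := by linarith
    have e3 : 2 * |k| * (2 * |k| + 1) ≤ R * (R + 1) := by nlinarith
    have e4 : 2 * |k| * (2 * |k| + 1) * |t| ≤ R * (R + 1) * (2 * R) := by
      have : |t| ≤ 2 * R := by linarith
      have h0 : 0 ≤ 2 * |k| * (2 * |k| + 1) := by positivity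
      nlinarith
    have e5 : 1 + R * (R + 1) * (2 * R) ≤ 6 * R ^ 3 := by nlinarith [sq_nonneg R]
    unfold B
    linarith
  have v4 : lam (f a (1 + 2 * k * (2 * k + 1) * t)) = 1 := h _ hbt
  have hid := id4 a k t hkt
  have hneR : f a 1 * (G a (2 * k) (2 * k + 1) * G a (-(2 * k + 1)) (4 * k)) ≠ 0 := by
    rw [← hid]
    exact mul_ne_zero (pow_ne_zero _ hs0) (f_ne_zero _ _)
  have hl := congrArg lam hid
  rw [lam_mul (pow_ne_zero _ hs0) (f_ne_zero _ _), lam_pow_three hs0, v4,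
    lam_mul (left_ne_zero_of_mul hneR) (right_ne_zero_of_mul hneR),
    lam_mul (left_ne_zero_of_mul (right_ne_zero_of_mul hneR))
      (right_ne_zero_of_mul (right_ne_zero_of_mul hneR)), v1, v2, v3] at hl
  linarith

/-- For every integer `a` there is an integer `m` with `|m| ≤ 6 (|a| + 2)^3` and
`λ(f_a(m)) = -1`. -/
theorem exists_neg (a : ℤ) : ∃ m : ℤ, |m| ≤ B a ∧ lam (f a m) = -1 := by
  by_contra hcon
  push Not at hcon
  have h : ∀ m : ℤ, |m| ≤ B a → lam (f a m) = 1 := by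
    intro m hm
    rcases lam_cases (f a m) with h1 | h1
    · exact h1
    · exact absurd h1 (hcon m hm)
  have ha0 := abs_nonneg a
  have hR3 : 6 * (|a| + 2) ≤ B a := by unfold B; nlinarith [sq_nonneg (|a| + 2)]
  -- a prime factor at least five is impossible
  have hprime : ∀ p : ℕ, p.Prime → p ∣ (2 * a + 3).natAbs → p = 3 := by
    intro p hp hpd
    by_contra hp3
    have hp2 : p ≠ 2 := by
      rintro rfl
      have : (2 : ℤ) ∣ 2 * a + 3 := Int.natCast_dvd.mpr hpd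
      omega
    have hdvd : (p : ℤ) ∣ 2 * a + 3 := Int.natCast_dvd.mpr hpd
    obtain ⟨t, ht⟩ := hdvd
    have hmod : p % 6 = 1 ∨ p % 6 = 5 := by
      have h2 : ¬ 2 ∣ p := fun hd => hp2 ((Nat.prime_dvd_prime_iff_eq Nat.prime_two hp).mp hd).symm
      have h3 : ¬ 3 ∣ p := fun hd => hp3 ((Nat.prime_dvd_prime_iff_eq Nat.prime_three hp).mp hd).symm
      omega
    rcases hmod with hm | hm
    · obtain ⟨k, hk⟩ : ∃ k : ℤ, (p : ℤ) = 6 * k + 1 := ⟨(p : ℤ) / 6, by omega⟩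
      have := lam_divisor h (k := k) (t := t) (by rw [← hk]; exact ht)
      rw [← hk, lam_prime (by simpa using hp)] at this
      norm_num at this
    · obtain ⟨k, hk⟩ : ∃ k : ℤ, -(p : ℤ) = 6 * k + 1 := ⟨-((p : ℤ) / 6) - 1, by omega⟩
      have := lam_divisor h (k := k) (t := -t) (by rw [← hk]; rw [ht]; ring)
      rw [← hk, lam_neg, lam_prime (by simpa using hp)] at this
      norm_num at this
  have hn0 : (2 * a + 3).natAbs ≠ 0 := by omega
  have hpow := Nat.eq_prime_pow_of_unique_prime_dvd hn0 (p := 3) (fun {d} hd hdd => hprime d hd hdd)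
  set j := (2 * a + 3).natAbs.primeFactorsList.length with hj
  have hf1 : f a 1 = -(2 * a + 3) := by unfold f; ring
  have v1 : lam (f a 1) = 1 := h 1 (by norm_num; linarith)
  rcases (by omega : j = 0 ∨ j = 1 ∨ j = 2 ∨ 3 ≤ j) with h0 | h0 | h0 | h0
  · rw [h0, pow_zero] at hpow
    rcases (by omega : a = -1 ∨ a = -2) with rfl | rfl
    · have := h 2 (by norm_num at hR3 ⊢; linarith)
      rw [show f (-1) 2 = 7 by unfold f; norm_num, lam_prime (by norm_num)] at this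
      norm_num at this
    · have := h (-3) (by norm_num at hR3 ⊢; linarith)
      rw [show f (-2) (-3) = -7 by unfold f; norm_num, lam_prime (by norm_num)] at this
      norm_num at this
  · rw [h0, pow_one] at hpow
    rw [hf1, lam_neg, lam_prime (by rw [hpow]; norm_num)] at v1
    norm_num at v1
  · rw [h0] at hpow
    rcases (by omega : a = 3 ∨ a = -6) with rfl | rfl
    · have := h 2 (by norm_num at hR3 ⊢; linarith)
      rw [show f 3 2 = -17 by unfold f; norm_num, lam_prime (by norm_num)] at this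
      norm_num at this
    · have := h (-3) (by norm_num at hR3 ⊢; linarith)
      rw [show f (-6) (-3) = 17 by unfold f; norm_num, lam_prime (by norm_num)] at this
      norm_num at this
  · have h27 : (27 : ℤ) ∣ 2 * a + 3 := by
      have : 27 ∣ (2 * a + 3).natAbs := by
        rw [hpow]; exact (show 27 = 3 ^ 3 by norm_num) ▸ pow_dvd_pow 3 h0
      exact Int.natCast_dvd.mpr this
    obtain ⟨t, ht⟩ := h27
    have hbt : |1 - 4 * t| ≤ B a := by
      have e1 : 27 * |t| ≤ 2 * |a| + 3 := by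
        have : |27 * t| ≤ |2 * a| + |3| := by rw [← ht]; exact abs_add_le _ _
        rw [abs_mul, abs_mul] at this
        norm_num at this
        linarith
      have e2 : |1 - 4 * t| ≤ 1 + 4 * |t| := by
        calc |1 - 4 * t| ≤ |1| + |4 * t| := abs_sub _ _
          _ = _ := by rw [abs_mul]; norm_num
      linarith [abs_nonneg t]
    have hid := id5 a t ht
    have hl := congrArg lam hid
    rw [lam_mul (by norm_num) (f_ne_zero _ _), lam_pow_three (by norm_num), h _ hbt,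
      lam_mul (f_ne_zero _ _) (mul_ne_zero (f_ne_zero _ _) (f_ne_zero _ _)),
      lam_mul (f_ne_zero _ _) (f_ne_zero _ _), v1, h 4 (by norm_num; linarith),
      h 7 (by norm_num; linarith),
      show (27 : ℤ) = 3 ^ 3 by norm_num, lam_pow_three (by norm_num),
      lam_prime (by norm_num)] at hl
    norm_num at hl

end Pool.Agent.Lib.MP_648c71_nt.CubicNeg
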