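import Pool.Agent.Lib.MP_648c71_nt.Shell

/-!
The number of edges with a given label.
-/

namespace Pool.Agent.Lib.MP_648c71_nt

open QuadraticAlgebra

variable {b c : ℤ}

noncomputable section

/-- `v` is the first vector of an elliptic unimodular edge with label `n` -/
def EdgeP (c0 : ℝ) (n : ℤ) (v : O b c) : Prop :=
  ∃ u : O b c, dt v u = 1 ∧ sc v u = n ∧ 0 < nm v ∧ 0 < nm u ∧
    c0 ^ 2 * szv v ^ 2 ≤ 32 * kap b c * nm v

/-- bound for the number of determinants -/
def J0 (b c : ℤ) (c0 : ℝ) : ℕ := ⌊64 * kap b c / c0 ^ 2⌋₊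

theorem EdgeP.nm_dvd {c0 : ℝ} {n : ℤ} {v : O b c} (h : EdgeP c0 n v) : nm v ∣ ff b c n := by
  obtain ⟨u, hdt, hsc, _, _, _⟩ := h
  rw [← hsc, ← nm_mul_nm_of_dt hdt]
  exact dvd_mul_right _ _

theorem EdgeP.ff_pos {c0 : ℝ} {n : ℤ} {v : O b c} (h : EdgeP c0 n v) : 0 < ff b c n := by
  obtain ⟨u, hdt, hsc, h1, h2, _⟩ := h
  rw [← hsc, ← nm_mul_nm_of_dt hdt]
  exact mul_pos h1 h2

theorem EdgeP.congr {c0 : ℝ} {n : ℤ} {v : O b c} (h : EdgeP c0 n v) :
    nm v ∣ v.re + (n + b) * v.im := by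
  obtain ⟨u, hdt, hsc, h1, h2, _⟩ := h
  refine ⟨u.im, ?_⟩
  have h3 : star v * u = ⟨n, 1⟩ := by rw [star_mul_eq, hdt, hsc]
  have h4 : v * (star v * u) = (nm v) • u := by
    have h2 : v * star v = (nm v : ℤ) • (1 : O b c) := by
      ext
      · simp only [re_mul, re_star, im_star, re_smul, re_one, smul_eq_mul, mul_one, nm]; ring
      · simp only [im_mul, re_star, im_star, im_smul, im_one, smul_eq_mul, mul_zero]; ring
    rw [← mul_assoc, h2, smul_mul_assoc, one_mul]
  rw [h3] at h4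
  have h5 := congrArg QuadraticAlgebra.im h4
  simp only [im_mul, im_smul, smul_eq_mul] at h5
  rw [← h5]; ring

theorem dvd_dt {c0 : ℝ} {n A : ℤ} {v v' : O b c} (h : EdgeP c0 n v) (h' : EdgeP c0 n v')
    (hA : nm v = A) (hA' : nm v' = A) : A ∣ dt v v' := by
  have h1 := h.congr
  have h2 := h'.congr
  rw [hA] at h1
  rw [hA'] at h2
  have : dt v v' = (v.re + (n + b) * v.im) * v'.im - v.im * (v'.re + (n + b) * v'.im) := by
    unfold dt; ring
  rw [this]
  exact dvd_sub (dvd_mul_of_dvd_left h1 _) (dvd_mul_of_dvd_right h2 _)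

theorem abs_dt_le (v w : O b c) : |(dt v w : ℝ)| ≤ 2 * (szv v * szv w) := by
  have h1 := re_le_szv v
  have h2 := im_le_szv v
  have h3 := re_le_szv w
  have h4 := im_le_szv w
  have h5 := szv_nonneg v
  have h6 := szv_nonneg w
  unfold dt
  push_cast
  calc |(v.re : ℝ) * w.im - v.im * w.re| ≤ |(v.re : ℝ) * w.im| + |(v.im : ℝ) * w.re| := abs_sub _ _
    _ = |(v.re : ℝ)| * |(w.im : ℝ)| + |(v.im : ℝ)| * |(w.re : ℝ)| := by rw [abs_mul, abs_mul]
    _ ≤ szv v * szv w + szv v * szv w := by gcongr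
    _ = _ := by ring

theorem dt_bound {c0 : ℝ} (hc0 : 0 < c0) {n A : ℤ} {v v' : O b c} (h : EdgeP c0 n v)
    (h' : EdgeP c0 n v') (hA : nm v = A) (hA' : nm v' = A) :
    |(dt v v' : ℝ)| ≤ (64 * kap b c / c0 ^ 2) * A := by
  obtain ⟨u, _, _, h1, _, h2⟩ := h
  obtain ⟨u', _, _, h1', _, h2'⟩ := h'
  rw [hA] at h2
  rw [hA'] at h2'
  have h3 := abs_dt_le v v'
  have hv := szv_nonneg v
  have hv' := szv_nonneg v'
  have h4 : szv v * szv v' ≤ 32 * kap b c / c0 ^ 2 * A := by
    have h5 : szv v ^ 2 ≤ 32 * kap b c / c0 ^ 2 * A := by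
      rw [div_mul_eq_mul_div, le_div_iff₀ (by positivity)]; linarith
    have h6 : szv v' ^ 2 ≤ 32 * kap b c / c0 ^ 2 * A := by
      rw [div_mul_eq_mul_div, le_div_iff₀ (by positivity)]; linarith
    nlinarith [sq_nonneg (szv v - szv v')]
  calc |(dt v v' : ℝ)| ≤ 2 * (szv v * szv v') := h3
    _ ≤ 2 * (32 * kap b c / c0 ^ 2 * A) := by gcongr
    _ = _ := by ring

/-- a finite set of roots of a monic quadratic has at most two elements -/
theorem card_roots_le_two (S : Finset ℤ) (p q : ℤ) (h : ∀ s ∈ S, s ^ 2 + p * s + q = 0) :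
    S.card ≤ 2 := by
  rcases S.eq_empty_or_nonempty with rfl | ⟨s1, hs1⟩
  · simp
  · have hsub : S ⊆ {s1, -p - s1} := by
      intro s hs
      have h1 := h s1 hs1
      have h2 := h s hs
      have h3 : (s - s1) * (s + s1 + p) = 0 := by linear_combination h2 - h1
      rcases mul_eq_zero.mp h3 with h4 | h4
      · simp; left; omega
      · simp; right; omega
    exact (Finset.card_le_card hsub).trans Finset.card_le_two

theorem card_fiber {c0 : ℝ} (hc0 : 0 < c0) {n A : ℤ} (S : Finset (O b c))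
    (hS : ∀ v ∈ S, EdgeP c0 n v) (hA : ∀ v ∈ S, nm v = A) :
    S.card ≤ 2 * (2 * J0 b c c0 + 1) := by
  classical
  rcases S.eq_empty_or_nonempty with rfl | ⟨v, hv⟩
  · simp
  have hk := four_le_kap b c
  have hA0 : 0 < A := by
    obtain ⟨u, _, _, h1, _, _⟩ := hS v hv
    rw [hA v hv] at h1; exact h1
  have hAr : (0 : ℝ) < A := by exact_mod_cast hA0
  set J := J0 b c c0 with hJ
  -- the index of v'
  have hidx : ∀ v' ∈ S, ∃ j ∈ Finset.Icc (-(J : ℤ)) J, dt v v' = A * j := by
    intro v' hv'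
    obtain ⟨j, hj⟩ := dvd_dt (hS v hv) (hS v' hv') (hA v hv) (hA v' hv')
    refine ⟨j, ?_, hj⟩
    have h1 := dt_bound hc0 (hS v hv) (hS v' hv') (hA v hv) (hA v' hv')
    rw [hj] at h1
    push_cast at h1
    rw [abs_mul, abs_of_pos hAr, mul_comm] at h1
    have h2 : |(j : ℝ)| ≤ 64 * kap b c / c0 ^ 2 := le_of_mul_le_mul_right h1 hAr
    have h3 : (j.natAbs : ℝ) ≤ 64 * kap b c / c0 ^ 2 := by
      rw [Nat.cast_natAbs]; push_cast; exact h2
    have h4 : j.natAbs ≤ J := Nat.le_floor h3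
    rw [Finset.mem_Icc]
    omega
  -- fibers
  have hsub : S ⊆ (Finset.Icc (-(J : ℤ)) J).biUnion (fun j => S.filter (fun v' => dt v v' = A * j)) := by
    intro v' hv'
    obtain ⟨j, hj, hjd⟩ := hidx v' hv'
    rw [Finset.mem_biUnion]
    exact ⟨j, hj, by simp [hv', hjd]⟩
  have hfib : ∀ j : ℤ, (S.filter (fun v' => dt v v' = A * j)).card ≤ 2 := by
    intro j
    set F := S.filter (fun v' => dt v v' = A * j) with hF
    have hinj : Set.InjOn (fun v' : O b c => sc v v') (F : Set (O b c)) := by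
      intro x hx y hy hxy
      simp only [hF, Finset.coe_filter, Set.mem_ofPred_eq] at hx hy
      have hxy' : sc v x = sc v y := hxy
      have h1 : star v * x = star v * y := by
        rw [star_mul_eq, star_mul_eq, hx.2, hy.2, hxy']
      have h2 : star v * (x - y) = 0 := by rw [mul_sub, h1, sub_self]
      by_contra hne
      have hnm : nm v ≠ 0 := by rw [hA v hv]; exact hA0.ne'
      exact star_mul_ne_zero hnm (sub_ne_zero.mpr hne) h2
    rw [← Finset.card_image_of_injOn hinj]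
    apply card_roots_le_two _ (b * (A * j)) (c * (A * j) ^ 2 - A ^ 2)
    intro s hs
    rw [Finset.mem_image] at hs
    obtain ⟨x, hx, rfl⟩ := hs
    simp only [hF, Finset.mem_filter] at hx
    have h1 : nm (star v * x) = A ^ 2 := by
      rw [nm_mul, nm_star, hA v hv, hA x hx.1]; ring
    rw [star_mul_eq, nm, hx.2] at h1
    simp only at h1
    linarith
  calc S.card ≤ _ := Finset.card_le_card hsub
    _ ≤ ∑ j ∈ Finset.Icc (-(J : ℤ)) J, (S.filter (fun v' => dt v v' = A * j)).card :=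
        Finset.card_biUnion_le
    _ ≤ ∑ j ∈ Finset.Icc (-(J : ℤ)) J, 2 := Finset.sum_le_sum (fun j _ => hfib j)
    _ = 2 * (2 * J + 1) := by
        rw [Finset.sum_const, smul_eq_mul, Int.card_Icc]
        have : ((J : ℤ) + 1 - -(J : ℤ)).toNat = 2 * J + 1 := by omega
        rw [this]; ring

theorem card_edges {c0 : ℝ} (hc0 : 0 < c0) {n : ℤ} (S : Finset (O b c))
    (hS : ∀ v ∈ S, EdgeP c0 n v) :
    S.card ≤ 2 * (2 * J0 b c c0 + 1) * (ff b c n).natAbs.divisors.card := by
  classical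
  have hsub : S ⊆ ((ff b c n).natAbs.divisors).biUnion
      (fun a => S.filter (fun v => nm v = (a : ℤ))) := by
    intro v hv
    have h := hS v hv
    rw [Finset.mem_biUnion]
    refine ⟨(nm v).natAbs, ?_, ?_⟩
    · rw [Nat.mem_divisors]
      refine ⟨Int.natAbs_dvd_natAbs.mpr h.nm_dvd, ?_⟩
      have := h.ff_pos
      omega
    · simp only [Finset.mem_filter]
      refine ⟨hv, ?_⟩
      obtain ⟨u, _, _, h1, _, _⟩ := h
      omega
  calc S.card ≤ _ := Finset.card_le_card hsub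
    _ ≤ ∑ a ∈ (ff b c n).natAbs.divisors, (S.filter (fun v => nm v = (a : ℤ))).card :=
        Finset.card_biUnion_le
    _ ≤ ∑ a ∈ (ff b c n).natAbs.divisors, 2 * (2 * J0 b c c0 + 1) := by
        apply Finset.sum_le_sum
        intro a _
        apply card_fiber hc0 (n := n) (A := a)
        · intro v hv
          exact hS v (Finset.mem_filter.mp hv).1
        · intro v hv
          exact (Finset.mem_filter.mp hv).2
    _ = _ := by rw [Finset.sum_const, smul_eq_mul, mul_comm]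

/-- all lattice vectors of sup norm at most `M` -/
def box (b c : ℤ) (M : ℕ) : Finset (O b c) := by
  classical
  exact (Finset.range (M + 1)).biUnion (shell b c)

theorem mem_box {M : ℕ} {v : O b c} (h : szn v ≤ M) : v ∈ box b c M := by
  classical
  unfold box
  rw [Finset.mem_biUnion]
  exact ⟨szn v, by simp; omega, mem_shell v⟩

/-- the finite set of first vectors of elliptic edges with labels in `T`, and its cardinality -/
theorem exists_edge_finset {c0 : ℝ} (hc0 : 0 < c0) (T : Finset ℤ) (D : ℕ)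
    (hD : ∀ n ∈ T, 0 < ff b c n → (ff b c n).natAbs.divisors.card ≤ D) :
    ∃ E : Finset (O b c), (∀ n ∈ T, ∀ v, EdgeP c0 n v → v ∈ E) ∧
      (∀ v ∈ E, v ≠ 0) ∧ E.card ≤ T.card * (2 * (2 * J0 b c c0 + 1) * D) := by
  classical
  have hfin : ∀ n : ℤ, ∃ M : ℕ, ∀ v : O b c, EdgeP c0 n v → v ∈ box b c M := by
    intro n
    refine ⟨⌈32 * kap b c * |(ff b c n : ℝ)| / c0 ^ 2⌉₊, fun v hv => ?_⟩
    apply mem_box
    have hk := four_le_kap b c
    have h0 := hv
    obtain ⟨u, _, _, h1, h2, h3⟩ := h0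
    have h4 : (nm v : ℝ) ≤ |(ff b c n : ℝ)| := by
      have h5 : nm v ≤ ff b c n := Int.le_of_dvd hv.ff_pos hv.nm_dvd
      have h6 : (nm v : ℝ) ≤ ff b c n := by exact_mod_cast h5
      exact h6.trans (le_abs_self _)
    have h5 : szv v ^ 2 ≤ 32 * kap b c * |(ff b c n : ℝ)| / c0 ^ 2 := by
      rw [le_div_iff₀ (by positivity)]
      calc szv v ^ 2 * c0 ^ 2 = c0 ^ 2 * szv v ^ 2 := by ring
        _ ≤ 32 * kap b c * nm v := h3
        _ ≤ _ := by gcongr
    have h6 : szv v ≤ szv v ^ 2 := by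
      have hv0 : v ≠ 0 := by
        rintro rfl
        simp [nm] at h1
      have := one_le_szv hv0
      nlinarith
    have h7 : (szn v : ℝ) ≤ (⌈32 * kap b c * |(ff b c n : ℝ)| / c0 ^ 2⌉₊ : ℝ) := by
      rw [← szv_eq]
      exact (h6.trans h5).trans (Nat.le_ceil _)
    exact_mod_cast h7
  choose M hM using hfin
  refine ⟨T.biUnion (fun n => (box b c (M n)).filter (fun v => EdgeP c0 n v)), ?_, ?_, ?_⟩
  · intro n hn v hv
    rw [Finset.mem_biUnion]
    exact ⟨n, hn, by simp [hM n v hv, hv]⟩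
  · intro v hv
    rw [Finset.mem_biUnion] at hv
    obtain ⟨n, _, hv⟩ := hv
    obtain ⟨u, _, _, h1, _, _⟩ := (Finset.mem_filter.mp hv).2
    rintro rfl
    simp [nm] at h1
  · calc _ ≤ ∑ n ∈ T, ((box b c (M n)).filter (fun v => EdgeP c0 n v)).card :=
          Finset.card_biUnion_le
      _ ≤ ∑ n ∈ T, 2 * (2 * J0 b c c0 + 1) * D := by
          apply Finset.sum_le_sum
          intro n hn
          set S := (box b c (M n)).filter (fun v => EdgeP c0 n v) with hS
          rcases S.eq_empty_or_nonempty with h0 | ⟨v, hv⟩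
          · rw [h0]; simp
          · have hpos : 0 < ff b c n := by
              rw [hS] at hv
              exact (Finset.mem_filter.mp hv).2.ff_pos
            refine (card_edges hc0 S (fun v hv => (Finset.mem_filter.mp hv).2)).trans ?_
            exact Nat.mul_le_mul_left _ (hD n hn hpos)
      _ = _ := by rw [Finset.sum_const, smul_eq_mul]

end

end Pool.Agent.Lib.MP_648c71_nt
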