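import Pool.Agent.Lib.MP_648c71_nt.Cone

/-!
Elliptic directions: size estimates and Dirichlet's theorem.
-/

namespace Pool.Agent.Lib.MP_648c71_nt

open QuadraticAlgebra

variable {b c : ℤ}

noncomputable section

/-- sup norm of a real vector -/
def sz (z : ℝ × ℝ) : ℝ := max |z.1| |z.2|

/-- sup norm of a lattice vector -/
def szv (v : O b c) : ℝ := max |(v.re : ℝ)| |(v.im : ℝ)|

/-- a constant depending on the polynomial -/
def kap (b c : ℤ) : ℝ := 4 * (1 + |(b : ℝ)| + |(c : ℝ)|)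

theorem four_le_kap (b c : ℤ) : 4 ≤ kap b c := by
  unfold kap
  have := abs_nonneg (b : ℝ)
  have := abs_nonneg (c : ℝ)
  linarith

theorem abs_dsc_le (b c : ℤ) : |(dsc b c : ℝ)| ≤ kap b c ^ 2 := by
  unfold dsc kap
  push_cast
  have h1 := abs_nonneg (b : ℝ)
  have h2 := abs_nonneg (c : ℝ)
  have h3 : (b : ℝ) ^ 2 = |(b : ℝ)| ^ 2 := (sq_abs _).symm
  have h4 := neg_abs_le (c : ℝ)
  have h5 := le_abs_self (c : ℝ)
  rw [abs_le, h3]
  constructor <;> nlinarith [mul_nonneg h1 h2]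

theorem sz_nonneg (z : ℝ × ℝ) : 0 ≤ sz z := le_max_of_le_left (abs_nonneg _)

theorem szv_nonneg (v : O b c) : 0 ≤ szv v := le_max_of_le_left (abs_nonneg _)

theorem fst_le_sz (z : ℝ × ℝ) : |z.1| ≤ sz z := le_max_left _ _
theorem snd_le_sz (z : ℝ × ℝ) : |z.2| ≤ sz z := le_max_right _ _
theorem re_le_szv (v : O b c) : |(v.re : ℝ)| ≤ szv v := le_max_left _ _
theorem im_le_szv (v : O b c) : |(v.im : ℝ)| ≤ szv v := le_max_right _ _

theorem one_le_szv {v : O b c} (hv : v ≠ 0) : 1 ≤ szv v := by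
  by_contra h
  push Not at h
  have h1 : |(v.re : ℝ)| < 1 := (re_le_szv v).trans_lt h
  have h2 : |(v.im : ℝ)| < 1 := (im_le_szv v).trans_lt h
  have h1' : |v.re| < 1 := by exact_mod_cast h1
  have h2' : |v.im| < 1 := by exact_mod_cast h2
  apply hv
  ext
  · simpa using Int.abs_lt_one_iff.mp h1'
  · simpa using Int.abs_lt_one_iff.mp h2'

theorem abs_form1_le (z : ℝ × ℝ) : |(b : ℝ) * z.1 + 2 * c * z.2| ≤ kap b c * sz z := by
  have h1 := fst_le_sz z
  have h2 := snd_le_sz z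
  have h0 := sz_nonneg z
  calc |(b : ℝ) * z.1 + 2 * c * z.2| ≤ |(b : ℝ) * z.1| + |2 * c * z.2| := abs_add_le _ _
    _ = |(b : ℝ)| * |z.1| + 2 * |(c : ℝ)| * |z.2| := by
        rw [abs_mul, abs_mul, abs_mul, abs_two]
    _ ≤ |(b : ℝ)| * sz z + 2 * |(c : ℝ)| * sz z := by gcongr
    _ ≤ kap b c * sz z := by
        unfold kap
        nlinarith [abs_nonneg (b : ℝ), abs_nonneg (c : ℝ), mul_nonneg (abs_nonneg (b : ℝ)) h0,
          mul_nonneg (abs_nonneg (c : ℝ)) h0]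

theorem abs_form2_le (z : ℝ × ℝ) : |2 * z.1 + (b : ℝ) * z.2| ≤ kap b c * sz z := by
  have h1 := fst_le_sz z
  have h2 := snd_le_sz z
  have h0 := sz_nonneg z
  calc |2 * z.1 + (b : ℝ) * z.2| ≤ |2 * z.1| + |(b : ℝ) * z.2| := abs_add_le _ _
    _ = 2 * |z.1| + |(b : ℝ)| * |z.2| := by
        rw [abs_mul, abs_mul, abs_two]
    _ ≤ 2 * sz z + |(b : ℝ)| * sz z := by gcongr
    _ ≤ kap b c * sz z := by
        unfold kap
        nlinarith [abs_nonneg (b : ℝ), abs_nonneg (c : ℝ), mul_nonneg (abs_nonneg (b : ℝ)) h0,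
          mul_nonneg (abs_nonneg (c : ℝ)) h0]

theorem abs_bR_le (z : ℝ × ℝ) (v : O b c) : |bR z v| ≤ kap b c * sz z * szv v := by
  have h1 := fst_le_sz z
  have h2 := snd_le_sz z
  have h3 := re_le_szv v
  have h4 := im_le_szv v
  have h0 := sz_nonneg z
  have h0' := szv_nonneg v
  have hb := abs_nonneg (b : ℝ)
  have hc := abs_nonneg (c : ℝ)
  unfold bR
  have e1 : |z.1| * |(v.re : ℝ)| ≤ sz z * szv v := by gcongr
  have e2 : |z.1| * |(v.im : ℝ)| ≤ sz z * szv v := by gcongr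
  have e3 : |z.2| * |(v.re : ℝ)| ≤ sz z * szv v := by gcongr
  have e4 : |z.2| * |(v.im : ℝ)| ≤ sz z * szv v := by gcongr
  have hp : 0 ≤ sz z * szv v := mul_nonneg h0 h0'
  calc |2 * z.1 * v.re + b * (z.1 * v.im + z.2 * v.re) + 2 * c * z.2 * v.im|
      ≤ |2 * z.1 * v.re + b * (z.1 * v.im + z.2 * v.re)| + |2 * c * z.2 * v.im| := abs_add_le _ _
    _ ≤ |2 * z.1 * v.re| + |b * (z.1 * v.im + z.2 * v.re)| + |2 * c * z.2 * v.im| := by
        gcongr; exact abs_add_le _ _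
    _ = 2 * (|z.1| * |(v.re : ℝ)|) + |(b : ℝ)| * |z.1 * v.im + z.2 * v.re|
          + 2 * |(c : ℝ)| * (|z.2| * |(v.im : ℝ)|) := by
        rw [abs_mul, abs_mul, abs_mul (b : ℝ), abs_mul, abs_mul, abs_mul, abs_two]; ring
    _ ≤ 2 * (|z.1| * |(v.re : ℝ)|) + |(b : ℝ)| * (|z.1| * |(v.im : ℝ)| + |z.2| * |(v.re : ℝ)|)
          + 2 * |(c : ℝ)| * (|z.2| * |(v.im : ℝ)|) := by
        gcongr
        calc |z.1 * v.im + z.2 * v.re| ≤ |z.1 * v.im| + |z.2 * v.re| := abs_add_le _ _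
          _ = _ := by rw [abs_mul, abs_mul]
    _ ≤ 2 * (sz z * szv v) + |(b : ℝ)| * (sz z * szv v + sz z * szv v)
          + 2 * |(c : ℝ)| * (sz z * szv v) := by gcongr
    _ ≤ kap b c * sz z * szv v := by
        unfold kap
        nlinarith [mul_nonneg hb hp, mul_nonneg hc hp]

theorem abs_dR_le (z : ℝ × ℝ) (v : O b c) : |dR z v| ≤ kap b c * sz z * szv v := by
  have h1 := fst_le_sz z
  have h2 := snd_le_sz z
  have h3 := re_le_szv v
  have h4 := im_le_szv v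
  have h0 := sz_nonneg z
  have h0' := szv_nonneg v
  have hk := four_le_kap b c
  have hp : 0 ≤ sz z * szv v := mul_nonneg h0 h0'
  unfold dR
  calc |z.1 * v.im - z.2 * v.re| ≤ |z.1 * v.im| + |z.2 * v.re| := abs_sub _ _
    _ = |z.1| * |(v.im : ℝ)| + |z.2| * |(v.re : ℝ)| := by rw [abs_mul, abs_mul]
    _ ≤ sz z * szv v + sz z * szv v := by gcongr
    _ ≤ kap b c * sz z * szv v := by nlinarith

theorem abs_nR_le (z : ℝ × ℝ) : |nR b c z| ≤ kap b c * sz z ^ 2 := by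
  have h1 := fst_le_sz z
  have h2 := snd_le_sz z
  have h0 := sz_nonneg z
  have hb := abs_nonneg (b : ℝ)
  have hc := abs_nonneg (c : ℝ)
  unfold nR
  have hp : 0 ≤ sz z * sz z := mul_nonneg h0 h0
  calc |z.1 ^ 2 + b * z.1 * z.2 + c * z.2 ^ 2|
      ≤ |z.1 ^ 2 + b * z.1 * z.2| + |c * z.2 ^ 2| := abs_add_le _ _
    _ ≤ |z.1 ^ 2| + |b * z.1 * z.2| + |c * z.2 ^ 2| := by gcongr; exact abs_add_le _ _
    _ = |z.1| * |z.1| + |(b : ℝ)| * (|z.1| * |z.2|) + |(c : ℝ)| * (|z.2| * |z.2|) := by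
        rw [abs_mul, abs_mul, abs_mul, abs_pow, abs_pow]; ring
    _ ≤ sz z * sz z + |(b : ℝ)| * (sz z * sz z) + |(c : ℝ)| * (sz z * sz z) := by gcongr
    _ ≤ kap b c * sz z ^ 2 := by
        unfold kap
        nlinarith [mul_nonneg hb hp, mul_nonneg hc hp]

/-- elliptic directions -/
structure Ell (b c : ℤ) (c0 : ℝ) (z : ℝ × ℝ) : Prop where
  pos : 0 < sz z
  le : c0 * sz z ^ 2 ≤ nR b c z

theorem Ell.nR_pos {c0 : ℝ} {z : ℝ × ℝ} (h : Ell b c c0 z) (hc0 : 0 < c0) : 0 < nR b c z := by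
  have := h.pos
  exact lt_of_lt_of_le (by positivity) h.le

/-- A1: size of vectors in the cone -/
theorem szv_le {c0 η : ℝ} {z : ℝ × ℝ} {v : O b c} (hc0 : 0 < c0) (hc1 : c0 ≤ 1)
    (hE : Ell b c c0 z) (hη : 0 < η) (hηκ : kap b c * η ≤ 1) (hv : Cone z η v) :
    c0 * (szv v * sz z) ≤ 2 * bR z v := by
  have hZ := hE.pos
  have hN := hE.le
  have hk := four_le_kap b c
  have hb0 := hv.bR_nonneg hη
  have hη1 : η ≤ 1 := by nlinarith
  have hf1 := abs_form1_le (b := b) (c := c) z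
  have hf2 := abs_form2_le (b := b) (c := c) z
  have hd : |dR z v| * (kap b c * sz z) ≤ sz z * bR z v := by
    unfold Cone at hv
    calc |dR z v| * (kap b c * sz z) ≤ (η * bR z v) * (kap b c * sz z) := by gcongr
      _ = (kap b c * η) * (sz z * bR z v) := by ring
      _ ≤ 1 * (sz z * bR z v) := by gcongr
      _ = _ := one_mul _
  have hdle : |dR z v| ≤ bR z v := by
    unfold Cone at hv
    nlinarith
  rcases le_total |z.2| |z.1| with hle | hle
  · have hZ1 : sz z = |z.1| := max_eq_left hle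
    have e1 := fst_mul_bR z v
    have e2 : 2 * |(v.re : ℝ)| * nR b c z ≤ 2 * (sz z * bR z v) := by
      have hN0 : 0 ≤ nR b c z := (hE.nR_pos hc0).le
      calc 2 * |(v.re : ℝ)| * nR b c z = |2 * v.re * nR b c z| := by
            rw [abs_mul, abs_mul, abs_two, abs_of_nonneg hN0]
        _ = |z.1 * bR z v - dR z v * (b * z.1 + 2 * c * z.2)| := by rw [e1]; ring_nf
        _ ≤ |z.1 * bR z v| + |dR z v * (b * z.1 + 2 * c * z.2)| := abs_sub _ _
        _ = |z.1| * bR z v + |dR z v| * |b * z.1 + 2 * c * z.2| := by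
            rw [abs_mul, abs_mul, abs_of_nonneg hb0]
        _ ≤ sz z * bR z v + |dR z v| * (kap b c * sz z) := by
            rw [← hZ1]; gcongr
        _ ≤ sz z * bR z v + sz z * bR z v := by gcongr
        _ = _ := by ring
    have e3 : c0 * (|(v.re : ℝ)| * sz z) ≤ bR z v := by
      have : (c0 * (|(v.re : ℝ)| * sz z)) * sz z ≤ bR z v * sz z := by
        calc (c0 * (|(v.re : ℝ)| * sz z)) * sz z = |(v.re : ℝ)| * (c0 * sz z ^ 2) := by ring
          _ ≤ |(v.re : ℝ)| * nR b c z := by gcongr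
          _ ≤ bR z v * sz z := by linarith
      exact le_of_mul_le_mul_right this hZ
    have e4 : c0 * (|(v.im : ℝ)| * sz z) ≤ 2 * bR z v := by
      have h5 : sz z * |(v.im : ℝ)| ≤ |dR z v| + sz z * |(v.re : ℝ)| := by
        calc sz z * |(v.im : ℝ)| = |z.1 * v.im| := by rw [abs_mul, hZ1]
          _ = |dR z v + z.2 * v.re| := by unfold dR; ring_nf
          _ ≤ |dR z v| + |z.2 * v.re| := abs_add_le _ _
          _ = |dR z v| + |z.2| * |(v.re : ℝ)| := by rw [abs_mul]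
          _ ≤ |dR z v| + sz z * |(v.re : ℝ)| := by gcongr; exact snd_le_sz z
      have h6 : c0 * |dR z v| ≤ bR z v := by nlinarith [abs_nonneg (dR z v)]
      nlinarith
    unfold szv
    rcases le_total |(v.re : ℝ)| |(v.im : ℝ)| with h | h
    · rw [max_eq_right h]; exact e4
    · rw [max_eq_left h]; linarith
  · have hZ1 : sz z = |z.2| := max_eq_right hle
    have e1 := snd_mul_bR z v
    have e2 : 2 * |(v.im : ℝ)| * nR b c z ≤ 2 * (sz z * bR z v) := by
      have hN0 : 0 ≤ nR b c z := (hE.nR_pos hc0).le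
      calc 2 * |(v.im : ℝ)| * nR b c z = |2 * v.im * nR b c z| := by
            rw [abs_mul, abs_mul, abs_two, abs_of_nonneg hN0]
        _ = |z.2 * bR z v + dR z v * (2 * z.1 + b * z.2)| := by rw [e1]; ring_nf
        _ ≤ |z.2 * bR z v| + |dR z v * (2 * z.1 + b * z.2)| := abs_add_le _ _
        _ = |z.2| * bR z v + |dR z v| * |2 * z.1 + b * z.2| := by
            rw [abs_mul, abs_mul, abs_of_nonneg hb0]
        _ ≤ sz z * bR z v + |dR z v| * (kap b c * sz z) := by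
            rw [← hZ1]; gcongr
        _ ≤ sz z * bR z v + sz z * bR z v := by gcongr
        _ = _ := by ring
    have e3 : c0 * (|(v.im : ℝ)| * sz z) ≤ bR z v := by
      have : (c0 * (|(v.im : ℝ)| * sz z)) * sz z ≤ bR z v * sz z := by
        calc (c0 * (|(v.im : ℝ)| * sz z)) * sz z = |(v.im : ℝ)| * (c0 * sz z ^ 2) := by ring
          _ ≤ |(v.im : ℝ)| * nR b c z := by gcongr
          _ ≤ bR z v * sz z := by linarith
      exact le_of_mul_le_mul_right this hZ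
    have e4 : c0 * (|(v.re : ℝ)| * sz z) ≤ 2 * bR z v := by
      have h5 : sz z * |(v.re : ℝ)| ≤ |dR z v| + sz z * |(v.im : ℝ)| := by
        calc sz z * |(v.re : ℝ)| = |z.2 * v.re| := by rw [abs_mul, hZ1]
          _ = |z.1 * v.im - dR z v| := by unfold dR; ring_nf
          _ ≤ |z.1 * v.im| + |dR z v| := abs_sub _ _
          _ = |dR z v| + |z.1| * |(v.im : ℝ)| := by rw [abs_mul]; ring
          _ ≤ |dR z v| + sz z * |(v.im : ℝ)| := by gcongr; exact fst_le_sz z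
      have h6 : c0 * |dR z v| ≤ bR z v := by nlinarith [abs_nonneg (dR z v)]
      nlinarith
    unfold szv
    rcases le_total |(v.re : ℝ)| |(v.im : ℝ)| with h | h
    · rw [max_eq_right h]; linarith
    · rw [max_eq_left h]; exact e4

theorem bR_pos {c0 η : ℝ} {z : ℝ × ℝ} {v : O b c} (hc0 : 0 < c0) (hc1 : c0 ≤ 1)
    (hE : Ell b c c0 z) (hη : 0 < η) (hηκ : kap b c * η ≤ 1) (hv : Cone z η v) (hv0 : v ≠ 0) :
    0 < bR z v := by
  have h1 := szv_le hc0 hc1 hE hη hηκ hv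
  have h2 := one_le_szv hv0
  have h3 := hE.pos
  have : 0 < c0 * (szv v * sz z) := by positivity
  linarith

theorem dsc_dR_sq_le {η : ℝ} {z : ℝ × ℝ} {v : O b c} (hη : 0 < η)
    (hηκ : 2 * (kap b c * η) ≤ 1) (hv : Cone z η v) :
    |(dsc b c : ℝ) * dR z v ^ 2| ≤ bR z v ^ 2 / 4 := by
  have hD := abs_dsc_le b c
  have hb0 := hv.bR_nonneg hη
  unfold Cone at hv
  have hk := four_le_kap b c
  have h1 : dR z v ^ 2 ≤ (η * bR z v) ^ 2 := by
    rw [← sq_abs (dR z v)]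
    gcongr
  have h2 : (kap b c * η) ^ 2 ≤ 1 / 4 := by
    have : 0 ≤ kap b c * η := by positivity
    nlinarith
  calc |(dsc b c : ℝ) * dR z v ^ 2| = |(dsc b c : ℝ)| * dR z v ^ 2 := by
        rw [abs_mul, abs_of_nonneg (sq_nonneg (dR z v))]
    _ ≤ kap b c ^ 2 * (η * bR z v) ^ 2 := by gcongr
    _ = (kap b c * η) ^ 2 * bR z v ^ 2 := by ring
    _ ≤ 1 / 4 * bR z v ^ 2 := by gcongr
    _ = _ := by ring

/-- A2: norm of vectors in the cone -/
theorem nm_lower {c0 η : ℝ} {z : ℝ × ℝ} {v : O b c} (hc0 : 0 < c0)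
    (hE : Ell b c c0 z) (hη : 0 < η) (hηκ : 2 * (kap b c * η) ≤ 1) (hv : Cone z η v) :
    bR z v ^ 2 ≤ 8 * nR b c z * nm v := by
  have h1 := bR_sq z v
  have h2 := dsc_dR_sq_le hη hηκ hv
  have h3 := abs_le.mp h2
  nlinarith [sq_nonneg (bR z v), h3.1, h3.2]

theorem nm_pos {c0 η : ℝ} {z : ℝ × ℝ} {v : O b c} (hc0 : 0 < c0) (hc1 : c0 ≤ 1)
    (hE : Ell b c c0 z) (hη : 0 < η) (hηκ : 2 * (kap b c * η) ≤ 1) (hv : Cone z η v)
    (hv0 : v ≠ 0) : 0 < nm v := by
  have hk := four_le_kap b c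
  have h1 := nm_lower hc0 hE hη hηκ hv
  have h2 := bR_pos hc0 hc1 hE hη (by nlinarith) hv hv0
  have h3 := hE.nR_pos hc0
  have h4 : 0 < nR b c z * (nm v : ℝ) := by nlinarith [sq_pos_of_pos h2]
  have h5 : (0 : ℝ) < nm v := (mul_pos_iff_of_pos_left h3).mp h4
  exact_mod_cast h5

/-- A2': vectors in the cone are elliptic -/
theorem szv_sq_le {c0 η : ℝ} {z : ℝ × ℝ} {v : O b c} (hc0 : 0 < c0) (hc1 : c0 ≤ 1)
    (hE : Ell b c c0 z) (hη : 0 < η) (hηκ : 2 * (kap b c * η) ≤ 1) (hv : Cone z η v) :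
    c0 ^ 2 * szv v ^ 2 ≤ 32 * kap b c * nm v := by
  have hk := four_le_kap b c
  have h1 := nm_lower hc0 hE hη hηκ hv
  have h2 := szv_le hc0 hc1 hE hη (by nlinarith) hv
  have hb0 := hv.bR_nonneg hη
  have hZ := hE.pos
  have hN := (abs_le.mp (abs_nR_le (b := b) (c := c) z)).2
  have hN0 := hE.nR_pos hc0
  have hs := szv_nonneg v
  have hnm : (0 : ℝ) ≤ nm v := by
    by_contra hneg
    push Not at hneg
    nlinarith [sq_nonneg (bR z v), mul_pos hN0 (neg_pos.mpr hneg)]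
  have h3 : (c0 * (szv v * sz z)) ^ 2 ≤ (2 * bR z v) ^ 2 := by gcongr
  have h4 : (c0 ^ 2 * szv v ^ 2) * sz z ^ 2 ≤ (32 * kap b c * nm v) * sz z ^ 2 := by
    calc (c0 ^ 2 * szv v ^ 2) * sz z ^ 2 = (c0 * (szv v * sz z)) ^ 2 := by ring
      _ ≤ (2 * bR z v) ^ 2 := h3
      _ = 4 * bR z v ^ 2 := by ring
      _ ≤ 4 * (8 * nR b c z * nm v) := by gcongr
      _ ≤ 4 * (8 * (kap b c * sz z ^ 2) * nm v) := by gcongr
      _ = _ := by ring
  exact le_of_mul_le_mul_right h4 (by positivity)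

/-- A3: the label of an edge in the cone -/
theorem sc_range {c0 η T : ℝ} {z : ℝ × ℝ} {v u : O b c} (hc0 : 0 < c0) (hc1 : c0 ≤ 1)
    (hE : Ell b c c0 z) (hη : 0 < η) (hηκ : 2 * (kap b c * η) ≤ 1)
    (hv : Cone z η v) (hu : Cone z η u) (hvT : bR z v ≤ T) (huT : bR z u ≤ T)
    (hdt : dt v u = 1) {X : ℝ} (hT : T ^ 2 ≤ 2 * X * nR b c z) :
    -|(b : ℝ)| ≤ sc v u ∧ (sc v u : ℝ) ≤ X + |(b : ℝ)| := by
  have hk := four_le_kap b c
  have hp := polar z v u
  rw [hdt] at hp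
  have hv0 : v ≠ 0 := by
    rintro rfl; simp [dt] at hdt
  have hu0 : u ≠ 0 := by
    rintro rfl; simp [dt] at hdt
  have hbv := bR_pos hc0 hc1 hE hη (by nlinarith) hv hv0
  have hbu := bR_pos hc0 hc1 hE hη (by nlinarith) hu hu0
  have hN0 := hE.nR_pos hc0
  have hD := abs_dsc_le b c
  have h1 : |(dsc b c : ℝ) * dR z v * dR z u| ≤ bR z v * bR z u / 4 := by
    unfold Cone at hv hu
    have h2 : (kap b c * η) ^ 2 ≤ 1 / 4 := by
      have : 0 ≤ kap b c * η := by positivity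
      nlinarith
    calc |(dsc b c : ℝ) * dR z v * dR z u| = |(dsc b c : ℝ)| * |dR z v| * |dR z u| := by
          rw [abs_mul, abs_mul]
      _ ≤ kap b c ^ 2 * (η * bR z v) * (η * bR z u) := by gcongr
      _ = (kap b c * η) ^ 2 * (bR z v * bR z u) := by ring
      _ ≤ 1 / 4 * (bR z v * bR z u) := by gcongr
      _ = _ := by ring
  have h1' := abs_le.mp h1
  have hprod : 0 < bR z v * bR z u := mul_pos hbv hbu
  have hT0 : 0 ≤ T := hbv.le.trans hvT
  have hprodT : bR z v * bR z u ≤ T ^ 2 := by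
    rw [sq]; gcongr
  push_cast at hp
  constructor
  · have h3 : 0 < 2 * (sc v u : ℝ) + b := by
      have : 0 < nR b c z * (2 * (sc v u : ℝ) + b) := by nlinarith
      exact (mul_pos_iff_of_pos_left hN0).mp this
    have := le_abs_self (b : ℝ)
    have h4 := abs_nonneg (b : ℝ)
    linarith
  · have h3 : nR b c z * (2 * (sc v u : ℝ) + b) ≤ nR b c z * (2 * X) := by nlinarith
    have h4 := le_of_mul_le_mul_left h3 hN0
    have := neg_abs_le (b : ℝ)
    have h5 := abs_nonneg (b : ℝ)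
    linarith

/-- C: Dirichlet's theorem in lattice form. -/
theorem exists_approx (z : ℝ × ℝ) {n : ℕ} (hn : 0 < n) :
    ∃ w : O b c, w ≠ 0 ∧ szv w ≤ n ∧ |dR z w| ≤ sz z / (n + 1) ∧
      ((|z.2| ≤ |z.1| ∧ szv w = |(w.re : ℝ)|) ∨ (|z.1| ≤ |z.2| ∧ szv w = |(w.im : ℝ)|)) := by
  have aux : ∀ x y : ℝ, |y| ≤ |x| → ∃ j k : ℤ, 0 < k ∧ (k : ℝ) ≤ n ∧
      |x * j - y * k| ≤ |x| / (n + 1) ∧ |(j : ℝ)| ≤ |(k : ℝ)| := by
    intro x y hxy
    rcases eq_or_ne x 0 with rfl | hx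
    · have hy : y = 0 := by simpa using hxy
      subst hy
      refine ⟨0, 1, one_pos, ?_, by simp, by simp⟩
      have : 1 ≤ n := hn
      exact_mod_cast this
    · obtain ⟨j, k, hk0, hkn, hjk⟩ := Real.exists_int_int_abs_mul_sub_le (y / x) hn
      have hx' : 0 < |x| := abs_pos.mpr hx
      have hkr : (0 : ℝ) < k := by exact_mod_cast hk0
      have hratio : |y / x| ≤ 1 := by
        rw [abs_div, div_le_one hx']; exact hxy
      have hn1 : (1 : ℝ) ≤ n := by exact_mod_cast hn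
      refine ⟨j, k, hk0, by exact_mod_cast hkn, ?_, ?_⟩
      · have : x * j - y * k = -(x * (k * (y / x) - j)) := by field_simp; ring
        rw [this, abs_neg, abs_mul]
        calc |x| * |(k : ℝ) * (y / x) - j| ≤ |x| * (1 / (n + 1)) := by gcongr
          _ = _ := by ring
      · have h1 : |(j : ℝ)| < |(k : ℝ)| + 1 := by
          have h2 : |(j : ℝ)| ≤ |(k : ℝ) * (y / x)| + |(k : ℝ) * (y / x) - j| := by
            have : (j : ℝ) = (k : ℝ) * (y / x) - ((k : ℝ) * (y / x) - j) := by ring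
            calc |(j : ℝ)| = |(k : ℝ) * (y / x) - ((k : ℝ) * (y / x) - j)| := by rw [← this]
              _ ≤ _ := abs_sub _ _
          have h3 : |(k : ℝ) * (y / x)| ≤ |(k : ℝ)| := by
            rw [abs_mul]
            calc |(k : ℝ)| * |y / x| ≤ |(k : ℝ)| * 1 := by gcongr
              _ = _ := mul_one _
          have h4 : (1 : ℝ) / (n + 1) < 1 := by
            rw [div_lt_one (by positivity)]; linarith
          linarith
        have h5 : |j| < |k| + 1 := by exact_mod_cast h1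
        have h6 : |j| ≤ |k| := by omega
        exact_mod_cast h6
  rcases le_total |z.2| |z.1| with h | h
  · obtain ⟨j, k, hk0, hkn, hd, hjk⟩ := aux z.1 z.2 h
    have hkr : (0 : ℝ) < k := by exact_mod_cast hk0
    have hsz : szv (⟨k, j⟩ : O b c) = |(k : ℝ)| := max_eq_left hjk
    refine ⟨⟨k, j⟩, ?_, ?_, ?_, Or.inl ⟨h, hsz⟩⟩
    · intro h0
      have := congrArg QuadraticAlgebra.re h0
      simp at this
      omega
    · rw [hsz, abs_of_pos hkr]; exact hkn
    · have : sz z = |z.1| := max_eq_left h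
      rw [this]
      exact hd
  · obtain ⟨j, k, hk0, hkn, hd, hjk⟩ := aux z.2 z.1 h
    have hkr : (0 : ℝ) < k := by exact_mod_cast hk0
    have hsz : szv (⟨j, k⟩ : O b c) = |(k : ℝ)| := max_eq_right hjk
    refine ⟨⟨j, k⟩, ?_, ?_, ?_, Or.inr ⟨h, hsz⟩⟩
    · intro h0
      have := congrArg QuadraticAlgebra.im h0
      simp at this
      omega
    · rw [hsz, abs_of_pos hkr]; exact hkn
    · have : sz z = |z.2| := max_eq_right h
      rw [this]
      have e : dR z (⟨j, k⟩ : O b c) = -(z.2 * j - z.1 * k) := by simp only [dR]; ring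
      rw [e, abs_neg]
      exact hd

end

end Pool.Agent.Lib.MP_648c71_nt
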