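import Mathlib
import Pool.Agent.Lib.MP_648c71_nt.EdgeCount
import Pool.Agent.Lib.MP_648c71_nt.Core

/-!
# Lower bound for the number of negative values from a rotation
-/

namespace Pool.Agent.Lib.MP_648c71_nt

open Finset Filter Topology

noncomputable section

theorem ff_ne_zero {b c : ℤ} (hns : ¬ IsSquare (b ^ 2 - 4 * c)) (n : ℤ) : ff b c n ≠ 0 := by
  intro h
  apply hns
  refine ⟨2 * n + b, ?_⟩
  simp only [ff] at h
  linear_combination (-4) * h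

/-- labels with value `-1` -/
def negS (b c : ℤ) (X : ℤ) : Finset ℤ := (Finset.Icc 1 X).filter (fun n => lam (ff b c n) = -1)

/-- bad labels -/
def badT (b c : ℤ) (X : ℤ) : Finset ℤ :=
  (Finset.Icc (-|b|) (X + |b|)).filter (fun n => lam (ff b c n) ≠ 1)

theorem badT_card {b c : ℤ} (hns : ¬ IsSquare (b ^ 2 - 4 * c)) (X : ℤ) :
    (badT b c X).card ≤ (negS b c X).card + (2 * b.natAbs + 1) := by
  have hsub : badT b c X ⊆ negS b c X ∪ (Finset.Icc (-|b|) 0 ∪ Finset.Ioc X (X + |b|)) := by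
    intro n hn
    simp only [badT, Finset.mem_filter, Finset.mem_Icc] at hn
    simp only [negS, Finset.mem_union, Finset.mem_filter, Finset.mem_Icc, Finset.mem_Ioc]
    rcases le_or_gt n 0 with h | h
    · right; left; exact ⟨hn.1.1, h⟩
    · rcases le_or_gt n X with h' | h'
      · left
        refine ⟨⟨by omega, h'⟩, ?_⟩
        rcases lam_eq_one_or (ff_ne_zero hns n) with h1 | h1
        · exact absurd h1 hn.2
        · exact h1
      · right; right; exact ⟨h', hn.1.2⟩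
  refine (Finset.card_le_card hsub).trans ((Finset.card_union_le _ _).trans ?_)
  apply Nat.add_le_add_left
  refine (Finset.card_union_le _ _).trans ?_
  rw [Int.card_Icc, Int.card_Ioc]
  have h1 : |b| = b.natAbs := (Int.natCast_natAbs b).symm
  rw [h1]
  omega

theorem div_bound (b c : ℤ) (k : ℕ) : ∀ᶠ P : ℕ in atTop, ∀ n : ℤ, -|b| ≤ n →
    n ≤ (P : ℤ) ^ (2 * k) + |b| → 0 < ff b c n → (ff b c n).natAbs.divisors.card ≤ P := by
  obtain ⟨C, hC1, hC⟩ := card_divisors_pow_le (4 * k + 1)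
  set C4 : ℕ := (1 + b.natAbs) ^ 2 + b.natAbs * (1 + b.natAbs) + c.natAbs with hC4
  filter_upwards [eventually_ge_atTop (C * C4), eventually_ge_atTop 1] with P hP hP1 n hn1 hn2 hf
  have hPz : (1 : ℤ) ≤ (P : ℤ) ^ (2 * k) := one_le_pow₀ (by exact_mod_cast hP1)
  have hb := abs_nonneg b
  have hc := abs_nonneg c
  have hbn : |b| = b.natAbs := (Int.natCast_natAbs b).symm
  have hcn : |c| = c.natAbs := (Int.natCast_natAbs c).symm
  set Q : ℤ := (P : ℤ) ^ (2 * k) with hQ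
  have habs : |n| ≤ (1 + |b|) * Q := by
    rw [abs_le]
    have hbQ : |b| ≤ |b| * Q := le_mul_of_one_le_right hb hPz
    constructor <;> linarith
  have hff : ff b c n ≤ (C4 : ℤ) * (P : ℤ) ^ (4 * k) := by
    have e1 : (P : ℤ) ^ (4 * k) = Q ^ 2 := by rw [hQ, ← pow_mul]; congr 1; ring
    have e2 : (C4 : ℤ) = (1 + |b|) ^ 2 + |b| * (1 + |b|) + |c| := by
      rw [hC4, hbn, hcn]; push_cast; ring
    rw [e1, e2]
    have e3 : n ^ 2 ≤ ((1 + |b|) * Q) ^ 2 := sq_le_sq' (by linarith [(abs_le.mp habs).1]) (abs_le.mp habs).2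
    have e4 : b * n ≤ |b| * ((1 + |b|) * Q) := by
      calc b * n ≤ |b * n| := le_abs_self _
        _ = |b| * |n| := abs_mul b n
        _ ≤ _ := by gcongr
    have e5 : |b| * ((1 + |b|) * Q) ≤ |b| * (1 + |b|) * Q ^ 2 := by
      have : Q ≤ Q ^ 2 := le_self_pow₀ hPz (by norm_num)
      have h2 : 0 ≤ |b| * (1 + |b|) := by positivity
      calc |b| * ((1 + |b|) * Q) = |b| * (1 + |b|) * Q := by ring
        _ ≤ _ := mul_le_mul_of_nonneg_left this h2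
    have e6 : c ≤ |c| * Q ^ 2 := by
      have h3 : 1 ≤ Q ^ 2 := one_le_pow₀ hPz
      exact (le_abs_self c).trans (le_mul_of_one_le_right hc h3)
    have e7 := e4.trans e5
    simp only [ff]
    calc n ^ 2 + b * n + c ≤ ((1 + |b|) * Q) ^ 2 + |b| * (1 + |b|) * Q ^ 2 + |c| * Q ^ 2 := by
          linarith
      _ = _ := by ring
  have hm : (ff b c n).natAbs ≤ C4 * P ^ (4 * k) := by
    zify
    rw [abs_of_pos hf]
    exact hff
  have h0 : (ff b c n).natAbs ≠ 0 := by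
    rw [Int.natAbs_ne_zero]; exact hf.ne'
  have h1 := hC _ h0
  have h2 : (ff b c n).natAbs.divisors.card ^ (4 * k + 1) ≤ P ^ (4 * k + 1) := by
    calc _ ≤ C * (ff b c n).natAbs := h1
      _ ≤ C * (C4 * P ^ (4 * k)) := Nat.mul_le_mul_left _ hm
      _ = (C * C4) * P ^ (4 * k) := by ring
      _ ≤ P * P ^ (4 * k) := Nat.mul_le_mul_right _ hP
      _ = _ := by rw [pow_succ]; ring
  exact (pow_le_pow_iff_left₀ (Nat.zero_le _) (Nat.zero_le _) (by omega)).mp h2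

theorem minus_bad {b c : ℤ} (k : ℕ) (hk : 4 ≤ k)
    {A c0 K0 : ℝ} (hA : 0 < A) (hc0 : 0 < c0) (hc1 : c0 ≤ 1) (hK0 : 2 ≤ K0) :
    ∀ᶠ P : ℕ in atTop, Rot b c (2 * k - 1) A c0 K0 P →
      (P : ℝ) ^ (2 * k) ≤ (P : ℝ) ^ 9 * (badT b c ((P : ℤ) ^ (2 * k))).card := by
  have hbig : ∀ x : ℝ, ∀ᶠ P : ℕ in atTop, x ≤ P := fun x =>
    tendsto_natCast_atTop_atTop.eventually_ge_atTop x
  have hκ := four_le_kap b c
  set κ := kap b c with hκd
  set J := J0 b c c0 with hJ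
  set C3 : ℝ := (A + 1) * (2 * (2 * J + 1)) * (2 * κ * K0 + 1) with hC3
  filter_upwards [div_bound b c k, eventually_ge_atTop 1, hbig (2 * κ), hbig (2 * κ / c0),
    hbig (4 * κ ^ 2 / c0), hbig (8 * κ ^ 2 * A / c0), hbig (4 * (A + 1) * (48 * κ * K0) / c0 ^ 2),
    hbig (2 * C3)] with P hdiv hP1 hP2 hP3 hP4 hP5 hP6 hP8
  rintro ⟨l, hlen, hmem, hEll, hflat, hre, hh1⟩
  have hPr : (1 : ℝ) ≤ P := by exact_mod_cast hP1
  have hP0 : (0 : ℝ) < P := by linarith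
  have hpw : ∀ m : ℕ, (0 : ℝ) < (P : ℝ) ^ m := fun m => by positivity
  have hexp : (P : ℝ) ^ (2 * k) = (P : ℝ) ^ 4 * ((P : ℝ) ^ (k - 2)) ^ 2 := by
    rw [← pow_mul, ← pow_add]; congr 1; omega
  have hexp8 : (P : ℝ) ^ (2 * k) = (P : ℝ) ^ 8 * (P : ℝ) ^ (2 * k - 8) := by
    rw [← pow_add]; congr 1; omega
  set X : ℝ := (P : ℝ) ^ (2 * k) with hX
  set Pn : ℝ := (P : ℝ) ^ (k - 2) with hPn
  have hPn0 : 0 < Pn := hpw _
  have hX0 : 0 < X := hpw _
  set T := badT b c ((P : ℤ) ^ (2 * k)) with hT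
  obtain ⟨E, hE1, hE2, hE3⟩ := exists_edge_finset (b := b) (c := c) hc0 T P (by
    intro n hn hf
    rw [hT, badT, Finset.mem_filter, Finset.mem_Icc] at hn
    exact hdiv n hn.1.1 hn.1.2 hf)
  have hκ0 : 0 < κ := by linarith
  rw [div_le_iff₀ hc0] at hP3 hP4 hP5
  rw [div_le_iff₀ (by positivity)] at hP6
  have hcore := core (b := b) (c := c) (c0 := c0) (K0 := K0) (η := (P : ℝ) ^ 6 / X) (X := X)
    (n := P ^ (k - 2)) (N := P ^ (2 * k)) l E hc0 hc1 hK0 (by positivity)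
    (by
      rw [← hκd]
      have h1 : 2 * (κ * ((P : ℝ) ^ 6 / X)) = 2 * κ * (P : ℝ) ^ 6 / X := by ring
      rw [h1, div_le_one hX0, hexp8]
      have h2 : (1 : ℝ) ≤ (P : ℝ) ^ (2 * k - 8) := one_le_pow₀ hPr
      calc 2 * κ * (P : ℝ) ^ 6 ≤ P * (P : ℝ) ^ 6 := by gcongr
        _ = (P : ℝ) ^ 7 := by ring
        _ ≤ (P : ℝ) ^ 8 := pow_le_pow_right₀ hPr (by norm_num)
        _ = (P : ℝ) ^ 8 * 1 := by ring
        _ ≤ _ := by gcongr)
    (by positivity) (by positivity)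
    (by
      rw [← hκd]
      push_cast
      have h1 : (P : ℝ) ≤ (P : ℝ) ^ (k - 2) := le_self_pow₀ hPr (by omega)
      have h2 := mul_le_mul_of_nonneg_right h1 hc0.le
      linarith)
    hEll
    (by
      intro μ hμ
      obtain ⟨h1, h2⟩ := hmem μ hμ
      refine ⟨h1, ?_⟩
      rw [← hκd]
      push_cast
      rw [← hPn]
      calc (nm μ : ℝ) * (κ ^ 2 * Pn ^ 2) ≤ (P : ℝ) ^ 3 * (κ ^ 2 * Pn ^ 2) := by gcongr
        _ = κ ^ 2 * ((P : ℝ) ^ 3 * Pn ^ 2) := by ring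
        _ ≤ (P * c0) * ((P : ℝ) ^ 3 * Pn ^ 2) := by
            gcongr
            have := sq_nonneg κ
            linarith
        _ = c0 * X := by rw [hexp]; ring
        _ ≤ 2 * c0 * X := by
            have := mul_pos hc0 hX0
            linarith)
    (by
      rw [← hκd]
      push_cast
      rw [← hPn]
      calc 4 * κ ^ 2 * Pn ^ 2 ≤ (P * c0) * Pn ^ 2 := by gcongr
        _ ≤ ((P : ℝ) ^ 4 * c0) * Pn ^ 2 := by
            gcongr
            exact le_self_pow₀ hPr (by norm_num)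
        _ = c0 * X := by rw [hexp]; ring)
    (by
      intro v u hdt hnv hnu hsz hsc1 hsc2 hlam
      apply hE1 (sc v u)
      · rw [hT, badT, Finset.mem_filter, Finset.mem_Icc]
        refine ⟨⟨?_, ?_⟩, hlam⟩
        · have : ((-|b| : ℤ) : ℝ) ≤ ((sc v u : ℤ) : ℝ) := by
            rw [Int.cast_neg, Int.cast_abs]; exact hsc1
          exact_mod_cast this
        · have : ((sc v u : ℤ) : ℝ) ≤ (((P : ℤ) ^ (2 * k) + |b| : ℤ) : ℝ) := by
            rw [Int.cast_add, Int.cast_abs, Int.cast_pow, Int.cast_natCast]; exact hsc2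
          exact_mod_cast this
      · exact ⟨u, hdt, rfl, hnv, hnu, hsz⟩)
    hE2
    (by
      rw [← hκd]
      have h2k : 2 * k - 1 + 1 = 2 * k := by omega
      rw [h2k, ← hX] at hflat
      apply le_of_mul_le_mul_right _ hX0
      calc 8 * κ ^ 2 * |(l.prod.im : ℝ)| * X = 8 * κ ^ 2 * (|(l.prod.im : ℝ)| * X) := by ring
        _ ≤ 8 * κ ^ 2 * (A * |(l.prod.re : ℝ)|) := by gcongr
        _ = (8 * κ ^ 2 * A) * |(l.prod.re : ℝ)| := by ring
        _ ≤ (P * c0) * |(l.prod.re : ℝ)| := by gcongr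
        _ ≤ ((P : ℝ) ^ 6 * c0) * |(l.prod.re : ℝ)| := by
            gcongr
            exact le_self_pow₀ hPr (by norm_num)
        _ = c0 * ((P : ℝ) ^ 6 / X) * |(l.prod.re : ℝ)| * X := by field_simp)
    hre hh1
  push_cast at hcore
  rw [← hκd, ← hX, ← hPn] at hcore
  -- simplify the three terms
  have t1 : 2 * (κ * K0 * ((P : ℝ) ^ 6 / X)) * X + 1 ≤ (2 * κ * K0 + 1) * (P : ℝ) ^ 6 := by
    have h1 : 2 * (κ * K0 * ((P : ℝ) ^ 6 / X)) * X = 2 * κ * K0 * (P : ℝ) ^ 6 := by field_simp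
    rw [h1]
    have h2 : (1 : ℝ) ≤ (P : ℝ) ^ 6 := one_le_pow₀ hPr
    linarith
  have hn2 : Pn ^ 2 ≤ (Pn + 1) ^ 2 := pow_le_pow_left₀ hPn0.le (by linarith) 2
  have t2 : 48 * κ * K0 * X / (c0 ^ 2 * ((P : ℝ) ^ 6 / X) * (Pn + 1) ^ 2) ≤
      48 * κ * K0 / c0 ^ 2 * (X / (P : ℝ) ^ 2) := by
    calc 48 * κ * K0 * X / (c0 ^ 2 * ((P : ℝ) ^ 6 / X) * (Pn + 1) ^ 2)
        ≤ 48 * κ * K0 * X / (c0 ^ 2 * ((P : ℝ) ^ 6 / X) * Pn ^ 2) := by gcongr
      _ = 48 * κ * K0 / c0 ^ 2 * (X / (P : ℝ) ^ 2) := by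
          rw [hexp]; field_simp
  have t3 : 48 / (c0 ^ 2 * ((P : ℝ) ^ 6 / X) ^ 2 * (Pn + 1) ^ 2) ≤
      48 / c0 ^ 2 * (X / (P : ℝ) ^ 8) := by
    calc 48 / (c0 ^ 2 * ((P : ℝ) ^ 6 / X) ^ 2 * (Pn + 1) ^ 2)
        ≤ 48 / (c0 ^ 2 * ((P : ℝ) ^ 6 / X) ^ 2 * Pn ^ 2) := by gcongr
      _ = 48 / c0 ^ 2 * (X / (P : ℝ) ^ 8) := by
          rw [hexp]; field_simp
  have hlen1 : (l.length : ℝ) + 1 ≤ (A + 1) * P := by linarith
  have hlen0 : (0 : ℝ) ≤ (l.length : ℝ) + 1 := by positivity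
  have hE3' : (E.card : ℝ) ≤ T.card * (2 * (2 * J + 1) * P) := by exact_mod_cast hE3
  have s1 : ((l.length : ℝ) + 1) * (E.card * (2 * (κ * K0 * ((P : ℝ) ^ 6 / X)) * X + 1)) ≤
      C3 * (P : ℝ) ^ 8 * T.card := by
    calc _ ≤ ((A + 1) * P) * ((T.card * (2 * (2 * J + 1) * P)) * ((2 * κ * K0 + 1) * (P : ℝ) ^ 6)) := by
          gcongr
      _ = _ := by rw [hC3]; ring
  have s2 : ((l.length : ℝ) + 1) * (48 * κ * K0 * X / (c0 ^ 2 * ((P : ℝ) ^ 6 / X) * (Pn + 1) ^ 2)) ≤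
      X / 4 := by
    calc _ ≤ ((A + 1) * P) * (48 * κ * K0 / c0 ^ 2 * (X / (P : ℝ) ^ 2)) := by gcongr
      _ = (4 * (A + 1) * (48 * κ * K0)) / (c0 ^ 2 * P) * (X / 4) := by field_simp
      _ ≤ 1 * (X / 4) := by
          gcongr
          rw [div_le_one (by positivity)]
          linarith
      _ = _ := by ring
  have s3 : ((l.length : ℝ) + 1) * (48 / (c0 ^ 2 * ((P : ℝ) ^ 6 / X) ^ 2 * (Pn + 1) ^ 2)) ≤ X / 4 := by
    have hP7 : 4 * (A + 1) * 48 ≤ c0 ^ 2 * (P : ℝ) ^ 7 := by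
      have h1 : 4 * (A + 1) * 48 ≤ 4 * (A + 1) * (48 * κ * K0) := by
        have h3 : 1 ≤ κ * K0 := one_le_mul_of_one_le_of_one_le (by linarith) (by linarith)
        have h4 := mul_le_mul_of_nonneg_left h3 (show 0 ≤ 4 * (A + 1) * 48 by positivity)
        linarith
      have h2 : (P : ℝ) * c0 ^ 2 ≤ (P : ℝ) ^ 7 * c0 ^ 2 := by
        gcongr
        exact le_self_pow₀ hPr (by norm_num)
      linarith
    calc _ ≤ ((A + 1) * P) * (48 / c0 ^ 2 * (X / (P : ℝ) ^ 8)) := by gcongr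
      _ = (4 * (A + 1) * 48) / (c0 ^ 2 * (P : ℝ) ^ 7) * (X / 4) := by field_simp
      _ ≤ 1 * (X / 4) := by
          gcongr
          rw [div_le_one (by positivity)]
          exact hP7
      _ = _ := by ring
  have hfin : X ≤ C3 * (P : ℝ) ^ 8 * T.card + X / 4 + X / 4 := by
    calc X ≤ _ := hcore
      _ = ((l.length : ℝ) + 1) * (E.card * (2 * (κ * K0 * ((P : ℝ) ^ 6 / X)) * X + 1)) +
          ((l.length : ℝ) + 1) * (48 * κ * K0 * X / (c0 ^ 2 * ((P : ℝ) ^ 6 / X) * (Pn + 1) ^ 2)) +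
          ((l.length : ℝ) + 1) * (48 / (c0 ^ 2 * ((P : ℝ) ^ 6 / X) ^ 2 * (Pn + 1) ^ 2)) := by ring
      _ ≤ _ := by linarith
  have hTc : (0 : ℝ) ≤ T.card := Nat.cast_nonneg _
  calc X ≤ 2 * C3 * ((P : ℝ) ^ 8 * T.card) := by linarith
    _ ≤ P * ((P : ℝ) ^ 8 * T.card) := by gcongr
    _ = _ := by ring

end

end Pool.Agent.Lib.MP_648c71_nt
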