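import Pool.Agent.Lib.MP_648c71_nt.EdgeCount
import Pool.Agent.Lib.MP_648c71_nt.Core

/-!
The value `+1` is taken often: Farey triangles.
-/

namespace Pool.Agent.Lib.MP_648c71_nt

open QuadraticAlgebra

variable {b c : ℤ}

noncomputable section

theorem sum_inv_sq_le (Y : ℕ) (hY : 2 ≤ Y) :
    ∑ k ∈ Finset.Icc 2 Y, (1 : ℝ) / (k : ℝ) ^ 2 ≤ 3 / 4 - 1 / Y := by
  induction Y, hY using Nat.le_induction with
  | base => norm_num
  | succ Y hY ih =>
    rw [Finset.sum_Icc_succ_top (by omega)]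
    have hYr : (0 : ℝ) < Y := by
      have : 0 < Y := by omega
      exact_mod_cast this
    have h1 : (1 : ℝ) / ((Y + 1 : ℕ) : ℝ) ^ 2 ≤ 1 / Y - 1 / ((Y + 1 : ℕ) : ℝ) := by
      push_cast
      rw [div_sub_div _ _ (by positivity) (by positivity), div_le_div_iff₀ (by positivity)
        (by positivity)]
      nlinarith
    linarith

/-- coprime pairs -/
def cop (Y : ℕ) : Finset (ℕ × ℕ) :=
  ((Finset.Icc 1 Y) ×ˢ (Finset.Icc 1 Y)).filter (fun p => Nat.Coprime p.1 p.2)

theorem card_cop (Y : ℕ) (hY : 2 ≤ Y) : (Y : ℝ) ^ 2 / 4 ≤ (cop Y).card := by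
  classical
  have hYr : (0 : ℝ) < Y := by
    have : 0 < Y := by omega
    exact_mod_cast this
  have hsplit : ((Finset.Icc 1 Y) ×ˢ (Finset.Icc 1 Y)) ⊆ cop Y ∪
      (Finset.Icc 2 Y).biUnion (fun k => ((Finset.Icc 1 Y).filter (fun x => k ∣ x)) ×ˢ
        ((Finset.Icc 1 Y).filter (fun x => k ∣ x))) := by
    rintro ⟨x, y⟩ hxy
    rw [Finset.mem_product] at hxy
    have hx := Finset.mem_Icc.mp hxy.1
    have hy := Finset.mem_Icc.mp hxy.2
    simp only at hx hy
    rw [Finset.mem_union]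
    by_cases h : Nat.Coprime x y
    · left
      unfold cop
      simp only [Finset.mem_filter, Finset.mem_product, Finset.mem_Icc]
      exact ⟨⟨hx, hy⟩, h⟩
    · right
      rw [Finset.mem_biUnion]
      have hg0 : 0 < Nat.gcd x y := Nat.gcd_pos_of_pos_left _ (by omega)
      have hgx : Nat.gcd x y ≤ x := Nat.gcd_le_left _ (by omega)
      refine ⟨Nat.gcd x y, ?_, ?_⟩
      · rw [Finset.mem_Icc]
        refine ⟨?_, by omega⟩
        have : Nat.gcd x y ≠ 1 := h
        omega
      · simp only [Finset.mem_product, Finset.mem_filter, Finset.mem_Icc]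
        exact ⟨⟨hx, Nat.gcd_dvd_left x y⟩, ⟨hy, Nat.gcd_dvd_right x y⟩⟩
  have hmul : ∀ k ∈ Finset.Icc 2 Y, ((((Finset.Icc 1 Y).filter (fun x => k ∣ x)) ×ˢ
        ((Finset.Icc 1 Y).filter (fun x => k ∣ x))).card : ℝ) ≤ (Y : ℝ) ^ 2 * (1 / (k : ℝ) ^ 2) := by
    intro k hk
    have hk2 := (Finset.mem_Icc.mp hk).1
    have hkr : (0 : ℝ) < k := by
      have : 0 < k := by omega
      exact_mod_cast this
    rw [Finset.card_product]
    have h1 : ((Finset.Icc 1 Y).filter (fun x => k ∣ x)).card = Y / k := by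
      have := Nat.Ioc_filter_dvd_card_eq_div Y k
      rw [← this]
      congr 1
    rw [h1]
    push_cast
    have h2 : ((Y / k : ℕ) : ℝ) ≤ Y / k := Nat.cast_div_le
    calc ((Y / k : ℕ) : ℝ) * ((Y / k : ℕ) : ℝ) ≤ (Y / k) * (Y / k) := by gcongr
      _ = _ := by field_simp
  have h1 : ((Y : ℝ)) ^ 2 ≤ (cop Y).card + ∑ k ∈ Finset.Icc 2 Y, (Y : ℝ) ^ 2 * (1 / (k : ℝ) ^ 2) := by
    have h2 := Finset.card_le_card hsplit
    rw [Finset.card_product, Nat.card_Icc, Nat.add_sub_cancel] at h2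
    have h3 := h2.trans ((Finset.card_union_le _ _).trans
      (Nat.add_le_add_left Finset.card_biUnion_le _))
    have h4 : ((Y * Y : ℕ) : ℝ) ≤ ((cop Y).card + ∑ k ∈ Finset.Icc 2 Y,
      (((Finset.Icc 1 Y).filter (fun x => k ∣ x)) ×ˢ
        ((Finset.Icc 1 Y).filter (fun x => k ∣ x))).card : ℕ) := by exact_mod_cast h3
    push_cast at h4
    calc (Y : ℝ) ^ 2 = Y * Y := by ring
      _ ≤ _ := h4
      _ ≤ _ := by
        gcongr with k hk
        exact hmul k hk
  rw [← Finset.mul_sum] at h1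
  have h5 := sum_inv_sq_le Y hY
  have h6 : (Y : ℝ) ^ 2 * ∑ k ∈ Finset.Icc 2 Y, (1 : ℝ) / (k : ℝ) ^ 2 ≤
      (Y : ℝ) ^ 2 * (3 / 4) := by
    gcongr
    have : 0 < (1 : ℝ) / Y := by positivity
    linarith
  linarith

/-- the shear constant -/
def CC (b c : ℤ) : ℤ := 4 * (|b| + |c|) + 8

theorem kap_eq (b c : ℤ) : (CC b c : ℝ) = kap b c + 4 := by
  unfold CC kap; push_cast; ring

theorem dR_coe (a v : O b c) : dR ((a.re : ℝ), (a.im : ℝ)) v = dt a v := by
  simp only [dR, dt]; push_cast; ring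

theorem bR_coe (a v : O b c) :
    bR ((a.re : ℝ), (a.im : ℝ)) v = 2 * sc a v + b * dt a v := by
  simp only [bR, sc, dt]; push_cast; ring

theorem nR_coe (a : O b c) : nR b c ((a.re : ℝ), (a.im : ℝ)) = nm a := by
  simp only [nR, nm]; push_cast; ring

theorem sc_self (a : O b c) : sc a a = nm a := by
  simp only [sc, nm]; ring

theorem sc_add (a v w : O b c) : sc a (v + w) = sc a v + sc a w := by
  simp only [sc, re_add, im_add]; ring

theorem dt_add (a v w : O b c) : dt a (v + w) = dt a v + dt a w := by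
  simp only [dt, re_add, im_add]; ring

theorem dt_self (a : O b c) : dt a a = 0 := by
  simp only [dt]; ring

theorem ff_pos_of_large {n : ℤ} (hn : CC b c ≤ n) :
    n ^ 2 ≤ 2 * ff b c n ∧ 2 * ff b c n ≤ 3 * n ^ 2 := by
  unfold CC at hn
  have hb := abs_nonneg b
  have hc := abs_nonneg c
  have hn0 : 0 < n := by omega
  have h1 : |b * n| ≤ |b| * n := by rw [abs_mul, abs_of_pos hn0]
  have h2 := abs_le.mp h1
  have h3 := abs_le.mp (le_refl |c|)
  unfold ff
  constructor <;> nlinarith [mul_nonneg hb hn0.le, mul_nonneg hc hn0.le]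

/-- the basic triangle -/
theorem triangle (a : O b c) (hcop : IsCoprime a.re a.im) (him : 1 ≤ a.im)
    (hre : CC b c * a.im ≤ a.re) :
    ∃ w : O b c, dt a w = 1 ∧ 0 < nm a ∧ 0 < nm w ∧ 0 < nm (a + w) ∧
      nm a ≤ sc a w ∧ sc a w < 2 * nm a ∧ nm w ≤ 6 * nm a ∧
      a.re ^ 2 ≤ 2 * nm a ∧ 2 * nm a ≤ 3 * a.re ^ 2 := by
  have hb := abs_nonneg b
  have hc := abs_nonneg c
  have hC : 8 ≤ CC b c := by unfold CC; omega
  have hreC : CC b c ≤ a.re := by nlinarith
  have hre0 : 0 < a.re := by omega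
  have him0 : 0 < a.im := by omega
  have hle : a.im ≤ a.re := by nlinarith
  -- the norm of `a`
  have hnm : a.re ^ 2 ≤ 2 * nm a ∧ 2 * nm a ≤ 3 * a.re ^ 2 := by
    have h1 : 4 * |b| * a.im ≤ a.re := by
      have : 4 * |b| ≤ CC b c := by unfold CC; omega
      nlinarith
    have h2 : 4 * |c| * a.im ≤ a.re := by
      have : 4 * |c| ≤ CC b c := by unfold CC; omega
      nlinarith
    have h3 : |b * a.re * a.im| = |b| * a.re * a.im := by
      rw [abs_mul, abs_mul, abs_of_pos hre0, abs_of_pos him0]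
    have h4 : |c * a.im ^ 2| = |c| * a.im ^ 2 := by
      rw [abs_mul, abs_of_nonneg (sq_nonneg a.im)]
    have h5 := abs_le.mp h3.le
    have h6 := abs_le.mp h4.le
    have h7 : 4 * (|b| * a.re * a.im) ≤ a.re ^ 2 := by nlinarith
    have h8 : 4 * (|c| * a.im ^ 2) ≤ a.re ^ 2 := by nlinarith
    unfold nm
    constructor <;> nlinarith [h5.1, h5.2, h6.1, h6.2]
  have hnm0 : 0 < nm a := by nlinarith
  obtain ⟨x, y, hxy⟩ := hcop
  set u0 : O b c := ⟨-y, x⟩ with hu0
  have hau0 : dt a u0 = 1 := by simp only [dt, hu0]; linarith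
  set t : ℤ := 1 - sc a u0 / nm a with ht
  set w : O b c := u0 + t • a with hw
  have hdt : dt a w = 1 := by
    rw [hw, ← hau0]; simp only [dt, re_add, im_add, re_smul, im_smul, smul_eq_mul]; ring
  have hsc : sc a w = sc a u0 % nm a + nm a := by
    have : sc a w = sc a u0 + t * nm a := by
      rw [hw]; simp only [sc, nm, re_add, im_add, re_smul, im_smul, smul_eq_mul]; ring
    rw [this, ht, Int.emod_def]; ring
  have hm0 : 0 ≤ sc a u0 % nm a := Int.emod_nonneg _ hnm0.ne'
  have hm1 : sc a u0 % nm a < nm a := Int.emod_lt_of_pos _ hnm0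
  have hn1 : nm a ≤ sc a w := by omega
  have hn1' : sc a w < 2 * nm a := by omega
  have hCn1 : CC b c ≤ sc a w := by nlinarith
  obtain ⟨hf1, hf2⟩ := ff_pos_of_large hCn1
  have hprod := nm_mul_nm_of_dt hdt
  have hn1pos : 0 < sc a w := by omega
  have hw0 : 0 < nm w := by
    have : 0 < nm a * nm w := by rw [hprod]; nlinarith
    exact (mul_pos_iff_of_pos_left hnm0).mp this
  have hdt2 : dt a (a + w) = 1 := by rw [dt_add, dt_self, hdt]; norm_num
  have hprod2 := nm_mul_nm_of_dt hdt2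
  have hsc2 : sc a (a + w) = nm a + sc a w := by rw [sc_add, sc_self]
  have hCn2 : CC b c ≤ sc a (a + w) := by omega
  obtain ⟨hf3, hf4⟩ := ff_pos_of_large hCn2
  have haw0 : 0 < nm (a + w) := by
    have : 0 < nm a * nm (a + w) := by rw [hprod2]; nlinarith
    exact (mul_pos_iff_of_pos_left hnm0).mp this
  have hw6 : nm w ≤ 6 * nm a := by
    have h1 : nm a * nm w ≤ nm a * (6 * nm a) := by
      rw [hprod]
      nlinarith
    exact le_of_mul_le_mul_left h1 hnm0
  exact ⟨w, hdt, hnm0, hw0, haw0, hn1, hn1', hw6, hnm.1, hnm.2⟩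

/-- the three edges of the triangle are elliptic -/
theorem triangle_edges (a w : O b c) (him : 1 ≤ a.im)
    (hre : CC b c * a.im ≤ a.re) (hdt : dt a w = 1) (ha0 : 0 < nm a) (hw0 : 0 < nm w)
    (haw0 : 0 < nm (a + w)) (hn1 : nm a ≤ sc a w) (hn : a.re ^ 2 ≤ 2 * nm a) :
    EdgeP (1 / 2) (sc a w) a ∧ EdgeP (1 / 2) (nm a + sc a w) a ∧
      EdgeP (1 / 2) (sc a w + nm w) (a + w) := by
  have hk := four_le_kap b c
  have hCk := kap_eq b c
  have hb := abs_nonneg b
  have hc := abs_nonneg c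
  have hC : 8 ≤ CC b c := by unfold CC; omega
  have hreC : CC b c ≤ a.re := by nlinarith
  have hre0 : 0 < a.re := by omega
  have hle : a.im ≤ a.re := by nlinarith
  have hszv : szv a = a.re := by
    unfold szv
    have h1 : (0 : ℝ) < a.re := by exact_mod_cast hre0
    have h2 : (0 : ℝ) < a.im := by
      have : 0 < a.im := by omega
      exact_mod_cast this
    have h3 : (a.im : ℝ) ≤ a.re := by exact_mod_cast hle
    rw [abs_of_pos h1, abs_of_pos h2]
    exact max_eq_left h3
  have hnr : (a.re : ℝ) ^ 2 ≤ 2 * nm a := by exact_mod_cast hn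
  have ha0r : (0 : ℝ) < nm a := by exact_mod_cast ha0
  have hell : (1 / 2 : ℝ) ^ 2 * szv a ^ 2 ≤ 32 * kap b c * nm a := by
    rw [hszv]
    nlinarith
  have hdt2 : dt a (a + w) = 1 := by rw [dt_add, dt_self, hdt]; norm_num
  have hsc2 : sc a (a + w) = nm a + sc a w := by rw [sc_add, sc_self]
  refine ⟨⟨w, hdt, rfl, ha0, hw0, hell⟩, ⟨a + w, hdt2, hsc2, ha0, haw0, hell⟩, ⟨w, ?_, ?_, haw0, hw0, ?_⟩⟩
  · have : dt (a + w) w = dt a w := by simp only [dt, re_add, im_add]; ring
    rw [this, hdt]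
  · have : sc (a + w) w = sc a w + nm w := by simp only [sc, nm, re_add, im_add]; ring
    exact this
  · set z : ℝ × ℝ := ((a.re : ℝ), (a.im : ℝ)) with hz
    have hsz : sz z = a.re := by
      have : sz z = szv a := rfl
      rw [this, hszv]
    have hre0r : (0 : ℝ) < a.re := by exact_mod_cast hre0
    have hE : Ell b c (1 / 2) z := by
      constructor
      · rw [hsz]; exact hre0r
      · rw [hsz, hz, nR_coe]; linarith
    have hn2 : CC b c * CC b c ≤ 2 * sc a (a + w) := by
      rw [hsc2]; nlinarith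
    have hn2r : (CC b c : ℝ) * CC b c ≤ 2 * sc a (a + w) := by exact_mod_cast hn2
    have hbr : |(b : ℝ)| ≤ kap b c := by
      unfold kap; linarith [abs_nonneg (b : ℝ), abs_nonneg (c : ℝ)]
    have hbr' := neg_abs_le (b : ℝ)
    set q : ℝ := 2 * sc a (a + w) + b with hq
    have hqk : 2 * kap b c ≤ q := by
      rw [hCk] at hn2r
      rw [hq]
      nlinarith
    have hq0 : 0 < q := by linarith
    apply szv_sq_le (η := 1 / q) (z := z) (by norm_num) (by norm_num) hE (by positivity)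
    · rw [mul_one_div, mul_div_assoc', div_le_one hq0]; exact hqk
    · unfold Cone
      rw [hz, dR_coe, bR_coe, hdt2]
      push_cast
      rw [mul_one, ← hq, abs_one, one_div, inv_mul_cancel₀ hq0.ne']

/-- labels with value `+1` -/
def posS (b c : ℤ) (X : ℤ) : Finset ℤ := (Finset.Icc 1 X).filter (fun n => lam (ff b c n) = 1)

theorem plus_count (b c : ℤ) (Y : ℕ) (hY : 2 ≤ Y) (X : ℤ)
    (hX : 12 * ((CC b c + 1) * Y) ^ 2 ≤ X) (D : ℕ)
    (hD : ∀ n : ℤ, 1 ≤ n → n ≤ X → 0 < ff b c n → (ff b c n).natAbs.divisors.card ≤ D) :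
    (Y : ℝ) ^ 2 / 4 ≤ 3 * ((posS b c X).card * (2 * (2 * J0 b c (1 / 2) + 1) * D)) := by
  classical
  have hCC : 8 ≤ CC b c := by unfold CC; linarith [abs_nonneg b, abs_nonneg c]
  -- finite sets of edges for each label
  have hE : ∀ n : ℤ, ∃ E : Finset (O b c), n ∈ posS b c X →
      (∀ v, EdgeP (1 / 2) n v → v ∈ E) ∧ E.card ≤ 2 * (2 * J0 b c (1 / 2) + 1) * D := by
    intro n
    by_cases hn : n ∈ posS b c X
    · obtain ⟨E, h1, _, h3⟩ := exists_edge_finset (b := b) (c := c) (c0 := 1 / 2) (by norm_num) {n} D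
        (by
          intro m hm hpos
          rw [Finset.mem_singleton] at hm
          subst hm
          have := Finset.mem_Icc.mp (Finset.mem_filter.mp hn).1
          exact hD m this.1 this.2 hpos)
      refine ⟨E, fun _ => ⟨h1 n (Finset.mem_singleton_self n), ?_⟩⟩
      simpa using h3
    · exact ⟨∅, fun h => absurd h hn⟩
  choose E hE using hE
  set P : Finset (ℤ × O b c) := (posS b c X).biUnion (fun n => (E n).image (fun v => (n, v))) with hP
  have hPcard : P.card ≤ (posS b c X).card * (2 * (2 * J0 b c (1 / 2) + 1) * D) := by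
    calc P.card ≤ ∑ n ∈ posS b c X, ((E n).image (fun v => (n, v))).card := Finset.card_biUnion_le
      _ ≤ ∑ n ∈ posS b c X, 2 * (2 * J0 b c (1 / 2) + 1) * D := by
          apply Finset.sum_le_sum
          intro n hn
          exact Finset.card_image_le.trans (hE n hn).2
      _ = _ := by rw [Finset.sum_const, smul_eq_mul]
  have hPmem : ∀ n v, n ∈ posS b c X → EdgeP (1 / 2) n v → (n, v) ∈ P := by
    intro n v hn hv
    rw [hP, Finset.mem_biUnion]
    exact ⟨n, hn, Finset.mem_image.mpr ⟨v, (hE n hn).1 v hv, rfl⟩⟩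
  -- the decoding
  have key : ∀ p ∈ cop Y, ∃ i ∈ Finset.range 3, ∃ q ∈ P,
      (i ≤ 1 ∧ q.2 = (⟨(p.1 : ℤ) + CC b c * p.2, p.2⟩ : O b c)) ∨
      (i = 2 ∧ ∃ w : O b c, dt q.2 w = 1 ∧ sc q.2 w = q.1 ∧ 0 < nm q.2 ∧
        q.2 = (⟨(p.1 : ℤ) + CC b c * p.2, p.2⟩ : O b c) + w) := by
    rintro ⟨x, y⟩ hp
    unfold cop at hp
    simp only [Finset.mem_filter, Finset.mem_product, Finset.mem_Icc] at hp
    obtain ⟨⟨⟨hx1, hxY⟩, ⟨hy1, hyY⟩⟩, hxy⟩ := hp
    set a : O b c := ⟨(x : ℤ) + CC b c * y, y⟩ with ha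
    have hcop : IsCoprime a.re a.im := by
      have h1 : IsCoprime (x : ℤ) (y : ℤ) := Nat.isCoprime_iff_coprime.mpr hxy
      simp only [ha]
      exact h1.add_mul_right_left (CC b c)
    have him : 1 ≤ a.im := by simp only [ha]; exact_mod_cast hy1
    have hre : CC b c * a.im ≤ a.re := by simp only [ha]; omega
    obtain ⟨w, hdt, ha0, hw0, haw0, hn1, hn1', hw6, hn, hn'⟩ := triangle a hcop him hre
    obtain ⟨e1, e2, e3⟩ := triangle_edges a w him hre hdt ha0 hw0 haw0 hn1 hn
    have hare : a.re ≤ (CC b c + 1) * Y := by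
      simp only [ha]
      have h1 : (x : ℤ) ≤ Y := by exact_mod_cast hxY
      have h2 : (y : ℤ) ≤ Y := by exact_mod_cast hyY
      nlinarith
    have hare0 : 0 ≤ a.re := by
      have : (0 : ℤ) ≤ x := by omega
      simp only [ha]; positivity
    have hnma : 8 * nm a ≤ X := by nlinarith
    -- labels
    have hdt2 : dt a (a + w) = 1 := by rw [dt_add, dt_self, hdt]; norm_num
    have hdt3 : dt (a + w) w = 1 := by
      have : dt (a + w) w = dt a w := by simp only [dt, re_add, im_add]; ring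
      rw [this, hdt]
    have hsc2 : sc a (a + w) = nm a + sc a w := by rw [sc_add, sc_self]
    have hsc3 : sc (a + w) w = sc a w + nm w := by simp only [sc, nm, re_add, im_add]; ring
    have p1 := nm_mul_nm_of_dt hdt
    have p2 := nm_mul_nm_of_dt hdt2
    have p3 := nm_mul_nm_of_dt hdt3
    rw [hsc2] at p2
    rw [hsc3] at p3
    have hl1 : lam (ff b c (sc a w)) * lam (ff b c (nm a + sc a w)) *
        lam (ff b c (sc a w + nm w)) = 1 := by
      rw [← p1, ← p2, ← p3, ← lam_mul, ← lam_mul]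
      have : nm a * nm w * (nm a * nm (a + w)) * (nm (a + w) * nm w) =
          (nm a * nm w * nm (a + w)) ^ 2 := by ring
      rw [this]
      exact lam_sq (by positivity)
    have hv1 : lam (ff b c (sc a w)) = 1 ∨ lam (ff b c (sc a w)) = -1 :=
      lam_eq_one_or (by rw [← p1]; positivity)
    have hv2 : lam (ff b c (nm a + sc a w)) = 1 ∨ lam (ff b c (nm a + sc a w)) = -1 :=
      lam_eq_one_or (by rw [← p2]; positivity)
    have hv3 : lam (ff b c (sc a w + nm w)) = 1 ∨ lam (ff b c (sc a w + nm w)) = -1 :=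
      lam_eq_one_or (by rw [← p3]; positivity)
    rcases hv1 with h1 | h1
    · refine ⟨0, by simp, (sc a w, a), hPmem _ _ ?_ e1, Or.inl ⟨by norm_num, rfl⟩⟩
      simp only [posS, Finset.mem_filter, Finset.mem_Icc]
      exact ⟨by omega, h1⟩
    · rcases hv2 with h2 | h2
      · refine ⟨1, by simp, (nm a + sc a w, a), hPmem _ _ ?_ e2, Or.inl ⟨by norm_num, rfl⟩⟩
        simp only [posS, Finset.mem_filter, Finset.mem_Icc]
        exact ⟨by omega, h2⟩
      · have h3 : lam (ff b c (sc a w + nm w)) = 1 := by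
          rw [h1, h2] at hl1
          linarith
        refine ⟨2, by simp, (sc a w + nm w, a + w), hPmem _ _ ?_ e3, Or.inr ⟨rfl, w, hdt3, hsc3, haw0, rfl⟩⟩
        simp only [posS, Finset.mem_filter, Finset.mem_Icc]
        exact ⟨by omega, h3⟩
  choose! i hi q hq hcode using key
  have hcard : (cop Y).card ≤ ((Finset.range 3) ×ˢ P).card := by
    apply Finset.card_le_card_of_injOn (fun p => (i p, q p))
    · intro p hp
      exact Finset.mem_coe.mpr (Finset.mem_product.mpr ⟨hi p hp, hq p hp⟩)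
    · intro p hp p' hp' hpp
      simp only [Prod.mk.injEq] at hpp
      obtain ⟨h1, h2⟩ := hpp
      have hfin : (⟨(p.1 : ℤ) + CC b c * p.2, p.2⟩ : O b c) =
          ⟨(p'.1 : ℤ) + CC b c * p'.2, p'.2⟩ := by
        rcases hcode p hp with ⟨c1, c2⟩ | ⟨c1, w, c2, c3, c4, c5⟩
        · rcases hcode p' hp' with ⟨d1, d2⟩ | ⟨d1, w', d2, d3, d4, d5⟩
          · rw [← c2, ← d2, h2]
          · omega
        · rcases hcode p' hp' with ⟨d1, d2⟩ | ⟨d1, w', d2, d3, d4, d5⟩
          · omega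
          · rw [← h2] at d2 d3 d5
            have hww : w = w' := by
              by_contra hne
              apply star_mul_ne_zero c4.ne' (sub_ne_zero.mpr hne)
              rw [mul_sub, star_mul_eq, star_mul_eq, c2, c3, d2, d3, sub_self]
            rw [hww] at c5
            rw [c5] at d5
            exact add_right_cancel d5
      have h3 := congrArg QuadraticAlgebra.re hfin
      have h4 := congrArg QuadraticAlgebra.im hfin
      simp only at h3 h4
      have h5 : p.2 = p'.2 := by exact_mod_cast h4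
      rw [h5] at h3
      have h6 : p.1 = p'.1 := by
        have : (p.1 : ℤ) = p'.1 := by linarith
        exact_mod_cast this
      exact Prod.ext h6 h5
  rw [Finset.card_product, Finset.card_range] at hcard
  have h1 := card_cop Y hY
  have h2 : ((cop Y).card : ℝ) ≤ ((3 * ((posS b c X).card * (2 * (2 * J0 b c (1 / 2) + 1) * D)) : ℕ) : ℝ) := by
    have : (cop Y).card ≤ 3 * ((posS b c X).card * (2 * (2 * J0 b c (1 / 2) + 1) * D)) := by
      calc (cop Y).card ≤ 3 * P.card := hcard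
        _ ≤ _ := Nat.mul_le_mul_left _ hPcard
    exact_mod_cast this
  push_cast at h2
  linarith

end

end Pool.Agent.Lib.MP_648c71_nt
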