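import Mathlib
import Pool.Agent.Lib.MP_648c71_nt.Plus
import Pool.Agent.Lib.MP_648c71_nt.Minus

/-!
# Both signs occur at least `N^{1-ε}` times
-/

namespace Pool.Agent.Lib.MP_648c71_nt

open Finset Filter Topology

noncomputable section

theorem minus_final {b c : ℤ} (hns : ¬ IsSquare (b ^ 2 - 4 * c))
    (hRot : ∀ K : ℕ, ∃ A c0 K0 : ℝ, 0 < A ∧ 0 < c0 ∧ c0 ≤ 1 ∧ 2 ≤ K0 ∧
      ∀ᶠ P : ℕ in atTop, Rot b c K A c0 K0 P) (k : ℕ) (hk : 6 ≤ k) :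
    ∀ᶠ P : ℕ in atTop,
      (P : ℝ) ^ (2 * k) ≤ (P : ℝ) ^ 10 * (negS b c ((P ^ (2 * k) : ℕ) : ℤ)).card := by
  obtain ⟨A, c0, K0, hA, hc0, hc1, hK0, hev⟩ := hRot (2 * k - 1)
  have hbig : ∀ x : ℝ, ∀ᶠ P : ℕ in atTop, x ≤ P := fun x =>
    tendsto_natCast_atTop_atTop.eventually_ge_atTop x
  filter_upwards [hev, minus_bad (b := b) (c := c) k (by omega) hA hc0 hc1 hK0,
    hbig (2 * (2 * b.natAbs + 1)), hbig 2] with P h1 h2 h3 h4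
  have h5 := h2 h1
  have h6 := badT_card hns ((P : ℤ) ^ (2 * k))
  have h7 : ((badT b c ((P : ℤ) ^ (2 * k))).card : ℝ) ≤
      (negS b c ((P : ℤ) ^ (2 * k))).card + (2 * b.natAbs + 1) := by exact_mod_cast h6
  have hPr : (1 : ℝ) ≤ P := by linarith
  have h8 : (P : ℝ) ^ (2 * k) = (P : ℝ) ^ 9 * ((P : ℝ) ^ 2 * (P : ℝ) ^ (2 * k - 11)) := by
    rw [← pow_add, ← pow_add]; congr 1; omega
  have h9 : (1 : ℝ) ≤ (P : ℝ) ^ (2 * k - 11) := one_le_pow₀ hPr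
  have h10 : (P : ℝ) ^ 9 * (2 * b.natAbs + 1) ≤ (P : ℝ) ^ (2 * k) / 2 := by
    rw [h8]
    have : (2 * (b.natAbs : ℝ) + 1) * 2 ≤ (P : ℝ) ^ 2 * (P : ℝ) ^ (2 * k - 11) := by
      calc (2 * (b.natAbs : ℝ) + 1) * 2 ≤ P := by linarith
        _ ≤ (P : ℝ) ^ 2 := le_self_pow₀ hPr (by norm_num)
        _ = (P : ℝ) ^ 2 * 1 := by ring
        _ ≤ _ := by gcongr
    have h11 : (0 : ℝ) < (P : ℝ) ^ 9 := by positivity
    nlinarith
  have h11 : (P : ℝ) ^ 9 * (badT b c ((P : ℤ) ^ (2 * k))).card ≤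
      (P : ℝ) ^ 9 * ((negS b c ((P : ℤ) ^ (2 * k))).card + (2 * b.natAbs + 1)) := by
    gcongr
  push_cast
  have h12 : (0 : ℝ) ≤ (negS b c ((P : ℤ) ^ (2 * k))).card := Nat.cast_nonneg _
  have h13 : (0 : ℝ) ≤ (P : ℝ) ^ 9 * (negS b c ((P : ℤ) ^ (2 * k))).card := by positivity
  calc (P : ℝ) ^ (2 * k) ≤ 2 * ((P : ℝ) ^ 9 * (negS b c ((P : ℤ) ^ (2 * k))).card) := by linarith
    _ ≤ P * ((P : ℝ) ^ 9 * (negS b c ((P : ℤ) ^ (2 * k))).card) := by gcongr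
    _ = _ := by ring

theorem plus_final (b c : ℤ) (k : ℕ) (hk : 2 ≤ k) : ∀ᶠ P : ℕ in atTop,
      (P : ℝ) ^ (2 * k) ≤ (P : ℝ) ^ 10 * (posS b c ((P ^ (2 * k) : ℕ) : ℤ)).card := by
  have hbig : ∀ x : ℝ, ∀ᶠ P : ℕ in atTop, x ≤ P := fun x =>
    tendsto_natCast_atTop_atTop.eventually_ge_atTop x
  filter_upwards [div_bound b c k, eventually_ge_atTop 2,
    eventually_ge_atTop (12 * (CC b c + 1) ^ 2).natAbs,
    hbig (12 * (2 * (2 * J0 b c (1 / 2) + 1)))] with P hdiv hP2 hP3 hP4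
  have hPr : (1 : ℝ) ≤ P := by
    have : 1 ≤ P := by omega
    exact_mod_cast this
  have hPz : (1 : ℤ) ≤ P := by
    have : 1 ≤ P := by omega
    exact_mod_cast this
  have h1 : 12 * ((CC b c + 1) * ((P ^ (k - 1) : ℕ) : ℤ)) ^ 2 ≤ ((P ^ (2 * k) : ℕ) : ℤ) := by
    have h2 : 12 * (CC b c + 1) ^ 2 ≤ (P : ℤ) := by omega
    have h3 : ((P ^ (2 * k) : ℕ) : ℤ) = (P : ℤ) ^ 2 * ((P : ℤ) ^ (k - 1)) ^ 2 := by
      push_cast
      rw [← pow_mul, ← pow_add]; congr 1; omega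
    rw [h3]
    push_cast
    calc 12 * ((CC b c + 1) * (P : ℤ) ^ (k - 1)) ^ 2
        = 12 * (CC b c + 1) ^ 2 * ((P : ℤ) ^ (k - 1)) ^ 2 := by ring
      _ ≤ (P : ℤ) * ((P : ℤ) ^ (k - 1)) ^ 2 := by gcongr
      _ ≤ (P : ℤ) ^ 2 * ((P : ℤ) ^ (k - 1)) ^ 2 := by
          gcongr
          nlinarith
  have h2 := plus_count b c (P ^ (k - 1))
    (by calc 2 ≤ P := hP2
          _ ≤ P ^ (k - 1) := Nat.le_self_pow (by omega) _)
    ((P ^ (2 * k) : ℕ) : ℤ) h1 P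
    (by
      intro n hn1 hn2 hf
      apply hdiv n _ _ hf
      · have := abs_nonneg b; omega
      · push_cast at hn2
        have := abs_nonneg b; omega)
  set S := (posS b c ((P ^ (2 * k) : ℕ) : ℤ)).card with hS
  push_cast at h2
  have h3 : (P : ℝ) ^ (2 * k) = (P : ℝ) ^ 2 * ((P : ℝ) ^ (k - 1)) ^ 2 := by
    rw [← pow_mul, ← pow_add]; congr 1; omega
  have hS0 : (0 : ℝ) ≤ S := Nat.cast_nonneg _
  rw [h3]
  calc (P : ℝ) ^ 2 * ((P : ℝ) ^ (k - 1)) ^ 2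
      = 4 * (P : ℝ) ^ 2 * (((P : ℝ) ^ (k - 1)) ^ 2 / 4) := by ring
    _ ≤ 4 * (P : ℝ) ^ 2 * (3 * (S * (2 * (2 * J0 b c (1 / 2) + 1) * P))) := by gcongr
    _ = (12 * (2 * (2 * J0 b c (1 / 2) + 1))) * ((P : ℝ) ^ 3 * S) := by ring
    _ ≤ P * ((P : ℝ) ^ 3 * S) := by gcongr
    _ = (P : ℝ) ^ 4 * S := by ring
    _ ≤ (P : ℝ) ^ 10 * S :=
        mul_le_mul_of_nonneg_right (pow_le_pow_right₀ hPr (by norm_num)) hS0

/-- from powers to all integers -/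
theorem conv (S : ℕ → ℕ) (hS : Monotone S) (h : ∀ k : ℕ, 6 ≤ k → ∀ᶠ P : ℕ in atTop,
    (P : ℝ) ^ (2 * k) ≤ (P : ℝ) ^ 10 * S (P ^ (2 * k))) (ε : ℝ) (hε : 0 < ε) :
    ∀ᶠ N : ℕ in atTop, (N : ℝ) ^ (1 - ε) ≤ S N := by
  obtain ⟨k0, hk0⟩ := exists_nat_gt (10 / ε)
  set k := max k0 6 with hk
  have hk6 : 6 ≤ k := le_max_right _ _
  have hkε : 10 / ε < k := lt_of_lt_of_le hk0 (by exact_mod_cast le_max_left _ _)
  have hkr : (0 : ℝ) < k := by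
    have : 0 < k := by omega
    exact_mod_cast this
  set u : ℝ := 1 / (2 * k) with hu
  have hu0 : 0 < u := by positivity
  have huε : 10 * u ≤ ε / 2 := by
    rw [div_lt_iff₀ hε] at hkε
    rw [hu, mul_one_div, div_le_iff₀ (by positivity)]
    nlinarith
  have htend : Tendsto (fun N : ℕ => ⌊(N : ℝ) ^ u⌋₊) atTop atTop :=
    tendsto_nat_floor_atTop.comp ((tendsto_rpow_atTop hu0).comp tendsto_natCast_atTop_atTop)
  have hbig : ∀ x : ℝ, ∀ᶠ N : ℕ in atTop, x ≤ (N : ℝ) ^ (ε / 2) := fun x =>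
    ((tendsto_rpow_atTop (half_pos hε)).comp tendsto_natCast_atTop_atTop).eventually_ge_atTop x
  filter_upwards [htend.eventually (h k hk6), htend.eventually_ge_atTop 1,
    hbig (4 ^ k), eventually_ge_atTop 1] with N h1 h2 h3 h4
  set P := ⌊(N : ℝ) ^ u⌋₊ with hP
  have hN : (1 : ℝ) ≤ N := by exact_mod_cast h4
  have hN0 : (0 : ℝ) < N := by linarith
  have hP1 : (1 : ℝ) ≤ P := by exact_mod_cast h2
  have hPN : (P : ℝ) ≤ (N : ℝ) ^ u := Nat.floor_le (by positivity)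
  have hPN' : (N : ℝ) ^ u ≤ 2 * P := by
    have := Nat.lt_floor_add_one ((N : ℝ) ^ u)
    rw [← hP] at this
    linarith
  have hroot : ((N : ℝ) ^ u) ^ (2 * k) = N := by
    rw [← Real.rpow_natCast, ← Real.rpow_mul hN0.le, hu]
    have : 1 / (2 * (k : ℝ)) * ((2 * k : ℕ) : ℝ) = 1 := by push_cast; field_simp
    rw [this, Real.rpow_one]
  have e1 : P ^ (2 * k) ≤ N := by
    have : (P : ℝ) ^ (2 * k) ≤ N := by
      rw [← hroot]; gcongr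
    exact_mod_cast this
  have e2 : (N : ℝ) ≤ 4 ^ k * (P : ℝ) ^ (2 * k) := by
    calc (N : ℝ) = ((N : ℝ) ^ u) ^ (2 * k) := hroot.symm
      _ ≤ (2 * P) ^ (2 * k) := by gcongr
      _ = _ := by rw [mul_pow, pow_mul 2 2 k]; norm_num
  have e3 : (P : ℝ) ^ 10 ≤ (N : ℝ) ^ (ε / 2) := by
    calc (P : ℝ) ^ 10 ≤ ((N : ℝ) ^ u) ^ 10 := by gcongr
      _ = (N : ℝ) ^ (10 * u) := by
          rw [← Real.rpow_natCast, ← Real.rpow_mul hN0.le]; congr 1; push_cast; ring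
      _ ≤ _ := Real.rpow_le_rpow_of_exponent_le hN huε
  have e4 : (S (P ^ (2 * k)) : ℝ) ≤ S N := by exact_mod_cast hS e1
  have hSN : (0 : ℝ) ≤ S N := Nat.cast_nonneg _
  have e5 : (N : ℝ) ≤ (N : ℝ) ^ (ε / 2) * ((N : ℝ) ^ (ε / 2) * S N) := by
    calc (N : ℝ) ≤ 4 ^ k * (P : ℝ) ^ (2 * k) := e2
      _ ≤ (N : ℝ) ^ (ε / 2) * ((P : ℝ) ^ 10 * S (P ^ (2 * k))) := by gcongr
      _ ≤ _ := by gcongr
  have e6 : (N : ℝ) ^ (ε / 2) * ((N : ℝ) ^ (ε / 2) * S N) = (N : ℝ) ^ ε * S N := by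
    rw [← mul_assoc, ← Real.rpow_add hN0]; congr 2; ring
  rw [e6] at e5
  rw [Real.rpow_sub hN0, Real.rpow_one, div_le_iff₀ (by positivity)]
  linarith

theorem both_signs {b c : ℤ} (hns : ¬ IsSquare (b ^ 2 - 4 * c))
    (hRot : ∀ K : ℕ, ∃ A c0 K0 : ℝ, 0 < A ∧ 0 < c0 ∧ c0 ≤ 1 ∧ 2 ≤ K0 ∧
      ∀ᶠ P : ℕ in atTop, Rot b c K A c0 K0 P) (ε : ℝ) (hε : 0 < ε) :
    ∀ᶠ N : ℕ in atTop, (N : ℝ) ^ (1 - ε) ≤ (posS b c N).card ∧
      (N : ℝ) ^ (1 - ε) ≤ (negS b c N).card := by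
  have h1 := conv (fun N => (posS b c N).card) (by
    intro M N hMN
    apply Finset.card_le_card
    apply Finset.filter_subset_filter
    apply Finset.Icc_subset_Icc_right
    exact_mod_cast hMN) (fun k hk => plus_final b c k (by omega)) ε hε
  have h2 := conv (fun N => (negS b c N).card) (by
    intro M N hMN
    apply Finset.card_le_card
    apply Finset.filter_subset_filter
    apply Finset.Icc_subset_Icc_right
    exact_mod_cast hMN) (fun k hk => minus_final hns hRot k hk) ε hε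
  exact h1.and h2

end

end Pool.Agent.Lib.MP_648c71_nt
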