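import Pool.Agent.Lib.MP_648c71_nt.PellCubicMain

namespace MP648c71.PellCubic

/-- From the scale statement to a lower bound `δ log X` for the number of `n ∈ (X, X^3]`. -/
theorem count_of_scale {P : ℤ → ℤ → Prop}
    (h : ∃ C : ℤ, 1 ≤ C ∧ ∀ Y : ℤ, 1 ≤ Y → ∀ s : ℤ, (s = 1 ∨ s = -1) →
      ∃ n : ℤ, InRange C Y n ∧ P s n) :
    ∃ δ : ℝ, 0 < δ ∧ ∃ X₀ : ℕ, ∀ X : ℕ, X₀ ≤ X → ∀ s : ℤ, (s = 1 ∨ s = -1) →
      δ * Real.log X ≤ Set.ncard {n : ℤ | (X:ℤ) < n ∧ n ≤ (X:ℤ) ^ 3 ∧ P s n} := by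
  obtain ⟨C, hC1, hC⟩ := h
  obtain ⟨b, hb⟩ : ∃ b : ℕ, (b:ℤ) = C + 1 := ⟨(C + 1).toNat, Int.toNat_of_nonneg (by omega)⟩
  have hb2 : 2 ≤ b := by omega
  have hlogb : 0 < Real.log b := Real.log_pos (by exact_mod_cast hb2)
  refine ⟨1 / (4 * Real.log b), by positivity, b ^ 4, ?_⟩
  intro X hX s hs
  set L := Nat.log b X with hL
  have hX0 : X ≠ 0 := by
    have : 0 < b ^ 4 := by positivity
    omega
  have hL4 : 4 ≤ L := by
    rw [hL]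
    exact (Nat.le_log_iff_pow_le (by omega) hX0).mpr hX
  set m := L / 4 with hm
  have hm1 : 1 ≤ m := by omega
  have h4m : 4 * m ≤ L := by omega
  have hpow : b ^ (4 * m) ≤ X := (Nat.pow_le_pow_right (by omega) h4m).trans (Nat.pow_log_le_self b hX0)
  have hXpos : (1:ℤ) ≤ X := by omega
  have hb1 : (1:ℤ) ≤ b := by omega
  have hpowZ : (b:ℤ) ^ (4 * m) ≤ X := by exact_mod_cast hpow
  -- choose n_i
  have hch : ∀ i : ℕ, ∃ n : ℤ, InRange C ((b:ℤ) ^ i * X) n ∧ P s n := by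
    intro i
    apply hC _ _ s hs
    have : (1:ℤ) ≤ (b:ℤ) ^ i := one_le_pow₀ hb1
    nlinarith
  choose f hf1 hf2 using hch
  have hY1 : ∀ i : ℕ, (1:ℤ) ≤ (b:ℤ) ^ i := fun i => one_le_pow₀ hb1
  -- type bounds
  have hr : ∀ i : ℕ, ((b:ℤ) ^ i * X < f i ∧ f i < (b:ℤ) ^ (i + 1) * X) ∨
      (((b:ℤ) ^ i * X) ^ 2 < f i ∧ f i < ((b:ℤ) ^ (i + 1) * X) ^ 2) := by
    intro i
    have hi := hY1 i
    have hp : 0 < (b:ℤ) ^ i * X := by positivity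
    rcases hf1 i with ⟨h1, h2⟩ | ⟨h1, h2⟩
    · left
      refine ⟨h1, lt_of_le_of_lt h2 ?_⟩
      rw [pow_succ]
      have : C * ((b:ℤ) ^ i * X) < b * ((b:ℤ) ^ i * X) :=
        mul_lt_mul_of_pos_right (by omega) hp
      nlinarith
    · right
      refine ⟨h1, lt_of_le_of_lt h2 ?_⟩
      rw [pow_succ]
      have e1 : C * ((b:ℤ) ^ i * X) ^ 2 < b * ((b:ℤ) ^ i * X) ^ 2 :=
        mul_lt_mul_of_pos_right (by omega) (by positivity)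
      have e2 : (b:ℤ) * ((b:ℤ) ^ i * X) ^ 2 ≤ b ^ 2 * ((b:ℤ) ^ i * X) ^ 2 :=
        mul_le_mul_of_nonneg_right (by nlinarith) (by positivity)
      calc C * ((b:ℤ) ^ i * X) ^ 2 < b * ((b:ℤ) ^ i * X) ^ 2 := e1
        _ ≤ b ^ 2 * ((b:ℤ) ^ i * X) ^ 2 := e2
        _ = ((b:ℤ) ^ i * b * X) ^ 2 := by ring
  have hmono : ∀ i j : ℕ, i ≤ j → (b:ℤ) ^ i * X ≤ (b:ℤ) ^ j * X := by
    intro i j hij
    exact mul_le_mul_of_nonneg_right (pow_le_pow_right₀ hb1 hij) (by omega)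
  have hmono2 : ∀ i j : ℕ, i ≤ j → ((b:ℤ) ^ i * X) ^ 2 ≤ ((b:ℤ) ^ j * X) ^ 2 := by
    intro i j hij
    have := hmono i j hij
    have h1 := hY1 i
    exact pow_le_pow_left₀ (by positivity) this 2
  have htop : (b:ℤ) ^ (m + 1) * X ≤ (X:ℤ) ^ 2 := by
    have h1 : (b:ℤ) ^ (m + 1) ≤ (b:ℤ) ^ (4 * m) := pow_le_pow_right₀ hb1 (by omega)
    have h2 : (b:ℤ) ^ (m + 1) ≤ X := h1.trans hpowZ
    nlinarith
  have htop2 : ((b:ℤ) ^ (m + 1) * X) ^ 2 ≤ (X:ℤ) ^ 3 := by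
    have h1 : ((b:ℤ) ^ (m + 1)) ^ 2 ≤ (b:ℤ) ^ (4 * m) := by
      rw [← pow_mul]
      exact pow_le_pow_right₀ hb1 (by omega)
    have h2 : ((b:ℤ) ^ (m + 1)) ^ 2 ≤ X := h1.trans hpowZ
    have h3 : (0:ℤ) ≤ (X:ℤ) ^ 2 := by positivity
    calc ((b:ℤ) ^ (m + 1) * X) ^ 2 = ((b:ℤ) ^ (m + 1)) ^ 2 * (X:ℤ) ^ 2 := by ring
      _ ≤ (X:ℤ) * (X:ℤ) ^ 2 := mul_le_mul_of_nonneg_right h2 h3
      _ = (X:ℤ) ^ 3 := by ring
  have hX2 : ∀ i : ℕ, (X:ℤ) ^ 2 ≤ ((b:ℤ) ^ i * X) ^ 2 := by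
    intro i
    have := hmono2 0 i (Nat.zero_le i)
    simpa using this
  have hX1 : ∀ i : ℕ, (X:ℤ) ≤ (b:ℤ) ^ i * X := by
    intro i
    have := hmono 0 i (Nat.zero_le i)
    simpa using this
  have hXX : (X:ℤ) ≤ (X:ℤ) ^ 2 := by nlinarith
  have hXXX : (X:ℤ) ^ 2 ≤ (X:ℤ) ^ 3 := by
    calc (X:ℤ) ^ 2 = 1 * (X:ℤ) ^ 2 := by ring
      _ ≤ (X:ℤ) * (X:ℤ) ^ 2 := mul_le_mul_of_nonneg_right hXpos (by positivity)
      _ = (X:ℤ) ^ 3 := by ring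
  -- lt for i<j
  have hne : ∀ i j : ℕ, i < j → j ≤ m → f i ≠ f j := by
    intro i j hij hjm heq
    have a1 := hmono (i + 1) j hij
    have a2 := hmono2 (i + 1) j hij
    have a3 := hmono (i + 1) (m + 1) (by omega)
    have a4 := hmono (j + 1) (m + 1) (by omega)
    have a5 := hX2 j
    have a6 := hX2 i
    rcases hr i with ⟨b1, b2⟩ | ⟨b1, b2⟩ <;> rcases hr j with ⟨b3, b4⟩ | ⟨b3, b4⟩ <;> omega
  have hsub : ∀ i, i ≤ m → f i ∈ {n : ℤ | (X:ℤ) < n ∧ n ≤ (X:ℤ) ^ 3 ∧ P s n} := by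
    intro i him
    have a1 := hmono (i + 1) (m + 1) (by omega)
    have a2 := hmono2 (i + 1) (m + 1) (by omega)
    have a3 := hX1 i
    have a4 := hX2 i
    refine ⟨?_, ?_, hf2 i⟩
    · rcases hr i with ⟨b1, b2⟩ | ⟨b1, b2⟩ <;> omega
    · rcases hr i with ⟨b1, b2⟩ | ⟨b1, b2⟩ <;> omega
  have hfin : Set.Finite {n : ℤ | (X:ℤ) < n ∧ n ≤ (X:ℤ) ^ 3 ∧ P s n} := by
    apply (Set.finite_Ioc (X:ℤ) ((X:ℤ) ^ 3)).subset
    rintro n ⟨h1, h2, -⟩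
    exact ⟨h1, h2⟩
  have hinj : Set.InjOn f (Finset.range (m + 1) : Set ℕ) := by
    intro i hi j hj hij
    have hi' : i < m + 1 := by simpa using hi
    have hj' : j < m + 1 := by simpa using hj
    rcases lt_trichotomy i j with h | h | h
    · exact absurd hij (hne i j h (by omega))
    · exact h
    · exact absurd hij.symm (hne j i h (by omega))
  have hcard : m + 1 ≤ Set.ncard {n : ℤ | (X:ℤ) < n ∧ n ≤ (X:ℤ) ^ 3 ∧ P s n} := by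
    have e1 : ((Finset.range (m + 1)).image f).card = m + 1 := by
      rw [Finset.card_image_of_injOn hinj, Finset.card_range]
    rw [← e1, ← Set.ncard_coe_finset]
    apply Set.ncard_le_ncard _ hfin
    intro x hx
    simp only [Finset.coe_image, Set.mem_image, Finset.mem_coe, Finset.mem_range] at hx
    obtain ⟨i, hi, rfl⟩ := hx
    exact hsub i (by omega)
  have hlogX : Real.log X ≤ (L + 1) * Real.log b := by
    have h1 : X < b ^ (L + 1) := Nat.lt_pow_succ_log_self (by omega) X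
    have h2 : (X:ℝ) ≤ (b:ℝ) ^ (L + 1) := by exact_mod_cast h1.le
    have h3 : Real.log X ≤ Real.log ((b:ℝ) ^ (L + 1)) :=
      Real.log_le_log (by exact_mod_cast (by omega : 0 < X)) h2
    rw [Real.log_pow] at h3
    exact_mod_cast h3
  have hLm : ((L:ℝ) + 1) ≤ 4 * (m + 1) := by
    have : L + 1 ≤ 4 * (m + 1) := by omega
    exact_mod_cast this
  calc 1 / (4 * Real.log b) * Real.log X ≤ 1 / (4 * Real.log b) * ((L + 1) * Real.log b) := by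
        apply mul_le_mul_of_nonneg_left hlogX (by positivity)
    _ = (L + 1) / 4 := by field_simp
    _ ≤ (m + 1 : ℕ) := by push_cast; linarith
    _ ≤ _ := by exact_mod_cast hcard

end MP648c71.PellCubic
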