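import Pool.Agent.Lib.MP_648c71_nt.CubicNeg

/-!
# Sign changes of Liouville's function at the simplest cubic polynomials

`f_a(T) = T^3 - a T^2 - (a+3) T - 1` (Shanks). For every integer `a` and every
`N ≥ 100 (|a| + 2)^3`, each of the intervals `(N, N^5]` and `[-N^5, -N)` contains integers `n` with
`λ(f_a(n)) = 1` and integers `n` with `λ(f_a(n)) = -1`.

The proof uses the two identities `f(A(x)) = - f(x) f(a+1-x)` and `f(B(x)) = f(x) f(a-x)` for the
quadratic polynomials `A(x) = x^2-(a+1)x-2` and `B(x) = -x^2+ax+a+2` which permute the roots of `f`: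
they show that both signs occur in all these intervals as soon as `λ(f_a(m)) = -1` for one integer
`m`. That such an `m` exists for every `a` is shown in `CubicNeg`, with an infinite family of further
identities, governed by the prime factors of `2a+3`.
-/

namespace MP648c71.Simplest

/-- Shanks' simplest cubic `T^3 - a T^2 - (a+3) T - 1` -/
def F (a x : ℤ) : ℤ := x ^ 3 - a * x ^ 2 - (a + 3) * x - 1

/-- Liouville's function of `F a x` -/
def u (a x : ℤ) : ℤ := (-1) ^ (ArithmeticFunction.cardFactors (F a x).natAbs)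

theorem F_ne_zero (a x : ℤ) : F a x ≠ 0 := by
  intro h
  have h1 : x ∣ 1 := ⟨x ^ 2 - a * x - (a + 3), by unfold F at h; linarith⟩
  rcases Int.isUnit_iff.mp (isUnit_of_dvd_one h1) with h2 | h2
  · subst h2; unfold F at h; omega
  · subst h2; unfold F at h; omega

theorem u_mul_self (a x : ℤ) : u a x * u a x = 1 := by
  unfold u
  rw [← mul_pow]; norm_num

theorem u_cases (a x : ℤ) : u a x = 1 ∨ u a x = -1 := by
  unfold u
  exact neg_one_pow_eq_or ℤ _

theorem F_A (a x : ℤ) : F a (x ^ 2 - (a + 1) * x - 2) = -(F a x * F a (a + 1 - x)) := by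
  unfold F; ring

theorem F_B (a x : ℤ) : F a (-x ^ 2 + a * x + a + 2) = F a x * F a (a - x) := by
  unfold F; ring

theorem u_of_mul {a x y z : ℤ} (h : F a x = F a y * F a z ∨ F a x = -(F a y * F a z)) :
    u a x = u a y * u a z := by
  have h' : (F a x).natAbs = (F a y).natAbs * (F a z).natAbs := by
    rcases h with h | h
    · rw [h, Int.natAbs_mul]
    · rw [h, Int.natAbs_neg, Int.natAbs_mul]
  unfold u
  rw [h', ArithmeticFunction.cardFactors_mul (Int.natAbs_ne_zero.mpr (F_ne_zero a y))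
    (Int.natAbs_ne_zero.mpr (F_ne_zero a z)), pow_add]

theorem u_A (a x : ℤ) : u a (x ^ 2 - (a + 1) * x - 2) = u a x * u a (a + 1 - x) :=
  u_of_mul (Or.inr (F_A a x))

theorem u_B (a x : ℤ) : u a (-x ^ 2 + a * x + a + 2) = u a x * u a (a - x) :=
  u_of_mul (Or.inl (F_B a x))

/-- reflection symmetry `a ↔ -3-a` -/
theorem F_refl (a x : ℤ) : F a (-1 - x) = - F (-3 - a) x := by
  unfold F; ring

theorem u_refl (a x : ℤ) : u a (-1 - x) = u (-3 - a) x := by
  unfold u
  rw [F_refl, Int.natAbs_neg]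

theorem u_zero (a : ℤ) : u a 0 = 1 := by
  unfold u F; simp

theorem u_neg_one (a : ℤ) : u a (-1) = 1 := by
  have : F a (-1) = 1 := by unfold F; ring
  unfold u; rw [this]; simp

theorem u_one (a : ℤ) : u a 1 = u a (-2) := by
  have : F a 1 = F a (-2) := by unfold F; ring
  unfold u; rw [this]

/-- descending induction: two-sided windows on which `u = 1` can be enlarged towards the origin -/
theorem descend {a : ℤ} (ha : -1 ≤ a) {L0 K T : ℤ} (h0 : a + 2 ≤ L0) (h3 : 3 ≤ L0) (hLK : L0 ≤ K)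
    (hT1 : K ^ 2 + K + 2 ≤ T)
    (hp : ∀ x, K ≤ x → x ≤ T → u a x = 1)
    (hn : ∀ x, x ≤ a - K → -T ≤ x → u a x = 1) :
    (∀ x, L0 ≤ x → x ≤ T → u a x = 1) ∧ (∀ x, x ≤ a - L0 → -T ≤ x → u a x = 1) := by
  have key : ∀ k : ℕ, ∀ L : ℤ, L + k = K → L0 ≤ L →
      (∀ x, L ≤ x → x ≤ T → u a x = 1) ∧ (∀ x, x ≤ a - L → -T ≤ x → u a x = 1) := by
    intro k
    induction k with
    | zero =>
      intro L hL _
      have : L = K := by simpa using hL
      subst this
      exact ⟨hp, hn⟩
    | succ k ih =>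
      intro L hL hL2
      obtain ⟨h1, h2⟩ := ih (L + 1) (by push_cast at hL; linarith) (by linarith)
      have hLK : L + 1 ≤ K := by push_cast at hL; linarith [Int.natCast_nonneg k]
      -- value at a - L
      have e1 : u a (a - L) = 1 := by
        have h := u_A a (L + 1)
        have hA : u a ((L + 1) ^ 2 - (a + 1) * (L + 1) - 2) = 1 := by
          apply h1
          · nlinarith
          · nlinarith
        rw [hA, h1 (L + 1) le_rfl (by nlinarith)] at h
        rw [show a + 1 - (L + 1) = a - L by ring] at h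
        linarith
      have e2 : u a L = 1 := by
        have h := u_B a L
        have hB : u a (-L ^ 2 + a * L + a + 2) = 1 := by
          apply h2
          · nlinarith
          · nlinarith
        rw [hB, e1] at h
        linarith
      refine ⟨fun x hx1 hx2 => ?_, fun x hx1 hx2 => ?_⟩
      · rcases eq_or_lt_of_le hx1 with h | h
        · rw [← h]; exact e2
        · exact h1 x (by linarith) hx2
      · rcases eq_or_lt_of_le hx1 with h | h
        · rw [h]; exact e1
        · exact h2 x (by linarith) hx2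
  exact key (K - L0).toNat L0 (by rw [Int.toNat_of_nonneg (by linarith)]; ring) le_rfl

/-- if `u = 1` on a long two-sided window, then the windows can be filled in -/
theorem fill {a : ℤ} (ha : 1 ≤ a) {K T : ℤ}
    (hK : a + 2 ≤ K) (hT1 : K ^ 2 + K + 2 ≤ T)
    (hp : ∀ x, K ≤ x → x ≤ T → u a x = 1)
    (hn : ∀ x, x ≤ a - K → -T ≤ x → u a x = 1) :
    ∀ x, -T ≤ x → x ≤ T → u a x = 1 := by
  obtain ⟨q1, q2⟩ := descend (by linarith) (le_refl (a + 2)) (by linarith) hK hT1 hp hn
  have hTa : a + 2 ≤ T := by nlinarith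
  have hTa2 : (a+2) ^ 2 + (a + 2) + 2 ≤ T := by nlinarith
  have hm2 : u a (-2) = 1 := q2 _ (by linarith) (by linarith)
  have h1v : u a 1 = 1 := by rw [u_one, hm2]
  have hs : u a (a + 1) = 1 := by
    have h := u_A a 0
    rw [u_zero] at h
    simp only [sub_zero, one_mul] at h
    rw [← h, show (0:ℤ) ^ 2 - (a + 1) * 0 - 2 = -2 by ring]
    exact hm2
  have hstep : ∀ x, 1 ≤ x → x ≤ a - 1 → u a (x + 1) = u a x := by
    intro x hx1 hx2
    have hB := u_B a x
    have hB1 : u a (-x ^ 2 + a * x + a + 2) = 1 := by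
      apply q1
      · nlinarith
      · nlinarith
    rw [hB1] at hB
    have hA := u_A a (a - x)
    have hA1 : u a ((a - x) ^ 2 - (a + 1) * (a - x) - 2) = 1 := by
      apply q2
      · nlinarith
      · nlinarith
    rw [hA1, show a + 1 - (a - x) = x + 1 by ring] at hA
    have hsq := u_mul_self a (a - x)
    calc u a (x + 1) = (u a (a - x) * u a (a - x)) * u a (x + 1) := by rw [hsq]; ring
      _ = u a (a - x) * (u a (a - x) * u a (x + 1)) := by ring
      _ = u a (a - x) * 1 := by rw [← hA]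
      _ = (u a x * u a (a - x)) * u a (a - x) := by rw [← hB]; ring
      _ = u a x * (u a (a - x) * u a (a - x)) := by ring
      _ = u a x := by rw [hsq]; ring
  have hmid : ∀ k : ℕ, (k : ℤ) + 1 ≤ a → u a ((k : ℤ) + 1) = 1 := by
    intro k
    induction k with
    | zero => intro _; simpa using h1v
    | succ k ih =>
      intro hk
      push_cast at hk ⊢
      rw [hstep (k + 1) (by linarith [Int.natCast_nonneg k]) (by linarith)]
      exact ih (by linarith)
  intro x hx1 hx2
  by_cases c1 : a + 2 ≤ x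
  · exact q1 x c1 hx2
  by_cases c2 : x ≤ -2
  · exact q2 x (by linarith) hx1
  push Not at c1 c2
  by_cases c3 : x = a + 1
  · rw [c3]; exact hs
  by_cases c4 : x = 0
  · rw [c4]; exact u_zero a
  by_cases c5 : x = -1
  · rw [c5]; exact u_neg_one a
  have hx3 : 1 ≤ x := by omega
  have hx4 : x ≤ a := by omega
  have := hmid (x - 1).toNat (by rw [Int.toNat_of_nonneg (by linarith)]; linarith)
  rw [Int.toNat_of_nonneg (by linarith)] at this
  simpa using this

theorem u_zero_three : u 0 3 = -1 := by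
  have h : (F 0 3).natAbs = 17 := by decide
  unfold u
  rw [h, ArithmeticFunction.cardFactors_apply_prime (by norm_num)]; norm_num

theorem u_neg_one_three : u (-1) 3 = -1 := by
  have h : (F (-1) 3).natAbs = 29 := by decide
  unfold u
  rw [h, ArithmeticFunction.cardFactors_apply_prime (by norm_num)]; norm_num

/-- a two-sided window on which `u = 1` is impossible -/
theorem core {a m N : ℤ} (ha : -1 ≤ a) (hm : u a m = -1) (hN : 10 * (|a| + |m| + 10) ≤ N)
    (hp : ∀ x, N + a + 3 ≤ x → x ≤ 2 * N ^ 2 → u a x = 1)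
    (hn : ∀ x, x ≤ - N - 3 → -(2 * N ^ 2) ≤ x → u a x = 1) : False := by
  have ha' : a ≤ |a| := le_abs_self a
  have hm1 : m ≤ |m| := le_abs_self m
  have hm2 : -m ≤ |m| := neg_le_abs m
  have ha0 := abs_nonneg a
  have hm0 := abs_nonneg m
  have hT : (N + a + 3) ^ 2 + (N + a + 3) + 2 ≤ 2 * N ^ 2 := by nlinarith
  have hn' : ∀ x, x ≤ a - (N + a + 3) → -(2 * N ^ 2) ≤ x → u a x = 1 := by
    intro x hx1 hx2
    exact hn x (by linarith) hx2
  rcases (by omega : a = -1 ∨ a = 0 ∨ 1 ≤ a) with h | h | h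
  · have := (descend ha (L0 := 3) (by omega) le_rfl (by linarith) hT hp hn').1 3 le_rfl (by nlinarith)
    rw [h, u_neg_one_three] at this
    norm_num at this
  · have := (descend ha (L0 := 3) (by omega) le_rfl (by linarith) hT hp hn').1 3 le_rfl (by nlinarith)
    rw [h, u_zero_three] at this
    norm_num at this
  · have := fill h (by linarith) hT hp hn' m (by nlinarith) (by nlinarith)
    rw [hm] at this
    norm_num at this

theorem pos_side {a m N ε : ℤ} (ha : -1 ≤ a) (hm : u a m = -1) (hN : 10 * (|a| + |m| + 10) ≤ N)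
    (hε : ε * ε = 1)
    (h : ∀ x, N + 2 ≤ x → x ≤ N ^ 5 - 1 → u a x = ε) : False := by
  have ha' : a ≤ |a| := le_abs_self a
  have ha0 := abs_nonneg a
  have hm0 := abs_nonneg m
  have hN100 : 100 ≤ N := by linarith
  have haN : 10 * a ≤ N := by linarith
  have h2 : N ^ 2 ≥ 100 * N := by nlinarith
  have h4 : N ^ 5 ≥ 10 * a * N ^ 4 := by
    have : 0 ≤ N ^ 4 := by positivity
    nlinarith
  have h5 : N ^ 5 ≥ 100 * N ^ 4 := by
    have : 0 ≤ N ^ 4 := by positivity
    nlinarith
  have h42 : N ^ 4 ≥ 10000 * N ^ 2 := by nlinarith [sq_nonneg N]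
  -- step 1
  have s1 : ∀ y, y ≤ -N - 2 → -(2 * N ^ 2) ≤ y → u a y = 1 := by
    intro y hy1 hy2
    have e1 : u a (a + 1 - y) = ε := h _ (by linarith) (by nlinarith)
    have e2 : u a (y ^ 2 - (a + 1) * y - 2) = ε := by
      apply h
      · nlinarith
      · have t1 : y ^ 2 ≤ 4 * N ^ 4 := by nlinarith
        have t2 : (a + 1) * (-y) ≤ (a + 1) * (2 * N ^ 2) := by
          apply mul_le_mul_of_nonneg_left <;> linarith
        nlinarith
    have e3 := u_A a y
    rw [e1, e2] at e3
    calc u a y = u a y * (ε * ε) := by rw [hε]; ring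
      _ = (u a y * ε) * ε := by ring
      _ = 1 := by rw [← e3, hε]
  -- step 2
  have s2 : ε = 1 := by
    have e1 : u a (a - (N + a + 3)) = 1 := s1 _ (by linarith) (by nlinarith)
    have e2 : u a (-(N + a + 3) ^ 2 + a * (N + a + 3) + a + 2) = 1 := by
      apply s1 <;> nlinarith
    have e3 : u a (N + a + 3) = ε := h _ (by linarith) (by nlinarith)
    have e4 := u_B a (N + a + 3)
    rw [e1, e2, e3] at e4
    linarith
  refine core ha hm hN (fun x hx1 hx2 => ?_) (fun x hx1 hx2 => s1 x (by linarith) hx2)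
  rw [h x (by linarith) (by nlinarith), s2]

theorem neg_side {a m N δ : ℤ} (ha : -1 ≤ a) (hm : u a m = -1) (hN : 10 * (|a| + |m| + 10) ≤ N)
    (hδ : δ * δ = 1)
    (h : ∀ x, x ≤ -N - 2 → -N ^ 5 ≤ x → u a x = δ) : False := by
  have ha' : a ≤ |a| := le_abs_self a
  have ha0 := abs_nonneg a
  have hm0 := abs_nonneg m
  have hN100 : 100 ≤ N := by linarith
  have haN : 10 * a ≤ N := by linarith
  have h2 : N ^ 2 ≥ 100 * N := by nlinarith
  have h4 : N ^ 5 ≥ 10 * a * N ^ 4 := by
    have : 0 ≤ N ^ 4 := by positivity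
    nlinarith
  have h5 : N ^ 5 ≥ 100 * N ^ 4 := by
    have : 0 ≤ N ^ 4 := by positivity
    nlinarith
  have h42 : N ^ 4 ≥ 10000 * N ^ 2 := by nlinarith [sq_nonneg N]
  -- step 1
  have s1 : ∀ x, N + a + 3 ≤ x → x ≤ 2 * N ^ 2 → u a x = 1 := by
    intro x hx1 hx2
    have e1 : u a (a - x) = δ := h _ (by linarith) (by nlinarith)
    have e2 : u a (-x ^ 2 + a * x + a + 2) = δ := by
      apply h
      · nlinarith
      · nlinarith
    have e3 := u_B a x
    rw [e1, e2] at e3
    calc u a x = u a x * (δ * δ) := by rw [hδ]; ring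
      _ = (u a x * δ) * δ := by ring
      _ = 1 := by rw [← e3, hδ]
  -- step 2
  have s2 : δ = 1 := by
    have e1 : u a (a + 1 - (N + a + 3)) = δ := h _ (by linarith) (by nlinarith)
    have e2 : u a ((N + a + 3) ^ 2 - (a + 1) * (N + a + 3) - 2) = 1 := by
      apply s1 <;> nlinarith
    have e3 : u a (N + a + 3) = 1 := s1 _ (by linarith) (by nlinarith)
    have e4 := u_A a (N + a + 3)
    rw [e1, e2, e3] at e4
    linarith
  refine core ha hm hN s1 (fun x hx1 hx2 => ?_)
  rw [h x (by linarith) (by nlinarith), s2]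

theorem both_pos {a m N ε : ℤ} (hm : u a m = -1) (hN : 10 * (|a| + |m| + 20) ≤ N)
    (hε : ε = 1 ∨ ε = -1) : ∃ n, N < n ∧ n ≤ N ^ 5 ∧ u a n = ε := by
  by_contra hcon
  push Not at hcon
  have hε2 : (-ε) * (-ε) = 1 := by rcases hε with h | h <;> rw [h] <;> norm_num
  have hall : ∀ n, N < n → n ≤ N ^ 5 → u a n = -ε := by
    intro n h1 h2
    have h3 := hcon n h1 h2
    rcases u_cases a n with h4 | h4 <;> rcases hε with h5 | h5 <;> rw [h4] at h3 ⊢ <;>
      rw [h5] at h3 ⊢ <;> first | rfl | exact absurd rfl h3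
  rcases le_or_gt (-1) a with ha | ha
  · exact pos_side (N := N) ha hm (by linarith) hε2
      (fun x h1 h2 => hall x (by linarith) (by linarith))
  · have hm' : u (-3 - a) (-1 - m) = -1 := by
      rw [← u_refl, show -1 - (-1 - m) = m by ring]; exact hm
    have h1 : |-3 - a| ≤ |a| + 3 := by
      rw [show -3 - a = -(a + 3) by ring, abs_neg]; exact (abs_add_le a 3).trans (by norm_num)
    have h2 : |-1 - m| ≤ |m| + 1 := by
      rw [show -1 - m = -(m + 1) by ring, abs_neg]; exact (abs_add_le m 1).trans (by norm_num)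
    refine neg_side (a := -3 - a) (by linarith) hm' (N := N) (by linarith) hε2 (fun x h3 h4 => ?_)
    rw [← u_refl]
    exact hall _ (by linarith) (by linarith)

theorem both_neg {a m N ε : ℤ} (hm : u a m = -1) (hN : 10 * (|a| + |m| + 20) ≤ N)
    (hε : ε = 1 ∨ ε = -1) : ∃ n, -N ^ 5 ≤ n ∧ n < -N ∧ u a n = ε := by
  by_contra hcon
  push Not at hcon
  have hε2 : (-ε) * (-ε) = 1 := by rcases hε with h | h <;> rw [h] <;> norm_num
  have hall : ∀ n, -N ^ 5 ≤ n → n < -N → u a n = -ε := by
    intro n h1 h2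
    have h3 := hcon n h1 h2
    rcases u_cases a n with h4 | h4 <;> rcases hε with h5 | h5 <;> rw [h4] at h3 ⊢ <;>
      rw [h5] at h3 ⊢ <;> first | rfl | exact absurd rfl h3
  rcases le_or_gt (-1) a with ha | ha
  · exact neg_side (N := N) ha hm (by linarith) hε2
      (fun x h1 h2 => hall x (by linarith) (by linarith))
  · have hm' : u (-3 - a) (-1 - m) = -1 := by
      rw [← u_refl, show -1 - (-1 - m) = m by ring]; exact hm
    have h1 : |-3 - a| ≤ |a| + 3 := by
      rw [show -3 - a = -(a + 3) by ring, abs_neg]; exact (abs_add_le a 3).trans (by norm_num)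
    have h2 : |-1 - m| ≤ |m| + 1 := by
      rw [show -1 - m = -(m + 1) by ring, abs_neg]; exact (abs_add_le m 1).trans (by norm_num)
    refine pos_side (a := -3 - a) (by linarith) hm' (N := N) (by linarith) hε2 (fun x h3 h4 => ?_)
    rw [← u_refl]
    exact hall _ (by linarith) (by linarith)

/-- Let `f(T) = T^3 - a T^2 - (a+3) T - 1` with `a` an integer. Then for every
`N ≥ 100 (|a| + 2)^3` and each sign `ε`, the intervals `(N, N^5]` and `[-N^5, -N)` both contain an
integer `n` with `λ(f(n)) = ε`. -/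
theorem simplest (a : ℤ) (N : ℤ) (hN : 100 * (|a| + 2) ^ 3 ≤ N) (ε : ℤ) (hε : ε = 1 ∨ ε = -1) :
    (∃ n : ℤ, N < n ∧ n ≤ N ^ 5 ∧
      (-1 : ℤ) ^ (ArithmeticFunction.cardFactors
        (n ^ 3 - a * n ^ 2 - (a + 3) * n - 1).natAbs) = ε) ∧
    (∃ n : ℤ, -N ^ 5 ≤ n ∧ n < -N ∧
      (-1 : ℤ) ^ (ArithmeticFunction.cardFactors
        (n ^ 3 - a * n ^ 2 - (a + 3) * n - 1).natAbs) = ε) := by
  obtain ⟨m, hm1, hm2⟩ := Pool.Agent.Lib.MP_648c71_nt.CubicNeg.exists_neg a
  have hm : u a m = -1 := hm2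
  have hN' : 10 * (|a| + |m| + 20) ≤ N := by
    have ha0 := abs_nonneg a
    have h1 : |m| ≤ 6 * (|a| + 2) ^ 3 := hm1
    have h2 : 8 ≤ (|a| + 2) ^ 3 := by
      calc (8 : ℤ) = 2 ^ 3 := by norm_num
        _ ≤ _ := pow_le_pow_left₀ (by norm_num) (by linarith) 3
    have h3 : 4 * (|a| + 2) ≤ (|a| + 2) ^ 3 := by nlinarith [sq_nonneg (|a| + 2)]
    linarith
  exact ⟨both_pos hm hN' hε, both_neg hm hN' hε⟩

end MP648c71.Simplest
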