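import Pool.Agent.Lib.MP_648c71_nt.PellCubicThree

/-!
Reduction of a monic cubic whose discriminant is `(d (a^2 - 3 b))^2` to the normal form.
-/

namespace MP648c71.PellCubic

lemma exists_normal_form {a b c d : ℤ} (hW : a ^ 2 - 3 * b ≠ 0)
    (hdisc : a ^ 2 * b ^ 2 - 4 * b ^ 3 - 4 * a ^ 3 * c - 27 * c ^ 2 + 18 * a * b * c
      = (d * (a ^ 2 - 3 * b)) ^ 2) :
    ∃ A r : ℤ, ∀ n : ℤ, n ^ 3 + a * n ^ 2 + b * n + c = F A d (n - r) := by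
  obtain ⟨W, hWd⟩ : ∃ W, W = a ^ 2 - 3 * b := ⟨_, rfl⟩
  obtain ⟨U, hU⟩ : ∃ U, U = 9 * c - a * b := ⟨_, rfl⟩
  rw [← hWd] at hW
  -- the basic relation
  have h1 : (3 * U + 2 * a * W) ^ 2 = (4 * W - 27 * d ^ 2) * W ^ 2 := by
    have : (3 * U + 2 * a * W) ^ 2 = 4 * W ^ 3 - 27 * (d * (a ^ 2 - 3 * b)) ^ 2 := by
      rw [← hdisc, hU, hWd]; ring
    rw [this, ← hWd]; ring
  have h2 : W ∣ 3 * U + 2 * a * W := by
    have : W ^ 2 ∣ (3 * U + 2 * a * W) ^ 2 := ⟨4 * W - 27 * d ^ 2, by rw [h1]; ring⟩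
    exact (Int.pow_dvd_pow_iff (by norm_num)).mp this
  obtain ⟨k, hk⟩ := h2
  obtain ⟨p, hp⟩ : ∃ p, p = k - 2 * a := ⟨_, rfl⟩
  have h3 : 3 * U = W * p := by rw [hp]; linear_combination hk
  have h4 : p ^ 2 + 4 * a * p + 27 * d ^ 2 + 12 * b = 0 := by
    have h5 : W ^ 2 * (p ^ 2 + 4 * a * p + 27 * d ^ 2 + 12 * b) = 0 := by
      have h6 : (W * p + 2 * a * W) ^ 2 = (4 * W - 27 * d ^ 2) * W ^ 2 := by rw [← h3, h1]
      rw [hWd] at h6 ⊢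
      linear_combination h6
    rcases mul_eq_zero.mp h5 with h | h
    · exact absurd h (pow_ne_zero 2 hW)
    · exact h
  -- `3 ∣ p`
  have h3p : (3:ℤ) ∣ p := by
    by_contra hcon
    have hprime : Prime (3:ℤ) := Int.prime_three
    have e1 : (3:ℤ) ∣ p * (p + a) := by
      refine ⟨-(a * p) - 9 * d ^ 2 - 4 * b, ?_⟩
      linear_combination h4
    have e2 : (3:ℤ) ∣ p + a := (hprime.dvd_or_dvd e1).resolve_left hcon
    have e3 : (3:ℤ) ∣ W * p := ⟨U, h3.symm⟩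
    have e4 : (3:ℤ) ∣ W := (hprime.dvd_or_dvd e3).resolve_right hcon
    have e5 : (3:ℤ) ∣ a ^ 2 := by
      obtain ⟨w, hw⟩ := e4
      exact ⟨w + b, by linear_combination hw - hWd⟩
    have e6 : (3:ℤ) ∣ a := hprime.dvd_of_dvd_pow e5
    exact hcon ((dvd_add_left e6).mp e2)
  obtain ⟨u, hu⟩ := h3p
  have hUu : U = W * u := by
    have : 3 * U = 3 * (W * u) := by rw [h3, hu]; ring
    linarith
  have h7 : 3 * u ^ 2 + 4 * a * u + 9 * d ^ 2 + 4 * b = 0 := by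
    rw [hu] at h4
    have : 3 * (3 * u ^ 2 + 4 * a * u + 9 * d ^ 2 + 4 * b) = 0 := by linear_combination h4
    linarith
  -- parity
  obtain ⟨r, hr⟩ : ∃ r, u + d = 2 * r := by
    have e1 : (2:ℤ) ∣ (u + d) * (u + d) := by
      refine ⟨-(u ^ 2) - 2 * a * u - 2 * b - 4 * d ^ 2 + u * d, ?_⟩
      linear_combination h7
    have e2 : (2:ℤ) ∣ u + d := (Int.prime_two.dvd_or_dvd e1).elim id id
    exact e2
  have hu' : u = 2 * r - d := by linarith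
  have hb : b = -3 * r ^ 2 + 3 * r * d - 3 * d ^ 2 - 2 * a * r + a * d := by
    rw [hu'] at h7
    have : 4 * b = 4 * (-3 * r ^ 2 + 3 * r * d - 3 * d ^ 2 - 2 * a * r + a * d) := by
      linear_combination h7
    linarith
  have hc : 9 * c = a * b + (a ^ 2 - 3 * b) * (2 * r - d) := by
    rw [← hu', ← hWd, ← hUu, hU]; ring
  refine ⟨-a - 3 * r, r, ?_⟩
  intro n
  have h9 : 9 * (n ^ 3 + a * n ^ 2 + b * n + c) = 9 * F (-a - 3 * r) d (n - r) := by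
    unfold F
    rw [hb] at hc ⊢
    linear_combination hc
  linarith

theorem scale_general {a b c d : ℤ} (hd : 2 ≤ |d|) (hW : a ^ 2 - 3 * b ≠ 0)
    (hdisc : a ^ 2 * b ^ 2 - 4 * b ^ 3 - 4 * a ^ 3 * c - 27 * c ^ 2 + 18 * a * b * c
      = (d * (a ^ 2 - 3 * b)) ^ 2) :
    ∃ C : ℤ, 1 ≤ C ∧ ∀ Y : ℤ, 1 ≤ Y → ∀ s : ℤ, (s = 1 ∨ s = -1) →
      ∃ n : ℤ, InRange C Y n ∧ (n ^ 3 + a * n ^ 2 + b * n + c ≠ 0 ∧
        lam (n ^ 3 + a * n ^ 2 + b * n + c) = s) := by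
  have hdisc' : a ^ 2 * b ^ 2 - 4 * b ^ 3 - 4 * a ^ 3 * c - 27 * c ^ 2 + 18 * a * b * c
      = (|d| * (a ^ 2 - 3 * b)) ^ 2 := by
    rw [hdisc, mul_pow, mul_pow, sq_abs]
  obtain ⟨A, r, hn⟩ := exists_normal_form hW hdisc'
  obtain ⟨C, hC, h⟩ := scale_all (A := A) hd
  have hr0 : 0 ≤ |r| := abs_nonneg r
  have hr1 : r ≤ |r| := le_abs_self r
  have hr2 : -|r| ≤ r := neg_abs_le r
  refine ⟨C * (1 + |r|) ^ 2 + |r|, ?_, ?_⟩
  · have : 1 ≤ (1 + |r|) ^ 2 := one_le_pow₀ (by omega)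
    nlinarith
  intro Y hY s hs
  obtain ⟨m, hm1, hm2, hm3⟩ := h (Y + |r|) (by omega) s hs
  refine ⟨m + r, ?_, ?_, ?_⟩
  · have hYr : Y + |r| ≤ (1 + |r|) * Y := by nlinarith
    have hYr0 : 0 ≤ Y + |r| := by omega
    rcases hm1 with ⟨g1, g2⟩ | ⟨g1, g2⟩
    · left
      refine ⟨by omega, ?_⟩
      have e1 : C * (Y + |r|) ≤ C * ((1 + |r|) * Y) := mul_le_mul_of_nonneg_left hYr (by omega)
      have e2 : |r| ≤ |r| * Y := le_mul_of_one_le_right hr0 hY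
      have e3 : C * ((1 + |r|) * Y) ≤ C * ((1 + |r|) ^ 2 * Y) := by
        apply mul_le_mul_of_nonneg_left _ (by omega)
        apply mul_le_mul_of_nonneg_right _ (by omega)
        nlinarith
      have e4 : (C * (1 + |r|) ^ 2 + |r|) * Y = C * ((1 + |r|) ^ 2 * Y) + |r| * Y := by ring
      omega
    · right
      have e0 : (Y + |r|) ^ 2 ≤ ((1 + |r|) * Y) ^ 2 := pow_le_pow_left₀ hYr0 hYr 2
      have e1 : C * (Y + |r|) ^ 2 ≤ C * ((1 + |r|) * Y) ^ 2 := mul_le_mul_of_nonneg_left e0 (by omega)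
      have hYY : 1 ≤ Y ^ 2 := one_le_pow₀ hY
      have e2 : |r| ≤ |r| * Y ^ 2 := le_mul_of_one_le_right hr0 hYY
      have e4 : (C * (1 + |r|) ^ 2 + |r|) * Y ^ 2 = C * ((1 + |r|) * Y) ^ 2 + |r| * Y ^ 2 := by ring
      refine ⟨?_, by omega⟩
      have e5 : (Y + |r|) ^ 2 = Y ^ 2 + |r| * (2 * Y + |r|) := by ring
      have e6 : |r| * 1 ≤ |r| * (2 * Y + |r|) := mul_le_mul_of_nonneg_left (by omega) hr0
      omega
  · rw [hn]
    simpa using hm2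
  · rw [hn]
    simpa using hm3

end MP648c71.PellCubic
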