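import Mathlib

/-!
Tools for the sign of `λ(f(n))`, `f = T^3 - A T^2 - q (A + 3 q) T - q^3` (a cyclic cubic).
-/

namespace MP648c71.PellCubic

open ArithmeticFunction

/-- Liouville function on integers (only used for nonzero arguments). -/
def lam (m : ℤ) : ℤ := (-1) ^ (cardFactors m.natAbs)

lemma lam_mul {a b : ℤ} (ha : a ≠ 0) (hb : b ≠ 0) : lam (a * b) = lam a * lam b := by
  unfold lam
  rw [Int.natAbs_mul, cardFactors_mul (by simpa using ha) (by simpa using hb), pow_add]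

lemma lam_neg (a : ℤ) : lam (-a) = lam a := by
  unfold lam
  rw [Int.natAbs_neg]

lemma lam_mul_self (a : ℤ) : lam a * lam a = 1 := by
  unfold lam
  rw [← pow_add, ← two_mul, pow_mul]
  norm_num

lemma lam_eq (a : ℤ) : lam a = 1 ∨ lam a = -1 := by
  unfold lam
  exact neg_one_pow_eq_or ℤ _

/-- The cubic. -/
def F (A q n : ℤ) : ℤ := n ^ 3 - A * n ^ 2 - q * (A + 3 * q) * n - q ^ 3

lemma F_ne_zero {A q n : ℤ} (hq : 1 ≤ q) (h : q ^ 3 < |n|) : F A q n ≠ 0 := by
  intro h0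
  have hd : n ∣ q ^ 3 := by
    refine ⟨n ^ 2 - A * n - q * (A + 3 * q), ?_⟩
    unfold F at h0
    linear_combination -h0
  have hq3 : (0:ℤ) < q ^ 3 := by positivity
  have := Int.le_of_dvd hq3 ((abs_dvd n (q^3)).mpr hd)
  omega

/-- the quadratic identity -/
lemma quad_identity {A q y j : ℤ} (h : q * j = y * (y - A)) :
    q ^ 3 * F A q (j - y - 2 * q) = -(F A q (A + q - y) * F A q y) := by
  have hP : q * (j - y - 2 * q) = y ^ 2 - A * y - q * y - 2 * q ^ 2 := by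
    linear_combination h
  have e1 : q ^ 3 * F A q (j - y - 2 * q)
      = (q * (j - y - 2 * q)) ^ 3 - A * q * (q * (j - y - 2 * q)) ^ 2
        - q ^ 3 * (A + 3 * q) * (q * (j - y - 2 * q)) - q ^ 6 := by
    unfold F; ring
  rw [e1, hP]
  unfold F
  ring

/-- symmetric form of `F x * F y` -/
def Phi (A q s p : ℤ) : ℤ :=
  p ^ 3 + (-A) * p ^ 2 * s + (-(q * (A + 3 * q))) * p * (s ^ 2 - 2 * p)
    + (-(q ^ 3)) * (s ^ 3 - 3 * p * s) + A ^ 2 * p ^ 2
    + A * (q * (A + 3 * q)) * p * s + A * q ^ 3 * (s ^ 2 - 2 * p)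
    + (q * (A + 3 * q)) ^ 2 * p + (q * (A + 3 * q)) * q ^ 3 * s + q ^ 6

lemma F_mul_F (A q x y : ℤ) : F A q x * F A q y = Phi A q (x + y) (x * y) := by
  unfold F Phi; ring

/-- first Pell identity -/
lemma pell_identity {A q c e x y z w : ℤ} (hq : q = c * e)
    (h1 : x + y = A - c * q) (h2 : z + w = A + q + e)
    (h3 : (x - y) ^ 2 - c * (z - w) ^ 2 = (A + c * q) ^ 2 - c * (A + 3 * q - e) ^ 2) :
    F A q x * F A q y = c ^ 3 * (F A q z * F A q w) := by
  have hp : 4 * (x * y) = 4 * (c * (z * w) + 2 * c * q ^ 2 - q * (A + 2 * q)) := by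
    have e1 : 4 * (x * y) = (x + y) ^ 2 - (x - y) ^ 2 := by ring
    have e2 : 4 * (c * (z * w)) = c * (z + w) ^ 2 - c * (z - w) ^ 2 := by ring
    rw [h1] at e1
    rw [h2] at e2
    subst hq
    linear_combination e1 - e2 - h3
  have hp' : x * y = c * (z * w) + 2 * c * q ^ 2 - q * (A + 2 * q) := by
    have := mul_left_cancel₀ (by norm_num : (4:ℤ) ≠ 0) hp
    exact this
  rw [F_mul_F, F_mul_F, hp', h1, h2]
  subst hq
  unfold Phi
  ring

/-- second Pell identity (the case `1/c`) -/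
lemma pell_identity' {A q c e x y z w : ℤ} (hq : q = c * e)
    (h1 : x + y = A - e) (h2 : z + w = A + q + c * q)
    (h3 : (z - w) ^ 2 - c * (x - y) ^ 2 = (A + 3 * q - c * q) ^ 2 - c * (A + e) ^ 2) :
    F A q z * F A q w = c ^ 3 * (F A q x * F A q y) := by
  have hp : 4 * (z * w) = 4 * (c * (x * y) - 2 * q ^ 2 + c * q * (A + 2 * q)) := by
    have e1 : 4 * (z * w) = (z + w) ^ 2 - (z - w) ^ 2 := by ring
    have e2 : 4 * (c * (x * y)) = c * (x + y) ^ 2 - c * (x - y) ^ 2 := by ring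
    rw [h2] at e1
    rw [h1] at e2
    subst hq
    linear_combination e1 - e2 - h3
  have hp' : z * w = c * (x * y) - 2 * q ^ 2 + c * q * (A + 2 * q) :=
    mul_left_cancel₀ (by norm_num : (4:ℤ) ≠ 0) hp
  rw [F_mul_F, F_mul_F, hp', h1, h2]
  subst hq
  unfold Phi
  ring

end MP648c71.PellCubic
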