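import Mathlib

/-!
Solutions of `U^2 - c V^2 = N` in a fixed residue class, in every window `(Y, K Y]`.
-/

namespace MP648c71.PellCubic

lemma not_isSquare_mul_sq {c M : ℤ} (hM : 0 < M) (h : ¬ IsSquare c) : ¬ IsSquare (c * M ^ 2) := by
  rintro ⟨r, hr⟩
  apply h
  have h1 : M ^ 2 ∣ r ^ 2 := ⟨c, by rw [sq r, ← hr]; ring⟩
  have h2 : M ∣ r := (Int.pow_dvd_pow_iff (by norm_num)).mp h1
  obtain ⟨s, rfl⟩ := h2
  refine ⟨s, ?_⟩
  have h3 : c * M ^ 2 = (s * s) * M ^ 2 := by rw [hr]; ring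
  exact mul_right_cancel₀ (by positivity) h3

lemma pell_unit {c M : ℤ} (hc : 2 ≤ c) (hsq : ¬ IsSquare c) (hM : 0 < M) :
    ∃ a b : ℤ, 1 ≤ b ∧ 2 ≤ a ∧ a ^ 2 - c * b ^ 2 = 1 ∧ M ∣ a - 1 ∧ M ∣ b := by
  obtain ⟨x, y, hxy, hy⟩ := Pell.exists_of_not_isSquare (d := c * M ^ 2) (by positivity)
    (not_isSquare_mul_sq hM hsq)
  have hx : x ≠ 0 := by
    rintro rfl
    have : 0 ≤ c * M ^ 2 * y ^ 2 := by positivity
    nlinarith
  have hx1 : 1 ≤ |x| := Int.one_le_abs hx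
  have hy1 : 1 ≤ |y| := Int.one_le_abs hy
  have hx2 : |x| ^ 2 = x ^ 2 := sq_abs x
  have hy2 : |y| ^ 2 = y ^ 2 := sq_abs y
  have hy3 : 1 ≤ y ^ 2 := by rw [← hy2]; nlinarith
  refine ⟨1 + 2 * c * M ^ 2 * y ^ 2, 2 * |x| * (M * |y|), ?_, ?_, ?_, ?_, ?_⟩
  · have : 1 ≤ |x| * (M * |y|) := by
      have : 1 ≤ M * |y| := by nlinarith
      nlinarith
    nlinarith
  · have : 1 ≤ c * M ^ 2 * y ^ 2 := by
      have h1 : 1 ≤ M ^ 2 := by nlinarith
      have h2 : 1 ≤ c * M ^ 2 := by nlinarith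
      nlinarith
    nlinarith
  · have e : (2 * |x| * (M * |y|)) ^ 2 = 4 * x ^ 2 * (M ^ 2 * y ^ 2) := by
      rw [← hx2, ← hy2]; ring
    rw [e]
    have hx4 : x ^ 2 = 1 + c * M ^ 2 * y ^ 2 := by linarith
    rw [hx4]; ring
  · exact ⟨2 * c * M * y ^ 2, by ring⟩
  · exact ⟨2 * |x| * |y|, by ring⟩

/-- the orbit -/
def orb (a b c U V : ℤ) : ℕ → ℤ × ℤ
  | 0 => (U, V)
  | k + 1 => (a * (orb a b c U V k).1 + c * b * (orb a b c U V k).2,
      b * (orb a b c U V k).1 + a * (orb a b c U V k).2)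

lemma orb_norm {a b c U V : ℤ} (h : a ^ 2 - c * b ^ 2 = 1) (k : ℕ) :
    (orb a b c U V k).1 ^ 2 - c * (orb a b c U V k).2 ^ 2 = U ^ 2 - c * V ^ 2 := by
  induction k with
  | zero => simp [orb]
  | succ k ih =>
    simp only [orb]
    rw [← ih]
    linear_combination ((orb a b c U V k).1 ^ 2 - c * (orb a b c U V k).2 ^ 2) * h

lemma orb_mod {a b c U V M : ℤ} (ha : M ∣ a - 1) (hb : M ∣ b) (k : ℕ) :
    M ∣ (orb a b c U V k).1 - U ∧ M ∣ (orb a b c U V k).2 - V := by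
  induction k with
  | zero => simp [orb]
  | succ k ih =>
    obtain ⟨α, hα⟩ := ha
    obtain ⟨β, hβ⟩ := hb
    obtain ⟨⟨u, hu⟩, ⟨v, hv⟩⟩ := ih
    simp only [orb]
    constructor
    · refine ⟨α * (orb a b c U V k).1 + u + c * β * (orb a b c U V k).2, ?_⟩
      linear_combination (orb a b c U V k).1 * hα + hu + c * (orb a b c U V k).2 * hβ
    · refine ⟨β * (orb a b c U V k).1 + α * (orb a b c U V k).2 + v, ?_⟩
      linear_combination (orb a b c U V k).2 * hα + hv + (orb a b c U V k).1 * hβ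

lemma orb_plus {a b c U V : ℤ} (hc : 0 ≤ c) (k : ℕ) :
    ((orb a b c U V k).1 : ℝ) + Real.sqrt c * (orb a b c U V k).2
      = (U + Real.sqrt c * V) * (a + Real.sqrt c * b) ^ k := by
  have hs : Real.sqrt (c:ℝ) * Real.sqrt c = c := Real.mul_self_sqrt (by exact_mod_cast hc)
  induction k with
  | zero => simp [orb]
  | succ k ih =>
    simp only [orb]
    rw [pow_succ, ← mul_assoc, ← ih]
    push_cast
    linear_combination (-(orb a b c U V k).2 * b : ℝ) * hs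

lemma orb_minus {a b c U V : ℤ} (hc : 0 ≤ c) (k : ℕ) :
    ((orb a b c U V k).1 : ℝ) - Real.sqrt c * (orb a b c U V k).2
      = (U - Real.sqrt c * V) * (a - Real.sqrt c * b) ^ k := by
  have hs : Real.sqrt (c:ℝ) * Real.sqrt c = c := Real.mul_self_sqrt (by exact_mod_cast hc)
  induction k with
  | zero => simp [orb]
  | succ k ih =>
    simp only [orb]
    rw [pow_succ, ← mul_assoc, ← ih]
    push_cast
    linear_combination (-(orb a b c U V k).2 * b : ℝ) * hs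

lemma orb_pos {a b c U V : ℤ} (hc : 2 ≤ c) (hb : 1 ≤ b) (ha : 2 ≤ a)
    (h : a ^ 2 - c * b ^ 2 = 1) (h0 : 0 < (U:ℝ) + Real.sqrt c * V) :
    ∃ k, 0 < (orb a b c U V k).1 ∧ 0 < (orb a b c U V k).2 := by
  have hc' : (0:ℝ) < c := by exact_mod_cast (by omega : 0 < c)
  have hsp : 0 < Real.sqrt c := Real.sqrt_pos.mpr hc'
  have hs : Real.sqrt (c:ℝ) * Real.sqrt c = c := Real.mul_self_sqrt hc'.le
  have haR : (2:ℝ) ≤ a := by exact_mod_cast ha
  have hbR : (1:ℝ) ≤ b := by exact_mod_cast hb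
  set η : ℝ := a + Real.sqrt c * b with hη
  set η' : ℝ := a - Real.sqrt c * b with hη'
  have hη1 : 1 < η := by
    have : 0 < Real.sqrt c * b := by positivity
    linarith
  have hprod : η * η' = 1 := by
    have hR : (a:ℝ) ^ 2 - c * b ^ 2 = 1 := by exact_mod_cast h
    rw [hη, hη']
    linear_combination hR - (b:ℝ) ^ 2 * hs
  have hη'pos : 0 < η' := by
    by_contra hcon
    push Not at hcon
    nlinarith
  have hη'1 : η' ≤ 1 := by nlinarith
  obtain ⟨k, hk⟩ := pow_unbounded_of_one_lt (|(U:ℝ) - Real.sqrt c * V| / (U + Real.sqrt c * V)) hη1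
  refine ⟨k, ?_⟩
  have h1 := orb_plus (a := a) (b := b) (U := U) (V := V) (c := c) (by omega) k
  have h2 := orb_minus (a := a) (b := b) (U := U) (V := V) (c := c) (by omega) k
  rw [← hη] at h1
  rw [← hη'] at h2
  rw [div_lt_iff₀ h0] at hk
  have hpk : 0 ≤ η' ^ k := by positivity
  have hpk1 : η' ^ k ≤ 1 := pow_le_one₀ hη'pos.le hη'1
  have habs : |((orb a b c U V k).1 : ℝ) - Real.sqrt c * (orb a b c U V k).2|
      ≤ |(U:ℝ) - Real.sqrt c * V| := by
    rw [h2, abs_mul, abs_of_nonneg hpk]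
    exact mul_le_of_le_one_right (abs_nonneg _) hpk1
  have hbig : |(U:ℝ) - Real.sqrt c * V| < ((orb a b c U V k).1 : ℝ)
      + Real.sqrt c * (orb a b c U V k).2 := by
    rw [h1]; linarith
  have habs' := abs_le.mp habs
  constructor
  · have : (0:ℝ) < (orb a b c U V k).1 := by linarith
    exact_mod_cast this
  · have : (0:ℝ) < Real.sqrt c * (orb a b c U V k).2 := by linarith
    have := (pos_iff_pos_of_mul_pos this).mp hsp
    exact_mod_cast this

theorem pell_window {c M U0 V0 : ℤ} (hc : 2 ≤ c) (hsq : ¬ IsSquare c) (hM : 0 < M)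
    (h0 : 0 < (U0:ℝ) + Real.sqrt c * V0) :
    ∃ K : ℤ, 1 ≤ K ∧ ∀ Y : ℤ, K ≤ Y → ∃ U V : ℤ, Y < U ∧ U ≤ K * Y ∧ Y < V ∧ V ≤ K * Y ∧
      M ∣ U - U0 ∧ M ∣ V - V0 ∧ U ^ 2 - c * V ^ 2 = U0 ^ 2 - c * V0 ^ 2 := by
  obtain ⟨a, b, hb, ha, hab, haM, hbM⟩ := pell_unit hc hsq hM
  obtain ⟨k0, hk1, hk2⟩ := orb_pos hc hb ha hab h0
  set o := orb a b c U0 V0 with ho
  -- positivity along the orbit
  have hpos : ∀ j, 0 < (o (k0 + j)).1 ∧ 0 < (o (k0 + j)).2 := by
    intro j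
    induction j with
    | zero => exact ⟨hk1, hk2⟩
    | succ j ih =>
      have e1 : (o (k0 + (j + 1))).1 = a * (o (k0 + j)).1 + c * b * (o (k0 + j)).2 := rfl
      have e2 : (o (k0 + (j + 1))).2 = b * (o (k0 + j)).1 + a * (o (k0 + j)).2 := rfl
      rw [e1, e2]
      obtain ⟨i1, i2⟩ := ih
      constructor <;> positivity
  -- `m j` = sum of coordinates
  let m : ℕ → ℤ := fun j => (o (k0 + 1 + j)).1 + (o (k0 + 1 + j)).2
  have hpos' : ∀ j, 0 < (o (k0 + 1 + j)).1 ∧ 0 < (o (k0 + 1 + j)).2 := by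
    intro j
    have := hpos (1 + j)
    rwa [← add_assoc] at this
  set K1 : ℤ := a + c * b with hK1
  have hK1pos : 2 ≤ K1 := by nlinarith
  have hcomp : ∀ j, m j ≤ K1 * (o (k0 + 1 + j)).1 ∧ m j ≤ K1 * (o (k0 + 1 + j)).2 := by
    intro j
    have hp := hpos j
    have e0 : k0 + 1 + j = (k0 + j) + 1 := by ring
    have e1 : (o (k0 + 1 + j)).1 = a * (o (k0 + j)).1 + c * b * (o (k0 + j)).2 := by
      rw [e0]; rfl
    have e2 : (o (k0 + 1 + j)).2 = b * (o (k0 + j)).1 + a * (o (k0 + j)).2 := by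
      rw [e0]; rfl
    obtain ⟨i1, i2⟩ := hp
    simp only [m]
    have hcb : 1 ≤ c * b := by nlinarith
    have hs : (o (k0 + 1 + j)).1 + (o (k0 + 1 + j)).2
        ≤ K1 * ((o (k0 + j)).1 + (o (k0 + j)).2) := by
      rw [e1, e2, hK1]
      nlinarith [mul_le_mul_of_nonneg_right (show b ≤ c * b by nlinarith) i1.le]
    constructor
    · refine hs.trans ?_
      apply mul_le_mul_of_nonneg_left _ (by omega)
      rw [e1]
      nlinarith
    · refine hs.trans ?_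
      apply mul_le_mul_of_nonneg_left _ (by omega)
      rw [e2]
      nlinarith
  have hstep : ∀ j, m (j + 1) ≤ K1 * m j := by
    intro j
    obtain ⟨i1, i2⟩ := hpos' j
    have e1 : (o (k0 + 1 + (j + 1))).1
        = a * (o (k0 + 1 + j)).1 + c * b * (o (k0 + 1 + j)).2 := rfl
    have e2 : (o (k0 + 1 + (j + 1))).2
        = b * (o (k0 + 1 + j)).1 + a * (o (k0 + 1 + j)).2 := rfl
    simp only [m]
    rw [e1, e2, hK1]
    nlinarith [mul_le_mul_of_nonneg_right (show b ≤ c * b by nlinarith) i1.le]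
  have hgrow : ∀ j, m j + 1 ≤ m (j + 1) := by
    intro j
    obtain ⟨i1, i2⟩ := hpos' j
    have e1 : (o (k0 + 1 + (j + 1))).1
        = a * (o (k0 + 1 + j)).1 + c * b * (o (k0 + 1 + j)).2 := rfl
    have e2 : (o (k0 + 1 + (j + 1))).2
        = b * (o (k0 + 1 + j)).1 + a * (o (k0 + 1 + j)).2 := rfl
    simp only [m]
    rw [e1, e2]
    have hcb : 1 ≤ c * b := by nlinarith
    nlinarith
  have hunb : ∀ j : ℕ, (j : ℤ) ≤ m j := by
    intro j
    induction j with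
    | zero =>
      obtain ⟨i1, i2⟩ := hpos' 0
      simp only [m]
      push_cast
      omega
    | succ j ih =>
      have := hgrow j
      push_cast
      omega
  have hm0 : 1 ≤ m 0 := by
    obtain ⟨i1, i2⟩ := hpos' 0
    simp only [m]
    omega
  refine ⟨K1 ^ 2 * m 0, by nlinarith [mul_pos (show (0:ℤ) < K1 by omega) (show (0:ℤ) < K1 by omega)], ?_⟩
  intro Y hY
  have hex : ∃ j, K1 * Y < m j := by
    refine ⟨(K1 * Y).toNat + 1, ?_⟩
    have := hunb ((K1 * Y).toNat + 1)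
    push_cast at this
    have h2 : K1 * Y ≤ ((K1 * Y).toNat : ℤ) := Int.self_le_toNat _
    omega
  classical
  have hK1sq : 4 ≤ K1 ^ 2 := by nlinarith
  have hYpos : m 0 ≤ Y := by nlinarith
  have hY0 : 0 < Y := by omega
  have hj := Nat.find_spec hex
  set j := Nat.find hex with hjdef
  have hj0 : j ≠ 0 := by
    intro h
    rw [h] at hj
    nlinarith
  obtain ⟨i, hi⟩ := Nat.exists_eq_succ_of_ne_zero hj0
  have hi' : m i ≤ K1 * Y := by
    have := Nat.find_min hex (m := i) (by rw [← hjdef]; omega)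
    omega
  have hmj : m j ≤ K1 ^ 2 * Y := by
    rw [hi]
    calc m (i + 1) ≤ K1 * m i := hstep i
      _ ≤ K1 * (K1 * Y) := by apply mul_le_mul_of_nonneg_left hi' (by omega)
      _ = K1 ^ 2 * Y := by ring
  obtain ⟨i1, i2⟩ := hpos' j
  obtain ⟨c1, c2⟩ := hcomp j
  have hKY : K1 ^ 2 * Y ≤ K1 ^ 2 * m 0 * Y := by nlinarith [mul_pos (show (0:ℤ) < K1 ^ 2 by omega) hY0]
  have hsum : m j = (o (k0 + 1 + j)).1 + (o (k0 + 1 + j)).2 := rfl
  obtain ⟨m1, m2⟩ := orb_mod (c := c) (U := U0) (V := V0) haM hbM (k0 + 1 + j)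
  refine ⟨(o (k0 + 1 + j)).1, (o (k0 + 1 + j)).2, ?_, ?_, ?_, ?_, m1, m2, ?_⟩
  · by_contra hcon
    push Not at hcon
    have : K1 * (o (k0 + 1 + j)).1 ≤ K1 * Y := mul_le_mul_of_nonneg_left hcon (by omega)
    omega
  · omega
  · by_contra hcon
    push Not at hcon
    have : K1 * (o (k0 + 1 + j)).2 ≤ K1 * Y := mul_le_mul_of_nonneg_left hcon (by omega)
    omega
  · omega
  · exact orb_norm hab _

end MP648c71.PellCubic
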