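import Pool.Agent.Lib.MP_648c71_nt.PellCubicLib
import Pool.Agent.Lib.MP_648c71_nt.PellCubicPell

namespace MP648c71.PellCubic

lemma lam_pow_three {c : ℤ} (hc : c ≠ 0) : lam (c ^ 3) = lam c := by
  have : c ^ 3 = c * (c * c) := by ring
  rw [this, lam_mul hc (mul_ne_zero hc hc), lam_mul hc hc, lam_mul_self, mul_one]

/-- the two ranges attached to a scale `Y` -/
def InRange (C Y n : ℤ) : Prop := (Y < n ∧ n ≤ C * Y) ∨ (Y ^ 2 < n ∧ n ≤ C * Y ^ 2)

lemma neg_side {A q C Y t y B E : ℤ} (hq : 1 ≤ q)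
    (H : ∀ n : ℤ, InRange C Y n → F A q n ≠ 0 → lam (F A q n) = t) (ht : t = 1 ∨ t = -1)
    (hY : 1 ≤ Y) (hE : |A| + q ^ 3 + 3 * q + 2 ≤ E) (hy : E * Y ≤ -y) (hyB : -y ≤ B * Y)
    (hC : B * (B + |A|) + B + |A| + q ≤ C) (hdvd : q ∣ y * (y - A)) :
    lam (F A q y) = lam q := by
  obtain ⟨j, hj⟩ := hdvd
  have hA0 : 0 ≤ |A| := abs_nonneg A
  have hA1 : A ≤ |A| := le_abs_self A
  have hA2 : -|A| ≤ A := neg_abs_le A
  have hq3 : 1 ≤ q ^ 3 := one_le_pow₀ hq
  have hqq : q ≤ q ^ 3 := by nlinarith [mul_pos (show (0:ℤ) < q by omega) (show (0:ℤ) < q by omega)]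
  have hEpos : 1 ≤ E := by omega
  have hEY : E ≤ E * Y := by nlinarith
  have hBY : E ≤ B * Y := by omega
  have hB0 : 0 < B := by
    by_contra h
    push Not at h
    nlinarith
  have hBE : E ≤ B := by
    by_contra h
    push Not at h
    have : B * Y < E * Y := by nlinarith
    omega
  have hyneg : q ^ 3 < -y := by omega
  have hFy : F A q y ≠ 0 := F_ne_zero hq (by rw [abs_of_neg (by omega)]; exact hyneg)
  -- x'
  have hEY2 : E * Y ≥ Y + (|A| + q ^ 3 + 3 * q + 1) := by nlinarith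
  have hx1 : Y < A + q - y := by omega
  have hx2 : A + q - y ≤ C * Y := by
    have : (|A| + q + B) * Y ≤ C * Y := by
      apply mul_le_mul_of_nonneg_right _ (by omega)
      nlinarith
    have h3 : |A| + q ≤ (|A| + q) * Y := by nlinarith
    nlinarith
  have hFx : F A q (A + q - y) ≠ 0 := by
    apply F_ne_zero hq
    rw [abs_of_pos (by omega)]
    omega
  -- Q
  have hym : (0:ℤ) ≤ -y := by omega
  have hlow : q * (E * Y ^ 2) ≤ q * j := by
    rw [← hj]
    have h1 : q * Y ≤ -y - |A| := by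
      have : |A| + q * Y ≤ E * Y := by nlinarith
      omega
    have h2 : E * Y * (q * Y) ≤ (-y) * (-y - |A|) :=
      mul_le_mul hy h1 (by positivity) hym
    have h3 : (-y) * (-y - |A|) ≤ y * (y - A) := by nlinarith
    calc q * (E * Y ^ 2) = E * Y * (q * Y) := by ring
      _ ≤ _ := h2.trans h3
  have hjlow : E * Y ^ 2 ≤ j := le_of_mul_le_mul_left hlow (by omega)
  have hYsq : 1 ≤ Y ^ 2 := one_le_pow₀ hY
  have hYY : Y ≤ Y ^ 2 := by nlinarith
  have hj0 : 0 ≤ j := by nlinarith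
  have hjup : j ≤ B * (B + |A|) * Y ^ 2 := by
    have h1 : j ≤ q * j := by nlinarith
    rw [← hj] at h1
    have h2 : y * (y - A) ≤ (-y) * (-y + |A|) := by nlinarith
    have h3 : (-y) * (-y + |A|) ≤ (B * Y) * (B * Y + |A| * Y) := by
      apply mul_le_mul hyB _ (by omega) (by positivity)
      nlinarith
    nlinarith
  have hQ1 : Y ^ 2 < j - y - 2 * q := by nlinarith
  have hQ2 : j - y - 2 * q ≤ C * Y ^ 2 := by
    have h1 : (B * (B + |A|) + B) * Y ^ 2 ≤ C * Y ^ 2 := by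
      apply mul_le_mul_of_nonneg_right _ (by omega)
      omega
    have h2 : B * Y ≤ B * Y ^ 2 := mul_le_mul_of_nonneg_left hYY hB0.le
    nlinarith
  have hQ3 : q ^ 3 < j - y - 2 * q := by
    have : E * 1 ≤ E * Y ^ 2 := mul_le_mul_of_nonneg_left hYsq (by omega)
    omega
  have hFQ : F A q (j - y - 2 * q) ≠ 0 := by
    apply F_ne_zero hq
    rw [abs_of_pos (by omega)]
    exact hQ3
  have e1 := H _ (Or.inl ⟨hx1, hx2⟩) hFx
  have e2 := H _ (Or.inr ⟨hQ1, hQ2⟩) hFQ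
  have hid := quad_identity (A := A) (q := q) (y := y) (j := j) (by rw [hj])
  have h5 := congrArg lam hid
  have hq0 : q ≠ 0 := by omega
  rw [lam_mul (pow_ne_zero 3 hq0) hFQ, lam_neg, lam_mul hFx hFy, lam_pow_three hq0, e1, e2] at h5
  rcases ht with rfl | rfl
  · linarith
  · linarith

/-- **Main scale lemma.** -/
theorem main_scale {A q c sU sV U0 V0 a1 a2 : ℤ} (hq : 1 ≤ q) (hc : 2 ≤ c) (hlc : lam c = -1)
    (hid : ∀ p1 n1 p2 n2 : ℤ, p1 + n1 = sU → p2 + n2 = sV →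
      (p1 - n1) ^ 2 - c * (p2 - n2) ^ 2 = U0 ^ 2 - c * V0 ^ 2 →
      F A q p1 * F A q n1 = c ^ 3 * (F A q p2 * F A q n2))
    (hU : sU - U0 = 2 * a1) (hV : sV - V0 = 2 * a2)
    (h1 : q ∣ a1 * (a1 - A)) (h2 : q ∣ a2 * (a2 - A))
    (h0 : 0 < (U0:ℝ) + Real.sqrt c * V0) :
    ∃ C : ℤ, 1 ≤ C ∧ ∀ Y : ℤ, 1 ≤ Y → ∀ s : ℤ, (s = 1 ∨ s = -1) →
      ∃ n : ℤ, InRange C Y n ∧ F A q n ≠ 0 ∧ lam (F A q n) = s := by
  have hcsq : ¬ IsSquare c := by
    rintro ⟨r, rfl⟩
    rcases eq_or_ne r 0 with rfl | hr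
    · simp at hc
    · rw [lam_mul hr hr, lam_mul_self] at hlc
      norm_num at hlc
  have hq0 : q ≠ 0 := by omega
  have hA0 : 0 ≤ |A| := abs_nonneg A
  obtain ⟨K, hK1, hK⟩ := pell_window (M := 2 * q) hc hcsq (by omega) h0
  -- constants
  set E : ℤ := |A| + q ^ 3 + 3 * q + 2 with hE
  set D : ℤ := |sU| + |sV| with hD
  have hq3 : 1 ≤ q ^ 3 := one_le_pow₀ hq
  have hD0 : 0 ≤ D := by positivity
  have hE1 : 1 ≤ E := by omega
  set L : ℤ := 2 * E + D + K with hL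
  have hL1 : 1 ≤ L := by omega
  set B : ℤ := K * L + D with hB
  have hB1 : 1 ≤ B := by nlinarith
  refine ⟨B * (B + |A|) + B + |A| + q, by nlinarith [mul_nonneg (show (0:ℤ) ≤ B by omega) (show (0:ℤ) ≤ B + |A| by omega)], ?_⟩
  intro Y hY s hs
  by_contra hcon
  push Not at hcon
  -- H
  have H : ∀ n : ℤ, InRange (B * (B + |A|) + B + |A| + q) Y n → F A q n ≠ 0 →
      lam (F A q n) = -s := by
    intro n hn hF
    have := hcon n hn hF
    rcases lam_eq (F A q n) with h | h <;> rcases hs with rfl | rfl <;> omega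
  have ht : -s = 1 ∨ -s = -1 := by omega
  have hKL : K ≤ L * Y :=
    (show K ≤ L by omega).trans (le_mul_of_one_le_right (by omega) hY)
  obtain ⟨U, V, hU1, hU2, hV1, hV2, ⟨u, hu⟩, ⟨v, hv⟩, hN⟩ := hK (L * Y) hKL
  -- the four integers
  set n1 : ℤ := a1 - q * u with hn1
  set p1 : ℤ := sU - n1 with hp1
  set n2 : ℤ := a2 - q * v with hn2
  set p2 : ℤ := sV - n2 with hp2
  have eU : p1 - n1 = U := by rw [hp1, hn1]; linarith
  have eV : p2 - n2 = V := by rw [hp2, hn2]; linarith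
  have hrel := hid p1 n1 p2 n2 (by rw [hp1]; ring) (by rw [hp2]; ring) (by rw [eU, eV, hN])
  have hsU := abs_le.mp (le_refl |sU|)
  have hsV := abs_le.mp (le_refl |sV|)
  have hsU0 : 0 ≤ |sU| := abs_nonneg _
  have hsV0 : 0 ≤ |sV| := abs_nonneg _
  -- doubled sizes
  have d1 : 2 * p1 = sU + U := by linarith
  have d2 : 2 * n1 = sU - U := by linarith
  have d3 : 2 * p2 = sV + V := by linarith
  have d4 : 2 * n2 = sV - V := by linarith
  have hLY : L * Y = 2 * (E * Y) + D * Y + K * Y := by rw [hL]; ring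
  have hDY : D ≤ D * Y := le_mul_of_one_le_right hD0 hY
  have hKY0 : 0 < K * Y := by positivity
  have hBY : B * Y = K * (L * Y) + D * Y := by rw [hB]; ring
  have hKLY : 0 < K * (L * Y) := by positivity
  have hp1l : E * Y ≤ p1 := by omega
  have hn1l : E * Y ≤ -n1 := by omega
  have hp2l : E * Y ≤ p2 := by omega
  have hn2l : E * Y ≤ -n2 := by omega
  have hp1u : p1 ≤ B * Y := by omega
  have hn1u : -n1 ≤ B * Y := by omega
  have hp2u : p2 ≤ B * Y := by omega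
  have hn2u : -n2 ≤ B * Y := by omega
  have g1 : q ∣ n1 * (n1 - A) := by
    obtain ⟨w, hw⟩ := h1
    refine ⟨w - u * (2 * a1 - A) + q * u ^ 2, ?_⟩
    rw [hn1]
    linear_combination hw
  have g2 : q ∣ n2 * (n2 - A) := by
    obtain ⟨w, hw⟩ := h2
    refine ⟨w - v * (2 * a2 - A) + q * v ^ 2, ?_⟩
    rw [hn2]
    linear_combination hw
  have l1 := neg_side hq H ht hY (le_of_eq hE.symm) hn1l hn1u le_rfl g1
  have l2 := neg_side hq H ht hY (le_of_eq hE.symm) hn2l hn2u le_rfl g2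
  have hEY : Y + (E - 1) ≤ E * Y := by
    have := mul_nonneg (show (0:ℤ) ≤ E - 1 by omega) (show (0:ℤ) ≤ Y - 1 by omega)
    linarith
  have hBC : B * Y ≤ (B * (B + |A|) + B + |A| + q) * Y := by
    apply mul_le_mul_of_nonneg_right _ (by omega)
    have := mul_nonneg (show (0:ℤ) ≤ B by omega) (show (0:ℤ) ≤ B + |A| by omega)
    omega
  have hE3 : q ^ 3 + 2 ≤ E := by omega
  have hEY1 : E ≤ E * Y := le_mul_of_one_le_right (by omega) hY
  have f1 : F A q p1 ≠ 0 := F_ne_zero hq (by rw [abs_of_pos (by omega)]; omega)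
  have f2 : F A q p2 ≠ 0 := F_ne_zero hq (by rw [abs_of_pos (by omega)]; omega)
  have f3 : F A q n1 ≠ 0 := F_ne_zero hq (by rw [abs_of_neg (by omega)]; omega)
  have f4 : F A q n2 ≠ 0 := F_ne_zero hq (by rw [abs_of_neg (by omega)]; omega)
  have k1 := H p1 (Or.inl ⟨by omega, by omega⟩) f1
  have k2 := H p2 (Or.inl ⟨by omega, by omega⟩) f2
  have h5 := congrArg lam hrel
  have hc0 : c ≠ 0 := by omega
  rw [lam_mul f1 f3, lam_mul (pow_ne_zero 3 hc0) (mul_ne_zero f2 f4), lam_mul f2 f4,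
    lam_pow_three hc0, l1, l2, k1, k2, hlc] at h5
  have hqs := lam_mul_self q
  rcases lam_eq q with h | h <;> rcases hs with rfl | rfl <;> rw [h] at h5 <;> omega

end MP648c71.PellCubic
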