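import Pool.Agent.Lib.MP_648c71_nt.PellCubicMain

/-!
The third Pell identity: `-v^3 f(x) f(y) = f(z) f(w)`.
-/

namespace MP648c71.PellCubic

lemma third_identity {A q v e x z w : ℤ} (hqe : q = v * e) (h1 : z + w = A + v * x)
    (h2 : z * w = -v * x ^ 2 + (A * v + q * v + q) * x - A * q - 2 * q ^ 2 + v * q ^ 2) :
    -(v ^ 3 * (F A q x * F A q (x - q - e))) = F A q z * F A q w := by
  rw [F_mul_F A q z w, h1, h2]
  subst hqe
  unfold F Phi
  ring

lemma third_conic {A q v x z w : ℤ} (hv : 1 ≤ v) (h1 : z + w = A + v * x)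
    (h3 : (v * (v + 4) * x - (A * v + 2 * q * (v + 1))) ^ 2 - v * (v + 4) * (z - w) ^ 2
      = (q * (v ^ 2 + 2 * v - 2) - A * v) ^ 2 - v * (v + 4) * (A + (2 - v) * q) ^ 2) :
    z * w = -v * x ^ 2 + (A * v + q * v + q) * x - A * q - 2 * q ^ 2 + v * q ^ 2 := by
  have e1 : 4 * (z * w) = (z + w) ^ 2 - (z - w) ^ 2 := by ring
  rw [h1] at e1
  have e2 : (4 * (v * (v + 4))) * (z * w) = (4 * (v * (v + 4))) *
      (-v * x ^ 2 + (A * v + q * v + q) * x - A * q - 2 * q ^ 2 + v * q ^ 2) := by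
    linear_combination (v * (v + 4)) * e1 + h3
  exact mul_left_cancel₀ (by positivity) e2

lemma not_isSquare_third {v : ℤ} (hv : 1 ≤ v) : ¬ IsSquare (v * (v + 4)) := by
  rintro ⟨r, hr⟩
  have hr' : v * (v + 4) = |r| * |r| := by rw [abs_mul_abs_self]; exact hr
  have h0 : 0 ≤ |r| := abs_nonneg r
  rcases lt_or_ge (v + 1) |r| with h | h
  · have : v + 2 ≤ |r| := by omega
    nlinarith
  · nlinarith

/-- the initial point lies on the right side, for every `A` -/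
lemma third_start {A q v : ℤ} (hq : 1 ≤ q) (hv : 1 ≤ v) :
    0 < ((q * (v ^ 2 + 2 * v - 2) - A * v : ℤ) : ℝ)
      + Real.sqrt ((v * (v + 4) : ℤ) : ℝ) * ((|A + (2 - v) * q| : ℤ) : ℝ) := by
  set r : ℝ := Real.sqrt ((v * (v + 4) : ℤ) : ℝ) with hr
  have hvR : (1:ℝ) ≤ v := by exact_mod_cast hv
  have hqR : (1:ℝ) ≤ q := by exact_mod_cast hq
  have hrr : r * r = v * (v + 4) := by
    rw [hr, Real.mul_self_sqrt (by push_cast; positivity)]
    push_cast; ring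
  have hr0 : 0 ≤ r := Real.sqrt_nonneg _
  have hr1 : v + 1 < r := by nlinarith
  by_cases hT : 0 < q * (v ^ 2 + 2 * v - 2) - A * v
  · have : (0:ℝ) < ((q * (v ^ 2 + 2 * v - 2) - A * v : ℤ) : ℝ) := by exact_mod_cast hT
    have h2 : (0:ℝ) ≤ r * ((|A + (2 - v) * q| : ℤ) : ℝ) := by positivity
    linarith
  · push Not at hT
    -- A v ≥ q (v^2 + 2 v - 2)
    have hAv : q * (v ^ 2 + 2 * v - 2) ≤ A * v := by linarith
    have hqv : 1 ≤ q * v := by nlinarith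
    have hA : 0 < A + (2 - v) * q := by
      have h1 : 0 < (A + (2 - v) * q) * v := by
        have : (A + (2 - v) * q) * v = A * v - q * (v ^ 2 - 2 * v) := by ring
        rw [this]
        have : q * (v ^ 2 + 2 * v - 2) - q * (v ^ 2 - 2 * v) = q * (4 * v - 2) := by ring
        nlinarith
      exact lt_of_mul_lt_mul_right (a := v) (by linarith) (by omega)
    rw [abs_of_pos hA]
    have hAR : (0:ℝ) < ((A + (2 - v) * q : ℤ) : ℝ) := by exact_mod_cast hA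
    have h3 : ((v:ℝ) + 1) * ((A + (2 - v) * q : ℤ) : ℝ) ≤ r * ((A + (2 - v) * q : ℤ) : ℝ) :=
      mul_le_mul_of_nonneg_right hr1.le hAR.le
    have h4 : (0:ℤ) < (q * (v ^ 2 + 2 * v - 2) - A * v) + (v + 1) * (A + (2 - v) * q) := by
      have e : (q * (v ^ 2 + 2 * v - 2) - A * v) + (v + 1) * (A + (2 - v) * q)
          = A + 3 * (q * v) := by ring
      rw [e]
      have h5 : 0 < A * v + 3 * (q * v) * v := by nlinarith [mul_pos (show (0:ℤ) < q * v by omega) (show (0:ℤ) < v by omega)]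
      have h6 : 0 < (A + 3 * (q * v)) * v := by nlinarith
      exact lt_of_mul_lt_mul_right (a := v) (by linarith) (by omega)
    have h4R : (0:ℝ) < ((q * (v ^ 2 + 2 * v - 2) - A * v : ℤ) : ℝ)
        + ((v:ℝ) + 1) * ((A + (2 - v) * q : ℤ) : ℝ) := by exact_mod_cast h4
    linarith



lemma size_x {D K b T x B Z : ℤ} (hD : 1 ≤ D) (hB1 : B ≤ b) (hB2 : -b ≤ B)
    (hT1 : Z < T) (hT2 : T ≤ K * Z) (hDx : D * x = T + B) (hZ1 : 2 * b ≤ Z) :
    Z ≤ 2 * D * x ∧ D * x ≤ K * Z + b ∧ 1 ≤ x := by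
  have h1 : Z ≤ 2 * D * x := by
    have : 2 * D * x = 2 * (D * x) := by ring
    omega
  refine ⟨h1, by omega, ?_⟩
  by_contra h
  push Not at h
  have : D * x ≤ 0 := by nlinarith
  omega

lemma size_low {D Z J x : ℤ} (hD : 1 ≤ D) (h1 : Z ≤ 2 * D * x) (h2 : 2 * D * J ≤ Z) : J ≤ x := by
  have : 2 * D * J ≤ 2 * D * x := h2.trans h1
  exact le_of_mul_le_mul_left this (by omega)

lemma size_mul {v x g c1 c2 p n : ℤ} (hv : 1 ≤ v) (hg : 0 ≤ g) (hx : 2 * g + 2 ≤ x)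
    (hc1 : c1 ≤ g) (hprod : p * n = -v * x ^ 2 + c1 * x + c2)
    (hc2' : c2 ≤ g) : x ^ 2 ≤ 2 * (p * (-n)) := by
  have h1 : c1 * x ≤ g * x := mul_le_mul_of_nonneg_right hc1 (by omega)
  have h2 : 0 ≤ (x - (2 * g + 2)) * x := mul_nonneg (by omega) (by omega)
  have h3 : x ^ 2 ≤ v * x ^ 2 := le_mul_of_one_le_left (by positivity) hv
  have h4 : p * (-n) = v * x ^ 2 - c1 * x - c2 := by linarith
  have h5 : (x - (2 * g + 2)) * x = x ^ 2 - 2 * (g * x) - 2 * x := by ring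
  rw [h4]
  linarith

lemma size_n {D Z G x p n : ℤ} (hZ : 1 ≤ Z) (h1 : Z ≤ 2 * D * x)
    (h2 : x ^ 2 ≤ 2 * (p * (-n))) (hp : 2 * p ≤ G * Z) (hp0 : 0 < p) (hx : 1 ≤ x) :
    Z ≤ 4 * D ^ 2 * G * (-n) := by
  have hn0 : 0 < -n := by
    by_contra hcon
    push Not at hcon
    have h3 : p * (-n) ≤ 0 := mul_nonpos_of_nonneg_of_nonpos hp0.le hcon
    have h4 : 1 ≤ x ^ 2 := one_le_pow₀ hx
    linarith
  have h3 : Z ^ 2 ≤ 4 * D ^ 2 * x ^ 2 := by
    have : Z ^ 2 ≤ (2 * D * x) ^ 2 := pow_le_pow_left₀ (by omega) h1 2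
    calc Z ^ 2 ≤ (2 * D * x) ^ 2 := this
      _ = 4 * D ^ 2 * x ^ 2 := by ring
  have h4 : 4 * D ^ 2 * x ^ 2 ≤ 4 * D ^ 2 * (2 * (p * (-n))) :=
    mul_le_mul_of_nonneg_left h2 (by positivity)
  have h5 : 2 * (p * (-n)) ≤ G * Z * (-n) := by
    have := mul_le_mul_of_nonneg_right hp hn0.le
    linarith
  have h6 : 4 * D ^ 2 * (2 * (p * (-n))) ≤ 4 * D ^ 2 * (G * Z * (-n)) :=
    mul_le_mul_of_nonneg_left h5 (by positivity)
  have h7 : Z * Z ≤ (4 * D ^ 2 * G * (-n)) * Z := by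
    calc Z * Z = Z ^ 2 := by ring
      _ ≤ 4 * D ^ 2 * (G * Z * (-n)) := h3.trans (h4.trans h6)
      _ = _ := by ring
  exact le_of_mul_le_mul_right h7 (by omega)

lemma size_S {v x A a K b Z : ℤ} (hv : 1 ≤ v) (hA1 : A ≤ a) (hx : x ≤ K * Z + b)
    (ha : 0 ≤ a) (hb : 0 ≤ b) (hZ : 1 ≤ Z) : A + v * x ≤ (a + v * K + v * b) * Z := by
  have h1 : v * x ≤ v * (K * Z + b) := mul_le_mul_of_nonneg_left hx (by omega)
  have h2 : a ≤ a * Z := le_mul_of_one_le_right ha hZ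
  have h3 : v * b ≤ v * b * Z := le_mul_of_one_le_right (by positivity) hZ
  have e : (a + v * K + v * b) * Z = a * Z + v * (K * Z + b) + (v * b * Z - v * b) := by ring
  rw [e]
  linarith

/-- points on the third conic, all scales -/
lemma geom {A q v e : ℤ} (hq : 1 ≤ q) (hv : 1 ≤ v) (hqe : q = v * e) :
    ∃ W K2 : ℤ, 1 ≤ W ∧ 1 ≤ K2 ∧ ∀ Z : ℤ, K2 ≤ Z → ∃ x p n : ℤ,
      (Z ≤ W * x ∧ Z ≤ W * p ∧ Z ≤ W * (-n)) ∧ (x ≤ K2 * Z ∧ p ≤ K2 * Z ∧ -n ≤ K2 * Z) ∧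
      q ∣ n * (n - A) ∧ -(v ^ 3 * (F A q x * F A q (x - q - e))) = F A q p * F A q n := by
  have hD5 : 5 ≤ v * (v + 4) := by nlinarith
  obtain ⟨K, hK1, hK⟩ := pell_window (c := v * (v + 4)) (M := 2 * q * (v * (v + 4)))
    (U0 := q * (v ^ 2 + 2 * v - 2) - A * v)
    (V0 := |A + (2 - v) * q|) (by omega) (not_isSquare_third hv) (by positivity)
    (third_start hq hv)
  obtain ⟨D, hD⟩ : ∃ D, D = v * (v + 4) := ⟨_, rfl⟩
  rw [← hD] at hK hD5
  obtain ⟨b, hb⟩ : ∃ b, b = |A * v + 2 * q * (v + 1)| := ⟨_, rfl⟩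
  have hb0 : 0 ≤ b := by rw [hb]; exact abs_nonneg _
  have hb1 : A * v + 2 * q * (v + 1) ≤ b := by rw [hb]; exact le_abs_self _
  have hb2 : -b ≤ A * v + 2 * q * (v + 1) := by rw [hb]; exact neg_abs_le _
  obtain ⟨g, hg⟩ : ∃ g, g = |A * v + q * v + q| + |-A * q - 2 * q ^ 2 + v * q ^ 2| := ⟨_, rfl⟩
  have hg1 := abs_nonneg (A * v + q * v + q)
  have hg2 := abs_nonneg (-A * q - 2 * q ^ 2 + v * q ^ 2)
  have hc1 : A * v + q * v + q ≤ g := by
    have := le_abs_self (A * v + q * v + q)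
    linarith
  have hc2' : -A * q - 2 * q ^ 2 + v * q ^ 2 ≤ g := by
    have := le_abs_self (-A * q - 2 * q ^ 2 + v * q ^ 2)
    linarith
  have hg0 : 0 ≤ g := by linarith
  clear hg hg1 hg2 hb
  obtain ⟨a, ha⟩ : ∃ a, a = |A| := ⟨_, rfl⟩
  have ha0 : 0 ≤ a := by rw [ha]; exact abs_nonneg A
  have ha1 : A ≤ a := by rw [ha]; exact le_abs_self A
  have ha2 : -a ≤ A := by rw [ha]; exact neg_abs_le A
  clear ha
  obtain ⟨G, hG⟩ : ∃ G, G = (a + v * K + v * b) + K := ⟨_, rfl⟩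
  have hvK : 0 < v * K := by positivity
  have hvb : 0 ≤ v * b := by positivity
  have hG1 : 1 ≤ G := by linarith
  have hG2 : K ≤ G := by linarith
  have hJ : 0 ≤ 2 * D * (2 * g + 2 + a) := by positivity
  have hDG : 1 ≤ 4 * D ^ 2 * G := by
    have : 0 < 4 * D ^ 2 * G := by positivity
    linarith
  refine ⟨2 * D + 2 + 4 * D ^ 2 * G, K + b + G + 2 * b + 2 * D * (2 * g + 2 + a), by linarith,
    by linarith, ?_⟩
  intro Z hZ
  have hZ1 : 1 ≤ Z := by linarith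
  obtain ⟨T, V, hT1, hT2, hV1, hV2, ⟨t1, ht1⟩, ⟨v1, hv1⟩, hN⟩ := hK Z (by linarith)
  obtain ⟨x, hx⟩ : ∃ x, x = q + 2 * q * t1 := ⟨_, rfl⟩
  have hDx : D * x = T + (A * v + 2 * q * (v + 1)) := by
    rw [hx]
    rw [hD] at ht1 ⊢
    linear_combination -ht1
  obtain ⟨p, n, hpn1, hpn2, hgood⟩ : ∃ p n : ℤ, p + n = A + v * x ∧ p - n = V ∧
      q ∣ n * (n - A) := by
    rcases le_total 0 (A + (2 - v) * q) with h | h
    · rw [abs_of_nonneg h] at hv1
      refine ⟨A + q + q * (v * t1 + D * v1), v * q - q + q * (v * t1 - D * v1), ?_, ?_, ?_⟩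
      · rw [hx]; ring
      · linarith
      · exact ⟨(v - 1 + (v * t1 - D * v1)) * (v * q - q + q * (v * t1 - D * v1) - A), by ring⟩
    · rw [abs_of_nonpos h] at hv1
      refine ⟨v * q - q + q * (v * t1 + D * v1), A + q + q * (v * t1 - D * v1), ?_, ?_, ?_⟩
      · rw [hx]; ring
      · linarith
      · exact ⟨(A + q + q * (v * t1 - D * v1)) * (1 + (v * t1 - D * v1)), by ring⟩
  have hprod : p * n = -v * x ^ 2 + (A * v + q * v + q) * x - A * q - 2 * q ^ 2 + v * q ^ 2 := by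
    apply third_conic hv hpn1
    rw [hpn2, ← hD, hDx]
    have e1 : T + (A * v + 2 * q * (v + 1)) - (A * v + 2 * q * (v + 1)) = T := by ring
    rw [e1, hN, sq_abs]
  have hid := third_identity hqe hpn1 hprod
  clear hx hv1 ht1 hN
  obtain ⟨s1, s2, s3⟩ := size_x (by linarith : 1 ≤ D) hb1 hb2 hT1 hT2 hDx (by linarith)
  have s4 : 2 * g + 2 + a ≤ x := size_low (by linarith : 1 ≤ D) s1 (by linarith)
  have hxup : x ≤ K * Z + b := by
    have : x ≤ D * x := le_mul_of_one_le_left (by linarith) (by linarith)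
    linarith
  have hS := size_S hv ha1 hxup ha0 hb0 hZ1
  have hvx : x ≤ v * x := le_mul_of_one_le_left (by linarith) hv
  have hS0 : 0 < A + v * x := by linarith
  have hp0 : Z ≤ 2 * p := by linarith
  have hpup : 2 * p ≤ G * Z := by
    have e : G * Z = (a + v * K + v * b) * Z + K * Z := by rw [hG]; ring
    linarith
  have hm := size_mul (v := v) (x := x) (g := g) (p := p) (n := n) (c1 := A * v + q * v + q)
    (c2 := -A * q - 2 * q ^ 2 + v * q ^ 2) hv hg0 (by linarith) hc1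
    (by rw [hprod]; ring) hc2'
  have hn := size_n hZ1 s1 hm hpup (by linarith) (by linarith)
  have hnpos : 0 ≤ -n := by
    by_contra hcon
    push Not at hcon
    have : 4 * D ^ 2 * G * (-n) < 0 := mul_neg_of_pos_of_neg (by linarith) hcon
    linarith
  have hnup : -n ≤ K * Z := by linarith
  have hK0 : 0 ≤ K * Z := by positivity
  have hrest : 0 ≤ (b + G + 2 * b + 2 * D * (2 * g + 2 + a)) * Z := by positivity
  have hKZ : K * Z ≤ (K + b + G + 2 * b + 2 * D * (2 * g + 2 + a)) * Z := by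
    have e : (K + b + G + 2 * b + 2 * D * (2 * g + 2 + a)) * Z
      = K * Z + (b + G + 2 * b + 2 * D * (2 * g + 2 + a)) * Z := by ring
    linarith
  refine ⟨x, p, n, ⟨?_, ?_, ?_⟩, ⟨?_, ?_, ?_⟩, hgood, hid⟩
  · have : 0 ≤ (2 + 4 * D ^ 2 * G) * x := by positivity
    linarith
  · have h1 : 0 ≤ (2 * D + 4 * D ^ 2 * G) * p := mul_nonneg (by linarith) (by linarith)
    linarith
  · have h1 : 0 ≤ (2 * D + 2) * (-n) := mul_nonneg (by linarith) hnpos
    linarith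
  · have h1 : b ≤ b * Z := le_mul_of_one_le_right hb0 hZ1
    have h2 : 0 ≤ (G + 2 * b + 2 * D * (2 * g + 2 + a)) * Z := by positivity
    have e : (K + b + G + 2 * b + 2 * D * (2 * g + 2 + a)) * Z
      = K * Z + b * Z + (G + 2 * b + 2 * D * (2 * g + 2 + a)) * Z := by ring
    linarith
  · have h2 : 0 ≤ (K + b + 2 * b + 2 * D * (2 * g + 2 + a)) * Z := by positivity
    have e : (K + b + G + 2 * b + 2 * D * (2 * g + 2 + a)) * Z
      = G * Z + (K + b + 2 * b + 2 * D * (2 * g + 2 + a)) * Z := by ring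
    linarith
  · linarith


/-- If `λ(f(n)) = t` for all `n` in the two ranges, then `λ(v) = t λ(q)` for every divisor `v` of
`q`. -/
theorem rel_v {A q v e : ℤ} (hq : 1 ≤ q) (hv : 1 ≤ v) (hqe : q = v * e) :
    ∃ C : ℤ, 1 ≤ C ∧ ∀ Y : ℤ, 1 ≤ Y → ∀ t : ℤ, (t = 1 ∨ t = -1) →
      (∀ n : ℤ, InRange C Y n → F A q n ≠ 0 → lam (F A q n) = t) → lam v = t * lam q := by
  have he : e ≤ q := by
    have he0 : 1 ≤ e := by
      by_contra h
      push Not at h
      nlinarith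
    nlinarith
  obtain ⟨W, K2, hW, hK2, hgeom⟩ := geom (A := A) hq hv hqe
  obtain ⟨E, hE⟩ : ∃ E, E = |A| + q ^ 3 + 3 * q + 2 := ⟨_, rfl⟩
  have ha0 : 0 ≤ |A| := abs_nonneg A
  have hq3 : 1 ≤ q ^ 3 := one_le_pow₀ hq
  have hE1 : 1 ≤ E := by linarith
  obtain ⟨L, hL⟩ : ∃ L, L = W * (E + 2 * q) + K2 := ⟨_, rfl⟩
  have hWE : 0 < W * (E + 2 * q) := by positivity
  have hL1 : 1 ≤ L := by linarith
  obtain ⟨B, hB⟩ : ∃ B, B = K2 * L := ⟨_, rfl⟩
  have hB1 : 1 ≤ B := by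
    have : 0 < B := by rw [hB]; positivity
    linarith
  have hBB : 0 ≤ B * (B + |A|) := by positivity
  refine ⟨B * (B + |A|) + B + |A| + q, by linarith, ?_⟩
  intro Y hY t ht H
  obtain ⟨x, p, n, ⟨l1, l2, l3⟩, ⟨u1, u2, u3⟩, hgood, hid⟩ := hgeom (L * Y)
    ((show K2 ≤ L by linarith).trans (le_mul_of_one_le_right (by linarith) hY))
  have hLY : W * ((E + 2 * q) * Y) ≤ L * Y := by
    have h1 : 0 ≤ K2 * Y := by positivity
    have e1 : L * Y = W * ((E + 2 * q) * Y) + K2 * Y := by rw [hL]; ring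
    linarith
  have hx : (E + 2 * q) * Y ≤ x := le_of_mul_le_mul_left (hLY.trans l1) (by linarith)
  have hp : (E + 2 * q) * Y ≤ p := le_of_mul_le_mul_left (hLY.trans l2) (by linarith)
  have hn : (E + 2 * q) * Y ≤ -n := le_of_mul_le_mul_left (hLY.trans l3) (by linarith)
  have eB : K2 * (L * Y) = B * Y := by rw [hB]; ring
  rw [eB] at u1 u2 u3
  have e2 : (E + 2 * q) * Y = E * Y + 2 * q * Y := by ring
  have e3 : 2 * q ≤ 2 * q * Y := le_mul_of_one_le_right (by linarith) hY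
  have hEYY : Y + (E - 1) ≤ E * Y := by
    have := mul_nonneg (show (0:ℤ) ≤ E - 1 by linarith) (show (0:ℤ) ≤ Y - 1 by linarith)
    linarith
  have hBC : B * Y ≤ (B * (B + |A|) + B + |A| + q) * Y :=
    mul_le_mul_of_nonneg_right (by linarith) (by linarith)
  have hLn := neg_side hq H ht hY (le_of_eq hE.symm) (by linarith) u3 le_rfl hgood
  have fx : F A q x ≠ 0 := F_ne_zero hq (by rw [abs_of_pos (by linarith)]; linarith)
  have fy : F A q (x - q - e) ≠ 0 := F_ne_zero hq (by rw [abs_of_pos (by linarith)]; linarith)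
  have fp : F A q p ≠ 0 := F_ne_zero hq (by rw [abs_of_pos (by linarith)]; linarith)
  have fn : F A q n ≠ 0 := F_ne_zero hq (by rw [abs_of_neg (by linarith)]; linarith)
  have hq0 : 0 < q := by linarith
  have kx := H x (Or.inl ⟨by linarith, by linarith⟩) fx
  have ky := H (x - q - e) (Or.inl ⟨by linarith, by
    have he0 : 0 ≤ e := by
      by_contra h
      push Not at h
      nlinarith
    linarith⟩) fy
  have kp := H p (Or.inl ⟨by linarith, by linarith⟩) fp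
  have h5 := congrArg lam hid
  have hv0 : v ≠ 0 := by omega
  rw [lam_neg, lam_mul (pow_ne_zero 3 hv0) (mul_ne_zero fx fy), lam_mul fx fy, lam_mul fp fn,
    lam_pow_three hv0, kx, ky, kp, hLn] at h5
  rcases ht with rfl | rfl
  · linarith
  · linarith

/-- The conclusion at all scales. -/
def Scale (A q : ℤ) : Prop :=
  ∃ C : ℤ, 1 ≤ C ∧ ∀ Y : ℤ, 1 ≤ Y → ∀ s : ℤ, (s = 1 ∨ s = -1) →
      ∃ n : ℤ, InRange C Y n ∧ F A q n ≠ 0 ∧ lam (F A q n) = s

lemma lam_prime {p : ℕ} (hp : p.Prime) : lam (p : ℤ) = -1 := by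
  unfold lam
  rw [Int.natAbs_natCast, ArithmeticFunction.cardFactors_apply_prime hp, pow_one]

lemma lam_one : lam 1 = 1 := by
  unfold lam
  simp

lemma InRange.mono {C C' Y n : ℤ} (h : InRange C Y n) (hC : C ≤ C') (hY : 1 ≤ Y) :
    InRange C' Y n := by
  rcases h with ⟨h1, h2⟩ | ⟨h1, h2⟩
  · exact Or.inl ⟨h1, h2.trans (mul_le_mul_of_nonneg_right hC (by omega))⟩
  · exact Or.inr ⟨h1, h2.trans (mul_le_mul_of_nonneg_right hC (by positivity))⟩

/-- **Main theorem at all scales.** -/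
theorem scale_all {A q : ℤ} (hq : 2 ≤ q) : Scale A q := by
  obtain ⟨p, hp, hpq⟩ := Nat.exists_prime_and_dvd (n := q.natAbs) (by omega)
  obtain ⟨e, he⟩ : (p : ℤ) ∣ q := Int.natCast_dvd.mpr hpq
  have hp2 : 1 ≤ (p:ℤ) := by exact_mod_cast hp.one_le
  obtain ⟨C1, hC1, h1⟩ := rel_v (A := A) (v := p) (e := e) (by omega : 1 ≤ q) hp2 he
  obtain ⟨C2, hC2, h2⟩ := rel_v (A := A) (v := 1) (e := q) (by omega : 1 ≤ q) le_rfl (by ring)
  refine ⟨C1 + C2, by omega, ?_⟩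
  intro Y hY s hs
  by_contra hcon
  push Not at hcon
  have H : ∀ n : ℤ, InRange (C1 + C2) Y n → F A q n ≠ 0 → lam (F A q n) = -s := by
    intro n hn hF
    have := hcon n hn hF
    rcases lam_eq (F A q n) with h | h <;> rcases hs with rfl | rfl <;> omega
  have e1 := h1 Y hY (-s) (by omega) (fun n hn => H n (hn.mono (by omega) hY))
  have e2 := h2 Y hY (-s) (by omega) (fun n hn => H n (hn.mono (by omega) hY))
  rw [← e2, lam_prime hp, lam_one] at e1
  norm_num at e1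

end MP648c71.PellCubic
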