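import Mathlib
import Pool.Agent.Lib.MP_648c71_nt.Final
import Pool.Agent.Lib.MP_648c71_nt.BuildPos

/-!
# Monic irreducible quadratic polynomials
-/

namespace Pool.Agent.Lib.MP_648c71_nt

open Filter Topology Polynomial

theorem eq_quadratic {f : Polynomial ℤ} (hm : f.Monic) (hd : f.natDegree = 2) :
    f = X ^ 2 + C (f.coeff 1) * X + C (f.coeff 0) := by
  have h2 : f.coeff 2 = 1 := by rw [← hd]; exact hm.coeff_natDegree
  have h := f.as_sum_range_C_mul_X_pow
  rw [hd] at h
  simp only [Finset.sum_range_succ, Finset.sum_range_zero, zero_add, pow_zero, mul_one, pow_one,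
    h2, C_1, one_mul] at h
  rw [h]
  simp only [coeff_add, coeff_C_mul, coeff_X_pow, coeff_C, coeff_X]
  norm_num
  ring

/-- a monic quadratic polynomial with square discriminant is reducible -/
theorem not_isSquare_disc {f : Polynomial ℤ} (hm : f.Monic) (hd : f.natDegree = 2)
    (hi : Irreducible f) : ¬ IsSquare (f.coeff 1 ^ 2 - 4 * f.coeff 0) := by
  rintro ⟨s, hs⟩
  have hf := eq_quadratic hm hd
  set b := f.coeff 1 with hb
  set c := f.coeff 0 with hc
  have hpar : (2 : ℤ) ∣ b - s := by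
    have h1 : (2 : ℤ) ∣ (b - s) * (b + s) := ⟨2 * c, by linear_combination hs⟩
    rcases Int.prime_two.dvd_mul.mp h1 with h | h
    · exact h
    · have : b - s = b + s - 2 * s := by ring
      rw [this]
      exact dvd_sub h (dvd_mul_right _ _)
  obtain ⟨r, hr⟩ := hpar
  have hbr : b = s + 2 * r := by linarith
  have hcr : c = r * (r + s) := by
    have : 4 * c = 4 * (r * (r + s)) := by rw [hbr] at hs; linear_combination -hs
    linarith
  have hfac : f = (X + C r) * (X + C (r + s)) := by
    have hbC : (C b : ℤ[X]) = C s + 2 * C r := by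
      rw [hbr, C_add, C_mul]; rfl
    rw [hf, hcr, hbC, C_mul, C_add]
    ring
  have := hi.isUnit_or_isUnit hfac
  rcases this with h | h
  · exact not_isUnit_X_add_C r h
  · exact not_isUnit_X_add_C (r + s) h

theorem eval_eq_ff {f : Polynomial ℤ} (hm : f.Monic) (hd : f.natDegree = 2) (t : ℤ) :
    f.eval t = ff (f.coeff 1) (f.coeff 0) t := by
  have h := eq_quadratic hm hd
  set b := f.coeff 1 with hb
  set c := f.coeff 0 with hc
  rw [h]
  simp [ff]

theorem rot_all {b c : ℤ} (hns : ¬ IsSquare (b ^ 2 - 4 * c)) (K : ℕ) :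
    ∃ A c0 K0 : ℝ, 0 < A ∧ 0 < c0 ∧ c0 ≤ 1 ∧ 2 ≤ K0 ∧ ∀ᶠ P : ℕ in atTop, Rot b c K A c0 K0 P := by
  rcases lt_trichotomy (b ^ 2) (4 * c) with h | h | h
  · obtain ⟨A, c0, h1, h2, h3, h4⟩ := build_neg h K
    exact ⟨A, c0, 2, h1, h2, h3, le_rfl, h4⟩
  · exact absurd ⟨0, by linarith⟩ hns
  · exact build_pos h hns K

/-- the identity `f(n) f(n+1) = f(n + f(n))` -/
theorem ff_mul_succ (b c n : ℤ) : ff b c n * ff b c (n + 1) = ff b c (n + ff b c n) := by
  simp only [ff]; ring

/-- indices of sign changes -/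
noncomputable def chS (b c : ℤ) (X : ℤ) : Finset ℤ :=
  (Finset.Icc 1 X).filter (fun n => lam (ff b c n) ≠ lam (ff b c (n + 1)))

theorem exists_change (g : ℤ → ℤ) {s m : ℤ} (hsm : s ≤ m) (h : g s ≠ g m) :
    ∃ t, s ≤ t ∧ t < m ∧ g t ≠ g (t + 1) := by
  by_contra hcon
  push Not at hcon
  apply h
  have key : ∀ j : ℕ, s + j ≤ m → g (s + j) = g s := by
    intro j
    induction j with
    | zero => intro _; simp
    | succ j ih =>
      intro hj
      push_cast at hj ⊢
      rw [← ih (by omega), ← add_assoc]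
      exact (hcon (s + j) (by omega) (by omega)).symm
  have := key (m - s).toNat (by omega)
  rw [← this]
  congr 1
  omega

theorem exists_between (F : ℕ → ℤ) (n0 : ℕ) (m : ℤ) (h0 : F n0 ≤ m) (hF : ∀ n : ℕ, (n : ℤ) ≤ F n ∨ n < n0) :
    ∃ n : ℕ, n0 ≤ n ∧ F n ≤ m ∧ m < F (n + 1) := by
  by_contra hcon
  push Not at hcon
  have key : ∀ n : ℕ, n0 ≤ n → F n ≤ m := by
    intro n hn
    induction n, hn using Nat.le_induction with
    | base => exact h0
    | succ n hn ih => exact hcon n hn ih
  have h1 := key (n0 + m.toNat + 1) (by omega)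
  rcases hF (n0 + m.toNat + 1) with h2 | h2
  · push_cast at h2
    omega
  · omega

theorem neg_le_changes (b c : ℤ) (hns : ¬ IsSquare (b ^ 2 - 4 * c)) (N : ℕ) (W : ℕ)
    (n0 : ℕ) (hn0 : |b| + |c| + 2 ≤ (n0 : ℤ))
    (hW : (4 : ℤ) * N + (|b| + 1) ^ 2 + 4 * |c| ≤ ((W : ℤ) - 1) ^ 2) (hW0 : 1 ≤ W) :
    (negS b c N).card ≤ (n0 + ff b c n0).toNat + 2 * (W + 1) * (chS b c N).card := by
  classical
  set F : ℕ → ℤ := fun n => n + ff b c n with hF
  have hb := abs_nonneg b
  have hc := abs_nonneg c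
  have hb1 := neg_abs_le b
  have hc1 := neg_abs_le c
  have hb2 := le_abs_self b
  have hffpos : ∀ n : ℕ, n0 ≤ n → 0 < ff b c n := by
    intro n hn
    have hn' : (n0 : ℤ) ≤ n := by exact_mod_cast hn
    simp only [ff]
    have e0 : |b| + |c| + 2 ≤ (n : ℤ) := hn0.trans hn'
    have en : (0 : ℤ) ≤ n := by positivity
    have e1 : (|b| + |c| + 2) * (n : ℤ) ≤ n * n := mul_le_mul_of_nonneg_right e0 en
    have e2 : -|b| * (n : ℤ) ≤ b * n := mul_le_mul_of_nonneg_right hb1 en
    have e3 : |c| * 1 ≤ |c| * (n : ℤ) := mul_le_mul_of_nonneg_left (by linarith) hc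
    have e4 := neg_abs_le c
    have e5 : (|b| + |c| + 2) * (n : ℤ) = |b| * n + |c| * n + 2 * n := by ring
    have e6 : -|b| * (n : ℤ) = -(|b| * n) := by ring
    have e7 : (n : ℤ) ^ 2 = n * n := sq _
    rw [e7]
    linarith
  have hsub : negS b c N ⊆ Finset.Ico 1 (F n0) ∪ (chS b c N).biUnion
      (fun t => Finset.Icc t (t + W) ∪ Finset.Icc (t + ff b c t) (t + ff b c t + W)) := by
    intro m hm
    simp only [negS, Finset.mem_filter, Finset.mem_Icc] at hm
    rw [Finset.mem_union, Finset.mem_Ico]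
    rcases lt_or_ge m (F n0) with h | h
    · left; exact ⟨hm.1.1, h⟩
    · right
      obtain ⟨n, hn, h1, h2⟩ := exists_between F n0 m h (by
        intro n
        rcases lt_or_ge n n0 with h | h
        · right; exact h
        · left
          have := hffpos n h
          simp only [hF]; linarith)
      have hpos := hffpos n hn
      have hn' : (n0 : ℤ) ≤ n := by exact_mod_cast hn
      -- width
      have hw : 2 * (n : ℤ) + b + 2 ≤ W := by
        by_contra hcon
        push Not at hcon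
        have e1 : (W : ℤ) - 1 < 2 * n + b + 1 := by linarith
        have e0 : (0 : ℤ) ≤ (W : ℤ) - 1 := by
          have : (1 : ℤ) ≤ W := by exact_mod_cast hW0
          linarith
        have e2 : ((W : ℤ) - 1) ^ 2 < (2 * n + b + 1) ^ 2 :=
          pow_lt_pow_left₀ e1 e0 two_ne_zero
        have e3 : (2 * (n : ℤ) + b + 1) ^ 2 = 4 * F n + (b + 1) ^ 2 - 4 * c := by
          simp only [hF, ff]; ring
        have e4 : (b + 1) ^ 2 ≤ (|b| + 1) ^ 2 := sq_le_sq' (by linarith) (by linarith)
        have e5 : 4 * F n ≤ 4 * N := by linarith [hm.1.2]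
        linarith
      have hF1 : F (n + 1) = F n + (2 * n + b + 2) := by
        simp only [hF, ff]; push_cast; ring
      have hmW : m ≤ F n + W := by rw [hF1] at h2; linarith
      rw [Finset.mem_biUnion]
      by_cases hs : lam (ff b c (F n)) = 1
      · have hne : lam (ff b c (F n)) ≠ lam (ff b c m) := by rw [hs, hm.2]; norm_num
        obtain ⟨t, ht1, ht2, ht3⟩ := exists_change (fun x => lam (ff b c x)) h1 hne
        refine ⟨t, ?_, ?_⟩
        · simp only [chS, Finset.mem_filter, Finset.mem_Icc]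
          have : (0 : ℤ) ≤ n := by positivity
          refine ⟨⟨?_, by linarith [hm.1.2]⟩, ht3⟩
          simp only [hF] at ht1
          linarith
        · rw [Finset.mem_union, Finset.mem_Icc]
          left
          exact ⟨ht2.le, by linarith⟩
      · refine ⟨n, ?_, ?_⟩
        · simp only [chS, Finset.mem_filter, Finset.mem_Icc]
          refine ⟨⟨by linarith, ?_⟩, ?_⟩
          · have := hm.1.2
            simp only [hF] at h1
            linarith
          · intro heq
            apply hs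
            simp only [hF]
            rw [← ff_mul_succ, lam_mul, ← heq]
            exact lam_mul_self (ff_ne_zero hns _)
        · rw [Finset.mem_union, Finset.mem_Icc, Finset.mem_Icc]
          right
          exact ⟨h1, hmW⟩
  calc (negS b c N).card ≤ _ := Finset.card_le_card hsub
    _ ≤ (Finset.Ico 1 (F n0)).card + _ := Finset.card_union_le _ _
    _ ≤ (n0 + ff b c n0).toNat + (chS b c N).card * (2 * (W + 1)) := by
        apply Nat.add_le_add
        · rw [Int.card_Ico]
          simp only [hF]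
          omega
        · apply Finset.card_biUnion_le_card_mul
          intro t _
          refine (Finset.card_union_le _ _).trans ?_
          rw [Int.card_Icc, Int.card_Icc]
          omega
    _ = _ := by ring

theorem changes_lower {b c : ℤ} (hns : ¬ IsSquare (b ^ 2 - 4 * c)) (ε : ℝ) (hε : 0 < ε) :
    ∀ᶠ N : ℕ in atTop, (N : ℝ) ^ (1 / 2 - ε) ≤ (chS b c N).card := by
  -- reduce to small `ε`
  wlog hε1 : ε ≤ 1 / 4 generalizing ε
  · have h := this (1 / 4) (by norm_num) le_rfl
    filter_upwards [h, eventually_ge_atTop 1] with N hN hN1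
    refine le_trans ?_ hN
    apply Real.rpow_le_rpow_of_exponent_le (by exact_mod_cast hN1)
    linarith
  set n0 : ℕ := b.natAbs + c.natAbs + 2 with hn0
  set C0 : ℕ := ((n0 : ℤ) + ff b c n0).toNat with hC0
  set D0 : ℕ := (b.natAbs + 1) ^ 2 + 4 * c.natAbs with hD0
  have hbig : ∀ (y : ℝ), 0 < y → ∀ x : ℝ, ∀ᶠ N : ℕ in atTop, x ≤ (N : ℝ) ^ y := fun y hy x =>
    ((tendsto_rpow_atTop hy).comp tendsto_natCast_atTop_atTop).eventually_ge_atTop x
  filter_upwards [both_signs hns (rot_all hns) (ε / 2) (half_pos hε),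
    hbig (1 - ε / 2) (by linarith) (2 * C0), hbig (ε / 2) (half_pos hε) 20,
    eventually_ge_atTop (D0 + 9)] with N hN h1 h2 h3
  obtain ⟨_, hneg⟩ := hN
  set W : ℕ := Nat.sqrt (4 * N + D0) + 2 with hW
  have hkey := neg_le_changes b c hns N W n0 (by
      rw [← Int.natCast_natAbs, ← Int.natCast_natAbs, hn0]; push_cast; linarith)
    (by
      have h4 := (Nat.lt_succ_sqrt (4 * N + D0)).le
      simp only [Nat.succ_eq_add_one] at h4
      have h5 : ((4 * N + D0 : ℕ) : ℤ) ≤ (((Nat.sqrt (4 * N + D0) + 1) *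
        (Nat.sqrt (4 * N + D0) + 1) : ℕ) : ℤ) := by exact_mod_cast h4
      rw [hD0] at h5
      push_cast at h5
      rw [hW, hD0]
      push_cast
      linarith)
    (by omega)
  have hNr : (1 : ℝ) ≤ N := by
    have : 1 ≤ N := by omega
    exact_mod_cast this
  have hN0 : (0 : ℝ) < N := by linarith
  set S : ℝ := (N : ℝ) ^ (1 / 2 : ℝ) with hS
  have hS0 : 0 < S := by positivity
  have hSS : S * S = N := by
    rw [hS, ← Real.rpow_add hN0]; norm_num
  have hWr : (W : ℝ) + 1 ≤ 5 * S := by
    have h4 : (Nat.sqrt (4 * N + D0) : ℝ) ≤ 3 * S := by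
      have h5 : ((Nat.sqrt (4 * N + D0) * Nat.sqrt (4 * N + D0) : ℕ) : ℝ) ≤ ((4 * N + D0 : ℕ) : ℝ) := by
        exact_mod_cast Nat.sqrt_le (4 * N + D0)
      have h6 : (D0 : ℝ) ≤ N := by
        have : D0 ≤ N := by omega
        exact_mod_cast this
      push_cast at h5
      by_contra hcon
      push Not at hcon
      nlinarith
    have h7 : 3 ≤ S := by
      have : (9 : ℝ) ≤ N := by
        have : 9 ≤ N := by omega
        exact_mod_cast this
      by_contra hcon
      push Not at hcon
      nlinarith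
    rw [hW]; push_cast
    nlinarith
  have hkey' : ((negS b c N).card : ℝ) ≤ C0 + 2 * (W + 1) * (chS b c N).card := by
    exact_mod_cast hkey
  have hch : (0 : ℝ) ≤ (chS b c N).card := Nat.cast_nonneg _
  have h5 : (N : ℝ) ^ (1 - ε / 2) ≤ 20 * S * (chS b c N).card := by
    have h6 : 2 * ((W : ℝ) + 1) * (chS b c N).card ≤ 2 * (5 * S) * (chS b c N).card := by gcongr
    nlinarith
  have h6 : (N : ℝ) ^ (1 - ε / 2) = (N : ℝ) ^ (1 / 2 - ε) * (S * (N : ℝ) ^ (ε / 2)) := by
    rw [hS, ← Real.rpow_add hN0, ← Real.rpow_add hN0]; congr 1; ring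
  rw [h6] at h5
  have h7 : (N : ℝ) ^ (1 / 2 - ε) * (S * 20) ≤ 20 * S * (chS b c N).card := by
    refine le_trans ?_ h5
    gcongr
  have h8 : 0 < 20 * S := by positivity
  apply le_of_mul_le_mul_left _ h8
  linarith

end Pool.Agent.Lib.MP_648c71_nt
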